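import Pool.Agent.Med.Lattice

set_option autoImplicit false

open Finset

namespace Med

open Classical in
/-- admissible indices -/
noncomputable def J (X : ℝ) : Finset (Fin 4 × ℕ × ℕ) :=
  (Finset.univ ×ˢ Finset.range (⌊X⌋₊ + 1) ×ˢ Finset.range (⌊X⌋₊ + 1)).filter
    (fun j => 1 ≤ j.2.1 ∧ (j.2.1 : ℝ) * p1 j.1 + j.2.2 * p2 j.1 ≤ X)

lemma mem_J {X : ℝ} {j : Fin 4 × ℕ × ℕ} :
    j ∈ J X ↔ 1 ≤ j.2.1 ∧ (j.2.1 : ℝ) * p1 j.1 + j.2.2 * p2 j.1 ≤ X := by
  classical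
  unfold J
  rw [Finset.mem_filter]
  refine ⟨fun h => h.2, fun h => ⟨?_, h⟩⟩
  obtain ⟨t, a, b⟩ := j
  simp only at h
  obtain ⟨h1, h2⟩ := h
  have q1 := one_le_p1 t
  have q2 := one_le_p2 t
  have ha : (0 : ℝ) ≤ a := Nat.cast_nonneg _
  have hb : (0 : ℝ) ≤ b := Nat.cast_nonneg _
  have ha' : (a : ℝ) ≤ X := by nlinarith
  have hb' : (b : ℝ) ≤ X := by nlinarith
  simp only [Finset.mem_product, Finset.mem_univ, Finset.mem_range, true_and]
  exact ⟨Nat.lt_succ_of_le (Nat.le_floor ha'), Nat.lt_succ_of_le (Nat.le_floor hb')⟩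

/-- number of bad encounters along the path -/
noncomputable def cst (S : Finset E) (B₀ : Finset (E × E)) (j : Fin 4 × ℕ × ℕ) (x : E × E) : ℝ :=
  bc (B1 S B₀ j.1) (g1 S j.1) j.2.1 x +
    bc (B2 S B₀ j.1) (g2 S j.1) j.2.2 ((g1 S j.1)^[j.2.1] x)

lemma cst_nonneg (S : Finset E) (B₀ : Finset (E × E)) (j : Fin 4 × ℕ × ℕ) (x : E × E) :
    0 ≤ cst S B₀ j x := add_nonneg (bc_nonneg _ _ _ _) (bc_nonneg _ _ _ _)

open Classical in
/-- good indices for a dart -/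
noncomputable def good (S : Finset E) (B₀ : Finset (E × E)) (X l δ : ℝ) (d : E × E) :
    Finset (ℕ × Fin 4 × ℕ × ℕ) :=
  (Finset.range 6 ×ˢ J X).filter (fun i => 6 * l * cst S B₀ i.2 ((rot S)^[i.1] d) ≤ δ)

section
variable {S : Finset E} {l b lam X δ : ℝ} {B₀ : Finset (E × E)}
  (hS : Simp S)
  (h1 : ∀ t, IsStep S (p1 t) lam (6 * l) b (g1 S t) (B1 S B₀ t))
  (h2 : ∀ t, IsStep S (p2 t) lam (6 * l) b (g2 S t) (B2 S B₀ t))
  (hlam : 0 ≤ lam) (hl : 0 ≤ l) (hX : 0 ≤ X)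

include h1 h2 in
lemma sum_cst {j : Fin 4 × ℕ × ℕ} (hj : j ∈ J X) :
    ∑ x ∈ darts S, cst S B₀ j x ≤ X * b := by
  obtain ⟨t, a, c⟩ := j
  obtain ⟨ha, hX'⟩ := mem_J.1 hj
  simp only at ha hX'
  have q1 := one_le_p1 t
  have q2 := one_le_p2 t
  have ha0 : (0 : ℝ) ≤ a := Nat.cast_nonneg _
  have hc0 : (0 : ℝ) ≤ c := Nat.cast_nonneg _
  have hb0 : 0 ≤ b := (Nat.cast_nonneg _).trans (h1 t).card
  unfold cst
  simp only
  rw [Finset.sum_add_distrib, sum_bc (h1 t).perm (h1 t).sub,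
    ((h1 t).perm.iterate a).2 (fun x => bc (B2 S B₀ t) (g2 S t) c x),
    sum_bc (h2 t).perm (h2 t).sub]
  have e1 := (h1 t).card
  have e2 := (h2 t).card
  calc (a : ℝ) * (B1 S B₀ t).card + c * (B2 S B₀ t).card ≤ a * b + c * b := by gcongr
    _ = (a + c) * b := by ring
    _ ≤ X * b := by
        gcongr
        nlinarith

include h1 h2 hS hX in
lemma sum_all :
    ∑ x ∈ darts S, ∑ i ∈ Finset.range 6 ×ˢ J X, cst S B₀ i.2 ((rot S)^[i.1] x) ≤
      6 * (J X).card * (X * b) := by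
  rw [Finset.sum_comm]
  have key : ∀ i ∈ Finset.range 6 ×ˢ J X,
      ∑ x ∈ darts S, cst S B₀ i.2 ((rot S)^[i.1] x) ≤ X * b := by
    intro i hi
    rw [((isPerm_rot hS).iterate i.1).2 (fun x => cst S B₀ i.2 x)]
    exact sum_cst h1 h2 (Finset.mem_product.1 hi).2
  refine (Finset.sum_le_sum key).trans ?_
  rw [Finset.sum_const, nsmul_eq_mul, Finset.card_product, Finset.card_range]
  push_cast
  linarith

include h1 h2 hS hX hl in
/-- averaging: some dart of `D₀` has almost only good indices -/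
theorem exists_good_dart (hδ : 0 < δ) {D₀ : Finset (E × E)} (hD : D₀ ⊆ darts S)
    (hne : D₀.Nonempty) :
    ∃ d ∈ D₀, 6 * ((J X).card : ℝ) * (1 - 6 * l * X * b / (δ * D₀.card)) ≤
      (good S B₀ X l δ d).card := by
  classical
  have hm : (0 : ℝ) < D₀.card := by exact_mod_cast hne.card_pos
  have hsum := sum_all (B₀ := B₀) hS h1 h2 hX
  -- pick a dart with small total cost
  obtain ⟨d, hd, hcost⟩ : ∃ d ∈ D₀, ∑ i ∈ Finset.range 6 ×ˢ J X,
      cst S B₀ i.2 ((rot S)^[i.1] d) ≤ 6 * (J X).card * (X * b) / D₀.card := by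
    by_contra hcon
    push Not at hcon
    have h3 : ∑ d ∈ D₀, (6 * (J X).card * (X * b) / D₀.card) <
        ∑ d ∈ D₀, ∑ i ∈ Finset.range 6 ×ˢ J X, cst S B₀ i.2 ((rot S)^[i.1] d) :=
      Finset.sum_lt_sum_of_nonempty hne hcon
    have h4 : ∑ d ∈ D₀, ∑ i ∈ Finset.range 6 ×ˢ J X, cst S B₀ i.2 ((rot S)^[i.1] d) ≤
        ∑ x ∈ darts S, ∑ i ∈ Finset.range 6 ×ˢ J X, cst S B₀ i.2 ((rot S)^[i.1] x) :=
      Finset.sum_le_sum_of_subset_of_nonneg hD fun x _ _ =>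
        Finset.sum_nonneg fun i _ => cst_nonneg _ _ _ _
    rw [Finset.sum_const, nsmul_eq_mul, mul_div_cancel₀ _ hm.ne'] at h3
    linarith
  refine ⟨d, hd, ?_⟩
  -- count the bad indices
  set A := Finset.range 6 ×ˢ J X with hA
  have hAc : (A.card : ℝ) = 6 * (J X).card := by
    rw [hA, Finset.card_product, Finset.card_range]; push_cast; ring
  set Bd := A.filter (fun i => ¬ 6 * l * cst S B₀ i.2 ((rot S)^[i.1] d) ≤ δ) with hBd
  have hsplit : ((good S B₀ X l δ d).card : ℝ) + Bd.card = A.card := by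
    unfold good
    rw [hBd]
    exact_mod_cast Finset.card_filter_add_card_filter_not
      (s := A) (fun i => 6 * l * cst S B₀ i.2 ((rot S)^[i.1] d) ≤ δ)
  have hb : Bd.card * δ ≤ 6 * l * (6 * (J X).card * (X * b) / D₀.card) := by
    calc (Bd.card : ℝ) * δ = ∑ i ∈ Bd, δ := by rw [Finset.sum_const, nsmul_eq_mul]
      _ ≤ ∑ i ∈ Bd, 6 * l * cst S B₀ i.2 ((rot S)^[i.1] d) := by
          refine Finset.sum_le_sum fun i hi => ?_
          exact (not_le.1 (Finset.mem_filter.1 hi).2).le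
      _ ≤ ∑ i ∈ A, 6 * l * cst S B₀ i.2 ((rot S)^[i.1] d) := by
          refine Finset.sum_le_sum_of_subset_of_nonneg (Finset.filter_subset _ _) ?_
          intro i _ _
          exact mul_nonneg (by positivity) (cst_nonneg _ _ _ _)
      _ = 6 * l * ∑ i ∈ A, cst S B₀ i.2 ((rot S)^[i.1] d) := by rw [Finset.mul_sum]
      _ ≤ _ := by gcongr
  have hb2 : (Bd.card : ℝ) ≤ 6 * (J X).card * (6 * l * X * b / (δ * D₀.card)) := by
    have : (Bd.card : ℝ) ≤ 6 * l * (6 * (J X).card * (X * b) / D₀.card) / δ := by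
      rw [le_div_iff₀ hδ]; exact hb
    refine this.trans (le_of_eq ?_)
    field_simp
  have : ((good S B₀ X l δ d).card : ℝ) = A.card - Bd.card := by linarith
  rw [this, hAc]
  linarith

include h1 h2 hS hlam hl in
/-- positions along good paths -/
theorem good_pos {d : E × E} (hd : d ∈ darts S) {i : ℕ × Fin 4 × ℕ × ℕ}
    (hi : i ∈ good S B₀ X l δ d) :
    (∀ n ≤ i.2.2.1, ang d.1 ((g1 S i.2.1)^[n] ((rot S)^[i.1] d)).1 ≤ X * lam + δ) ∧
    (∀ n ≤ i.2.2.2, ang d.1 ((g2 S i.2.1)^[n] ((g1 S i.2.1)^[i.2.2.1]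
      ((rot S)^[i.1] d))).1 ≤ X * lam + δ) := by
  classical
  obtain ⟨hi1, hi2⟩ := Finset.mem_filter.1 hi
  obtain ⟨hi3, hi4⟩ := Finset.mem_product.1 hi1
  obtain ⟨k, t, a, c⟩ := i
  obtain ⟨ha, hX'⟩ := mem_J.1 hi4
  simp only [cst] at hi2 ha hX' ⊢
  set x := (rot S)^[k] d with hx
  have hxd : x ∈ darts S := ((isPerm_rot hS).iterate k).1 d hd
  have hx1 : x.1 = d.1 := by rw [hx, rot_iter]
  have q1 := one_le_p1 t
  have q2 := one_le_p2 t
  have ha0 : (0 : ℝ) ≤ a := Nat.cast_nonneg _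
  have hc0 : (0 : ℝ) ≤ c := Nat.cast_nonneg _
  have hp1 : 0 ≤ p1 t * lam := by positivity
  have hp2 : 0 ≤ p2 t * lam := by positivity
  have b1 := bc_nonneg (B1 S B₀ t) (g1 S t) a x
  have b2 := bc_nonneg (B2 S B₀ t) (g2 S t) c ((g1 S t)^[a] x)
  have hXl : ((a : ℝ) * p1 t + c * p2 t) * lam ≤ X * lam := by gcongr
  constructor
  · intro n hn
    have e := (h1 t).path hS hp1 (by positivity) hxd n
    rw [hx1] at e
    have m1 := bc_mono (B1 S B₀ t) (g1 S t) hn x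
    have hn' : (n : ℝ) ≤ a := by exact_mod_cast hn
    have e1 : (n : ℝ) * (p1 t * lam) ≤ a * (p1 t * lam) := by gcongr
    have e2 : 6 * l * bc (B1 S B₀ t) (g1 S t) n x ≤ 6 * l * bc (B1 S B₀ t) (g1 S t) a x := by
      gcongr
    have e3 : 0 ≤ 6 * l * bc (B2 S B₀ t) (g2 S t) c ((g1 S t)^[a] x) := by positivity
    have e4 : 0 ≤ (c : ℝ) * (p2 t * lam) := by positivity
    nlinarith
  · intro n hn
    have hxa : (g1 S t)^[a] x ∈ darts S := ((h1 t).perm.iterate a).1 _ hxd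
    have e := (h1 t).path hS hp1 (by positivity) hxd a
    have f := (h2 t).path hS hp2 (by positivity) hxa n
    rw [hx1] at e
    have tri := ang_triangle d.1 ((g1 S t)^[a] x).1 ((g2 S t)^[n] ((g1 S t)^[a] x)).1
    have m1 := bc_mono (B2 S B₀ t) (g2 S t) hn ((g1 S t)^[a] x)
    have hn' : (n : ℝ) ≤ c := by exact_mod_cast hn
    have e1 : (n : ℝ) * (p2 t * lam) ≤ c * (p2 t * lam) := by gcongr
    have e2 : 6 * l * bc (B2 S B₀ t) (g2 S t) n ((g1 S t)^[a] x) ≤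
        6 * l * bc (B2 S B₀ t) (g2 S t) c ((g1 S t)^[a] x) := by gcongr
    nlinarith

end

end Med
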