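import Pool.Agent.Med.Basic
/- proof by helper616 (job 2802) -/
set_option autoImplicit false
open MeasureTheory

namespace Med

/-- the tetrahedron with vertices 0, a, b, c -/
def Tet (a b c : E) : Set E :=
  {z | ∃ α β γ : ℝ, 0 ≤ α ∧ 0 ≤ β ∧ 0 ≤ γ ∧ α + β + γ ≤ 1 ∧ z = α • a + β • b + γ • c}

/-- the part of the unit ball in the cone over the triangle a, b, c -/
def CB (a b c : E) : Set E :=
  {z | ∃ α β γ : ℝ, 0 ≤ α ∧ 0 ≤ β ∧ 0 ≤ γ ∧ z = α • a + β • b + γ • c ∧ dot z z ≤ 1}

/-- sum of the squares of the sides -/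
def Zs (a b c : E) : ℝ := dot (a - b) (a - b) + dot (b - c) (b - c) + dot (c - a) (c - a)


private abbrev V3 := Fin 3 → ℝ

/-- one dimensional building block -/
private noncomputable def blk (c : ℝ) (n : ℕ) (t : ℝ) : ℝ :=
  Set.indicator (Set.Ioi (0:ℝ)) (fun t => t ^ n * Real.exp (-(c * t))) t

private theorem blk_int (c : ℝ) (hc : 0 < c) (n : ℕ) : Integrable (blk c n) ∧
    ∫ t, blk c n t = (n.factorial : ℝ) / c ^ (n + 1) := by
  have h1 : IntegrableOn (fun t : ℝ => t ^ n * Real.exp (-(c * t))) (Set.Ioi 0) := by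
    have := integrableOn_rpow_mul_exp_neg_mul_rpow (p := 1) (s := n) (b := c)
      (by have : (0:ℝ) ≤ n := Nat.cast_nonneg n
          linarith) (by norm_num) hc
    refine this.congr_fun (fun t ht => ?_) measurableSet_Ioi
    simp [Real.rpow_natCast]
  constructor
  · exact h1.integrable_indicator measurableSet_Ioi
  · unfold blk
    rw [integral_indicator measurableSet_Ioi]
    have := Real.integral_rpow_mul_exp_neg_mul_Ioi (a := n + 1) (r := c) (by positivity) hc
    have e1 : (Real.Gamma ((n:ℝ) + 1)) = n.factorial := Real.Gamma_nat_eq_factorial n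
    rw [e1] at this
    have e2 : ((1:ℝ) / c) ^ ((n:ℝ) + 1) = 1 / c ^ (n + 1) := by
      rw [show ((n:ℝ) + 1) = ((n + 1 : ℕ) : ℝ) by push_cast; ring, Real.rpow_natCast]
      rw [one_div, one_div, inv_pow]
    rw [e2] at this
    rw [show (n.factorial : ℝ) / c ^ (n + 1) = 1 / c ^ (n + 1) * n.factorial by ring, ← this]
    apply setIntegral_congr_fun measurableSet_Ioi
    intro t ht
    simp [Real.rpow_natCast]

/-- three dimensional block -/
private noncomputable def blk3 (c : ℝ) (e : Fin 3 → ℕ) (y : V3) : ℝ := ∏ i, blk c (e i) (y i)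

private theorem blk3_int (c : ℝ) (hc : 0 < c) (e : Fin 3 → ℕ) : Integrable (blk3 c e) ∧
    ∫ y, blk3 c e y = ∏ i, (((e i).factorial : ℝ) / c ^ (e i + 1)) := by
  constructor
  · exact Integrable.fintype_prod (f := fun i t => blk c (e i) t) (fun i => (blk_int c hc (e i)).1)
  · unfold blk3
    rw [integral_fintype_prod_volume_eq_prod (f := fun i t => blk c (e i) t)]
    exact Finset.prod_congr rfl fun i _ => (blk_int c hc (e i)).2

private def O3 : Set V3 := {y | ∀ i, 0 < y i}

private theorem O3_meas : MeasurableSet O3 := by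
  have : O3 = ⋂ i, {y : V3 | 0 < y i} := by ext; simp [O3]
  rw [this]
  exact MeasurableSet.iInter fun i => measurableSet_lt measurable_const (measurable_pi_apply i)

private theorem blk3_eq (c : ℝ) (e : Fin 3 → ℕ) (y : V3) : blk3 c e y =
    O3.indicator (fun y => y 0 ^ e 0 * y 1 ^ e 1 * y 2 ^ e 2 * Real.exp (-(c * (y 0 + y 1 + y 2)))) y := by
  by_cases h : y ∈ O3
  · rw [Set.indicator_of_mem h]
    unfold blk3 blk
    rw [Fin.prod_univ_three]
    rw [Set.indicator_of_mem (show y 0 ∈ Set.Ioi (0:ℝ) from h 0),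
      Set.indicator_of_mem (show y 1 ∈ Set.Ioi (0:ℝ) from h 1),
      Set.indicator_of_mem (show y 2 ∈ Set.Ioi (0:ℝ) from h 2)]
    rw [show -(c * (y 0 + y 1 + y 2)) = -(c * y 0) + -(c * y 1) + -(c * y 2) by ring,
      Real.exp_add, Real.exp_add]
    ring
  · rw [Set.indicator_of_notMem h]
    unfold blk3 blk
    obtain ⟨i, hi⟩ : ∃ i, ¬ 0 < y i := by simpa [O3] using h
    apply Finset.prod_eq_zero (Finset.mem_univ i)
    exact Set.indicator_of_notMem (show y i ∉ Set.Ioi (0:ℝ) from hi) _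

private theorem mono_int (c : ℝ) (hc : 0 < c) (i j k : ℕ) :
    IntegrableOn (fun y : V3 => y 0 ^ i * y 1 ^ j * y 2 ^ k * Real.exp (-(c * (y 0 + y 1 + y 2)))) O3 ∧
    ∫ y in O3, (y 0 ^ i * y 1 ^ j * y 2 ^ k * Real.exp (-(c * (y 0 + y 1 + y 2)))) =
      (i.factorial : ℝ) / c ^ (i + 1) * ((j.factorial : ℝ) / c ^ (j + 1)) * ((k.factorial : ℝ) / c ^ (k + 1)) := by
  have h := blk3_int c hc ![i, j, k]
  have e : (blk3 c ![i, j, k]) = O3.indicator (fun y : V3 => y 0 ^ i * y 1 ^ j * y 2 ^ k * Real.exp (-(c * (y 0 + y 1 + y 2)))) := by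
    funext y
    rw [blk3_eq]
    simp
  rw [e] at h
  constructor
  · exact (integrable_indicator_iff O3_meas).mp h.1
  · rw [← integral_indicator O3_meas, h.2, Fin.prod_univ_three]
    simp

private theorem tail_int (x : ℝ) (hx : 0 ≤ x) : 
    ∫⁻ t in Set.Ioi (0:ℝ), (Set.Ici x).indicator (fun t => ENNReal.ofReal (t * Real.exp (-t))) t
      = ENNReal.ofReal ((1 + x) * Real.exp (-x)) := by
  have h0 : ∫⁻ t in Set.Ioi (0:ℝ), (Set.Ici x).indicator (fun t => ENNReal.ofReal (t * Real.exp (-t))) t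
      = ∫⁻ t in Set.Ioi x, ENNReal.ofReal (t * Real.exp (-t)) := by
    rw [← lintegral_indicator measurableSet_Ioi, ← lintegral_indicator measurableSet_Ioi]
    apply lintegral_congr_ae
    have : ∀ᵐ t : ℝ, t ≠ x := by
      rw [ae_iff]; simp
    filter_upwards [this] with t ht
    by_cases h1 : x < t
    · rw [Set.indicator_of_mem (show t ∈ Set.Ioi (0:ℝ) from lt_of_le_of_lt hx h1),
        Set.indicator_of_mem (show t ∈ Set.Ici x from h1.le), Set.indicator_of_mem (show t ∈ Set.Ioi x from h1)]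
    · have h2 : t ∉ Set.Ici x := by
        intro h3
        exact h1 (lt_of_le_of_ne h3 (Ne.symm ht))
      rw [Set.indicator_of_notMem (show t ∉ Set.Ioi x from h1)]
      by_cases h4 : t ∈ Set.Ioi (0:ℝ)
      · rw [Set.indicator_of_mem h4, Set.indicator_of_notMem h2]
      · rw [Set.indicator_of_notMem h4]
  rw [h0]
  have hderiv : ∀ t ∈ Set.Ici x, HasDerivAt (fun t => -((1 + t) * Real.exp (-t))) (t * Real.exp (-t)) t := by
    intro t _
    have h1 : HasDerivAt (fun t : ℝ => Real.exp (-t)) (-Real.exp (-t)) t := by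
      have := (hasDerivAt_neg t).exp
      simpa using this
    have h2 := ((hasDerivAt_id' t).const_add (1:ℝ)).mul h1
    have h3 := h2.neg
    refine h3.congr_deriv ?_
    ring
  have htend : Filter.Tendsto (fun t : ℝ => -((1 + t) * Real.exp (-t))) Filter.atTop (nhds 0) := by
    have h1 := Real.tendsto_pow_mul_exp_neg_atTop_nhds_zero 1
    have h2 := Real.tendsto_exp_neg_atTop_nhds_zero
    have h3 := (h2.add h1).neg
    simp only [add_zero, neg_zero] at h3
    refine h3.congr fun t => ?_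
    simp
    ring
  have hpos : ∀ t ∈ Set.Ioi x, 0 ≤ t * Real.exp (-t) := by
    intro t ht
    have : 0 < t := lt_of_le_of_lt hx ht
    positivity
  have hint := integrableOn_Ioi_deriv_of_nonneg' hderiv hpos htend
  have hval := integral_Ioi_of_hasDerivAt_of_nonneg' hderiv hpos htend
  rw [← ofReal_integral_eq_lintegral_ofReal hint]
  · rw [hval]
    congr 1
    ring
  · exact (ae_restrict_mem measurableSet_Ioi).mono hpos

open scoped Pointwise in
private theorem scale_set (N : V3 → ℝ) (hhom : ∀ t : ℝ, 0 < t → ∀ y, N (t • y) = t * N y) (t : ℝ) (ht : 0 < t) :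
    O3 ∩ {y | N y ≤ t} = t • (O3 ∩ {y | N y ≤ 1}) := by
  ext y
  rw [Set.mem_smul_set_iff_inv_smul_mem₀ ht.ne']
  simp only [Set.mem_inter_iff, Set.mem_setOf_eq, O3, Pi.smul_apply, smul_eq_mul]
  rw [hhom _ (inv_pos.mpr ht)]
  constructor
  · rintro ⟨h1, h2⟩
    refine ⟨fun i => mul_pos (inv_pos.mpr ht) (h1 i), ?_⟩
    rw [inv_mul_le_iff₀ ht]; simpa using h2
  · rintro ⟨h1, h2⟩
    refine ⟨fun i => ?_, ?_⟩
    · have := h1 i
      exact (pos_iff_pos_of_mul_pos this).mp (inv_pos.mpr ht)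
    · rw [inv_mul_le_iff₀ ht] at h2; simpa using h2

private theorem weight_formula (N : V3 → ℝ) (hmeas : Measurable N)
    (hhom : ∀ t : ℝ, 0 < t → ∀ y, N (t • y) = t * N y) (hpos : ∀ y ∈ O3, 0 ≤ N y) :
    ∫⁻ y in O3, ENNReal.ofReal ((1 + N y) * Real.exp (-(N y))) = 24 * volume (O3 ∩ {y | N y ≤ 1}) := by
  have e1 : ∫⁻ y in O3, ENNReal.ofReal ((1 + N y) * Real.exp (-(N y))) =
      ∫⁻ y in O3, ∫⁻ t in Set.Ioi (0:ℝ), (Set.Ici (N y)).indicator (fun t => ENNReal.ofReal (t * Real.exp (-t))) t := by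
    apply setLIntegral_congr_fun O3_meas
    intro y hy
    exact (tail_int (N y) (hpos y hy)).symm
  rw [e1]
  have hm : Measurable (fun p : V3 × ℝ => (Set.Ici (N p.1)).indicator (fun t => ENNReal.ofReal (t * Real.exp (-t))) p.2) := by
    have : (fun p : V3 × ℝ => (Set.Ici (N p.1)).indicator (fun t => ENNReal.ofReal (t * Real.exp (-t))) p.2) =
        Set.indicator {p : V3 × ℝ | N p.1 ≤ p.2} (fun p => ENNReal.ofReal (p.2 * Real.exp (-p.2))) := by
      funext p
      simp [Set.indicator, Set.mem_Ici]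
    rw [this]
    apply Measurable.indicator
    · fun_prop
    · exact measurableSet_le (hmeas.comp measurable_fst) measurable_snd
  rw [lintegral_lintegral_swap hm.aemeasurable]
  have e2 : ∀ t ∈ Set.Ioi (0:ℝ), ∫⁻ y in O3, (Set.Ici (N y)).indicator (fun t => ENNReal.ofReal (t * Real.exp (-t))) t
      = ENNReal.ofReal (t ^ 4 * Real.exp (-t)) * volume (O3 ∩ {y | N y ≤ 1}) := by
    intro t ht
    have ht' : 0 < t := ht
    have : ∀ y, (Set.Ici (N y)).indicator (fun t => ENNReal.ofReal (t * Real.exp (-t))) t =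
        {y | N y ≤ t}.indicator (fun _ => ENNReal.ofReal (t * Real.exp (-t))) y := by
      intro y; simp [Set.indicator, Set.mem_Ici]
    simp_rw [this]
    have hms : MeasurableSet {y | N y ≤ t} := measurableSet_le hmeas measurable_const
    rw [lintegral_indicator_const hms, Measure.restrict_apply hms, Set.inter_comm,
      scale_set N hhom t ht', Measure.addHaar_smul]
    simp only [Module.finrank_fintype_fun_eq_card, Fintype.card_fin]
    rw [← mul_assoc, ← ENNReal.ofReal_mul (by positivity), abs_of_pos (by positivity)]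
    congr 2
    ring
  rw [setLIntegral_congr_fun measurableSet_Ioi e2]
  rw [lintegral_mul_const _ (by fun_prop)]
  congr 1
  have h4 := (blk_int 1 one_pos 4)
  have h5 : IntegrableOn (fun t : ℝ => t ^ 4 * Real.exp (-t)) (Set.Ioi 0) := by
    have := (integrable_indicator_iff measurableSet_Ioi).mp h4.1
    refine this.congr_fun (fun t _ => ?_) measurableSet_Ioi
    simp
  rw [← ofReal_integral_eq_lintegral_ofReal h5]
  · have : ∫ t in Set.Ioi (0:ℝ), t ^ 4 * Real.exp (-t) = 24 := by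
      have h6 := h4.2
      unfold blk at h6
      rw [integral_indicator measurableSet_Ioi] at h6
      simp only [one_mul, one_pow, div_one] at h6
      rw [h6]
      norm_num [Nat.factorial]
    rw [this]
    simp
  · exact (ae_restrict_mem measurableSet_Ioi).mono fun t ht => by
      have : (0:ℝ) < t := ht
      positivity

private noncomputable def mon (c : ℝ) (i j k : ℕ) (y : V3) : ℝ :=
  y 0 ^ i * y 1 ^ j * y 2 ^ k * Real.exp (-(c * (y 0 + y 1 + y 2)))

private theorem mon_on (c : ℝ) (hc : 0 < c) (i j k : ℕ) : IntegrableOn (mon c i j k) O3 :=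
  (mono_int c hc i j k).1

private theorem mon_val (c : ℝ) (hc : 0 < c) (i j k : ℕ) : ∫ y in O3, mon c i j k y =
    (i.factorial : ℝ) / c ^ (i + 1) * ((j.factorial : ℝ) / c ^ (j + 1)) * ((k.factorial : ℝ) / c ^ (k + 1)) :=
  (mono_int c hc i j k).2

/-- the lower comparison function -/
private noncomputable def gl (p q r : ℝ) (y : V3) : ℝ :=
  Real.exp (-(y 0 + y 1 + y 2)) *
    (1 + (y 0 + y 1 + y 2) + (p * (y 0 * y 1) + q * (y 1 * y 2) + r * (y 2 * y 0)) / 2)

private theorem gl_int (p q r : ℝ) : IntegrableOn (gl p q r) O3 ∧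
    ∫ y in O3, gl p q r y = 4 + (p + q + r) / 2 := by
  have e : gl p q r = fun y => mon 1 0 0 0 y + (mon 1 1 0 0 y + (mon 1 0 1 0 y + (mon 1 0 0 1 y +
      (p / 2 * mon 1 1 1 0 y + (q / 2 * mon 1 0 1 1 y + r / 2 * mon 1 1 0 1 y))))) := by
    funext y
    simp only [gl, mon, pow_zero, pow_one, one_mul, mul_one]
    ring
  have m := fun i j k => mon_on 1 one_pos i j k
  have i6 : IntegrableOn (fun y => q / 2 * mon 1 0 1 1 y + r / 2 * mon 1 1 0 1 y) O3 :=
    ((m 0 1 1).const_mul _).add ((m 1 0 1).const_mul _)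
  have i5 : IntegrableOn (fun y => p / 2 * mon 1 1 1 0 y + (q / 2 * mon 1 0 1 1 y + r / 2 * mon 1 1 0 1 y)) O3 :=
    ((m 1 1 0).const_mul _).add i6
  have i4 : IntegrableOn (fun y => mon 1 0 0 1 y + (p / 2 * mon 1 1 1 0 y + (q / 2 * mon 1 0 1 1 y + r / 2 * mon 1 1 0 1 y))) O3 :=
    (m 0 0 1).add i5
  have i3 : IntegrableOn (fun y => mon 1 0 1 0 y + (mon 1 0 0 1 y + (p / 2 * mon 1 1 1 0 y + (q / 2 * mon 1 0 1 1 y + r / 2 * mon 1 1 0 1 y)))) O3 :=
    (m 0 1 0).add i4
  have i2 : IntegrableOn (fun y => mon 1 1 0 0 y + (mon 1 0 1 0 y + (mon 1 0 0 1 y + (p / 2 * mon 1 1 1 0 y + (q / 2 * mon 1 0 1 1 y + r / 2 * mon 1 1 0 1 y))))) O3 :=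
    (m 1 0 0).add i3
  have i1 : IntegrableOn (fun y => mon 1 0 0 0 y + (mon 1 1 0 0 y + (mon 1 0 1 0 y + (mon 1 0 0 1 y + (p / 2 * mon 1 1 1 0 y + (q / 2 * mon 1 0 1 1 y + r / 2 * mon 1 1 0 1 y)))))) O3 :=
    (m 0 0 0).add i2
  rw [e]
  refine ⟨i1, ?_⟩
  rw [integral_add (m 0 0 0) i2, integral_add (m 1 0 0) i3, integral_add (m 0 1 0) i4,
    integral_add (m 0 0 1) i5, integral_add ((m 1 1 0).const_mul _) i6,
    integral_add ((m 0 1 1).const_mul _) ((m 1 0 1).const_mul _),
    integral_const_mul, integral_const_mul, integral_const_mul]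
  rw [mon_val 1 one_pos, mon_val 1 one_pos, mon_val 1 one_pos, mon_val 1 one_pos, mon_val 1 one_pos,
    mon_val 1 one_pos, mon_val 1 one_pos]
  norm_num [Nat.factorial]
  ring

/-- the upper remainder function -/
private noncomputable def gr (y : V3) : ℝ := mon (11/12) 3 0 0 y + (mon (11/12) 0 3 0 y + mon (11/12) 0 0 3 y)

private theorem gr_int : IntegrableOn gr O3 ∧ ∫ y in O3, gr y = 18 * (12/11) ^ 6 := by
  have m := fun i j k => mon_on (11/12) (by norm_num) i j k
  have i2 : IntegrableOn (fun y => mon (11/12) 0 3 0 y + mon (11/12) 0 0 3 y) O3 := (m 0 3 0).add (m 0 0 3)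
  refine ⟨(m 3 0 0).add i2, ?_⟩
  unfold gr
  rw [integral_add (m 3 0 0) i2, integral_add (m 0 3 0) (m 0 0 3)]
  rw [mon_val _ (by norm_num), mon_val _ (by norm_num), mon_val _ (by norm_num)]
  norm_num [Nat.factorial]

private theorem exp_lower {d : ℝ} (hd : 0 ≤ d) : 1 + d + d ^ 2 / 2 ≤ Real.exp d :=
  Real.quadratic_le_exp_of_nonneg hd

private theorem exp_upper {d : ℝ} (hd : 0 ≤ d) : Real.exp d ≤ 1 + d + d ^ 2 / 2 * Real.exp d := by
  -- e^{-d} (1+d) + d^2/2 ≥ 1
  have key : ∀ x : ℝ, 0 ≤ x → 0 ≤ (1 + x) * Real.exp (-x) + x ^ 2 / 2 - 1 := by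
    have hmono : MonotoneOn (fun x : ℝ => (1 + x) * Real.exp (-x) + x ^ 2 / 2 - 1) (Set.Ici 0) := by
      apply monotoneOn_of_deriv_nonneg (convex_Ici 0)
      · fun_prop
      · fun_prop
      · intro x hx
        rw [interior_Ici] at hx
        have hx' : 0 < x := hx
        have h1 : HasDerivAt (fun t : ℝ => Real.exp (-t)) (-Real.exp (-x)) x := by
          have := (hasDerivAt_neg x).exp
          simpa using this
        have h2 := ((hasDerivAt_id' x).const_add (1:ℝ)).mul h1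
        have h3 := ((h2.add ((hasDerivAt_pow 2 x).div_const 2)).sub_const 1)
        have h4 : HasDerivAt (fun x : ℝ => (1 + x) * Real.exp (-x) + x ^ 2 / 2 - 1) (x * (1 - Real.exp (-x))) x := by
          refine h3.congr_deriv ?_
          norm_num
          ring
        rw [h4.deriv]
        have : Real.exp (-x) ≤ 1 := Real.exp_le_one_iff.mpr (by linarith)
        exact mul_nonneg hx'.le (by linarith)
    intro x hx
    have := hmono (Set.mem_Ici.mpr le_rfl) (Set.mem_Ici.mpr hx) hx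
    simpa using this
  have h := key d hd
  have he : Real.exp (-d) * Real.exp d = 1 := by rw [← Real.exp_add]; simp
  have hp := Real.exp_pos d
  have := mul_nonneg h hp.le
  have e : ((1 + d) * Real.exp (-d) + d ^ 2 / 2 - 1) * Real.exp d =
      (1 + d) * (Real.exp (-d) * Real.exp d) + d ^ 2 / 2 * Real.exp d - Real.exp d := by ring
  rw [e, he] at this
  linarith

private theorem K_lower {s n Q : ℝ} (hn : 0 ≤ n) (hns : n ≤ s) (hQ : n ^ 2 = s ^ 2 - Q) :
    Real.exp (-s) * (1 + s + Q / 2) ≤ (1 + n) * Real.exp (-n) := by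
  have hd : 0 ≤ s - n := by linarith
  have h := exp_lower hd
  have e : Real.exp (-n) = Real.exp (-s) * Real.exp (s - n) := by rw [← Real.exp_add]; ring_nf
  rw [e]
  have h2 : (1 + s + Q / 2) ≤ (1 + n) * Real.exp (s - n) := by
    have h3 : (1 + n) * (1 + (s - n) + (s - n) ^ 2 / 2) ≤ (1 + n) * Real.exp (s - n) :=
      mul_le_mul_of_nonneg_left h (by linarith)
    have h4 : (1 + s + Q / 2) ≤ (1 + n) * (1 + (s - n) + (s - n) ^ 2 / 2) := by
      have : Q = s ^ 2 - n ^ 2 := by linarith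
      subst this
      nlinarith [mul_nonneg hn (sq_nonneg (s - n))]
    exact h4.trans h3
  calc Real.exp (-s) * (1 + s + Q / 2) ≤ Real.exp (-s) * ((1 + n) * Real.exp (s - n)) :=
        mul_le_mul_of_nonneg_left h2 (Real.exp_pos _).le
    _ = _ := by ring

private theorem K_upper {s n Q q : ℝ} (hn : 0 ≤ n) (hs : 0 < s) (hns : n ≤ s) (hQ : n ^ 2 = s ^ 2 - Q)
    (hq0 : 0 ≤ q) (hq : q ≤ 1 / 4) (hQq : Q ≤ q * s ^ 2 / 3) :
    (1 + n) * Real.exp (-n) ≤ Real.exp (-s) * (1 + s + Q / 2) + q ^ 2 / 18 * (s ^ 3 * Real.exp (-(11 / 12 * s))) := by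
  have hd : 0 ≤ s - n := by linarith
  set d := s - n with hdd
  have hn' : n = s - d := by rw [hdd]; ring
  have h := exp_upper hd
  have hdQ : d * s ≤ Q := by
    have : Q = s ^ 2 - n ^ 2 := by linarith
    rw [this, hn']
    nlinarith
  have hds : d ≤ q * s / 3 := by
    have : d * s ≤ (q * s / 3) * s := by nlinarith
    exact le_of_mul_le_mul_right this hs
  have hd12 : d ≤ s / 12 := by nlinarith
  have e : Real.exp (-n) = Real.exp (-s) * Real.exp d := by rw [← Real.exp_add, hdd]; ring_nf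
  have h1 : (1 - d) * Real.exp d ≤ 1 := by
    have h5 := Real.add_one_le_exp (-d)
    have he : Real.exp (-d) * Real.exp d = 1 := by rw [← Real.exp_add]; simp
    calc (1 - d) * Real.exp d ≤ Real.exp (-d) * Real.exp d :=
          mul_le_mul_of_nonneg_right (by linarith) (Real.exp_pos _).le
      _ = 1 := he
  have h2 : (1 + n) * Real.exp d ≤ 1 + s + Q / 2 + s * (d ^ 2 / 2 * Real.exp d) := by
    have h3 : (1 + n) * Real.exp d ≤ (1 + n) * (1 + d + d ^ 2 / 2 * Real.exp d) :=
      mul_le_mul_of_nonneg_left h (by linarith)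
    have hQe : Q = 2 * s * d - d ^ 2 := by
      have : Q = s ^ 2 - n ^ 2 := by linarith
      rw [this, hn']; ring
    have h6 : (d ^ 2 / 2) * ((1 - d) * Real.exp d) ≤ (d ^ 2 / 2) * 1 :=
      mul_le_mul_of_nonneg_left h1 (by positivity)
    have h7 : (1 + n) * (1 + d + d ^ 2 / 2 * Real.exp d) = 1 + s + Q / 2 + s * (d ^ 2 / 2 * Real.exp d)
        + ((d ^ 2 / 2) * ((1 - d) * Real.exp d) - d ^ 2 / 2) := by
      rw [hQe, hn']; ring
    linarith
  have h8 : s * (d ^ 2 / 2 * Real.exp d) ≤ q ^ 2 / 18 * s ^ 3 * Real.exp (s / 12) := by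
    have h9 : Real.exp d ≤ Real.exp (s / 12) := Real.exp_le_exp.mpr hd12
    have h10 : d ^ 2 ≤ (q * s / 3) ^ 2 := by
      apply pow_le_pow_left₀ hd hds
    have h11 : s * (d ^ 2 / 2) ≤ q ^ 2 / 18 * s ^ 3 := by nlinarith
    calc s * (d ^ 2 / 2 * Real.exp d) = s * (d ^ 2 / 2) * Real.exp d := by ring
      _ ≤ q ^ 2 / 18 * s ^ 3 * Real.exp (s / 12) := by
        apply mul_le_mul h11 h9 (Real.exp_pos _).le (by positivity)
  rw [e]
  have e2 : Real.exp (-(11 / 12 * s)) = Real.exp (-s) * Real.exp (s / 12) := by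
    rw [← Real.exp_add]; ring_nf
  rw [e2]
  calc (1 + n) * (Real.exp (-s) * Real.exp d) = Real.exp (-s) * ((1 + n) * Real.exp d) := by ring
    _ ≤ Real.exp (-s) * (1 + s + Q / 2 + q ^ 2 / 18 * s ^ 3 * Real.exp (s / 12)) :=
        mul_le_mul_of_nonneg_left (by linarith) (Real.exp_pos _).le
    _ = _ := by ring

private theorem cube_le {x y z : ℝ} (hx : 0 ≤ x) (hy : 0 ≤ y) (hz : 0 ≤ z) :
    (x + y + z) ^ 3 ≤ 9 * (x ^ 3 + (y ^ 3 + z ^ 3)) := by
  nlinarith [mul_nonneg (add_nonneg hx hy) (sq_nonneg (x - y)), mul_nonneg (add_nonneg hy hz) (sq_nonneg (y - z)),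
    mul_nonneg (add_nonneg hx hz) (sq_nonneg (x - z)), mul_nonneg hx (sq_nonneg (y - z)),
    mul_nonneg hy (sq_nonneg (x - z)), mul_nonneg hz (sq_nonneg (x - y))]

/-- the parametrization -/
private noncomputable def par (a b c : E) (y : V3) : E := y 0 • a + y 1 • b + y 2 • c

private def colM (a b c : E) : Matrix (Fin 3) (Fin 3) ℝ := Matrix.of fun i j => (![a i, b i, c i] : Fin 3 → ℝ) j

private theorem colM_det (a b c : E) : (colM a b c).det = det a b c := by
  rw [Matrix.det_fin_three]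
  simp [colM, det]
  ring

private theorem vol_image (a b c : E) (h : 0 < det a b c) (P : Set V3) :
    volume (par a b c '' P) = ENNReal.ofReal (det a b c) * volume P := by
  have hmp := EuclideanSpace.volume_preserving_symm_measurableEquiv_toLp (Fin 3)
  have himg : par a b c '' P = (MeasurableEquiv.toLp 2 (Fin 3 → ℝ)).symm ⁻¹' ((Matrix.toLin' (colM a b c)) '' P) := by
    ext z
    simp only [Set.mem_image, Set.mem_preimage]
    constructor
    · rintro ⟨y, hy, rfl⟩
      refine ⟨y, hy, ?_⟩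
      funext i
      simp [par, colM, Matrix.toLin'_apply, Matrix.mulVec, dotProduct, Fin.sum_univ_three]
      ring
    · rintro ⟨y, hy, hz⟩
      refine ⟨y, hy, ?_⟩
      ext i
      have := congrFun hz i
      simp [colM, Matrix.toLin'_apply, Matrix.mulVec, dotProduct, Fin.sum_univ_three] at this
      simp [par]
      linarith
  rw [himg, MeasurePreserving.measure_preimage_equiv hmp, Measure.addHaar_image_linearMap,
    LinearMap.det_toLin', colM_det, abs_of_pos h]

private theorem closed_open (N : V3 → ℝ) : volume {y : V3 | (∀ i, 0 ≤ y i) ∧ N y ≤ 1} = volume (O3 ∩ {y | N y ≤ 1}) := by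
  apply measure_congr
  have h : ∀ᵐ y : V3, ∀ i, y i ≠ 0 := by
    rw [ae_all_iff]
    intro i
    rw [ae_iff]
    have hh := Measure.pi_hyperplane (fun _ : Fin 3 => (volume : Measure ℝ)) i 0
    rw [volume_pi]
    simpa only [not_not, ne_eq] using hh
  filter_upwards [h] with y hy
  apply propext
  constructor
  · rintro ⟨h1, h2⟩
    exact ⟨fun i => lt_of_le_of_ne (h1 i) (Ne.symm (hy i)), h2⟩
  · rintro ⟨h1, h2⟩
    exact ⟨fun i => (h1 i).le, h2⟩

theorem vol_tet {a b c : E} (h : 0 < det a b c) :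
    volume (Tet a b c) = ENNReal.ofReal (det a b c / 6) := by
  have himg : Tet a b c = par a b c '' {y : V3 | (∀ i, 0 ≤ y i) ∧ (fun y : V3 => y 0 + y 1 + y 2) y ≤ 1} := by
    ext z
    constructor
    · rintro ⟨α, β, γ, h1, h2, h3, h4, rfl⟩
      refine ⟨![α, β, γ], ⟨?_, ?_⟩, ?_⟩
      · intro i; fin_cases i <;> simp [h1, h2, h3]
      · simpa using h4
      · simp [par]
    · rintro ⟨y, ⟨h1, h2⟩, rfl⟩
      exact ⟨y 0, y 1, y 2, h1 0, h1 1, h1 2, h2, rfl⟩
  rw [himg, vol_image a b c h, closed_open]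
  have hw := weight_formula (fun y : V3 => y 0 + y 1 + y 2) (by fun_prop)
    (by intro t _ y; simp only [Pi.smul_apply, smul_eq_mul]; ring)
    (by intro y hy
        have := hy 0; have := hy 1; have := hy 2
        positivity)
  have hg := gl_int 0 0 0
  have e : ∫⁻ y in O3, ENNReal.ofReal ((1 + (y 0 + y 1 + y 2)) * Real.exp (-(y 0 + y 1 + y 2))) = ENNReal.ofReal 4 := by
    have : (4:ℝ) = ∫ y in O3, gl 0 0 0 y := by rw [hg.2]; norm_num
    rw [this, ofReal_integral_eq_lintegral_ofReal hg.1]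
    · apply setLIntegral_congr_fun O3_meas
      intro y hy
      simp only [gl]
      congr 1
      ring
    · refine (ae_restrict_mem O3_meas).mono fun y hy => ?_
      have h0 := hy 0; have h1 := hy 1; have h2 := hy 2
      simp only [gl, Pi.zero_apply]
      have : 0 ≤ y 0 + y 1 + y 2 := by linarith
      apply mul_nonneg (Real.exp_pos _).le
      simp; linarith
  rw [e] at hw
  have hv : volume (O3 ∩ {y : V3 | y 0 + y 1 + y 2 ≤ 1}) = ENNReal.ofReal (1 / 6) := by
    have h24 : (24 : ENNReal) ≠ 0 := by norm_num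
    have h24' : (24 : ENNReal) ≠ ⊤ := by norm_num
    have : (24 : ENNReal) * volume (O3 ∩ {y : V3 | y 0 + y 1 + y 2 ≤ 1}) = 24 * ENNReal.ofReal (1 / 6) := by
      rw [← hw, show (24 : ENNReal) = ENNReal.ofReal 24 by norm_num, ← ENNReal.ofReal_mul (by norm_num)]
      norm_num
    exact (ENNReal.mul_right_inj h24 h24').mp this
  rw [hv, ← ENNReal.ofReal_mul h.le]
  congr 1
  ring

/-- norm of the parametrized point -/
private noncomputable def Nf (a b c : E) (y : V3) : ℝ := Real.sqrt (dot (par a b c y) (par a b c y))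

private theorem dot_self_nonneg_aux (z : E) : 0 ≤ dot z z := by
  unfold dot
  nlinarith [mul_self_nonneg (z 0), mul_self_nonneg (z 1), mul_self_nonneg (z 2)]

private theorem Nf_sq {a b c : E} (ha : dot a a = 1) (hb : dot b b = 1) (hc : dot c c = 1) (y : V3) :
    Nf a b c y ^ 2 = (y 0 + y 1 + y 2) ^ 2 - (dot (a - b) (a - b) * (y 0 * y 1) + dot (b - c) (b - c) * (y 1 * y 2)
      + dot (c - a) (c - a) * (y 2 * y 0)) := by
  rw [Nf, Real.sq_sqrt (dot_self_nonneg_aux _)]
  simp only [dot, par, PiLp.add_apply, PiLp.sub_apply, PiLp.smul_apply, smul_eq_mul] at *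
  linear_combination (y 0 ^ 2 + y 0 * y 1 + y 2 * y 0) * ha + (y 1 ^ 2 + y 0 * y 1 + y 1 * y 2) * hb
    + (y 2 ^ 2 + y 1 * y 2 + y 2 * y 0) * hc

private theorem Nf_meas (a b c : E) : Measurable (Nf a b c) := by
  have : Nf a b c = fun y : V3 => Real.sqrt ((y 0 * a 0 + y 1 * b 0 + y 2 * c 0) * (y 0 * a 0 + y 1 * b 0 + y 2 * c 0) +
    (y 0 * a 1 + y 1 * b 1 + y 2 * c 1) * (y 0 * a 1 + y 1 * b 1 + y 2 * c 1) +
    (y 0 * a 2 + y 1 * b 2 + y 2 * c 2) * (y 0 * a 2 + y 1 * b 2 + y 2 * c 2)) := by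
    funext y
    simp only [Nf, dot, par, PiLp.add_apply, PiLp.smul_apply, smul_eq_mul]
  rw [this]
  fun_prop

private theorem Nf_hom (a b c : E) (t : ℝ) (ht : 0 < t) (y : V3) : Nf a b c (t • y) = t * Nf a b c y := by
  unfold Nf
  rw [show t = Real.sqrt (t ^ 2) by rw [Real.sqrt_sq ht.le]]
  rw [← Real.sqrt_mul (by positivity)]
  rw [Real.sqrt_sq ht.le]
  congr 1
  simp only [dot, par, PiLp.add_apply, PiLp.smul_apply, smul_eq_mul, Pi.smul_apply]
  ring

private theorem cb_weight {a b c : E} (h : 0 < det a b c) :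
    24 * volume (CB a b c) = ENNReal.ofReal (det a b c) *
      ∫⁻ y in O3, ENNReal.ofReal ((1 + Nf a b c y) * Real.exp (-(Nf a b c y))) := by
  have himg : CB a b c = par a b c '' {y : V3 | (∀ i, 0 ≤ y i) ∧ Nf a b c y ≤ 1} := by
    ext z
    constructor
    · rintro ⟨α, β, γ, h1, h2, h3, rfl, h4⟩
      refine ⟨![α, β, γ], ⟨?_, ?_⟩, ?_⟩
      · intro i; fin_cases i <;> simp [h1, h2, h3]
      · rw [Nf, Real.sqrt_le_one]
        simpa [par] using h4
      · simp [par]
    · rintro ⟨y, ⟨h1, h2⟩, rfl⟩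
      refine ⟨y 0, y 1, y 2, h1 0, h1 1, h1 2, rfl, ?_⟩
      rw [Nf, Real.sqrt_le_one] at h2
      exact h2
  rw [himg, vol_image a b c h, closed_open, weight_formula (Nf a b c) (Nf_meas a b c) (Nf_hom a b c)
    (fun y _ => Real.sqrt_nonneg _)]
  ring

private theorem Q_nonneg (a b c : E) {y : V3} (hy : y ∈ O3) : 0 ≤ dot (a - b) (a - b) * (y 0 * y 1) +
    dot (b - c) (b - c) * (y 1 * y 2) + dot (c - a) (c - a) * (y 2 * y 0) := by
  have h0 := (hy 0).le; have h1 := (hy 1).le; have h2 := (hy 2).le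
  have := mul_nonneg (dot_self_nonneg_aux (a - b)) (mul_nonneg h0 h1)
  have := mul_nonneg (dot_self_nonneg_aux (b - c)) (mul_nonneg h1 h2)
  have := mul_nonneg (dot_self_nonneg_aux (c - a)) (mul_nonneg h2 h0)
  linarith

private theorem gl_nonneg (a b c : E) {y : V3} (hy : y ∈ O3) :
    0 ≤ gl (dot (a - b) (a - b)) (dot (b - c) (b - c)) (dot (c - a) (c - a)) y := by
  have h0 := (hy 0).le; have h1 := (hy 1).le; have h2 := (hy 2).le
  unfold gl
  have := Q_nonneg a b c hy
  exact mul_nonneg (Real.exp_pos _).le (by linarith)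

private theorem Nf_le {a b c : E} (ha : dot a a = 1) (hb : dot b b = 1) (hc : dot c c = 1) {y : V3} (hy : y ∈ O3) :
    Nf a b c y ≤ y 0 + y 1 + y 2 := by
  have h0 := (hy 0).le; have h1 := (hy 1).le; have h2 := (hy 2).le
  have := Q_nonneg a b c hy
  apply le_of_sq_le_sq _ (by linarith)
  rw [Nf_sq ha hb hc]
  linarith

private theorem cb_lower' {a b c : E} (ha : dot a a = 1) (hb : dot b b = 1)
    (hc : dot c c = 1) :
    ENNReal.ofReal (4 + Zs a b c / 2) ≤
      ∫⁻ y in O3, ENNReal.ofReal ((1 + Nf a b c y) * Real.exp (-(Nf a b c y))) := by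
  have hg := gl_int (dot (a - b) (a - b)) (dot (b - c) (b - c)) (dot (c - a) (c - a))
  have e : 4 + Zs a b c / 2 = ∫ y in O3, gl (dot (a - b) (a - b)) (dot (b - c) (b - c)) (dot (c - a) (c - a)) y := by
    rw [hg.2]; rfl
  rw [e, ofReal_integral_eq_lintegral_ofReal hg.1]
  · apply setLIntegral_mono' O3_meas
    intro y hy
    apply ENNReal.ofReal_le_ofReal
    exact K_lower (Real.sqrt_nonneg _) (Nf_le ha hb hc hy) (Nf_sq ha hb hc y)
  · exact (ae_restrict_mem O3_meas).mono fun y hy => gl_nonneg a b c hy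

private theorem cb_upper' {a b c : E} (ha : dot a a = 1) (hb : dot b b = 1)
    (hc : dot c c = 1) {q : ℝ} (hq : q ≤ 1 / 4) (h1 : dot (a - b) (a - b) ≤ q)
    (h2 : dot (b - c) (b - c) ≤ q) (h3 : dot (c - a) (c - a) ≤ q) :
      ∫⁻ y in O3, ENNReal.ofReal ((1 + Nf a b c y) * Real.exp (-(Nf a b c y))) ≤
    ENNReal.ofReal (4 + Zs a b c / 2 + q ^ 2 / 2 * (18 * (12 / 11) ^ 6)) := by
  have hg := gl_int (dot (a - b) (a - b)) (dot (b - c) (b - c)) (dot (c - a) (c - a))
  have hq0 : 0 ≤ q := (dot_self_nonneg_aux (a - b)).trans h1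
  have hi : IntegrableOn (fun y => gl (dot (a - b) (a - b)) (dot (b - c) (b - c)) (dot (c - a) (c - a)) y
      + q ^ 2 / 2 * gr y) O3 := hg.1.add (gr_int.1.const_mul _)
  have e : 4 + Zs a b c / 2 + q ^ 2 / 2 * (18 * (12 / 11) ^ 6) = ∫ y in O3, (gl (dot (a - b) (a - b)) (dot (b - c) (b - c)) (dot (c - a) (c - a)) y
      + q ^ 2 / 2 * gr y) := by
    rw [integral_add hg.1 (gr_int.1.const_mul _), integral_const_mul, hg.2, gr_int.2]; rfl
  have hgr : ∀ y ∈ O3, 0 ≤ gr y := by
    intro y hy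
    have h0 := (hy 0).le; have h1 := (hy 1).le; have h2 := (hy 2).le
    unfold gr mon
    positivity
  rw [e, ofReal_integral_eq_lintegral_ofReal hi]
  · apply setLIntegral_mono' O3_meas
    intro y hy
    apply ENNReal.ofReal_le_ofReal
    have y0 := (hy 0); have y1 := (hy 1); have y2 := (hy 2)
    have hs : 0 < y 0 + y 1 + y 2 := by linarith
    have hQq : dot (a - b) (a - b) * (y 0 * y 1) + dot (b - c) (b - c) * (y 1 * y 2)
        + dot (c - a) (c - a) * (y 2 * y 0) ≤ q * (y 0 + y 1 + y 2) ^ 2 / 3 := by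
      have a1 := mul_le_mul_of_nonneg_right h1 (mul_nonneg y0.le y1.le)
      have a2 := mul_le_mul_of_nonneg_right h2 (mul_nonneg y1.le y2.le)
      have a3 := mul_le_mul_of_nonneg_right h3 (mul_nonneg y2.le y0.le)
      have a4 : q * (y 0 * y 1 + y 1 * y 2 + y 2 * y 0) ≤ q * ((y 0 + y 1 + y 2) ^ 2 / 3) := by
        apply mul_le_mul_of_nonneg_left _ hq0
        nlinarith [sq_nonneg (y 0 - y 1), sq_nonneg (y 1 - y 2), sq_nonneg (y 2 - y 0)]
      linarith
    have hk := K_upper (Real.sqrt_nonneg _) hs (Nf_le ha hb hc hy) (Nf_sq ha hb hc y) hq0 hq hQq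
    refine hk.trans ?_
    have hcu := cube_le y0.le y1.le y2.le
    have hE := Real.exp_pos (-(11 / 12 * (y 0 + y 1 + y 2)))
    have hm : (y 0 + y 1 + y 2) ^ 3 * Real.exp (-(11 / 12 * (y 0 + y 1 + y 2))) ≤ 9 * gr y := by
      have := mul_le_mul_of_nonneg_right hcu hE.le
      refine this.trans (le_of_eq ?_)
      simp only [gr, mon, pow_zero, one_mul, mul_one]
      ring
    have hm2 := mul_le_mul_of_nonneg_left hm (show 0 ≤ q ^ 2 / 18 by positivity)
    unfold gl
    linarith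
  · refine (ae_restrict_mem O3_meas).mono fun y hy => ?_
    have a1 := gl_nonneg a b c hy
    have a2 := hgr y hy
    simp only [Pi.zero_apply]
    positivity

private theorem cb_real {a b c : E} (h : 0 < det a b c) (hfin : ∫⁻ y in O3, ENNReal.ofReal ((1 + Nf a b c y) * Real.exp (-(Nf a b c y))) ≠ ⊤) :
    (volume (CB a b c)).toReal = det a b c / 24 *
      (∫⁻ y in O3, ENNReal.ofReal ((1 + Nf a b c y) * Real.exp (-(Nf a b c y)))).toReal := by
  have hw := congrArg ENNReal.toReal (cb_weight h)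
  rw [ENNReal.toReal_mul, ENNReal.toReal_mul, ENNReal.toReal_ofReal h.le] at hw
  have : (24 : ENNReal).toReal = 24 := by simp
  rw [this] at hw
  linarith

private theorem nf_fin {a b c : E} (h : 0 < det a b c) :
    ∫⁻ y in O3, ENNReal.ofReal ((1 + Nf a b c y) * Real.exp (-(Nf a b c y))) ≠ ⊤ := by
  have hw := cb_weight h
  have hfin : volume (CB a b c) ≠ ⊤ := by
    have hsub : CB a b c ⊆ Metric.closedBall (0 : E) 1 := by
      rintro z ⟨α, β, γ, _, _, _, _, h4⟩
      rw [mem_closedBall_zero_iff, EuclideanSpace.norm_eq, Real.sqrt_le_one]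
      simp only [Real.norm_eq_abs, sq_abs, Fin.sum_univ_three]
      unfold dot at h4
      linarith [h4, sq (z 0), sq (z 1), sq (z 2)]
    exact ((measure_mono hsub).trans_lt measure_closedBall_lt_top).ne
  intro htop
  rw [htop, ENNReal.mul_top (by simpa using h)] at hw
  exact (ENNReal.mul_ne_top (by norm_num) hfin) hw

theorem vol_cb_lower {a b c : E} (h : 0 < det a b c) (ha : dot a a = 1) (hb : dot b b = 1)
    (hc : dot c c = 1) :
    det a b c / 6 * (1 + Zs a b c / 8) ≤ (volume (CB a b c)).toReal := by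
  have hfin := nf_fin h
  rw [cb_real h hfin]
  have hl := ENNReal.toReal_mono hfin (cb_lower' ha hb hc)
  rw [ENNReal.toReal_ofReal] at hl
  · have := mul_le_mul_of_nonneg_left hl (show 0 ≤ det a b c / 24 by positivity)
    refine le_trans (le_of_eq ?_) this
    ring
  · have h1 := dot_self_nonneg_aux (a - b)
    have h2 := dot_self_nonneg_aux (b - c)
    have h3 := dot_self_nonneg_aux (c - a)
    unfold Zs
    linarith

theorem vol_cb_upper {a b c : E} (h : 0 < det a b c) (ha : dot a a = 1) (hb : dot b b = 1)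
    (hc : dot c c = 1) {q : ℝ} (hq : q ≤ 1 / 4) (h1 : dot (a - b) (a - b) ≤ q)
    (h2 : dot (b - c) (b - c) ≤ q) (h3 : dot (c - a) (c - a) ≤ q) :
    (volume (CB a b c)).toReal ≤ det a b c / 6 * (1 + Zs a b c / 8 + 10 * q ^ 2) := by
  have hfin := nf_fin h
  rw [cb_real h hfin]
  have hu := ENNReal.toReal_mono ENNReal.ofReal_ne_top (cb_upper' ha hb hc hq h1 h2 h3)
  rw [ENNReal.toReal_ofReal] at hu
  · have := mul_le_mul_of_nonneg_left hu (show 0 ≤ det a b c / 24 by positivity)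
    refine this.trans ?_
    have hq2 : 0 ≤ q ^ 2 := sq_nonneg q
    have e1 : det a b c / 24 * (4 + Zs a b c / 2 + q ^ 2 / 2 * (18 * (12 / 11) ^ 6)) =
      det a b c / 6 * (1 + Zs a b c / 8) + det a b c / 24 * (q ^ 2 / 2 * (18 * (12 / 11) ^ 6)) := by ring
    have e2 : det a b c / 6 * (1 + Zs a b c / 8 + 10 * q ^ 2) =
      det a b c / 6 * (1 + Zs a b c / 8) + det a b c / 24 * (40 * q ^ 2) := by ring
    rw [e1, e2]
    have : q ^ 2 / 2 * (18 * (12 / 11) ^ 6) ≤ 40 * q ^ 2 := by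
      norm_num
      nlinarith
    have := mul_le_mul_of_nonneg_left this (show 0 ≤ det a b c / 24 by positivity)
    linarith
  · have h1 := dot_self_nonneg_aux (a - b)
    have h2 := dot_self_nonneg_aux (b - c)
    have h3 := dot_self_nonneg_aux (c - a)
    unfold Zs
    positivity

end Med
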