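import Pool.Agent.Med.Frozen
import Pool.Agent.Med.VolCone
/- proof by helper285 (job 3338) -/

set_option autoImplicit false

open Finset MeasureTheory

namespace Med

/-- tetrahedron over the left facet of a dart -/
def TetD (S : Finset E) (d : E × E) : Set E := Tet d.1 d.2 (third S d.1 d.2)
/-- ball sector over the left facet of a dart -/
def CBD (S : Finset E) (d : E × E) : Set E := CB d.1 d.2 (third S d.1 d.2)

/-- the cone over the left facet of a dart -/
def ConeD (S : Finset E) (d : E × E) : Set E := {z | InC d.1 d.2 (third S d.1 d.2) z}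

lemma ConeD_closed {S : Finset E} {d : E × E} (hd : d ∈ darts S) : IsClosed (ConeD S d) :=
  isClosed_inC (third_spec (mem_darts.1 hd)).2.2.2.1

lemma ConeD_meas {S : Finset E} {d : E × E} (hd : d ∈ darts S) : MeasurableSet (ConeD S d) :=
  (ConeD_closed hd).measurableSet

lemma generic_cone {S : Finset E} (hS : Simp S) {z : E}
    (hz : ∀ d ∈ darts S, det d.1 d.2 z ≠ 0) :
    ∃ a b c, Tri S a b c ∧
      ∀ e ∈ darts S, (z ∈ ConeD S e ↔ e = (a, b) ∨ e = (b, c) ∨ e = (c, a)) := by
  obtain ⟨a, b, c, ht, hin⟩ := cover hS z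
  refine ⟨a, b, c, ht, fun e he => ⟨fun hze => ?_, fun hze => ?_⟩⟩
  · have hd := ht.2.2.2.1
    obtain ⟨g1, g2, g3⟩ := (inC_iff hd).1 hin
    have n1 : det a b z ≠ 0 := hz (a, b) (mem_darts.2 ⟨c, ht⟩)
    have n2 : det b c z ≠ 0 := hz (b, c) (mem_darts.2 ⟨a, ht.cyc⟩)
    have n3 : det c a z ≠ 0 := hz (c, a) (mem_darts.2 ⟨b, ht.cyc.cyc⟩)
    have p1 : 0 < det z b c := lt_of_le_of_ne g1 (by rw [← det_cyc]; exact n2.symm)
    have p2 : 0 < det a z c := lt_of_le_of_ne g2 (by rw [← det_cyc']; exact n3.symm)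
    have p3 : 0 < det a b z := lt_of_le_of_ne g3 n1.symm
    have hin' := hin
    obtain ⟨α, β, γ, h1, h2, h3, hzz⟩ := hin'
    have e1 : det z b c = α * det a b c := by
      rw [hzz]
      simp only [det_add_left, det_smul_left, det_self12, det_self13, mul_zero, add_zero]
    have e2 : det a z c = β * det a b c := by
      rw [hzz]
      simp only [det_add_mid, det_smul_mid, det_self12, det_self23, mul_zero, add_zero, zero_add]
    have e3 : det a b z = γ * det a b c := by
      rw [hzz]
      simp only [det_add_right, det_smul_right, det_self13, det_self23, mul_zero, add_zero,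
        zero_add]
    have q1 : 0 < α := by
      rw [e1] at p1; exact (pos_iff_pos_of_mul_pos p1).2 hd
    have q2 : 0 < β := by
      rw [e2] at p2; exact (pos_iff_pos_of_mul_pos p2).2 hd
    have q3 : 0 < γ := by
      rw [e3] at p3; exact (pos_iff_pos_of_mul_pos p3).2 hd
    obtain ⟨x, y⟩ := e
    have ht' : Tri S x y (third S x y) := third_spec (mem_darts.1 he)
    have hze' : InC x y (third S x y) z := hze
    generalize third S x y = w at ht' hze'
    have c1 := carrier ht ht' q1 h2 h3 (by rw [← hzz]; exact hze')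
    have c2 := carrier ht.cyc ht' q2 h3 h1 (by
      have : β • b + γ • c + α • a = z := by rw [hzz]; abel
      rw [this]; exact hze')
    have c3 := carrier ht.cyc.cyc ht' q3 h1 h2 (by
      have : γ • c + α • a + β • b = z := by rw [hzz]; abel
      rw [this]; exact hze')
    have hd' := ht'.2.2.2.1
    have m1 := ht.ne_ab
    have m2 := ht.ne_bc
    have m3 := ht.ne_ac
    clear hz hze hze' hin n1 n2 n3 p1 p2 p3 g1 g2 g3 e1 e2 e3 q1 q2 q3 hzz h1 h2 h3 ht ht' he
    rcases c1 with rfl | rfl | rfl <;> rcases c2 with rfl | rfl | rfl <;>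
      rcases c3 with rfl | rfl | rfl <;>
      first
      | exact absurd rfl m1
      | exact absurd rfl m2
      | exact absurd rfl m3
      | exact Or.inl rfl
      | exact Or.inr (Or.inl rfl)
      | exact Or.inr (Or.inr rfl)
      | (exfalso; simp only [det] at hd hd'; linarith)
  · rcases hze with rfl | rfl | rfl
    · show InC a b (third S a b) z
      rw [third_eq ht]; exact hin
    · show InC b c (third S b c) z
      rw [third_eq ht.cyc]; exact hin.cyc
    · show InC c a (third S c a) z
      rw [third_eq ht.cyc.cyc]; exact hin.cyc.cyc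

open Classical in
lemma generic_count {S : Finset E} (hS : Simp S) {z : E}
    (hz : ∀ d ∈ darts S, det d.1 d.2 z ≠ 0) :
    ((darts S).filter (fun e => z ∈ ConeD S e)).card = 3 := by
  obtain ⟨a, b, c, ht, h⟩ := generic_cone hS hz
  have m1 := ht.ne_ab
  have m2 := ht.ne_bc
  have m3 := ht.ne_ac
  have : (darts S).filter (fun e => z ∈ ConeD S e) = {(a, b), (b, c), (c, a)} := by
    ext e
    simp only [Finset.mem_filter, Finset.mem_insert, Finset.mem_singleton]
    constructor
    · rintro ⟨h1, h2⟩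
      exact (h e h1).1 h2
    · intro h1
      have h2 : e ∈ darts S := by
        rcases h1 with rfl | rfl | rfl
        · exact mem_darts.2 ⟨c, ht⟩
        · exact mem_darts.2 ⟨a, ht.cyc⟩
        · exact mem_darts.2 ⟨b, ht.cyc.cyc⟩
      exact ⟨h2, (h e h2).2 h1⟩
  rw [this, Finset.card_insert_of_notMem, Finset.card_insert_of_notMem, Finset.card_singleton]
  · simp only [Finset.mem_singleton, Prod.mk.injEq, not_and]
    intro h1; exact absurd h1 m2
  · simp only [Finset.mem_insert, Finset.mem_singleton, Prod.mk.injEq, not_or, not_and]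
    exact ⟨fun h1 => absurd h1 m1, fun h1 => absurd h1 m3⟩

lemma ae_generic {S : Finset E} : ∀ᵐ z : E, ∀ d ∈ darts S, det d.1 d.2 z ≠ 0 := by
  rw [Filter.eventually_all_finset]
  intro d hd
  have hd' := (third_spec (mem_darts.1 hd)).2.2.2.1
  have hset : {z : E | ¬ det d.1 d.2 z ≠ 0} =
      ((LinearMap.ker (innerₗ E (cr d.1 d.2)) : Submodule ℝ E) : Set E) := by
    ext z
    simp only [ne_eq, not_not, Set.mem_ofPred_eq, SetLike.mem_coe, LinearMap.mem_ker, innerₗ_apply_apply]
    rw [inner_eq, dot_cr]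
  rw [ae_iff, hset]
  apply Measure.addHaar_submodule
  intro h
  have h1 : third S d.1 d.2 ∈ (LinearMap.ker (innerₗ E (cr d.1 d.2)) : Submodule ℝ E) := by
    rw [h]; trivial
  rw [LinearMap.mem_ker, innerₗ_apply_apply, inner_eq, dot_cr] at h1
  exact hd'.ne' h1

/-- almost every point is covered three times -/
lemma sum_cone_inter {S : Finset E} (hS : Simp S) (K : Set E) :
    ∑ d ∈ darts S, volume (ConeD S d ∩ K) = 3 * volume K := by
  classical
  have h1 : ∀ d ∈ darts S, volume (ConeD S d ∩ K) =
      ∫⁻ z in K, (ConeD S d).indicator (fun _ => (1 : ENNReal)) z := by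
    intro d hd
    rw [lintegral_indicator (ConeD_meas hd), setLIntegral_one, Measure.restrict_apply (ConeD_meas hd)]
  rw [Finset.sum_congr rfl h1, ← lintegral_finsetSum]
  · have h2 : ∫⁻ z in K, ∑ d ∈ darts S, (ConeD S d).indicator (fun _ => (1 : ENNReal)) z =
        ∫⁻ z in K, 3 := by
      apply lintegral_congr_ae
      filter_upwards [ae_restrict_of_ae (ae_generic (S := S))] with z hz
      have := generic_count hS hz
      simp only [Set.indicator_apply]
      rw [Finset.sum_boole, this]
      norm_num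
    rw [h2, setLIntegral_const]
  · intro d hd
    exact measurable_const.indicator (ConeD_meas hd)


lemma inner_mem {S : Finset E} {z : E}
    (hz : z ∈ convexHull ℝ (S : Set E)) {m : E} (hm : ∀ p ∈ S, dot m p ≤ 1) : dot m z ≤ 1 := by
  have hconv : Convex ℝ {x : E | dot m x ≤ 1} := by
    have : {x : E | dot m x ≤ 1} = {x : E | innerₗ E m x ≤ 1} := by
      ext x; simp only [Set.mem_ofPred_eq, innerₗ_apply_apply, inner_eq]
    rw [this]
    exact convex_halfSpace_le (innerₗ E m).isLinear 1
  exact convexHull_min (fun p hp => hm p hp) hconv hz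

lemma zero_mem_hull {S : Finset E} (hS : Simp S) : (0 : E) ∈ convexHull ℝ (S : Set E) := by
  obtain ⟨p, q, r, hp, -⟩ := cover hS 0
  obtain ⟨a, b, c, ht, α, β, γ, h1, h2, h3, he⟩ := cover hS (-p)
  have hpos : 0 < 1 + (α + β + γ) := by positivity
  have hconv := convex_convexHull ℝ (S : Set E)
  have hpm := subset_convexHull ℝ (S : Set E) hp.1
  have ham := subset_convexHull ℝ (S : Set E) ht.1
  have hbm := subset_convexHull ℝ (S : Set E) ht.2.1
  have hcm := subset_convexHull ℝ (S : Set E) ht.2.2.1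
  rcases eq_or_lt_of_le (show 0 ≤ α + β + γ by positivity) with h | h
  · have : α = 0 := by linarith
    have hb : β = 0 := by linarith
    have hc : γ = 0 := by linarith
    rw [this, hb, hc] at he
    have : p = 0 := by
      have h0 : -p = 0 := by rw [he]; simp
      exact neg_eq_zero.1 h0
    rw [this] at hpm
    exact hpm
  · have hmid : (α / (α + β + γ)) • a + (β / (α + β + γ)) • b + (γ / (α + β + γ)) • c ∈
        convexHull ℝ (S : Set E) := by
      have h4 := hconv.sum_mem (t := Finset.univ) (w := ![α / (α + β + γ), β / (α + β + γ), γ / (α + β + γ)])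
        (z := ![a, b, c]) (by
          intro i _; fin_cases i <;> simp <;> positivity) (by
          simp [Fin.sum_univ_three]; field_simp) (by
          intro i _; fin_cases i <;> simp <;> assumption)
      simpa [Fin.sum_univ_three] using h4
    have h5 := hconv hpm hmid (a := 1 / (1 + (α + β + γ))) (b := (α + β + γ) / (1 + (α + β + γ)))
      (by positivity) (by positivity) (by field_simp)
    have h6 : (1 / (1 + (α + β + γ))) • p + ((α + β + γ) / (1 + (α + β + γ))) •
        ((α / (α + β + γ)) • a + (β / (α + β + γ)) • b + (γ / (α + β + γ)) • c) = 0 := by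
      have h7 : ((α + β + γ) / (1 + (α + β + γ))) •
        ((α / (α + β + γ)) • a + (β / (α + β + γ)) • b + (γ / (α + β + γ)) • c) =
        (1 / (1 + (α + β + γ))) • (α • a + β • b + γ • c) := by
        simp only [smul_add, smul_smul]
        congr 1
        · congr 1
          · congr 1; field_simp
          · congr 1; field_simp
        · congr 1; field_simp
      rw [h7, ← he]; module
    rwa [h6] at h5

/-- the tetrahedron is the part of the hull in the cone -/
lemma TetD_eq {S : Finset E} (hS : Simp S) {d : E × E} (hd : d ∈ darts S) :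
    TetD S d = ConeD S d ∩ convexHull ℝ (S : Set E) := by
  have ht := third_spec (mem_darts.1 hd)
  obtain ⟨m, m1, m2, m3, m4⟩ := ht.exists_dual
  have hconv := convex_convexHull ℝ (S : Set E)
  have ham := subset_convexHull ℝ (S : Set E) ht.1
  have hbm := subset_convexHull ℝ (S : Set E) ht.2.1
  have hcm := subset_convexHull ℝ (S : Set E) ht.2.2.1
  have h0 := zero_mem_hull hS
  ext z
  constructor
  · rintro ⟨α, β, γ, h1, h2, h3, h4, he⟩
    refine ⟨⟨α, β, γ, h1, h2, h3, he⟩, ?_⟩
    have h5 := hconv.sum_mem (t := Finset.univ) (w := ![1 - (α + β + γ), α, β, γ])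
        (z := ![0, d.1, d.2, third S d.1 d.2]) (by
          intro i _; fin_cases i <;> simp <;> linarith) (by
          simp [Fin.sum_univ_four]; ring) (by
          intro i _; fin_cases i <;> simp <;> assumption)
    rw [he]
    simpa [Fin.sum_univ_four] using h5
  · rintro ⟨⟨α, β, γ, h1, h2, h3, he⟩, hz⟩
    refine ⟨α, β, γ, h1, h2, h3, ?_, he⟩
    have h5 := inner_mem hz m4
    rw [he, dot_add, dot_add, dot_smul, dot_smul, dot_smul, m1, m2, m3] at h5
    linarith

lemma CBD_eq {S : Finset E} {d : E × E} :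
    CBD S d = ConeD S d ∩ {z | dot z z ≤ 1} := by
  ext z
  constructor
  · rintro ⟨α, β, γ, h1, h2, h3, he, h4⟩
    exact ⟨⟨α, β, γ, h1, h2, h3, he⟩, h4⟩
  · rintro ⟨⟨α, β, γ, h1, h2, h3, he⟩, h4⟩
    exact ⟨α, β, γ, h1, h2, h3, he, h4⟩

lemma ball_eq : {z : E | dot z z ≤ 1} = Metric.closedBall 0 1 := by
  ext z
  simp only [Set.mem_ofPred_eq, mem_closedBall_zero_iff, dot_self]
  rw [sq_le_one_iff_abs_le_one, abs_norm]

lemma vol_ball : volume {z : E | dot z z ≤ 1} = ENNReal.ofReal (4 / 3 * Real.pi) := by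
  rw [ball_eq, EuclideanSpace.volume_closedBall_fin_three, ENNReal.ofReal_one, one_pow, one_mul]
  congr 1; ring

lemma hull_meas (S : Finset E) : MeasurableSet (convexHull ℝ (S : Set E)) :=
  ((Finset.finite_toSet S).isCompact_convexHull (𝕜 := ℝ)).isClosed.measurableSet

lemma hull_fin (S : Finset E) : volume (convexHull ℝ (S : Set E)) ≠ ⊤ :=
  ((Finset.finite_toSet S).isCompact_convexHull (𝕜 := ℝ)).measure_lt_top.ne

lemma hull_ball {S : Finset E} (hS : Simp S) :
    convexHull ℝ (S : Set E) ⊆ {z : E | dot z z ≤ 1} := by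
  rw [ball_eq]
  apply convexHull_min _ (convex_closedBall 0 1)
  rw [← ball_eq]
  intro p hp
  exact (hS.unit p hp).le

theorem sum_CBD {S : Finset E} (hS : Simp S) :
    ∑ d ∈ darts S, (volume (CBD S d)).toReal = 4 * Real.pi := by
  have hfin : volume {z : E | dot z z ≤ 1} ≠ ⊤ := by rw [vol_ball]; exact ENNReal.ofReal_ne_top
  rw [← ENNReal.toReal_sum]
  · simp only [CBD_eq]
    rw [sum_cone_inter hS, vol_ball, ENNReal.toReal_mul, ENNReal.toReal_ofReal (by positivity)]
    simp only [ENNReal.toReal_ofNat]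
    ring
  · intro d _
    rw [CBD_eq]
    exact ne_top_of_le_ne_top hfin (measure_mono Set.inter_subset_right)

theorem sum_TetD {S : Finset E} (hS : Simp S) :
    ∑ d ∈ darts S, (volume (TetD S d)).toReal =
      3 * (volume (convexHull ℝ (S : Set E))).toReal := by
  rw [← ENNReal.toReal_sum]
  · rw [Finset.sum_congr rfl fun d hd => by rw [TetD_eq hS hd], sum_cone_inter hS,
      ENNReal.toReal_mul]
    simp only [ENNReal.toReal_ofNat]
  · intro d hd
    rw [TetD_eq hS hd]
    exact ne_top_of_le_ne_top (hull_fin S) (measure_mono Set.inter_subset_right)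

theorem sum_TetD_le {S : Finset E} (hS : Simp S) {D : Finset (E × E)} (hD : D ⊆ darts S)
    {K : Set E} (hK : MeasurableSet K) (hKf : volume K ≠ ⊤) (h : ∀ d ∈ D, TetD S d ⊆ K) :
    ∑ d ∈ D, (volume (TetD S d)).toReal ≤ 3 * (volume K).toReal := by
  have hfin : ∀ d ∈ D, volume (TetD S d) ≠ ⊤ := fun d hd =>
    ne_top_of_le_ne_top hKf (measure_mono (h d hd))
  rw [← ENNReal.toReal_sum hfin]
  have h1 : ∑ d ∈ D, volume (TetD S d) ≤ 3 * volume K := by
    calc ∑ d ∈ D, volume (TetD S d) ≤ ∑ d ∈ D, volume (ConeD S d ∩ K) := by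
          refine Finset.sum_le_sum fun d hd => measure_mono (Set.subset_inter ?_ (h d hd))
          rw [TetD_eq hS (hD hd)]; exact Set.inter_subset_left
      _ ≤ ∑ d ∈ darts S, volume (ConeD S d ∩ K) :=
          Finset.sum_le_sum_of_subset hD
      _ = 3 * volume K := sum_cone_inter hS K
  have h2 : (3 * volume K).toReal = 3 * (volume K).toReal := by
    rw [ENNReal.toReal_mul]; simp only [ENNReal.toReal_ofNat]
  rw [← h2]
  exact ENNReal.toReal_mono (ENNReal.mul_ne_top (by norm_num) hKf) h1

lemma sum_inter_D {S : Finset E} (hS : Simp S) {D : Finset (E × E)} (hD : D ⊆ darts S)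
    {K : Set E}
    (h : ∀ z ∈ K, ∀ d ∈ darts S, InC d.1 d.2 (third S d.1 d.2) z → d ∈ D) :
    3 * volume K = ∑ d ∈ D, volume (ConeD S d ∩ K) := by
  rw [← sum_cone_inter hS K]
  symm
  apply Finset.sum_subset hD
  intro d hd hdD
  have : ConeD S d ∩ K = ∅ := by
    ext z
    simp only [Set.mem_inter_iff, Set.mem_empty_iff_false, iff_false, not_and]
    intro h1 h2
    exact hdD (h z h2 d hd h1)
  rw [this]; exact measure_empty

lemma CBD_fin {S : Finset E} {d : E × E} : volume (CBD S d) ≠ ⊤ := by
  have hfin : volume {z : E | dot z z ≤ 1} ≠ ⊤ := by rw [vol_ball]; exact ENNReal.ofReal_ne_top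
  rw [CBD_eq]
  exact ne_top_of_le_ne_top hfin (measure_mono Set.inter_subset_right)

/-- if every facet cone meeting `K` belongs to `D` then `K` is covered three times -/
theorem le_sum_CBD {S : Finset E} (hS : Simp S) {D : Finset (E × E)} (hD : D ⊆ darts S)
    {K : Set E} (hK : MeasurableSet K) (hKb : ∀ z ∈ K, dot z z ≤ 1)
    (h : ∀ z ∈ K, ∀ d ∈ darts S, InC d.1 d.2 (third S d.1 d.2) z → d ∈ D) :
    3 * (volume K).toReal ≤ ∑ d ∈ D, (volume (CBD S d)).toReal := by
  have h2 : (3 * volume K).toReal = 3 * (volume K).toReal := by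
    rw [ENNReal.toReal_mul]; simp only [ENNReal.toReal_ofNat]
  rw [← ENNReal.toReal_sum fun d _ => CBD_fin, ← h2, sum_inter_D hS hD h]
  apply ENNReal.toReal_mono
  · exact ENNReal.sum_ne_top.2 fun d _ => CBD_fin
  · refine Finset.sum_le_sum fun d _ => measure_mono ?_
    rw [CBD_eq]
    exact Set.inter_subset_inter_right _ hKb

/-- a part of the ball missed by the polyhedron -/
theorem hole_le {S : Finset E} (hS : Simp S) {D : Finset (E × E)} (hD : D ⊆ darts S)
    {K : Set E} (hK : MeasurableSet K) (hKb : ∀ z ∈ K, dot z z ≤ 1)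
    (hmiss : ∀ z ∈ K, z ∉ convexHull ℝ (S : Set E))
    (h : ∀ z ∈ K, ∀ d ∈ darts S, InC d.1 d.2 (third S d.1 d.2) z → d ∈ D) :
    3 * (volume K).toReal ≤
      ∑ d ∈ D, ((volume (CBD S d)).toReal - (volume (TetD S d)).toReal) := by
  have h2 : (3 * volume K).toReal = 3 * (volume K).toReal := by
    rw [ENNReal.toReal_mul]; simp only [ENNReal.toReal_ofNat]
  have hsub : ∀ d ∈ D, TetD S d ⊆ CBD S d := by
    intro d hd
    rw [TetD_eq hS (hD hd), CBD_eq]
    exact Set.inter_subset_inter_right _ (hull_ball hS)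
  have hmeas : ∀ d ∈ D, MeasurableSet (TetD S d) := by
    intro d hd
    rw [TetD_eq hS (hD hd)]
    exact (ConeD_meas (hD hd)).inter (hull_meas S)
  have hfinT : ∀ d ∈ D, volume (TetD S d) ≠ ⊤ := fun d hd =>
    ne_top_of_le_ne_top CBD_fin (measure_mono (hsub d hd))
  have h3 : ∀ d ∈ D, (volume (CBD S d)).toReal - (volume (TetD S d)).toReal =
      (volume (CBD S d \ TetD S d)).toReal := by
    intro d hd
    rw [measure_sdiff (hsub d hd) (hmeas d hd).nullMeasurableSet (hfinT d hd),
      ENNReal.toReal_sub_of_le (measure_mono (hsub d hd)) CBD_fin]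
  rw [Finset.sum_congr rfl h3]
  have hfinD : ∀ d ∈ D, volume (CBD S d \ TetD S d) ≠ ⊤ := fun d _ =>
    ne_top_of_le_ne_top CBD_fin (measure_mono Set.sdiff_subset)
  rw [← ENNReal.toReal_sum hfinD, ← h2, sum_inter_D hS hD h]
  apply ENNReal.toReal_mono
  · exact ENNReal.sum_ne_top.2 hfinD
  · refine Finset.sum_le_sum fun d hd => measure_mono ?_
    rintro z ⟨h4, h5⟩
    refine ⟨?_, ?_⟩
    · rw [CBD_eq]; exact ⟨h4, hKb z h5⟩
    · rw [TetD_eq hS (hD hd)]
      exact fun h6 => hmiss z h5 h6.2

end Med
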