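import Pool.Agent.Med.StepLen
import Pool.Agent.Med.VolSum

set_option autoImplicit false

open Finset MeasureTheory

namespace Med

/-- the set of darts whose left facet is not nearly equilateral of side `s`, or too small -/
noncomputable def badD (S : Finset E) (s θ η : ℝ) : Finset (E × E) :=
  open Classical in (darts S).filter (fun d =>
    ¬ (NearD S s θ d ∧ (1 - η) * (√3 * s ^ 2 / 12) ≤ det d.1 d.2 (third S d.1 d.2) / 6))

namespace BadCount

theorem cs (w a : E) : dot w a ^ 2 ≤ dot w w * dot a a := by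
  have := real_inner_mul_inner_self_le w a
  rw [inner_eq, inner_eq, inner_eq] at this
  nlinarith

/-- quantitative Weitzenboeck inequality -/
theorem weitz {a b c : E} (ha : dot a a = 1) :
    2 * ((dot (a - b) (a - b) - dot (b - c) (b - c)) ^ 2 +
      (dot (b - c) (b - c) - dot (c - a) (c - a)) ^ 2 +
      (dot (c - a) (c - a) - dot (a - b) (a - b)) ^ 2) ≤ Zs a b c ^ 2 - 12 * det a b c ^ 2 := by
  have h1 : det a b c = dot (cr (b - a) (c - a)) a := by
    simp only [det, dot, cr, PiLp.sub_apply]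
    simp
    ring
  have h2 : dot (cr (b - a) (c - a)) (cr (b - a) (c - a)) =
      dot (a - b) (a - b) * dot (c - a) (c - a) -
        (dot (a - b) (a - b) + dot (c - a) (c - a) - dot (b - c) (b - c)) ^ 2 / 4 := by
    simp only [dot, cr, PiLp.sub_apply]
    simp
    ring
  have h3 := cs (cr (b - a) (c - a)) a
  rw [← h1, ha, mul_one, h2] at h3
  unfold Zs
  nlinarith

/-- the volume of the tetrahedron of a dart -/
noncomputable def Vd (S : Finset E) (d : E × E) : ℝ := det d.1 d.2 (third S d.1 d.2) / 6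
/-- the sum of squares of a dart -/
noncomputable def Zd (S : Finset E) (d : E × E) : ℝ := Zs d.1 d.2 (third S d.1 d.2)

section
variable {S : Finset E}

theorem Vd_pos {d : E × E} (hd : d ∈ darts S) : 0 < Vd S d := by
  have := (third_spec (mem_darts.1 hd)).2.2.2.1
  unfold Vd; linarith

theorem unit1 (hS : Simp S) {d : E × E} (hd : d ∈ darts S) : dot d.1 d.1 = 1 :=
  hS.unit _ (third_spec (mem_darts.1 hd)).1
theorem unit2 (hS : Simp S) {d : E × E} (hd : d ∈ darts S) : dot d.2 d.2 = 1 :=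
  hS.unit _ (third_spec (mem_darts.1 hd)).2.1
theorem unit3 (hS : Simp S) {d : E × E} (hd : d ∈ darts S) :
    dot (third S d.1 d.2) (third S d.1 d.2) = 1 :=
  hS.unit _ (third_spec (mem_darts.1 hd)).2.2.1

theorem sum_V (hS : Simp S) :
    ∑ d ∈ darts S, Vd S d = 3 * (volume (convexHull ℝ (S : Set E))).toReal := by
  rw [← sum_TetD hS]
  refine Finset.sum_congr rfl (fun d hd => ?_)
  have h := (third_spec (mem_darts.1 hd)).2.2.2.1
  unfold TetD Vd
  rw [vol_tet h, ENNReal.toReal_ofReal (by positivity)]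

theorem sum_VZ (hS : Simp S) :
    ∑ d ∈ darts S, Vd S d * Zd S d / 8 ≤
      4 * Real.pi - 3 * (volume (convexHull ℝ (S : Set E))).toReal := by
  rw [← sum_V hS, ← sum_CBD hS, ← Finset.sum_sub_distrib]
  refine Finset.sum_le_sum (fun d hd => ?_)
  have h := (third_spec (mem_darts.1 hd)).2.2.2.1
  have h1 := vol_cb_lower h (unit1 hS hd) (unit2 hS hd) (unit3 hS hd)
  unfold CBD Vd Zd
  linarith

theorem card_le (hv : ∀ v ∈ S, (nb S v).card = 5 ∨ (nb S v).card = 6) :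
    ((darts S).card : ℝ) ≤ 6 * S.card := by
  rw [card_darts]
  have : ∑ a ∈ S, (nb S a).card ≤ ∑ a ∈ S, 6 := by
    refine Finset.sum_le_sum (fun a ha => ?_)
    rcases hv a ha with h | h <;> omega
  rw [Finset.sum_const, smul_eq_mul] at this
  have h2 : ((∑ a ∈ S, (nb S a).card : ℕ) : ℝ) ≤ ((S.card * 6 : ℕ) : ℝ) := by exact_mod_cast this
  push_cast at h2 ⊢
  linarith

theorem weitz_d (hS : Simp S) {d : E × E} (hd : d ∈ darts S) :
    12 * √3 * Vd S d ≤ Zd S d := by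
  have h3 : √3 ^ 2 = (3 : ℝ) := Real.sq_sqrt (by norm_num)
  have h4 : 0 < √(3 : ℝ) := Real.sqrt_pos.2 (by norm_num)
  have h1 := weitz (b := d.2) (c := third S d.1 d.2) (unit1 hS hd)
  have h5 : (12 * √3 * Vd S d) ^ 2 ≤ Zd S d ^ 2 := by
    unfold Vd Zd
    nlinarith [sq_nonneg (dot (d.1 - d.2) (d.1 - d.2) - dot (d.2 - third S d.1 d.2) (d.2 - third S d.1 d.2)),
      sq_nonneg (dot (d.2 - third S d.1 d.2) (d.2 - third S d.1 d.2) - dot (third S d.1 d.2 - d.1) (third S d.1 d.2 - d.1)),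
      sq_nonneg (dot (third S d.1 d.2 - d.1) (third S d.1 d.2 - d.1) - dot (d.1 - d.2) (d.1 - d.2))]
  have h6 : 0 ≤ Zd S d := by
    unfold Zd Zs
    have := dot_self_nonneg (d.1 - d.2)
    have := dot_self_nonneg (d.2 - third S d.1 d.2)
    have := dot_self_nonneg (third S d.1 d.2 - d.1)
    linarith
  exact (sq_le_sq₀ (by have := Vd_pos hd; positivity) h6).1 h5

/-- the basic estimate -/
theorem basic (hS : Simp S) {n : ℕ} (hn : 0 < n) (hSn : S.card = n)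
    (hv : ∀ v ∈ S, (nb S v).card = 5 ∨ (nb S v).card = 6) {v0 D : ℝ}
    (hv0 : v0 = 2 * Real.pi / (3 * n))
    (hD : D = 4 * Real.pi / 3 - (volume (convexHull ℝ (S : Set E))).toReal) :
    ∑ d ∈ darts S, (Vd S d * (Zd S d - 12 * √3 * Vd S d) / 8 +
        3 * √3 / 2 * (Vd S d - v0) ^ 2) ≤
      3 * (D - 4 * √3 * Real.pi ^ 2 / 3 / n) + 9 * √3 * v0 * D := by
  have h3 : √3 ^ 2 = (3 : ℝ) := Real.sq_sqrt (by norm_num)
  have h4 : 0 < √(3 : ℝ) := Real.sqrt_pos.2 (by norm_num)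
  have hn0 : (0 : ℝ) < n := by exact_mod_cast hn
  have hV := sum_V hS
  have hVZ := sum_VZ hS
  have hF := card_le hv
  rw [hSn] at hF
  have e1 : ∑ d ∈ darts S, (Vd S d * (Zd S d - 12 * √3 * Vd S d) / 8 +
        3 * √3 / 2 * (Vd S d - v0) ^ 2) = ∑ d ∈ darts S, Vd S d * Zd S d / 8
        - 3 * √3 * v0 * ∑ d ∈ darts S, Vd S d + 3 * √3 / 2 * v0 ^ 2 * (darts S).card := by
    rw [Finset.mul_sum, ← Finset.sum_sub_distrib]
    have : 3 * √3 / 2 * v0 ^ 2 * ((darts S).card : ℝ) = ∑ d ∈ darts S, 3 * √3 / 2 * v0 ^ 2 := by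
      rw [Finset.sum_const, nsmul_eq_mul]; ring
    rw [this, ← Finset.sum_add_distrib]
    refine Finset.sum_congr rfl (fun d _ => ?_)
    ring
  rw [e1, hV]
  have hv0p : 0 < v0 := by rw [hv0]; have := Real.pi_pos; positivity
  have e2 : 3 * √3 / 2 * v0 ^ 2 * ((darts S).card : ℝ) ≤ 3 * √3 / 2 * v0 ^ 2 * (6 * n) :=
    mul_le_mul_of_nonneg_left hF (by positivity)
  have e3 : v0 * n = 2 * Real.pi / 3 := by rw [hv0]; field_simp
  have e4 : 3 * √3 / 2 * v0 ^ 2 * (6 * n) = 6 * √3 * Real.pi * v0 := by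
    have : 3 * √3 / 2 * v0 ^ 2 * (6 * n) = 9 * √3 * v0 * (v0 * n) := by ring
    rw [this, e3]; ring
  have e5 : 4 * √3 * Real.pi ^ 2 / 3 / n = 2 * √3 * Real.pi * v0 := by
    rw [hv0]; field_simp; ring
  rw [e4] at e2
  rw [e5]
  have e6 : 3 * (volume (convexHull ℝ (S : Set E))).toReal = 4 * Real.pi - 3 * D := by
    rw [hD]; ring
  rw [e6] at hVZ ⊢
  nlinarith

end

theorem near_real {x y z V s v0 e : ℝ} (hV : 0 < V) (hx : 0 ≤ x) (hy : 0 ≤ y) (hz : 0 ≤ z)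
    (hs : 0 < s) (hv0 : v0 = √3 * s ^ 2 / 12) (he0 : 0 < e) (he1 : e ≤ 1 / 2)
    (hW : 2 * ((x - y) ^ 2 + (y - z) ^ 2 + (z - x) ^ 2) ≤ (x + y + z) ^ 2 - 432 * V ^ 2)
    (h1 : |V - v0| ≤ e ^ 2 * v0) (h2 : V * (x + y + z - 12 * √3 * V) ≤ e ^ 2 * v0 ^ 2) :
    |x - s ^ 2| ≤ 3 * e * s ^ 2 := by
  have h3 : √3 ^ 2 = (3 : ℝ) := Real.sq_sqrt (by norm_num)
  have h4 : 0 < √(3 : ℝ) := Real.sqrt_pos.2 (by norm_num)
  have h5 : √(3 : ℝ) ≤ 1.7321 := by
    rw [Real.sqrt_le_left (by norm_num)]; norm_num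
  have hs2 : 0 < s ^ 2 := by positivity
  have hv0p : 0 < v0 := by rw [hv0]; positivity
  have hv0s : v0 ≤ 0.1444 * s ^ 2 := by rw [hv0]; nlinarith
  have h4v : 4 * √3 * v0 = s ^ 2 := by
    rw [hv0]; linear_combination (s ^ 2 / 3) * h3
  have he2 : e ^ 2 ≤ 1 / 4 := by nlinarith
  rw [abs_le] at h1
  have hVl : v0 / 2 ≤ V := by nlinarith
  have hVu : V ≤ 3 / 2 * v0 := by nlinarith
  set w := x + y + z - 12 * √3 * V with hw
  have hw0 : 0 ≤ w := by
    have h6 : (12 * √3 * V) ^ 2 ≤ (x + y + z) ^ 2 := by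
      nlinarith [sq_nonneg (x - y), sq_nonneg (y - z), sq_nonneg (z - x)]
    have := (sq_le_sq₀ (by positivity) (by positivity)).1 h6
    linarith
  have hw1 : w ≤ 2 * e ^ 2 * v0 := by
    have h6 : v0 / 2 * w ≤ V * w := mul_le_mul_of_nonneg_right hVl hw0
    have h7 : v0 * w ≤ v0 * (2 * e ^ 2 * v0) := by nlinarith
    exact le_of_mul_le_mul_left h7 hv0p
  have hsum : x + y + z + 12 * √3 * V ≤ 64 * v0 := by
    have h6 : x + y + z + 12 * √3 * V = w + 24 * (√3 * V) := by rw [hw]; ring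
    have h7 : √3 * V ≤ 1.7321 * (3 / 2 * v0) := mul_le_mul h5 hVu hV.le (by norm_num)
    nlinarith
  have hprod : (x + y + z) ^ 2 - 432 * V ^ 2 ≤ 128 * e ^ 2 * v0 ^ 2 := by
    have h6 : (x + y + z) ^ 2 - 432 * V ^ 2 = w * (x + y + z + 12 * √3 * V) := by
      rw [hw]; linear_combination (144 * V ^ 2) * h3
    rw [h6]
    calc w * (x + y + z + 12 * √3 * V) ≤ (2 * e ^ 2 * v0) * (64 * v0) :=
          mul_le_mul hw1 hsum (by positivity) (by positivity)
      _ = 128 * e ^ 2 * v0 ^ 2 := by ring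
  have hq1 : (x - y) ^ 2 ≤ (8 * e * v0) ^ 2 := by
    have := sq_nonneg (y - z)
    have := sq_nonneg (z - x)
    have e1 : (8 * e * v0) ^ 2 = 64 * (e ^ 2 * v0 ^ 2) := by ring
    have e2 : 128 * e ^ 2 * v0 ^ 2 = 128 * (e ^ 2 * v0 ^ 2) := by ring
    rw [e1]; rw [e2] at hprod
    linarith
  have hq2 : (z - x) ^ 2 ≤ (8 * e * v0) ^ 2 := by
    have := sq_nonneg (y - z)
    have := sq_nonneg (x - y)
    have e1 : (8 * e * v0) ^ 2 = 64 * (e ^ 2 * v0 ^ 2) := by ring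
    have e2 : 128 * e ^ 2 * v0 ^ 2 = 128 * (e ^ 2 * v0 ^ 2) := by ring
    rw [e1]; rw [e2] at hprod
    linarith
  have hxy : |x - y| ≤ 8 * e * v0 := abs_le_of_sq_le_sq hq1 (by positivity)
  have hzx : |z - x| ≤ 8 * e * v0 := abs_le_of_sq_le_sq hq2 (by positivity)
  rw [abs_le] at hxy hzx ⊢
  have hee : e ^ 2 ≤ e / 2 := by nlinarith
  have key : 3 * (x - s ^ 2) = (x - y) - (z - x) + w + 12 * √3 * (V - v0) := by
    rw [hw]; linear_combination 3 * h4v
  have k1 : 12 * √3 * (V - v0) ≤ 3 * e ^ 2 * s ^ 2 := by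
    have : 12 * √3 * (V - v0) ≤ 12 * √3 * (e ^ 2 * v0) :=
      mul_le_mul_of_nonneg_left h1.2 (by positivity)
    have h8 : 12 * √3 * (e ^ 2 * v0) = 3 * e ^ 2 * (4 * √3 * v0) := by ring
    rw [h8, h4v] at this
    exact this
  have k2 : -(3 * e ^ 2 * s ^ 2) ≤ 12 * √3 * (V - v0) := by
    have : 12 * √3 * (-(e ^ 2 * v0)) ≤ 12 * √3 * (V - v0) :=
      mul_le_mul_of_nonneg_left h1.1 (by positivity)
    have h8 : 12 * √3 * (-(e ^ 2 * v0)) = -(3 * e ^ 2 * (4 * √3 * v0)) := by ring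
    rw [h8, h4v] at this
    exact this
  have k3 : e * v0 ≤ 0.1444 * (e * s ^ 2) := by
    have := mul_le_mul_of_nonneg_left hv0s he0.le
    linarith
  have k4 : e ^ 2 * v0 ≤ e / 2 * v0 := mul_le_mul_of_nonneg_right hee hv0p.le
  have k5 : e ^ 2 * s ^ 2 ≤ e / 2 * s ^ 2 := mul_le_mul_of_nonneg_right hee hs2.le
  have k6 : 0 < e * s ^ 2 := mul_pos he0 hs2
  constructor
  · linarith
  · linarith

theorem side_real {l s θ : ℝ} (hl : 0 ≤ l) (hs : 0 < s) (hθ : 0 < θ)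
    (h : |l ^ 2 - s ^ 2| ≤ min θ 1 * s ^ 2) : (1 - θ) * s ≤ l ∧ l ≤ (1 + θ) * s := by
  have h1 : min θ 1 ≤ θ := min_le_left _ _
  have h2 : min θ 1 ≤ 1 := min_le_right _ _
  rw [abs_le] at h
  have hs2 : 0 < s ^ 2 := by positivity
  constructor
  · rcases le_or_gt 1 θ with h3 | h3
    · have : (1 - θ) * s ≤ 0 := mul_nonpos_of_nonpos_of_nonneg (by linarith) hs.le
      linarith
    · rw [min_eq_left h3.le] at h
      have h4 : ((1 - θ) * s) ^ 2 ≤ l ^ 2 := by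
        have h5 : (1 - θ) ^ 2 ≤ 1 - θ := by nlinarith
        have h6 : (1 - θ) ^ 2 * s ^ 2 ≤ (1 - θ) * s ^ 2 := mul_le_mul_of_nonneg_right h5 hs2.le
        nlinarith
      exact (sq_le_sq₀ (mul_nonneg (by linarith) hs.le) hl).1 h4
  · have h4 : l ^ 2 ≤ ((1 + θ) * s) ^ 2 := by
      have h5 : 1 + θ ≤ (1 + θ) ^ 2 := by nlinarith
      have h6 : (1 + θ) * s ^ 2 ≤ (1 + θ) ^ 2 * s ^ 2 := mul_le_mul_of_nonneg_right h5 hs2.le
      have h7 : min θ 1 * s ^ 2 ≤ θ * s ^ 2 := mul_le_mul_of_nonneg_right h1 hs2.le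
      nlinarith
    exact (sq_le_sq₀ hl (by positivity)).1 h4

theorem good {S : Finset E} (hS : Simp S) {d : E × E} (hd : d ∈ darts S) {s θ η e v0 : ℝ}
    (hs : 0 < s) (hv0 : v0 = √3 * s ^ 2 / 12) (hθ : 0 < θ) (he0 : 0 < e) (he1 : e ≤ 1 / 2)
    (heθ : 3 * e ≤ min θ 1) (heη : e ≤ η) (h1 : |Vd S d - v0| ≤ e ^ 2 * v0)
    (h2 : Vd S d * (Zd S d - 12 * √3 * Vd S d) ≤ e ^ 2 * v0 ^ 2) :
    NearD S s θ d ∧ (1 - η) * (√3 * s ^ 2 / 12) ≤ det d.1 d.2 (third S d.1 d.2) / 6 := by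
  have hVp := Vd_pos hd
  have hW := weitz (b := d.2) (c := third S d.1 d.2) (unit1 hS hd)
  set a := d.1 with ha
  set b := d.2 with hb
  set c := third S a b with hc
  have hx := dot_self_nonneg (a - b)
  have hy := dot_self_nonneg (b - c)
  have hz := dot_self_nonneg (c - a)
  have hdet : 12 * det a b c ^ 2 = 432 * Vd S d ^ 2 := by
    unfold Vd; rw [← ha, ← hb, ← hc]; ring
  have hZ : Zd S d = dot (a - b) (a - b) + dot (b - c) (b - c) + dot (c - a) (c - a) := rfl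
  rw [hdet] at hW
  unfold Zs at hW
  rw [hZ] at h2
  have hs2 : 0 < s ^ 2 := by positivity
  have hv0p : 0 < v0 := by
    rw [hv0]
    have : 0 < √(3 : ℝ) := Real.sqrt_pos.2 (by norm_num)
    positivity
  have r1 := near_real hVp hx hy hz hs hv0 he0 he1 hW h1 h2
  have r2 := near_real hVp hy hz hx hs hv0 he0 he1 (by nlinarith) h1
    (by rw [show dot (b - c) (b - c) + dot (c - a) (c - a) + dot (a - b) (a - b) =
        dot (a - b) (a - b) + dot (b - c) (b - c) + dot (c - a) (c - a) by ring]; exact h2)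
  have r3 := near_real hVp hz hx hy hs hv0 he0 he1 (by nlinarith) h1
    (by rw [show dot (c - a) (c - a) + dot (a - b) (a - b) + dot (b - c) (b - c) =
        dot (a - b) (a - b) + dot (b - c) (b - c) + dot (c - a) (c - a) by ring]; exact h2)
  have q : 3 * e * s ^ 2 ≤ min θ 1 * s ^ 2 := mul_le_mul_of_nonneg_right heθ hs2.le
  refine ⟨⟨?_, ?_, ?_⟩, ?_⟩
  · exact side_real (norm_nonneg _) hs hθ (by rw [← dot_self]; exact r1.trans q)
  · exact side_real (norm_nonneg _) hs hθ (by rw [← dot_self]; exact r2.trans q)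
  · exact side_real (norm_nonneg _) hs hθ (by rw [← dot_self]; exact r3.trans q)
  · have h5 : Vd S d = det a b c / 6 := rfl
    rw [← h5, ← hv0]
    rw [abs_le] at h1
    have h6 : e ^ 2 ≤ η := by nlinarith
    nlinarith

theorem bad_term {S : Finset E} (hS : Simp S) {d : E × E} {s θ η e v0 : ℝ}
    (hd : d ∈ badD S s θ η)
    (hs : 0 < s) (hv0 : v0 = √3 * s ^ 2 / 12) (hθ : 0 < θ) (he0 : 0 < e) (he1 : e ≤ 1 / 2)
    (heθ : 3 * e ≤ min θ 1) (heη : e ≤ η) : e ^ 4 / 8 * v0 ^ 2 ≤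
      Vd S d * (Zd S d - 12 * √3 * Vd S d) / 8 + 3 * √3 / 2 * (Vd S d - v0) ^ 2 := by
  classical
  unfold badD at hd
  rw [Finset.mem_filter] at hd
  obtain ⟨hd1, hd2⟩ := hd
  have hw := weitz_d hS hd1
  have hp : 0 ≤ Vd S d * (Zd S d - 12 * √3 * Vd S d) :=
    mul_nonneg (Vd_pos hd1).le (by linarith)
  have h31 : (1 : ℝ) ≤ √3 := by rw [Real.one_le_sqrt]; norm_num
  have hv0p : 0 < v0 := by rw [hv0]; positivity
  by_contra hlt
  push Not at hlt
  apply hd2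
  have g1 : 0 ≤ 3 * √3 / 2 * (Vd S d - v0) ^ 2 := by positivity
  have g4 : e ^ 4 ≤ e ^ 2 := pow_le_pow_of_le_one he0.le (by linarith) (by norm_num)
  have g6 : 0 ≤ e ^ 4 * v0 ^ 2 := by positivity
  refine good hS hd1 hs hv0 hθ he0 he1 heθ heη ?_ ?_
  · apply abs_le_of_sq_le_sq _ (by positivity)
    have g2 : (Vd S d - v0) ^ 2 ≤ 3 * √3 / 2 * (Vd S d - v0) ^ 2 :=
      le_mul_of_one_le_left (sq_nonneg _) (by linarith)
    have g3 : (e ^ 2 * v0) ^ 2 = e ^ 4 * v0 ^ 2 := by ring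
    rw [g3]
    linarith
  · have g5 : e ^ 4 * v0 ^ 2 ≤ e ^ 2 * v0 ^ 2 := mul_le_mul_of_nonneg_right g4 (sq_nonneg _)
    linarith

end BadCount

open BadCount in
/-- near optimal polyhedra have few bad facets -/
theorem bad_count {C θ η : ℝ} (hθ : 0 < θ) (hη : 0 < η) :
    ∃ (K : ℝ) (N : ℕ), ∀ n : ℕ, N ≤ n → ∀ S : Finset E, Simp S → S.card = n →
      (∀ v ∈ S, (nb S v).card = 5 ∨ (nb S v).card = 6) →
      4 * Real.pi / 3 - (volume (convexHull ℝ (S : Set E))).toReal ≤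
        4 * √3 * Real.pi ^ 2 / 3 / n * (1 + C * (n : ℝ) ^ (-(1 / 4) : ℝ)) →
      ((badD S (√(8 * Real.pi / (√3 * n))) θ η).card : ℝ) ≤ K * (n : ℝ) ^ (3 / 4 : ℝ) := by
  classical
  set e : ℝ := min (min θ 1 / 3) (min η (1 / 2)) with he
  have he0 : 0 < e := by
    rw [he]
    exact lt_min (div_pos (lt_min hθ one_pos) (by norm_num)) (lt_min hη (by norm_num))
  have he1 : e ≤ 1 / 2 := (min_le_right _ _).trans (min_le_right _ _)
  have heη : e ≤ η := (min_le_right _ _).trans (min_le_left _ _)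
  have heθ : 3 * e ≤ min θ 1 := by
    have : e ≤ min θ 1 / 3 := min_le_left _ _
    linarith
  clear_value e
  set c : ℝ := 4 * √3 * Real.pi ^ 2 / 3 with hc
  set K' : ℝ := 3 * c * |C| + 6 * √3 * Real.pi * c * (1 + |C|) with hK'
  refine ⟨K' * 18 / (e ^ 4 * Real.pi ^ 2), 1, ?_⟩
  intro n hn S hS hSn hv hD
  have hπ := Real.pi_pos
  have h3 : √3 ^ 2 = (3 : ℝ) := Real.sq_sqrt (by norm_num)
  have h4 : 0 < √(3 : ℝ) := Real.sqrt_pos.2 (by norm_num)
  have hn0 : (0 : ℝ) < n := by exact_mod_cast hn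
  have hn1 : (1 : ℝ) ≤ n := by exact_mod_cast hn
  have hc0 : 0 < c := by positivity
  set t : ℝ := (n : ℝ) ^ (-(1 / 4) : ℝ) with ht
  have ht0 : 0 < t := Real.rpow_pos_of_pos hn0 _
  have ht1 : t ≤ 1 := Real.rpow_le_one_of_one_le_of_nonpos hn1 (by norm_num)
  have hnt : 1 / (n : ℝ) ≤ t := by
    rw [ht, one_div, ← Real.rpow_neg_one]
    exact Real.rpow_le_rpow_of_exponent_le hn1 (by norm_num)
  have h34 : (n : ℝ) ^ (3 / 4 : ℝ) = n * t := by
    rw [ht]
    nth_rw 2 [← Real.rpow_one (n : ℝ)]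
    rw [← Real.rpow_add hn0]
    norm_num
  rw [h34]
  set s : ℝ := √(8 * Real.pi / (√3 * n)) with hs
  have hs0 : 0 < s := Real.sqrt_pos.2 (by positivity)
  have hs2 : s ^ 2 = 8 * Real.pi / (√3 * n) := Real.sq_sqrt (by positivity)
  set v0 : ℝ := 2 * Real.pi / (3 * n) with hv0
  have hv0s : v0 = √3 * s ^ 2 / 12 := by
    rw [hs2, hv0]; field_simp; norm_num
  have hv0p : 0 < v0 := by positivity
  set D : ℝ := 4 * Real.pi / 3 - (volume (convexHull ℝ (S : Set E))).toReal with hDdef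
  have hb := basic hS hn hSn hv hv0 hDdef
  have hbad : ∀ d ∈ badD S s θ η, e ^ 4 / 8 * v0 ^ 2 ≤
      Vd S d * (Zd S d - 12 * √3 * Vd S d) / 8 + 3 * √3 / 2 * (Vd S d - v0) ^ 2 :=
    fun d hd => bad_term hS hd hs0 hv0s hθ he0 he1 heθ heη
  have hsub : badD S s θ η ⊆ darts S := Finset.filter_subset _ _
  have hnn : ∀ d ∈ darts S, 0 ≤ Vd S d * (Zd S d - 12 * √3 * Vd S d) / 8 +
      3 * √3 / 2 * (Vd S d - v0) ^ 2 := by
    intro d hd1
    have hw := weitz_d hS hd1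
    have hp : 0 ≤ Vd S d * (Zd S d - 12 * √3 * Vd S d) :=
      mul_nonneg (Vd_pos hd1).le (by linarith)
    positivity
  have hcount : ((badD S s θ η).card : ℝ) * (e ^ 4 / 8 * v0 ^ 2) ≤
      3 * (D - c / n) + 9 * √3 * v0 * D := by
    refine le_trans ?_ hb
    rw [← nsmul_eq_mul, ← Finset.sum_const]
    exact (Finset.sum_le_sum hbad).trans
      (Finset.sum_le_sum_of_subset_of_nonneg hsub (fun d hd _ => hnn d hd))
  have hC : C ≤ |C| := le_abs_self C
  have hD1 : D - c / n ≤ c * |C| * (t / n) := by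
    have : c / n * (1 + C * t) - c / n = c * C * (t / n) := by ring
    have h5 : c * C * (t / n) ≤ c * |C| * (t / n) := by
      apply mul_le_mul_of_nonneg_right _ (by positivity)
      exact mul_le_mul_of_nonneg_left hC hc0.le
    linarith
  have hD2 : D ≤ c * (1 + |C|) * t := by
    have h5 : c / n * (1 + C * t) ≤ c / n * (1 + |C|) := by
      apply mul_le_mul_of_nonneg_left _ (by positivity)
      have : C * t ≤ |C| * t := mul_le_mul_of_nonneg_right hC ht0.le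
      have : |C| * t ≤ |C| * 1 := mul_le_mul_of_nonneg_left ht1 (abs_nonneg C)
      linarith
    have h6 : c / n * (1 + |C|) ≤ c * (1 + |C|) * t := by
      have : c / n * (1 + |C|) = c * (1 + |C|) * (1 / n) := by ring
      rw [this]
      exact mul_le_mul_of_nonneg_left hnt (by positivity)
    linarith
  have hR : 3 * (D - c / n) + 9 * √3 * v0 * D ≤ K' * (t / n) := by
    have h5 : 9 * √3 * v0 * D ≤ 9 * √3 * v0 * (c * (1 + |C|) * t) :=
      mul_le_mul_of_nonneg_left hD2 (by positivity)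
    have h6 : 9 * √3 * v0 * (c * (1 + |C|) * t) = 6 * √3 * Real.pi * c * (1 + |C|) * (t / n) := by
      rw [hv0]; field_simp; ring
    rw [hK']
    linarith
  have hfin := hcount.trans hR
  have hv02 : e ^ 4 / 8 * v0 ^ 2 = e ^ 4 * Real.pi ^ 2 / (18 * n ^ 2) := by
    rw [hv0]; field_simp; norm_num
  rw [hv02] at hfin
  have hfac : 0 < e ^ 4 * Real.pi ^ 2 / (18 * n ^ 2) := by positivity
  refine le_of_mul_le_mul_right (hfin.trans (le_of_eq ?_)) hfac
  field_simp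

end Med
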