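import Mathlib

set_option autoImplicit false

open Finset

namespace Med

abbrev E := EuclideanSpace ℝ (Fin 3)

/-- the dot product, in coordinates -/
def dot (a b : E) : ℝ := a 0 * b 0 + a 1 * b 1 + a 2 * b 2

/-- the determinant -/
def det (a b c : E) : ℝ :=
  a 0 * (b 1 * c 2 - b 2 * c 1) - a 1 * (b 0 * c 2 - b 2 * c 0) + a 2 * (b 0 * c 1 - b 1 * c 0)

/-- cross product -/
def cr (a b : E) : E :=
  !₂[a 1 * b 2 - a 2 * b 1, a 2 * b 0 - a 0 * b 2, a 0 * b 1 - a 1 * b 0]

lemma dot_comm (a b : E) : dot a b = dot b a := by simp only [dot]; ring

lemma inner_eq (a b : E) : inner ℝ a b = dot a b := by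
  simp [dot, PiLp.inner_apply, Fin.sum_univ_three]; ring

lemma dot_add (a b c : E) : dot a (b + c) = dot a b + dot a c := by
  simp [dot]; ring

lemma dot_smul (a b : E) (t : ℝ) : dot a (t • b) = t * dot a b := by
  simp [dot]; ring

lemma dot_sub (a b c : E) : dot a (b - c) = dot a b - dot a c := by
  simp [dot]; ring

lemma dot_neg (a b : E) : dot a (-b) = -dot a b := by
  simp [dot]; ring

lemma add_dot (a b c : E) : dot (a + b) c = dot a c + dot b c := by
  simp [dot]; ring

lemma smul_dot (a b : E) (t : ℝ) : dot (t • a) b = t * dot a b := by
  simp [dot]; ring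

lemma sub_dot (a b c : E) : dot (a - b) c = dot a c - dot b c := by
  simp [dot]; ring

lemma neg_dot (a b : E) : dot (-a) b = -dot a b := by
  simp [dot]; ring

@[simp] lemma dot_zero (a : E) : dot a 0 = 0 := by simp [dot]
@[simp] lemma zero_dot (a : E) : dot 0 a = 0 := by simp [dot]

lemma dot_self (a : E) : dot a a = ‖a‖ ^ 2 := by
  rw [← inner_eq]; exact real_inner_self_eq_norm_sq a

lemma dot_self_nonneg (a : E) : 0 ≤ dot a a := by rw [dot_self]; positivity

lemma dot_self_pos {a : E} (h : a ≠ 0) : 0 < dot a a := by
  rw [dot_self]; have := norm_pos_iff.2 h; positivity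

lemma dot_self_eq_zero {a : E} (h : dot a a = 0) : a = 0 := by
  by_contra h'; exact absurd h (dot_self_pos h').ne'

lemma continuous_dot (a : E) : Continuous fun x => dot a x := by
  simp only [← inner_eq]; exact continuous_const.inner continuous_id

lemma continuous_dot' (a : E) : Continuous fun x => dot x a := by
  simp only [← inner_eq]; exact continuous_id.inner continuous_const

lemma ext3 {a b : E} (h0 : a 0 = b 0) (h1 : a 1 = b 1) (h2 : a 2 = b 2) : a = b := by
  ext i; fin_cases i <;> assumption

lemma dot_cr (a b c : E) : dot (cr a b) c = det a b c := by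
  simp [dot, cr, det]; ring

lemma det_cyc (a b c : E) : det b c a = det a b c := by simp only [det]; ring
lemma det_cyc' (a b c : E) : det c a b = det a b c := by simp only [det]; ring
lemma det_swap (a b c : E) : det b a c = - det a b c := by simp only [det]; ring
lemma det_swap' (a b c : E) : det a c b = - det a b c := by simp only [det]; ring

lemma det_add_left (a a' b c : E) : det (a + a') b c = det a b c + det a' b c := by
  simp [det]; ring
lemma det_smul_left (t : ℝ) (a b c : E) : det (t • a) b c = t * det a b c := by
  simp [det]; ring
lemma det_add_mid (a b b' c : E) : det a (b + b') c = det a b c + det a b' c := by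
  simp [det]; ring
lemma det_smul_mid (t : ℝ) (a b c : E) : det a (t • b) c = t * det a b c := by
  simp [det]; ring
lemma det_add_right (a b c c' : E) : det a b (c + c') = det a b c + det a b c' := by
  simp [det]; ring
lemma det_smul_right (t : ℝ) (a b c : E) : det a b (t • c) = t * det a b c := by
  simp [det]; ring
@[simp] lemma det_self12 (a c : E) : det a a c = 0 := by simp only [det]; ring
@[simp] lemma det_self13 (a b : E) : det a b a = 0 := by simp only [det]; ring
@[simp] lemma det_self23 (a b : E) : det a b b = 0 := by simp only [det]; ring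

lemma det_cr (a b : E) : det a b (cr a b) = dot (cr a b) (cr a b) := by
  rw [dot_cr]

lemma continuous_det1 (b c : E) : Continuous fun z => det z b c := by
  have : (fun z => det z b c) = fun z => dot (cr b c) z := by
    funext z; rw [dot_cr]; exact (det_cyc z b c).symm
  rw [this]; exact continuous_dot _

lemma continuous_det2 (a c : E) : Continuous fun z => det a z c := by
  have : (fun z => det a z c) = fun z => dot (cr c a) z := by
    funext z; rw [dot_cr]; exact (det_cyc' a z c).symm
  rw [this]; exact continuous_dot _

lemma continuous_det3 (a b : E) : Continuous fun z => det a b z := by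
  have : (fun z => det a b z) = fun z => dot (cr a b) z := by
    funext z; rw [dot_cr]
  rw [this]; exact continuous_dot _

lemma cramer (a b c z : E) :
    det a b c • z = det z b c • a + det a z c • b + det a b z • c := by
  apply ext3 <;> simp [det] <;> ring

end Med
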