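import Pool.Agent.Med.Basic
/- proof by helper404 (job 2803) -/
set_option autoImplicit false
open MeasureTheory

namespace Med

private theorem dot_eq_inner (a b : E) : dot a b = inner ℝ a b := by
  simp [dot, PiLp.inner_apply, Fin.sum_univ_three]; ring

private theorem dot_self_eq (a : E) : dot a a = ‖a‖ ^ 2 := by
  rw [dot_eq_inner, real_inner_self_eq_norm_sq]

private theorem exists_iso {e : E} (he : dot e e = 1) : ∃ L : E ≃ₗᵢ[ℝ] E, ∀ x, (L x) 0 = dot e x := by
  have h1 : ‖e‖ = 1 := by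
    have h2 := dot_self_eq e
    rw [he] at h2
    nlinarith [norm_nonneg e]
  have hv : Orthonormal ℝ (Set.domRestrict {(0 : Fin 3)} (fun _ : Fin 3 => e)) := by
    constructor
    · intro i; simpa using h1
    · intro i j hij
      exact absurd (Subsingleton.elim i j) hij
  obtain ⟨b, hb⟩ := hv.exists_orthonormalBasis_extension_of_card_eq (by simp)
  refine ⟨b.repr, fun x => ?_⟩
  rw [OrthonormalBasis.repr_apply_apply, hb 0 (by simp), dot_eq_inner]

private theorem vol_red {e : E} (he : dot e e = 1) (P : ℝ → ℝ → Prop)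
    (hP : MeasurableSet {p : ℝ × ℝ | P p.1 p.2}) :
    volume {x : E | P (dot e x) (dot x x)} =
      ∫⁻ t, volume {y : Fin 2 → ℝ | P t (t ^ 2 + (y 0 ^ 2 + y 1 ^ 2))} := by
  obtain ⟨L, hL⟩ := exists_iso he
  let S' : Set (Fin 3 → ℝ) := {x | P (x 0) (x 0 ^ 2 + (x 1 ^ 2 + x 2 ^ 2))}
  let S'' : Set (ℝ × (Fin 2 → ℝ)) := {p | P p.1 (p.1 ^ 2 + (p.2 0 ^ 2 + p.2 1 ^ 2))}
  have hS'm : MeasurableSet S' := by
    have : Measurable (fun x : Fin 3 → ℝ => ((x 0, x 0 ^ 2 + (x 1 ^ 2 + x 2 ^ 2)) : ℝ × ℝ)) := by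
      fun_prop
    exact this hP
  have hS''m : MeasurableSet S'' := by
    have : Measurable (fun p : ℝ × (Fin 2 → ℝ) =>
        ((p.1, p.1 ^ 2 + (p.2 0 ^ 2 + p.2 1 ^ 2)) : ℝ × ℝ)) := by
      fun_prop
    exact this hP
  have h1 : {x : E | P (dot e x) (dot x x)} = L ⁻¹' (WithLp.ofLp ⁻¹' S') := by
    ext x
    simp only [Set.mem_ofPred_eq, Set.mem_preimage, S']
    rw [← hL x]
    have h2 : dot x x = (L x) 0 ^ 2 + ((L x) 1 ^ 2 + (L x) 2 ^ 2) := by
      rw [dot_self_eq, ← L.norm_map x, ← dot_self_eq]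
      simp only [dot]; ring
    rw [h2]
  have h3 : S' = (MeasurableEquiv.piFinSuccAbove (fun _ : Fin 3 => ℝ) 0) ⁻¹' S'' := by
    ext x
    simp [S', S'', MeasurableEquiv.piFinSuccAbove, Fin.insertNthEquiv, Fin.removeNth, Fin.tail]
  have hLm : MeasurableSet ((WithLp.ofLp : E → (Fin 3 → ℝ)) ⁻¹' S') :=
    (PiLp.volume_preserving_ofLp (Fin 3)).measurable hS'm
  rw [h1, L.measurePreserving.measure_preimage hLm.nullMeasurableSet,
    (PiLp.volume_preserving_ofLp (Fin 3)).measure_preimage hS'm.nullMeasurableSet, h3,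
    (volume_preserving_piFinSuccAbove (fun _ : Fin 3 => ℝ) 0).measure_preimage
      hS''m.nullMeasurableSet]
  rw [Measure.volume_eq_prod, Measure.prod_apply hS''m]
  rfl

private theorem disc_vol (r : ℝ) : volume {y : Fin 2 → ℝ | y 0 ^ 2 + y 1 ^ 2 ≤ r} =
    ENNReal.ofReal (Real.pi * r) := by
  rcases lt_or_ge r 0 with h | h
  · have h1 : {y : Fin 2 → ℝ | y 0 ^ 2 + y 1 ^ 2 ≤ r} = ∅ := by
      ext y
      simp only [Set.mem_ofPred_eq, Set.mem_empty_iff_false, iff_false, not_le]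
      nlinarith [sq_nonneg (y 0), sq_nonneg (y 1)]
    rw [h1, measure_empty, ENNReal.ofReal_of_nonpos]
    nlinarith [Real.pi_pos]
  · have hm : MeasurableSet {y : Fin 2 → ℝ | y 0 ^ 2 + y 1 ^ 2 ≤ r} :=
      measurableSet_le (by fun_prop) (by fun_prop)
    have h1 : WithLp.ofLp ⁻¹' {y : Fin 2 → ℝ | y 0 ^ 2 + y 1 ^ 2 ≤ r} =
        Metric.closedBall (0 : EuclideanSpace ℝ (Fin 2)) (Real.sqrt r) := by
      ext y
      simp only [Set.mem_preimage, Set.mem_ofPred_eq, mem_closedBall_zero_iff,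
        EuclideanSpace.norm_eq, Fin.sum_univ_two, Real.norm_eq_abs, sq_abs]
      rw [Real.sqrt_le_sqrt_iff h]
    rw [← (PiLp.volume_preserving_ofLp (Fin 2)).measure_preimage hm.nullMeasurableSet, h1,
      EuclideanSpace.volume_closedBall_fin_two, ← ENNReal.ofReal_pow (Real.sqrt_nonneg _),
      Real.sq_sqrt h, ← ENNReal.ofReal_mul h, mul_comm]

private theorem lint (a b : ℝ) (hab : a ≤ b) (f : ℝ → ℝ) (hf : Continuous f)
    (hf0 : ∀ t ∈ Set.Ioc a b, 0 ≤ f t) :
    ∫⁻ t in Set.Ioc a b, ENNReal.ofReal (f t) = ENNReal.ofReal (∫ t in a..b, f t) := by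
  rw [intervalIntegral.integral_of_le hab, ofReal_integral_eq_lintegral_ofReal]
  · exact (hf.integrableOn_Icc).mono_set Set.Ioc_subset_Icc_self
  · exact (ae_restrict_iff' measurableSet_Ioc).2 (Filter.Eventually.of_forall hf0)

/-- volume of a spherical sector -/
theorem vol_sector {e : E} (he : dot e e = 1) {c : ℝ} (h0 : 0 ≤ c) (h1 : c ≤ 1) :
    volume {x : E | dot x x ≤ 1 ∧ c * ‖x‖ ≤ dot e x} =
      ENNReal.ofReal (2 * Real.pi / 3 * (1 - c)) := by
  have hS : {x : E | dot x x ≤ 1 ∧ c * ‖x‖ ≤ dot e x} =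
      {x : E | (fun t q : ℝ => q ≤ 1 ∧ c * Real.sqrt q ≤ t) (dot e x) (dot x x)} := by
    ext x
    simp only [Set.mem_ofPred_eq]
    rw [dot_self_eq x, Real.sqrt_sq (norm_nonneg x)]
  have hm : MeasurableSet {p : ℝ × ℝ | (fun t q : ℝ => q ≤ 1 ∧ c * Real.sqrt q ≤ t) p.1 p.2} := by
    have a1 : MeasurableSet {p : ℝ × ℝ | p.2 ≤ 1} := measurableSet_le (by fun_prop) (by fun_prop)
    have a2 : MeasurableSet {p : ℝ × ℝ | c * Real.sqrt p.2 ≤ p.1} :=
      measurableSet_le (by fun_prop) (by fun_prop)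
    exact a1.inter a2
  rw [hS]
  refine (vol_red he (fun t q : ℝ => q ≤ 1 ∧ c * Real.sqrt q ≤ t) hm).trans ?_
  have hslice : ∀ t : ℝ, t ≠ 0 → volume {y : Fin 2 → ℝ | (fun t q : ℝ => q ≤ 1 ∧ c * Real.sqrt q ≤ t) t
      (t ^ 2 + (y 0 ^ 2 + y 1 ^ 2))} =
      (Set.Ioc 0 c).indicator (fun t => ENNReal.ofReal (Real.pi * (t ^ 2 * ((1 - c ^ 2) / c ^ 2)))) t +
      (Set.Ioc c 1).indicator (fun t => ENNReal.ofReal (Real.pi * (1 - t ^ 2))) t := by
    intro t ht0
    rcases lt_or_gt_of_ne ht0 with ht | ht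
    · rw [Set.indicator_of_notMem (by simp [Set.mem_Ioc]; intro h; linarith),
        Set.indicator_of_notMem (by simp only [Set.mem_Ioc, not_and]; intro h; linarith)]
      have : {y : Fin 2 → ℝ | (fun t q : ℝ => q ≤ 1 ∧ c * Real.sqrt q ≤ t) t
          (t ^ 2 + (y 0 ^ 2 + y 1 ^ 2))} = ∅ := by
        ext y
        simp only [Set.mem_ofPred_eq, Set.mem_empty_iff_false, iff_false, not_and, not_le]
        intro _
        have := mul_nonneg h0 (Real.sqrt_nonneg (t ^ 2 + (y 0 ^ 2 + y 1 ^ 2)))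
        linarith
      rw [this]; simp
    · -- t > 0
      have hcond : ∀ y : Fin 2 → ℝ, (c * Real.sqrt (t ^ 2 + (y 0 ^ 2 + y 1 ^ 2)) ≤ t ↔
          c ^ 2 * (y 0 ^ 2 + y 1 ^ 2) ≤ t ^ 2 * (1 - c ^ 2)) := by
        intro y
        have hq : 0 ≤ t ^ 2 + (y 0 ^ 2 + y 1 ^ 2) := by positivity
        have hs : 0 ≤ c * Real.sqrt (t ^ 2 + (y 0 ^ 2 + y 1 ^ 2)) :=
          mul_nonneg h0 (Real.sqrt_nonneg _)
        rw [← sq_le_sq₀ hs ht.le, mul_pow, Real.sq_sqrt hq]
        constructor <;> intro h <;> nlinarith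
      rcases le_or_gt t c with htc | htc
      · have hc : 0 < c := lt_of_lt_of_le ht htc
        rw [Set.indicator_of_mem (by exact ⟨ht, htc⟩),
          Set.indicator_of_notMem (by simp only [Set.mem_Ioc, not_and]; intro h; linarith), add_zero,
          ← disc_vol]
        congr 1
        ext y
        simp only [Set.mem_ofPred_eq]
        rw [hcond y]
        have hc2 : 0 < c ^ 2 := by positivity
        have htc2 : t ^ 2 ≤ c ^ 2 := by nlinarith
        constructor
        · rintro ⟨_, h3⟩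
          rw [mul_div_assoc', le_div_iff₀ hc2]
          linarith
        · intro h3
          rw [mul_div_assoc', le_div_iff₀ hc2] at h3
          refine ⟨?_, by linarith⟩
          have h5 : 0 ≤ 1 - c ^ 2 := by nlinarith
          have h6 : t ^ 2 * (1 - c ^ 2) ≤ c ^ 2 * (1 - c ^ 2) :=
            mul_le_mul_of_nonneg_right htc2 h5
          have h4 : (y 0 ^ 2 + y 1 ^ 2) * c ^ 2 ≤ (1 - c ^ 2) * c ^ 2 := by nlinarith
          have h7 := le_of_mul_le_mul_right h4 hc2
          linarith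
      · rw [Set.indicator_of_notMem (by simp only [Set.mem_Ioc, not_and]; intro h; linarith), zero_add]
        rcases le_or_gt t 1 with ht1 | ht1
        · rw [Set.indicator_of_mem (by exact ⟨htc, ht1⟩), ← disc_vol]
          congr 1
          ext y
          simp only [Set.mem_ofPred_eq]
          rw [hcond y]
          have htc2 : c ^ 2 ≤ t ^ 2 := by nlinarith
          constructor
          · rintro ⟨h3, _⟩
            linarith
          · intro h3
            refine ⟨by linarith, ?_⟩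
            have hc2 : 0 ≤ c ^ 2 := by positivity
            have h4 : c ^ 2 * (y 0 ^ 2 + y 1 ^ 2) ≤ c ^ 2 * (1 - t ^ 2) :=
              mul_le_mul_of_nonneg_left h3 hc2
            nlinarith
        · rw [Set.indicator_of_notMem (by simp only [Set.mem_Ioc, not_and, not_le]; intro h; exact ht1)]
          have : {y : Fin 2 → ℝ | (fun t q : ℝ => q ≤ 1 ∧ c * Real.sqrt q ≤ t) t
              (t ^ 2 + (y 0 ^ 2 + y 1 ^ 2))} = ∅ := by
            ext y
            simp only [Set.mem_ofPred_eq, Set.mem_empty_iff_false, iff_false, not_and]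
            intro h3
            nlinarith [sq_nonneg (y 0), sq_nonneg (y 1)]
          rw [this]; simp
  have hae : (fun t : ℝ => volume {y : Fin 2 → ℝ | (fun t q : ℝ => q ≤ 1 ∧ c * Real.sqrt q ≤ t) t
      (t ^ 2 + (y 0 ^ 2 + y 1 ^ 2))}) =ᵐ[volume] fun t =>
      (Set.Ioc 0 c).indicator (fun t => ENNReal.ofReal (Real.pi * (t ^ 2 * ((1 - c ^ 2) / c ^ 2)))) t +
      (Set.Ioc c 1).indicator (fun t => ENNReal.ofReal (Real.pi * (1 - t ^ 2))) t := by
    have h0' : ∀ᵐ t : ℝ ∂volume, t ≠ 0 := by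
      simp [ae_iff, measure_singleton]
    filter_upwards [h0'] with t ht
    exact hslice t ht
  rw [lintegral_congr_ae hae, lintegral_add_left (Measurable.indicator (by fun_prop) measurableSet_Ioc),
    lintegral_indicator measurableSet_Ioc, lintegral_indicator measurableSet_Ioc,
    lint 0 c h0 _ (by fun_prop), lint c 1 h1 _ (by fun_prop)]
  · rw [← ENNReal.ofReal_add]
    · congr 1
      rw [intervalIntegral.integral_const_mul, intervalIntegral.integral_const_mul,
        intervalIntegral.integral_mul_const, integral_pow, intervalIntegral.integral_sub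
          (by simp) (by simp), integral_pow]
      rcases eq_or_lt_of_le h0 with h | h
      · rw [← h]; norm_num; ring
      · simp; field_simp; ring
    · apply intervalIntegral.integral_nonneg h0
      intro t ht
      have : 0 ≤ 1 - c ^ 2 := by nlinarith
      positivity
    · apply intervalIntegral.integral_nonneg h1
      intro t ht
      have : 0 ≤ 1 - t ^ 2 := by nlinarith [ht.1, ht.2]
      positivity
  · intro t ht
    have : 0 ≤ 1 - t ^ 2 := by nlinarith [ht.1, ht.2]
    positivity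
  · intro t ht
    have : 0 ≤ 1 - c ^ 2 := by nlinarith
    positivity

/-- volume of a spherical cap -/
theorem vol_cap {e : E} (he : dot e e = 1) {h : ℝ} (h0 : 0 ≤ h) (h1 : h ≤ 1) :
    volume {x : E | dot x x ≤ 1 ∧ h < dot e x} =
      ENNReal.ofReal (Real.pi / 3 * (1 - h) ^ 2 * (2 + h)) := by
  have hS : {x : E | dot x x ≤ 1 ∧ h < dot e x} =
      {x : E | (fun t q : ℝ => q ≤ 1 ∧ h < t) (dot e x) (dot x x)} := rfl
  have hm : MeasurableSet {p : ℝ × ℝ | (fun t q : ℝ => q ≤ 1 ∧ h < t) p.1 p.2} := by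
    have a1 : MeasurableSet {p : ℝ × ℝ | p.2 ≤ 1} := measurableSet_le (by fun_prop) (by fun_prop)
    have a2 : MeasurableSet {p : ℝ × ℝ | h < p.1} :=
      measurableSet_lt (by fun_prop) (by fun_prop)
    exact a1.inter a2
  rw [hS]
  refine (vol_red he (fun t q : ℝ => q ≤ 1 ∧ h < t) hm).trans ?_
  have hslice : ∀ t : ℝ, volume {y : Fin 2 → ℝ | (fun t q : ℝ => q ≤ 1 ∧ h < t) t
      (t ^ 2 + (y 0 ^ 2 + y 1 ^ 2))} =
      (Set.Ioc h 1).indicator (fun t => ENNReal.ofReal (Real.pi * (1 - t ^ 2))) t := by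
    intro t
    by_cases ht : t ∈ Set.Ioc h 1
    · rw [Set.indicator_of_mem ht, ← disc_vol]
      congr 1
      ext y
      simp only [Set.mem_ofPred_eq]
      constructor
      · rintro ⟨h3, _⟩
        linarith
      · intro h3
        exact ⟨by linarith, ht.1⟩
    · rw [Set.indicator_of_notMem ht]
      have : {y : Fin 2 → ℝ | (fun t q : ℝ => q ≤ 1 ∧ h < t) t
          (t ^ 2 + (y 0 ^ 2 + y 1 ^ 2))} = ∅ := by
        ext y
        simp only [Set.mem_ofPred_eq, Set.mem_empty_iff_false, iff_false, not_and]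
        intro h3 h4
        apply ht
        refine ⟨h4, ?_⟩
        nlinarith [sq_nonneg (y 0), sq_nonneg (y 1)]
      rw [this]; simp
  rw [lintegral_congr hslice, lintegral_indicator measurableSet_Ioc, lint h 1 h1 _ (by fun_prop)]
  · congr 1
    rw [intervalIntegral.integral_const_mul, intervalIntegral.integral_sub
          (by simp) (by simp), integral_pow]
    simp; ring
  · intro t ht
    have : 0 ≤ 1 - t ^ 2 := by nlinarith [ht.1, ht.2]
    positivity

end Med
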