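import Pool.Agent.Med.CardJ
import Pool.Agent.Med.VolCap

set_option autoImplicit false

open Finset MeasureTheory

namespace Med

lemma vol_ball1 : volume {x : E | dot x x ≤ 1} = ENNReal.ofReal (4 * Real.pi / 3) := by
  have h : {x : E | dot x x ≤ 1} = Metric.closedBall (0 : E) 1 := by
    ext x
    simp only [Set.mem_ofPred_eq, mem_closedBall_zero_iff, dot_self]
    constructor
    · intro h; nlinarith [norm_nonneg x]
    · intro h; nlinarith [norm_nonneg x]
  rw [h, EuclideanSpace.volume_closedBall_fin_three]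
  rw [← ENNReal.ofReal_pow (by norm_num), ← ENNReal.ofReal_mul (by positivity)]
  congr 1; ring

/-- irregular vertices -/
noncomputable def irrV (S : Finset E) : Finset E :=
  open Classical in S.filter (fun v => (nb S v).card ≠ 6)

lemma mem_irrV {S : Finset E} {v : E} : v ∈ irrV S ↔ v ∈ S ∧ (nb S v).card ≠ 6 := by
  classical
  unfold irrV; rw [Finset.mem_filter]

lemma card_irrV {S : Finset E} (hS : Simp S)
    (hval : ∀ v ∈ S, (nb S v).card = 5 ∨ (nb S v).card = 6) : (irrV S).card ≤ 12 := by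
  classical
  have h1 := euler hS
  rw [card_darts] at h1
  have h2 : ∑ a ∈ S, (nb S a).card + (irrV S).card = 6 * S.card := by
    have : (irrV S).card = ∑ a ∈ S, if (nb S a).card ≠ 6 then 1 else 0 := by
      unfold irrV; rw [Finset.card_filter]
    rw [this, ← Finset.sum_add_distrib]
    have h3 : ∀ a ∈ S, (nb S a).card + (if (nb S a).card ≠ 6 then 1 else 0) = 6 := by
      intro a ha
      rcases hval a ha with h | h <;> simp [h]
    rw [Finset.sum_congr rfl h3, Finset.sum_const, smul_eq_mul]; ring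
  omega

lemma card_irr {S : Finset E} (hS : Simp S)
    (hval : ∀ v ∈ S, (nb S v).card = 5 ∨ (nb S v).card = 6) : (irr S).card ≤ 60 := by
  classical
  have h1 := card_irrV hS hval
  have h2 : (irr S).card = ∑ v ∈ irrV S, (nb S v).card := by
    unfold irr
    rw [Finset.card_eq_sum_card_fiberwise (f := fun d : E × E => d.1) (t := irrV S)
      (fun d hd => mem_irrV.2 ⟨(mem_darts.1 (Finset.mem_filter.1 hd).1).mem_left,
        (Finset.mem_filter.1 hd).2⟩)]
    refine Finset.sum_congr rfl fun a ha => ?_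
    refine Finset.card_bij' (fun d _ => d.2) (fun b _ => (a, b)) ?_ ?_ ?_ ?_
    · intro d hd
      obtain ⟨h1, h2⟩ := Finset.mem_filter.1 hd
      rw [mem_nb, ← h2]; exact mem_darts.1 (Finset.mem_filter.1 h1).1
    · intro b hb
      exact Finset.mem_filter.2 ⟨Finset.mem_filter.2 ⟨mem_darts.2 (mem_nb.1 hb),
        (mem_irrV.1 ha).2⟩, rfl⟩
    · intro d hd
      obtain ⟨h1, h2⟩ := Finset.mem_filter.1 hd
      exact Prod.ext h2.symm rfl
    · intro b _
      rfl
  rw [h2]
  have h3 : ∑ v ∈ irrV S, (nb S v).card ≤ ∑ v ∈ irrV S, 5 := by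
    refine Finset.sum_le_sum fun v hv => ?_
    obtain ⟨hvS, hv6⟩ := mem_irrV.1 hv
    rcases hval v hvS with h | h
    · exact h.le
    · exact absurd h hv6
  rw [Finset.sum_const, smul_eq_mul] at h3
  omega

/-- there is a cap without irregular vertices -/
theorem exists_cap {S : Finset E} (hS : Simp S)
    (hval : ∀ v ∈ S, (nb S v).card = 5 ∨ (nb S v).card = 6) {κ : ℝ} (h0 : 5 / 6 < κ)
    (h1 : κ ≤ 1) :
    ∃ e : E, dot e e = 1 ∧ ∀ v ∈ S, (nb S v).card ≠ 6 → dot e v < κ := by
  classical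
  by_contra hcon
  push Not at hcon
  have hsub : {x : E | dot x x ≤ 1} ⊆
      {0} ∪ ⋃ v ∈ irrV S, {x : E | dot x x ≤ 1 ∧ κ * ‖x‖ ≤ dot v x} := by
    intro x hx
    rcases eq_or_ne x 0 with rfl | hx0
    · left; rfl
    · right
      have hn : 0 < ‖x‖ := norm_pos_iff.2 hx0
      set e := ‖x‖⁻¹ • x with he
      have hee : dot e e = 1 := by
        rw [he, dot_smul, smul_dot, dot_self]; field_simp
      obtain ⟨v, hv, hv6, hκ⟩ := hcon e hee
      refine Set.mem_biUnion (x := v) (by exact_mod_cast mem_irrV.2 ⟨hv, hv6⟩) ⟨hx, ?_⟩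
      rw [he, smul_dot, ← div_eq_inv_mul, le_div_iff₀ hn] at hκ
      rw [dot_comm v x]; exact hκ
  have hm : volume {x : E | dot x x ≤ 1} ≤
      ∑ v ∈ irrV S, ENNReal.ofReal (2 * Real.pi / 3 * (1 - κ)) := by
    refine (measure_mono hsub).trans ((measure_union_le _ _).trans ?_)
    rw [measure_singleton, zero_add]
    refine (measure_biUnion_finset_le _ _).trans ?_
    refine Finset.sum_le_sum fun v hv => ?_
    rw [vol_sector (hS.unit v (mem_irrV.1 hv).1) (by linarith) h1]
  rw [vol_ball1, Finset.sum_const, nsmul_eq_mul] at hm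
  have h12 : ((irrV S).card : ENNReal) ≤ 12 := by exact_mod_cast card_irrV hS hval
  have hm2 : ENNReal.ofReal (4 * Real.pi / 3) ≤
      ENNReal.ofReal (12 * (2 * Real.pi / 3 * (1 - κ))) := by
    refine hm.trans ?_
    rw [ENNReal.ofReal_mul (p := 12) (by norm_num)]
    have h13 : (12 : ENNReal) = ENNReal.ofReal 12 := by simp
    rw [← h13]
    exact mul_le_mul_left h12 _
  have hpi := Real.pi_pos
  rw [ENNReal.ofReal_le_ofReal_iff (by
    have : 0 ≤ 1 - κ := by linarith
    positivity)] at hm2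
  nlinarith

/-- a vertex whose star meets the cone is almost in the cone -/
lemma star_near {S : Finset E} (hS : Simp S) {l : ℝ} (hl : ∀ v w, Adj S v w → ‖v - w‖ ≤ l)
    (hl0 : 0 ≤ l) (hl1 : l ≤ 1) {e : E} (he : dot e e = 1) {κ : ℝ} {x v : E} (hx : x ∈ Cone e κ)
    (hv : x ∈ Star S v) : κ - l < dot e v := by
  obtain ⟨a, b, c, ht, α, β, γ, h1, h2, h3, hxe⟩ := cover hS x
  have hu := hS.unit
  have hin : InC a b c x := ⟨α, β, γ, h1, h2, h3, hxe⟩
  have hx' : κ * ‖x‖ < dot e x := hx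
  have hva := hv a b c ht hin
  have hv1 : dot v v = 1 := by
    rcases hva with rfl | rfl | rfl
    · exact hu _ ht.1
    · exact hu _ ht.2.1
    · exact hu _ ht.2.2.1
  have key : ∀ w, (w = a ∨ w = b ∨ w = c) → 1 - l ^ 2 / 2 ≤ dot v w := by
    intro w hw
    have hw1 : dot w w = 1 := by
      rcases hw with rfl | rfl | rfl
      · exact hu _ ht.1
      · exact hu _ ht.2.1
      · exact hu _ ht.2.2.1
    have had : w = v ∨ Adj S v w := by
      have s1 := Adj.symm hS ⟨_, ht⟩
      have s2 := Adj.symm hS ⟨_, ht.cyc⟩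
      have s3 := Adj.symm hS ⟨_, ht.cyc.cyc⟩
      rcases hva with rfl | rfl | rfl <;> rcases hw with rfl | rfl | rfl <;>
        first
        | exact Or.inl rfl
        | exact Or.inr ⟨_, ht⟩
        | exact Or.inr ⟨_, ht.cyc⟩
        | exact Or.inr ⟨_, ht.cyc.cyc⟩
        | exact Or.inr s1
        | exact Or.inr s2
        | exact Or.inr s3
    rcases had with rfl | had
    · rw [hw1]; nlinarith
    · have h := hl _ _ had
      have h' : ‖v - w‖ ^ 2 ≤ l ^ 2 := by gcongr
      rw [norm_sq_eq, sub_dot, dot_sub, dot_sub, hv1, hw1, dot_comm w v] at h'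
      linarith
  have ka := key a (Or.inl rfl)
  have kb := key b (Or.inr (Or.inl rfl))
  have kc := key c (Or.inr (Or.inr rfl))
  have hsum : (α + β + γ) * (1 - l ^ 2 / 2) ≤ dot v x := by
    rw [hxe, dot_add, dot_add, dot_smul, dot_smul, dot_smul]
    nlinarith
  have hn1 : ‖x‖ ≤ α + β + γ := by
    rw [hxe]
    refine (norm_add₃_le).trans ?_
    rw [norm_smul, norm_smul, norm_smul, norm_of_unit (hu a ht.1), norm_of_unit (hu b ht.2.1),
      norm_of_unit (hu c ht.2.2.1), Real.norm_of_nonneg h1, Real.norm_of_nonneg h2,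
      Real.norm_of_nonneg h3]
    linarith
  have hx0 : x ≠ 0 := by
    rintro rfl
    simp at hx'
  have hn : 0 < ‖x‖ := norm_pos_iff.2 hx0
  have hl2 : 0 ≤ 1 - l ^ 2 / 2 := by nlinarith
  have hvx : ‖x‖ * (1 - l ^ 2 / 2) ≤ dot v x := by nlinarith
  set x' := ‖x‖⁻¹ • x with hx'e
  have hx'1 : dot x' x' = 1 := by
    rw [hx'e, dot_smul, smul_dot, dot_self]; field_simp
  have hvx' : 1 - l ^ 2 / 2 ≤ dot v x' := by
    rw [hx'e, dot_smul, ← div_eq_inv_mul, le_div_iff₀ hn]; linarith
  have hd : ‖x' - v‖ ≤ l := by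
    have : ‖x' - v‖ ^ 2 ≤ l ^ 2 := by
      rw [norm_sq_eq, sub_dot, dot_sub, dot_sub, hx'1, hv1, dot_comm x' v]
      linarith
    exact le_of_sq_le_sq this hl0
  have h5 := dot_near he hd
  have h6 : κ < dot e x' := by
    rw [hx'e, dot_smul, ← div_eq_inv_mul, lt_div_iff₀ hn]; exact hx'
  linarith

end Med
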