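import Pool.Agent.Med.Average

set_option autoImplicit false

open Finset

namespace Med

lemma tri_count {p q X : ℝ} (hp : 1 ≤ p) (hq : 1 ≤ q) (hX : 0 ≤ X) :
    X ^ 2 / (2 * p * q) - X ≤
      ∑ b ∈ Finset.range (⌊X / q⌋₊ + 1), (⌊(X - b * q) / p⌋₊ : ℝ) := by
  have hp0 : 0 < p := by linarith
  have hq0 : 0 < q := by linarith
  set B := ⌊X / q⌋₊ with hB
  have hBle : (B : ℝ) * q ≤ X := by
    have : (B : ℝ) ≤ X / q := Nat.floor_le (by positivity)
    rwa [le_div_iff₀ hq0] at this
  have hBlt : X / q < B + 1 := Nat.lt_floor_add_one _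
  have h1 : ∑ b ∈ Finset.range (B + 1), ((X - b * q) / p - 1) ≤
      ∑ b ∈ Finset.range (B + 1), (⌊(X - b * q) / p⌋₊ : ℝ) := by
    refine Finset.sum_le_sum fun b _ => ?_
    have := Nat.lt_floor_add_one ((X - b * q) / p)
    linarith
  have h2 : ∑ b ∈ Finset.range (B + 1), ((X - b * q) / p - 1) =
      (B + 1) * (X / p - q * B / (2 * p) - 1) := by
    have hs : ∑ b ∈ Finset.range (B + 1), (b : ℝ) = (B + 1) * B / 2 := by
      have := Finset.sum_range_id_mul_two (B + 1)
      have h3 : ((∑ i ∈ Finset.range (B + 1), i : ℕ) : ℝ) * 2 = (B + 1) * B := by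
        have := congrArg (fun n : ℕ => (n : ℝ)) this
        push_cast at this
        simpa using this
      push_cast at h3
      linarith
    have : ∀ b ∈ Finset.range (B + 1), ((X - (b : ℝ) * q) / p - 1) =
        (X / p - 1) - (q / p) * b := by
      intro b _; field_simp; ring
    rw [Finset.sum_congr rfl this, Finset.sum_sub_distrib, ← Finset.mul_sum, hs]
    simp only [Finset.sum_const, Finset.card_range, nsmul_eq_mul]
    push_cast
    field_simp
    ring
  have h3 : (B + 1 : ℝ) * (X / (2 * p) - 1) ≤ (B + 1) * (X / p - q * B / (2 * p) - 1) := by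
    have : X / (2 * p) ≤ X / p - q * B / (2 * p) := by
      have e : X / p = X / (2 * p) + X / (2 * p) := by field_simp; norm_num
      have e2 : q * B / (2 * p) ≤ X / (2 * p) := by
        gcongr
        linarith
      linarith
    gcongr
  rcases le_total 1 (X / (2 * p)) with h | h
  · have h4 : X / q * (X / (2 * p) - 1) ≤ (B + 1) * (X / (2 * p) - 1) := by
      have : 0 ≤ X / (2 * p) - 1 := by linarith
      gcongr
    have h5 : X ^ 2 / (2 * p * q) - X ≤ X / q * (X / (2 * p) - 1) := by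
      have e : X / q * (X / (2 * p) - 1) = X ^ 2 / (2 * p * q) - X / q := by
        field_simp
      rw [e]
      have : X / q ≤ X := div_le_self hX hq
      linarith
    linarith
  · have h4 : X ^ 2 / (2 * p * q) - X ≤ 0 := by
      have : X ^ 2 / (2 * p * q) = X * (X / (2 * p) / q) := by field_simp
      rw [this]
      have h6 : X / (2 * p) / q ≤ 1 := by
        rw [div_le_one hq0]; linarith
      nlinarith
    refine h4.trans (Finset.sum_nonneg fun b _ => Nat.cast_nonneg _)

/-- number of admissible indices -/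
theorem card_J {X : ℝ} (hX : 0 ≤ X) :
    X ^ 2 * (1 / √7 + 1 / (√3 * √7)) - 4 * X ≤ (J X).card := by
  classical
  let T : Finset (Σ _ : Fin 4, Σ _ : ℕ, ℕ) :=
    (Finset.univ : Finset (Fin 4)).sigma fun t =>
      (Finset.range (⌊X / p2 t⌋₊ + 1)).sigma fun b => Finset.Icc 1 ⌊(X - b * p2 t) / p1 t⌋₊
  have hT : (T.card : ℝ) = ∑ t : Fin 4, ∑ b ∈ Finset.range (⌊X / p2 t⌋₊ + 1),
      (⌊(X - b * p2 t) / p1 t⌋₊ : ℝ) := by
    simp only [T, Finset.card_sigma, Nat.card_Icc]
    push_cast
    refine Finset.sum_congr rfl fun t _ => Finset.sum_congr rfl fun b _ => ?_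
    simp
  have hle : T.card ≤ (J X).card := by
    refine Finset.card_le_card_of_injOn (fun x => (x.1, x.2.2, x.2.1)) ?_ ?_
    · rintro ⟨t, b, a⟩ hx
      simp only [T, Finset.coe_sigma, Set.mem_sigma_iff, Finset.mem_coe, Finset.mem_univ,
        true_and, Finset.mem_range, Finset.mem_Icc] at hx
      obtain ⟨hb, ha1, ha2⟩ := hx
      simp only [Finset.mem_coe]
      rw [mem_J]
      refine ⟨ha1, ?_⟩
      simp only
      have q1 := one_le_p1 t
      have hpos : 0 < p1 t := by linarith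
      have h0 : 0 < ⌊(X - b * p2 t) / p1 t⌋₊ := by omega
      have h1 : 0 ≤ (X - b * p2 t) / p1 t := by
        have := Nat.pos_of_ne_zero (by omega : ⌊(X - b * p2 t) / p1 t⌋₊ ≠ 0)
        exact zero_le_one.trans (Nat.floor_pos.1 this)
      have h2 : (a : ℝ) ≤ (X - b * p2 t) / p1 t :=
        (by exact_mod_cast ha2 : (a : ℝ) ≤ ⌊(X - b * p2 t) / p1 t⌋₊).trans (Nat.floor_le h1)
      rw [le_div_iff₀ hpos] at h2
      linarith
    · rintro ⟨t, b, a⟩ _ ⟨t', b', a'⟩ _ h
      simp only [Prod.mk.injEq] at h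
      obtain ⟨rfl, rfl, rfl⟩ := h
      rfl
  have hsum : ∑ t : Fin 4, (X ^ 2 / (2 * p1 t * p2 t) - X) ≤ (T.card : ℝ) := by
    rw [hT]
    exact Finset.sum_le_sum fun t _ => tri_count (one_le_p1 t) (one_le_p2 t) hX
  have hval : ∑ t : Fin 4, (X ^ 2 / (2 * p1 t * p2 t) - X) =
      X ^ 2 * (1 / √7 + 1 / (√3 * √7)) - 4 * X := by
    have h3 : (0 : ℝ) < √3 := Real.sqrt_pos.2 (by norm_num)
    have h7 : (0 : ℝ) < √7 := Real.sqrt_pos.2 (by norm_num)
    rw [Fin.sum_univ_four]
    simp only [p1, p2]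
    field_simp
    ring
  have : (T.card : ℝ) ≤ (J X).card := by exact_mod_cast hle
  linarith

end Med
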