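import Mathlib
set_option autoImplicit false
open Set Filter Topology

namespace Med

/-- Čech cocycles with constant transitions are trivial on simply connected spaces.
(the proof of the general statement is by helper607/helper555, project WILD) -/
theorem cech_triv {X : Type} [TopologicalSpace X] [SimplyConnectedSpace X]
    [LocallyPathConnectedSpace X] {G : Type} [Group G] {ι : Type} (W : ι → Set X)
    (hW : ∀ i, IsOpen (W i)) (c : ι → ι → G)
    (cocycle : ∀ i j k, ∀ x, x ∈ W i → x ∈ W j → x ∈ W k → c j k * c i j = c i k)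
    (hcov : ∀ x, ∃ i, x ∈ W i) : ∃ t : ι → X → G,
      (∀ i, ∀ x ∈ W i, ∀ᶠ y in 𝓝 x, t i y = t i x) ∧
      ∀ i j, ∀ x, x ∈ W i → x ∈ W j → t j x = c i j * t i x := by
  classical
  let tG : TopologicalSpace G := ⊥
  have hdG : DiscreteTopology G := ⟨rfl⟩
  have hcii : ∀ i x, x ∈ W i → c i i = 1 := by
    intro i x hx
    have := cocycle i i i x hx hx hx
    exact mul_eq_left.1 this
  choose idx hidx using hcov
  let Z : FiberBundleCore ι X G :=
    { baseSet := W
      isOpen_baseSet := hW
      indexAt := idx
      mem_baseSet_at := hidx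
      coordChange := fun i j _ g => c i j * g
      coordChange_self := by
        intro i x hx v
        rw [hcii i x hx, one_mul]
      continuousOn_coordChange := by
        rintro i j ⟨x, g⟩ ⟨_, _⟩
        apply ContinuousAt.continuousWithinAt
        have h2 : ∀ᶠ p in 𝓝 (x, g), p.2 = g :=
          (continuous_snd.tendsto (x, g)).eventually ((isOpen_discrete {g}).mem_nhds rfl)
        have h3 : (fun p : X × G => c i j * p.2) =ᶠ[𝓝 (x, g)] fun _ => c i j * g := by
          filter_upwards [h2] with p hp2
          rw [hp2]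
        exact continuousAt_const.congr h3.symm
      coordChange_comp := by
        rintro i j k x ⟨⟨hi, hj⟩, hk⟩ v
        rw [← mul_assoc, cocycle i j k x hi hj hk] }
  have hcovmap : IsCoveringMap (Bundle.TotalSpace.proj : Bundle.TotalSpace G Z.Fiber → X) :=
    FiberBundle.isCoveringMap
  obtain ⟨x0⟩ : Nonempty X := inferInstance
  obtain ⟨σ, ⟨_, hσ⟩, _⟩ := hcovmap.existsUnique_continuousMap_lifts (ContinuousMap.id X) x0
    (⟨x0, (1 : G)⟩ : Bundle.TotalSpace G Z.Fiber) rfl
  have hσ' : ∀ x, (σ x).1 = x := fun x => congrFun hσ x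
  let t : ι → X → G := fun i x => (Z.localTriv i (σ x)).2
  let s : X → G := fun x => (σ x).2
  have ht : ∀ i x, t i x = c (idx (σ x).1) i * s x := fun i x => rfl
  refine ⟨t, ?_, ?_⟩
  · intro i x hx
    have hsrc : σ x ∈ (Z.localTriv i).source := by
      rw [FiberBundleCore.mem_localTriv_source, hσ' x]
      exact hx
    have hcont : ContinuousAt (fun y => (Z.localTriv i (σ y)).2) x := by
      have h1 : ContinuousAt (Z.localTriv i) (σ x) :=
        (Z.localTriv i).toOpenPartialHomeomorph.continuousAt hsrc
      have h2 : ContinuousAt σ x := σ.continuous.continuousAt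
      exact continuous_snd.continuousAt.comp (ContinuousAt.comp h1 h2)
    exact hcont.eventually ((isOpen_discrete {t i x}).mem_nhds rfl)
  · intro i j x hi hj
    rw [ht, ht, hσ' x, ← mul_assoc, cocycle _ i j x (hidx x) hi hj]

end Med
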