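import Pool.Agent.Med.VolCone
/- proof by helper45 (job 2947) -/
set_option autoImplicit false
open MeasureTheory

namespace Med

/-! ### T1: auxiliary material -/

namespace T1

theorem dot_eq (a b : E) : dot a b = inner ℝ a b := by
  simp only [dot, PiLp.inner_apply, Fin.sum_univ_three, RCLike.inner_apply, conj_trivial]
  ring

theorem dot_self_eq (a : E) : dot a a = ‖a‖ ^ 2 := by
  rw [dot_eq, real_inner_self_eq_norm_sq]

theorem dot_comm' (a b : E) : dot a b = dot b a := by unfold dot; ring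

theorem dot_self_nonneg (a : E) : 0 ≤ dot a a := by rw [dot_self_eq]; positivity

theorem dot_add_l (a b c : E) : dot (a + b) c = dot a c + dot b c := by
  simp only [dot, PiLp.add_apply]; ring
theorem dot_add_r (a b c : E) : dot a (b + c) = dot a b + dot a c := by
  simp only [dot, PiLp.add_apply]; ring
theorem dot_sub_l (a b c : E) : dot (a - b) c = dot a c - dot b c := by
  simp only [dot, PiLp.sub_apply]; ring
theorem dot_sub_r (a b c : E) : dot a (b - c) = dot a b - dot a c := by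
  simp only [dot, PiLp.sub_apply]; ring
theorem dot_smul_l (r : ℝ) (a b : E) : dot (r • a) b = r * dot a b := by
  simp only [dot, PiLp.smul_apply, smul_eq_mul]; ring
theorem dot_smul_r (r : ℝ) (a b : E) : dot a (r • b) = r * dot a b := by
  simp only [dot, PiLp.smul_apply, smul_eq_mul]; ring

theorem dot_le_norm (a b : E) : dot a b ≤ ‖a‖ * ‖b‖ := by
  rw [dot_eq]; exact real_inner_le_norm a b

theorem det_smul (r s t : ℝ) (a b c : E) : det (r • a) (s • b) (t • c) = r * s * t * det a b c := by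
  simp only [det, PiLp.smul_apply, smul_eq_mul]; ring

/-- a positively oriented orthonormal frame -/
structure Frame (p e f : E) : Prop where
  pp : dot p p = 1
  ee : dot e e = 1
  ff : dot f f = 1
  pe : dot p e = 0
  pf : dot p f = 0
  ef : dot e f = 0
  dt : det p e f = 1

theorem gram (a b c : E) : det a b c ^ 2 = dot a a * (dot b b * dot c c - dot b c ^ 2)
    - dot a b * (dot a b * dot c c - dot b c * dot a c)
    + dot a c * (dot a b * dot b c - dot b b * dot a c) := by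
  simp only [det, dot]; ring

theorem exists_frame (p : E) (hp : dot p p = 1) : ∃ e f : E, Frame p e f := by
  have hpn : ‖p‖ = 1 := by
    rw [dot_self_eq] at hp
    nlinarith [norm_nonneg p]
  have hv : Orthonormal ℝ (({0} : Set (Fin 3)).domRestrict (fun _ : Fin 3 => p)) := by
    refine ⟨fun i => hpn, ?_⟩
    intro i j hij
    exact absurd (Subsingleton.elim i j) hij
  obtain ⟨b, hb⟩ := hv.exists_orthonormalBasis_extension_of_card_eq (by simp)
  have h0 : b 0 = p := hb 0 rfl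
  have hin : ∀ i j, dot (b i) (b j) = if i = j then 1 else 0 := by
    intro i j
    rw [dot_eq]
    exact orthonormal_iff_ite.1 b.orthonormal i j
  have h00 : dot p p = 1 := hp
  have h11 : dot (b 1) (b 1) = 1 := by simpa using hin 1 1
  have h22 : dot (b 2) (b 2) = 1 := by simpa using hin 2 2
  have h01 : dot p (b 1) = 0 := by simpa [h0] using hin 0 1
  have h02 : dot p (b 2) = 0 := by simpa [h0] using hin 0 2
  have h12 : dot (b 1) (b 2) = 0 := by simpa using hin 1 2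
  have hg := gram p (b 1) (b 2)
  rw [h00, h11, h22, h01, h02, h12] at hg
  have hd : (det p (b 1) (b 2) - 1) * (det p (b 1) (b 2) + 1) = 0 := by linear_combination hg
  rcases mul_eq_zero.1 hd with hd | hd
  · exact ⟨b 1, b 2, h00, h11, h22, h01, h02, h12, by linarith⟩
  · refine ⟨b 2, b 1, h00, h22, h11, h02, h01, by rw [dot_comm']; exact h12, ?_⟩
    have : det p (b 2) (b 1) = - det p (b 1) (b 2) := by unfold det; ring
    linarith

/-- the plane coordinates -/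
def L (p e f : E) (α β : ℝ) : E := p + α • e + β • f

theorem det_L (p e f : E) (α₁ β₁ α₂ β₂ α₃ β₃ : ℝ) :
    det (L p e f α₁ β₁) (L p e f α₂ β₂) (L p e f α₃ β₃) =
      ((α₂ - α₁) * (β₃ - β₁) - (α₃ - α₁) * (β₂ - β₁)) * det p e f := by
  simp only [det, L, PiLp.add_apply, PiLp.smul_apply, smul_eq_mul]; ring

theorem dot_lin {p e f : E} (h : Frame p e f) (a b c a' b' c' : ℝ) :
    dot (a • p + b • e + c • f) (a' • p + b' • e + c' • f) = a * a' + b * b' + c * c' := by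
  simp only [dot_add_l, dot_add_r, dot_smul_l, dot_smul_r, h.pp, h.ee, h.ff, h.pe, h.pf, h.ef,
    dot_comm' e p, dot_comm' f p, dot_comm' f e]
  ring

theorem dot_L {p e f : E} (h : Frame p e f) (α β α' β' : ℝ) :
    dot (L p e f α β) (L p e f α' β') = 1 + α * α' + β * β' := by
  have := dot_lin h 1 α β 1 α' β'
  simp only [one_smul] at this
  unfold L
  rw [this]; ring

theorem dot_L_sub {p e f : E} (h : Frame p e f) (α β α' β' : ℝ) :
    dot (L p e f α β - L p e f α' β') (L p e f α β - L p e f α' β')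
      = (α - α') ^ 2 + (β - β') ^ 2 := by
  simp only [dot_sub_l, dot_sub_r, dot_L h]
  ring

theorem dot_p_L {p e f : E} (h : Frame p e f) (α β : ℝ) : dot p (L p e f α β) = 1 := by
  have := dot_lin h 1 0 0 1 α β
  simp only [one_smul, zero_smul, add_zero] at this
  unfold L
  rw [this]; ring

theorem frame_decomp {p e f : E} (h : Frame p e f) (z : E) :
    z = dot p z • p + dot e z • e + dot f z • f := by
  set w : E := z - (dot p z • p + dot e z • e + dot f z • f) with hw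
  have h1 : dot p w = 0 := by
    simp only [hw, dot_sub_r, dot_add_r, dot_smul_r, h.pp, h.pe, h.pf]; ring
  have h2 : dot e w = 0 := by
    simp only [hw, dot_sub_r, dot_add_r, dot_smul_r, h.ee, dot_comm' e p, h.pe, h.ef]; ring
  have h3 : dot f w = 0 := by
    simp only [hw, dot_sub_r, dot_add_r, dot_smul_r, h.ff, dot_comm' f p, dot_comm' f e, h.pf,
      h.ef]; ring
  have hd := h.dt
  have k0 : w 0 = 0 := by
    have : w 0 * det p e f = dot p w * (e 1 * f 2 - e 2 * f 1) + dot e w * (f 1 * p 2 - f 2 * p 1)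
        + dot f w * (p 1 * e 2 - p 2 * e 1) := by unfold det dot; ring
    rw [hd, h1, h2, h3] at this
    linarith
  have k1 : w 1 = 0 := by
    have : w 1 * det p e f = dot p w * (e 2 * f 0 - e 0 * f 2) + dot e w * (f 2 * p 0 - f 0 * p 2)
        + dot f w * (p 2 * e 0 - p 0 * e 2) := by unfold det dot; ring
    rw [hd, h1, h2, h3] at this
    linarith
  have k2 : w 2 = 0 := by
    have : w 2 * det p e f = dot p w * (e 0 * f 1 - e 1 * f 0) + dot e w * (f 0 * p 1 - f 1 * p 0)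
        + dot f w * (p 0 * e 1 - p 1 * e 0) := by unfold det dot; ring
    rw [hd, h1, h2, h3] at this
    linarith
  have hw0 : w = 0 := by
    ext k
    fin_cases k
    · exact k0
    · exact k1
    · exact k2
  have := sub_eq_zero.1 (hw ▸ hw0)
  exact this

theorem dot_frame {p e f : E} (h : Frame p e f) (z : E) :
    dot z z = dot p z ^ 2 + dot e z ^ 2 + dot f z ^ 2 := by
  conv_lhs => rw [frame_decomp h z]
  rw [dot_lin h]; ring

/-! ### normalisation -/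

/-- radial projection -/
noncomputable def nrm (x : E) : E := (‖x‖)⁻¹ • x

theorem nrm_dot {x : E} (hx : 1 ≤ dot x x) : dot (nrm x) (nrm x) = 1 := by
  have h0 : 0 < ‖x‖ := by
    rw [dot_self_eq] at hx
    by_contra h
    have h1 : ‖x‖ = 0 := le_antisymm (not_lt.1 h) (norm_nonneg _)
    rw [h1] at hx; norm_num at hx
  unfold nrm
  rw [dot_smul_l, dot_smul_r, dot_self_eq]
  field_simp

theorem one_le_norm {x : E} (hx : 1 ≤ dot x x) : 1 ≤ ‖x‖ := by
  rw [dot_self_eq] at hx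
  nlinarith [norm_nonneg x]

theorem nrm_sub {x y : E} (hx : 1 ≤ dot x x) (hy : 1 ≤ dot y y) :
    dot (nrm x - nrm y) (nrm x - nrm y) ≤ dot (x - y) (x - y) := by
  have h1 := one_le_norm hx
  have h2 := one_le_norm hy
  have e1 : dot (nrm x - nrm y) (nrm x - nrm y) = 2 - 2 * dot (nrm x) (nrm y) := by
    simp only [dot_sub_l, dot_sub_r, nrm_dot hx, nrm_dot hy, dot_comm' (nrm y) (nrm x)]; ring
  have e2 : dot (x - y) (x - y) = ‖x‖ ^ 2 + ‖y‖ ^ 2 - 2 * (‖x‖ * ‖y‖ * dot (nrm x) (nrm y)) := by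
    have e3 : dot x y = ‖x‖ * ‖y‖ * dot (nrm x) (nrm y) := by
      unfold nrm
      rw [dot_smul_l, dot_smul_r]
      field_simp
    rw [← e3, dot_sub_l, dot_sub_r, dot_sub_r, dot_comm' y x, dot_self_eq x, dot_self_eq y]; ring
  have e4 : dot (nrm x) (nrm y) ≤ 1 := by
    refine (dot_le_norm _ _).trans ?_
    have a1 : ‖nrm x‖ = 1 := by
      have := nrm_dot hx; rw [dot_self_eq] at this; nlinarith [norm_nonneg (nrm x)]
    have a2 : ‖nrm y‖ = 1 := by
      have := nrm_dot hy; rw [dot_self_eq] at this; nlinarith [norm_nonneg (nrm y)]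
    rw [a1, a2]; norm_num
  rw [e1, e2]
  have h3 : 1 ≤ ‖x‖ * ‖y‖ := by nlinarith
  nlinarith [mul_nonneg (sub_nonneg.2 h3) (sub_nonneg.2 e4), sq_nonneg (‖x‖ - ‖y‖)]

theorem det_nrm (x y z : E) : det (nrm x) (nrm y) (nrm z) = (‖x‖)⁻¹ * (‖y‖)⁻¹ * (‖z‖)⁻¹ * det x y z :=
  det_smul _ _ _ _ _ _

theorem det_nrm_bounds {x y z : E} (hx : 1 ≤ dot x x) (hy : 1 ≤ dot y y) (hz : 1 ≤ dot z z)
    (h : 0 < det x y z) : 0 < det (nrm x) (nrm y) (nrm z) ∧ det (nrm x) (nrm y) (nrm z) ≤ det x y z := by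
  have h1 := one_le_norm hx
  have h2 := one_le_norm hy
  have h3 := one_le_norm hz
  rw [det_nrm]
  have i1 : (‖x‖)⁻¹ ≤ 1 := inv_le_one_of_one_le₀ h1
  have i2 : (‖y‖)⁻¹ ≤ 1 := inv_le_one_of_one_le₀ h2
  have i3 : (‖z‖)⁻¹ ≤ 1 := inv_le_one_of_one_le₀ h3
  have j1 : 0 < (‖x‖)⁻¹ := inv_pos.2 (by linarith)
  have j2 : 0 < (‖y‖)⁻¹ := inv_pos.2 (by linarith)
  have j3 : 0 < (‖z‖)⁻¹ := inv_pos.2 (by linarith)
  refine ⟨by positivity, ?_⟩
  have k1 : (‖x‖)⁻¹ * (‖y‖)⁻¹ ≤ 1 := mul_le_one₀ i1 j2.le i2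
  have k2 : (‖x‖)⁻¹ * (‖y‖)⁻¹ * (‖z‖)⁻¹ ≤ 1 := mul_le_one₀ k1 j3.le i3
  nlinarith

/-! ### defect of one triangle -/

theorem tet_subset_cb {a b c : E} (ha : dot a a = 1) (hb : dot b b = 1) (hc : dot c c = 1) :
    Tet a b c ⊆ CB a b c := by
  rintro z ⟨α, β, γ, h1, h2, h3, h4, rfl⟩
  refine ⟨α, β, γ, h1, h2, h3, rfl, ?_⟩
  rw [dot_self_eq]
  have na : ‖a‖ = 1 := by rw [dot_self_eq] at ha; nlinarith [norm_nonneg a]
  have nb : ‖b‖ = 1 := by rw [dot_self_eq] at hb; nlinarith [norm_nonneg b]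
  have nc : ‖c‖ = 1 := by rw [dot_self_eq] at hc; nlinarith [norm_nonneg c]
  have : ‖α • a + β • b + γ • c‖ ≤ 1 := by
    calc ‖α • a + β • b + γ • c‖ ≤ ‖α • a‖ + ‖β • b‖ + ‖γ • c‖ := norm_add₃_le
      _ = α + β + γ := by
        rw [norm_smul, norm_smul, norm_smul, na, nb, nc, Real.norm_of_nonneg h1,
          Real.norm_of_nonneg h2, Real.norm_of_nonneg h3]; ring
      _ ≤ 1 := h4
  nlinarith [norm_nonneg (α • a + β • b + γ • c)]

theorem isCompact_tet (a b c : E) : IsCompact (Tet a b c) := by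
  have h1 : IsCompact {t : Fin 3 → ℝ | 0 ≤ t 0 ∧ 0 ≤ t 1 ∧ 0 ≤ t 2 ∧ t 0 + t 1 + t 2 ≤ 1} := by
    refine IsCompact.of_isClosed_subset (isCompact_Icc (a := (0 : Fin 3 → ℝ)) (b := 1)) ?_ ?_
    · have e : {t : Fin 3 → ℝ | 0 ≤ t 0 ∧ 0 ≤ t 1 ∧ 0 ≤ t 2 ∧ t 0 + t 1 + t 2 ≤ 1} =
          {t | 0 ≤ t 0} ∩ ({t | 0 ≤ t 1} ∩ ({t | 0 ≤ t 2} ∩ {t | t 0 + t 1 + t 2 ≤ 1})) := by
        ext t; rfl
      rw [e]
      exact (isClosed_le continuous_const (by fun_prop)).inter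
        ((isClosed_le continuous_const (by fun_prop)).inter
        ((isClosed_le continuous_const (by fun_prop)).inter
        (isClosed_le (by fun_prop) continuous_const)))
    · rintro t ⟨h0, h1, h2, h3⟩
      refine ⟨fun i => ?_, fun i => ?_⟩
      · fin_cases i <;> simpa
      · fin_cases i <;> simp <;> linarith
  have h2 : Tet a b c = (fun t : Fin 3 → ℝ => t 0 • a + t 1 • b + t 2 • c) ''
      {t : Fin 3 → ℝ | 0 ≤ t 0 ∧ 0 ≤ t 1 ∧ 0 ≤ t 2 ∧ t 0 + t 1 + t 2 ≤ 1} := by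
    ext z
    constructor
    · rintro ⟨α, β, γ, h1, h2, h3, h4, rfl⟩
      exact ⟨![α, β, γ], ⟨by simpa, by simpa, by simpa, by simpa⟩, by simp⟩
    · rintro ⟨t, ⟨h1, h2, h3, h4⟩, rfl⟩
      exact ⟨t 0, t 1, t 2, h1, h2, h3, h4, rfl⟩
  rw [h2]
  refine h1.image ?_
  fun_prop

theorem cb_subset_ball (a b c : E) : CB a b c ⊆ Metric.closedBall 0 1 := by
  rintro z ⟨α, β, γ, h1, h2, h3, rfl, h4⟩
  rw [dot_self_eq] at h4
  rw [mem_closedBall_zero_iff]
  nlinarith [norm_nonneg (α • a + β • b + γ • c)]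

theorem tri_defect {x y z : E} (hx : 1 ≤ dot x x) (hy : 1 ≤ dot y y) (hz : 1 ≤ dot z z)
    (h : 0 < det x y z) {q : ℝ} (hq : q ≤ 1 / 4) (h1 : dot (x - y) (x - y) ≤ q)
    (h2 : dot (y - z) (y - z) ≤ q) (h3 : dot (z - x) (z - x) ≤ q) :
    volume (CB (nrm x) (nrm y) (nrm z) \ Tet (nrm x) (nrm y) (nrm z)) ≤
      ENNReal.ofReal (det x y z / 6 * (3 * q / 8 + 10 * q ^ 2)) := by
  obtain ⟨hd, hd'⟩ := det_nrm_bounds hx hy hz h
  have k1 := (nrm_sub hx hy).trans h1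
  have k2 := (nrm_sub hy hz).trans h2
  have k3 := (nrm_sub hz hx).trans h3
  have hub := vol_cb_upper hd (nrm_dot hx) (nrm_dot hy) (nrm_dot hz) hq k1 k2 k3
  have ht := vol_tet hd
  have hfin : volume (CB (nrm x) (nrm y) (nrm z)) ≠ ⊤ :=
    ((measure_mono (cb_subset_ball _ _ _)).trans_lt
      (isCompact_closedBall (0 : E) 1).measure_lt_top).ne
  rw [measure_sdiff (tet_subset_cb (nrm_dot hx) (nrm_dot hy) (nrm_dot hz))
    (isCompact_tet _ _ _).measurableSet.nullMeasurableSet (by rw [ht]; exact ENNReal.ofReal_ne_top),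
    ht]
  rw [tsub_le_iff_right]
  rw [← ENNReal.ofReal_toReal hfin]
  have hq0 : 0 ≤ q := (dot_self_nonneg _).trans h1
  rw [← ENNReal.ofReal_add (by positivity) (by positivity)]
  apply ENNReal.ofReal_le_ofReal
  refine hub.trans ?_
  have hZ : Zs (nrm x) (nrm y) (nrm z) ≤ 3 * q := by unfold Zs; linarith
  have hZ0 : 0 ≤ Zs (nrm x) (nrm y) (nrm z) := by
    unfold Zs
    have := dot_self_nonneg (nrm x - nrm y)
    have := dot_self_nonneg (nrm y - nrm z)
    have := dot_self_nonneg (nrm z - nrm x)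
    linarith
  have e1 : det (nrm x) (nrm y) (nrm z) / 6 * (1 + Zs (nrm x) (nrm y) (nrm z) / 8 + 10 * q ^ 2)
      = det (nrm x) (nrm y) (nrm z) / 6 * (Zs (nrm x) (nrm y) (nrm z) / 8 + 10 * q ^ 2)
        + det (nrm x) (nrm y) (nrm z) / 6 := by ring
  rw [e1]
  have e2 : det (nrm x) (nrm y) (nrm z) / 6 * (Zs (nrm x) (nrm y) (nrm z) / 8 + 10 * q ^ 2)
      ≤ det x y z / 6 * (3 * q / 8 + 10 * q ^ 2) := by
    apply mul_le_mul
    · linarith
    · linarith
    · positivity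
    · positivity
  linarith

/-! ### nets and Voronoi cones -/

theorem exists_net (δ : ℝ) (hδ : 0 < δ) : ∃ Z : Finset E, (∀ p ∈ Z, dot p p = 1) ∧
    (∀ p ∈ Z, ∀ q ∈ Z, p ≠ q → δ ≤ ‖p - q‖) ∧ ∀ u : E, dot u u = 1 → ∃ p ∈ Z, ‖u - p‖ < δ := by
  classical
  let P : Finset E → Prop := fun Z => (∀ p ∈ Z, dot p p = 1) ∧
    (∀ p ∈ Z, ∀ q ∈ Z, p ≠ q → δ ≤ ‖p - q‖)
  obtain ⟨t, -, ht, hcov⟩ := (isCompact_closedBall (0 : E) 1).finite_cover_balls
    (e := δ / 2) (by positivity)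
  have hbd : ∀ Z, P Z → Z.card ≤ ht.toFinset.card := by
    rintro Z ⟨hZ1, hZ2⟩
    have hex : ∀ p ∈ Z, ∃ x ∈ t, p ∈ Metric.ball x (δ / 2) := by
      intro p hp
      have h1 : p ∈ Metric.closedBall (0 : E) 1 := by
        have := hZ1 p hp
        rw [dot_self_eq] at this
        rw [mem_closedBall_zero_iff]
        nlinarith [norm_nonneg p]
      have := hcov h1
      simpa using this
    choose! g hg1 hg2 using hex
    refine Finset.card_le_card_of_injOn g (fun p hp => by simpa using hg1 p hp) ?_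
    intro p hp q hq hpq
    by_contra hne
    have h1 := hZ2 p hp q hq hne
    have h2 := hg2 p hp
    have h3 := hg2 q hq
    have hpq' : g p = g q := hpq
    rw [hpq'] at h2
    have h4 : dist p q < δ := by
      calc dist p q ≤ dist p (g q) + dist q (g q) := dist_triangle_right _ _ _
        _ < δ / 2 + δ / 2 := add_lt_add (Metric.mem_ball.1 h2) (Metric.mem_ball.1 h3)
        _ = δ := by ring
    rw [dist_eq_norm] at h4
    linarith
  let S : Set ℕ := {n | ∃ Z, P Z ∧ Z.card = n}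
  have hS : S.Nonempty := ⟨0, ∅, ⟨by simp, by simp⟩, rfl⟩
  have hSb : BddAbove S := ⟨ht.toFinset.card, by
    rintro n ⟨Z, hZ, rfl⟩
    exact hbd Z hZ⟩
  obtain ⟨Z, hZ, hZc⟩ := Nat.sSup_mem hS hSb
  refine ⟨Z, hZ.1, hZ.2, ?_⟩
  intro u hu
  by_contra hno
  push Not at hno
  have huZ : u ∉ Z := by
    intro h
    have := hno u h
    simp at this
    linarith
  have hP : P (insert u Z) := by
    refine ⟨?_, ?_⟩
    · intro p hp
      rcases Finset.mem_insert.1 hp with rfl | hp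
      · exact hu
      · exact hZ.1 p hp
    · intro p hp q hq hne
      rcases Finset.mem_insert.1 hp with hp1 | hp1
      · rcases Finset.mem_insert.1 hq with hq1 | hq1
        · exact absurd (hp1.trans hq1.symm) hne
        · rw [hp1]; exact hno q hq1
      · rcases Finset.mem_insert.1 hq with hq1 | hq1
        · rw [norm_sub_rev, hq1]; exact hno p hp1
        · exact hZ.2 p hp1 q hq1 hne
  have h1 : Z.card + 1 ∈ S := ⟨insert u Z, hP, Finset.card_insert_of_notMem huZ⟩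
  have h2 := le_csSup hSb h1
  omega

structure Net (Z : Finset E) (δ : ℝ) : Prop where
  unit : ∀ p ∈ Z, dot p p = 1
  sep : ∀ p ∈ Z, ∀ q ∈ Z, p ≠ q → δ ≤ ‖p - q‖
  cov : ∀ u : E, dot u u = 1 → ∃ p ∈ Z, ‖u - p‖ < δ

/-- closed Voronoi cone -/
def VC (Z : Finset E) (p : E) : Set E := {z | ∀ q ∈ Z, dot z q ≤ dot z p}
/-- open Voronoi cone -/
def VO (Z : Finset E) (p : E) : Set E := {z | ∀ q ∈ Z, q ≠ p → dot z q < dot z p}

theorem norm_sub_sq_unit {u q : E} (hu : dot u u = 1) (hq : dot q q = 1) :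
    ‖u - q‖ ^ 2 = 2 - 2 * dot u q := by
  rw [← dot_self_eq]
  simp only [dot_sub_l, dot_sub_r, hu, hq, dot_comm' q u]; ring

theorem vc_bound {Z : Finset E} {δ : ℝ} (hZ : Net Z δ) {p z : E}
    (hz : z ∈ VC Z p) : ‖z‖ * (1 - δ ^ 2 / 2) ≤ dot z p := by
  by_cases h0 : z = 0
  · subst h0
    simp [dot]
  have hn : 0 < ‖z‖ := norm_pos_iff.2 h0
  have hu : dot (‖z‖⁻¹ • z) (‖z‖⁻¹ • z) = 1 := by
    rw [dot_smul_l, dot_smul_r, dot_self_eq]; field_simp
  obtain ⟨q, hq, hd⟩ := hZ.cov _ hu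
  have h1 := norm_sub_sq_unit hu (hZ.unit q hq)
  have h2 : dot z q = ‖z‖ * dot (‖z‖⁻¹ • z) q := by
    rw [dot_smul_l]; field_simp
  have h3 : 1 - δ ^ 2 / 2 ≤ dot (‖z‖⁻¹ • z) q := by
    have h4 : ‖‖z‖⁻¹ • z - q‖ ^ 2 ≤ δ ^ 2 := by
      have := norm_nonneg (‖z‖⁻¹ • z - q)
      nlinarith
    linarith
  calc ‖z‖ * (1 - δ ^ 2 / 2) ≤ ‖z‖ * dot (‖z‖⁻¹ • z) q := mul_le_mul_of_nonneg_left h3 hn.le
    _ = dot z q := h2.symm
    _ ≤ dot z p := hz q hq

theorem exists_unit : ∃ u : E, dot u u = 1 := ⟨EuclideanSpace.single 0 1, by simp [dot]⟩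

theorem exists_vc {Z : Finset E} {δ : ℝ} (hZ : Net Z δ) (z : E) : ∃ p ∈ Z, z ∈ VC Z p := by
  obtain ⟨u, hu⟩ := exists_unit
  obtain ⟨p, hp, -⟩ := hZ.cov u hu
  obtain ⟨p, hp, hmax⟩ := Finset.exists_max_image Z (fun q => dot z q) ⟨p, hp⟩
  exact ⟨p, hp, fun q hq => hmax q hq⟩

/-! ### the lattice -/

/-- points of the tangent plane in lattice coordinates -/
noncomputable def M (p e f : E) (s ξ η : ℝ) : E := L p e f (s * (ξ + η / 2)) (s * (√3 / 2) * η)

theorem sqrt3_sq : √3 ^ 2 = (3 : ℝ) := Real.sq_sqrt (by norm_num)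
theorem sqrt3_pos : 0 < √(3 : ℝ) := Real.sqrt_pos.2 (by norm_num)

theorem dot_M_sub {p e f : E} (h : Frame p e f) (s ξ η ξ' η' : ℝ) :
    dot (M p e f s ξ η - M p e f s ξ' η') (M p e f s ξ η - M p e f s ξ' η')
      = s ^ 2 * ((ξ - ξ') ^ 2 + (ξ - ξ') * (η - η') + (η - η') ^ 2) := by
  unfold M
  rw [dot_L_sub h]
  have := sqrt3_sq
  linear_combination (s ^ 2 * (η - η') ^ 2 / 4) * this

theorem dot_M {p e f : E} (h : Frame p e f) (s ξ η : ℝ) :
    dot (M p e f s ξ η) (M p e f s ξ η) = 1 + s ^ 2 * (ξ ^ 2 + ξ * η + η ^ 2) := by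
  unfold M
  rw [dot_L h]
  have := sqrt3_sq
  linear_combination (s ^ 2 * η ^ 2 / 4) * this

theorem one_le_dot_M {p e f : E} (h : Frame p e f) (s ξ η : ℝ) :
    1 ≤ dot (M p e f s ξ η) (M p e f s ξ η) := by
  rw [dot_M h]
  have : 0 ≤ ξ ^ 2 + ξ * η + η ^ 2 := by nlinarith [sq_nonneg (ξ + η), sq_nonneg ξ, sq_nonneg η]
  nlinarith [mul_nonneg (sq_nonneg s) this]

theorem det_M {p e f : E} (h : Frame p e f) (s ξ₁ η₁ ξ₂ η₂ ξ₃ η₃ : ℝ) :
    det (M p e f s ξ₁ η₁) (M p e f s ξ₂ η₂) (M p e f s ξ₃ η₃) =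
      √3 / 2 * s ^ 2 * ((ξ₂ - ξ₁) * (η₃ - η₁) - (ξ₃ - ξ₁) * (η₂ - η₁)) := by
  unfold M
  rw [det_L, h.dt]; ring

theorem M_comb (p e f : E) (s i j a b : ℝ) :
    M p e f s (i + a) (j + b) = (1 - a - b) • M p e f s i j + a • M p e f s (i + 1) j
      + b • M p e f s i (j + 1) := by
  ext k
  simp only [M, L, PiLp.add_apply, PiLp.smul_apply, smul_eq_mul]
  ring

theorem M_comb' (p e f : E) (s i j a b : ℝ) :
    M p e f s (i + a) (j + b) = (a + b - 1) • M p e f s (i + 1) (j + 1)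
      + (1 - a) • M p e f s i (j + 1) + (1 - b) • M p e f s (i + 1) j := by
  ext k
  simp only [M, L, PiLp.add_apply, PiLp.smul_apply, smul_eq_mul]
  ring

/-- linear coordinate functionals -/
noncomputable def xi (e f : E) (s : ℝ) (z : E) : ℝ := (dot e z - dot f z / √3) / s
noncomputable def et (f : E) (s : ℝ) (z : E) : ℝ := 2 * dot f z / (√3 * s)

theorem z_eq {p e f : E} (h : Frame p e f) {s : ℝ} (hs : 0 < s) {z : E} (hz : 0 < dot p z) :
    z = dot p z • M p e f s (xi e f s z / dot p z) (et f s z / dot p z) := by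
  have h3 := sqrt3_pos
  have h3' := sqrt3_sq
  conv_lhs => rw [frame_decomp h z]
  unfold M L
  rw [smul_add, smul_add, smul_smul, smul_smul]
  have e1 : dot p z * (s * (xi e f s z / dot p z + et f s z / dot p z / 2)) = dot e z := by
    unfold xi et
    field_simp
    ring
  have e2 : dot p z * (s * (√3 / 2) * (et f s z / dot p z)) = dot f z := by
    unfold et
    field_simp
  rw [e1, e2]

theorem xi_M {p e f : E} (h : Frame p e f) {s : ℝ} (hs : 0 < s) (t ξ η : ℝ) :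
    xi e f s (t • M p e f s ξ η) = t * ξ := by
  have h3 := sqrt3_pos
  have a1 : dot e (M p e f s ξ η) = s * (ξ + η / 2) := by
    unfold M L
    rw [dot_add_r, dot_add_r, dot_smul_r, dot_smul_r, h.ee, h.ef, dot_comm' e p, h.pe]; ring
  have a2 : dot f (M p e f s ξ η) = s * (√3 / 2) * η := by
    unfold M L
    rw [dot_add_r, dot_add_r, dot_smul_r, dot_smul_r, h.ff, dot_comm' f e, h.ef, dot_comm' f p,
      h.pf]; ring
  unfold xi
  rw [dot_smul_r, dot_smul_r, a1, a2]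
  field_simp
  ring

theorem et_M {p e f : E} (h : Frame p e f) {s : ℝ} (hs : 0 < s) (t ξ η : ℝ) :
    et f s (t • M p e f s ξ η) = t * η := by
  have h3 := sqrt3_pos
  have a2 : dot f (M p e f s ξ η) = s * (√3 / 2) * η := by
    unfold M L
    rw [dot_add_r, dot_add_r, dot_smul_r, dot_smul_r, h.ff, dot_comm' f e, h.ef, dot_comm' f p,
      h.pf]; ring
  unfold et
  rw [dot_smul_r, a2]
  field_simp

theorem mu_M {p e f : E} (h : Frame p e f) (s t ξ η : ℝ) :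
    dot p (t • M p e f s ξ η) = t := by
  rw [dot_smul_r]
  unfold M
  rw [dot_p_L h, mul_one]

/-- cells meeting the region -/
def I (Z : Finset E) (p e f : E) (s : ℝ) : Set (ℤ × ℤ) :=
  {k | ∃ ξ η : ℝ, M p e f s ξ η ∈ VC Z p ∧ (k.1 : ℝ) ≤ ξ ∧ ξ < k.1 + 1 ∧ (k.2 : ℝ) ≤ η ∧ η < k.2 + 1}

/-- lower left corners used -/
def J (Z : Finset E) (p e f : E) (s : ℝ) : Set (ℤ × ℤ) :=
  {k | ∃ k' ∈ I Z p e f s, (k.1 = k'.1 ∨ k.1 = k'.1 + 1) ∧ (k.2 = k'.2 ∨ k.2 = k'.2 + 1)}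

theorem I_subset_J (Z : Finset E) (p e f : E) (s : ℝ) : I Z p e f s ⊆ J Z p e f s :=
  fun k hk => ⟨k, hk, Or.inl rfl, Or.inl rfl⟩

theorem J_finite {Z : Finset E} {δ : ℝ} (hZ : Net Z δ) (hδ : 0 < δ) (hδ1 : δ ≤ 1) {p e f : E}
    (h : Frame p e f) {s : ℝ} (hs : 0 < s) : (J Z p e f s).Finite := by
  have hB : ∀ ξ η : ℝ, M p e f s ξ η ∈ VC Z p → |ξ| ≤ 2 / s ∧ |η| ≤ 2 / s := by
    intro ξ η hM
    have h1 := vc_bound hZ hM
    have h2 : dot (M p e f s ξ η) p = 1 := by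
      rw [dot_comm']; have := mu_M h s 1 ξ η; rwa [one_smul] at this
    rw [h2] at h1
    have h3 : ‖M p e f s ξ η‖ ≤ 2 := by
      have : δ ^ 2 ≤ 1 := by nlinarith
      nlinarith [norm_nonneg (M p e f s ξ η)]
    have h4 := dot_M h s ξ η
    rw [dot_self_eq] at h4
    have h5 : s ^ 2 * (ξ ^ 2 + ξ * η + η ^ 2) ≤ 3 := by
      nlinarith [norm_nonneg (M p e f s ξ η)]
    constructor
    · apply abs_le_of_sq_le_sq _ (by positivity)
      rw [div_pow, le_div_iff₀ (by positivity)]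
      nlinarith [sq_nonneg (s * (ξ / 2 + η))]
    · apply abs_le_of_sq_le_sq _ (by positivity)
      rw [div_pow, le_div_iff₀ (by positivity)]
      nlinarith [sq_nonneg (s * (η / 2 + ξ))]
  set B : ℤ := ⌈2 / s⌉ + 2 with hBdef
  have hBr : 2 / s ≤ (B : ℝ) - 2 := by
    rw [hBdef]; push_cast
    linarith [Int.le_ceil (2 / s)]
  refine (Set.finite_Icc ((-B, -B) : ℤ × ℤ) (B, B)).subset ?_
  rintro ⟨a, b⟩ ⟨⟨c, d⟩, ⟨ξ, η, hM, h1, h2, h3, h4⟩, h5, h6⟩
  obtain ⟨b1, b2⟩ := hB ξ η hM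
  rw [abs_le] at b1 b2
  simp only at h1 h2 h3 h4 h5 h6
  have c1 : (c : ℝ) ≤ B - 2 := by linarith
  have c2 : -(B : ℝ) + 1 ≤ c := by linarith
  have d1 : (d : ℝ) ≤ B - 2 := by linarith
  have d2 : -(B : ℝ) + 1 ≤ d := by linarith
  have c1' : c ≤ B - 2 := by exact_mod_cast c1
  have c2' : -B + 1 ≤ c := by exact_mod_cast c2
  have d1' : d ≤ B - 2 := by exact_mod_cast d1
  have d2' : -B + 1 ≤ d := by exact_mod_cast d2
  simp only [Set.mem_Icc, Prod.mk_le_mk]
  refine ⟨⟨?_, ?_⟩, ⟨?_, ?_⟩⟩ <;> omega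

/-! ### the covering of the ball -/

/-- the lattice point -/
noncomputable def X (p e f : E) (s : ℝ) (k : ℤ × ℤ) : E := M p e f s (k.1 : ℝ) (k.2 : ℝ)

theorem cb_of_comb {x y z w : E} (hx : 1 ≤ dot x x) (hy : 1 ≤ dot y y) (hz : 1 ≤ dot z z)
    (hw : dot w w ≤ 1) {a b c t : ℝ} (ht : 0 ≤ t) (ha : 0 ≤ a) (hb : 0 ≤ b) (hc : 0 ≤ c)
    (h : w = t • (a • x + b • y + c • z)) : w ∈ CB (nrm x) (nrm y) (nrm z) := by
  have nx := one_le_norm hx
  have ny := one_le_norm hy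
  have nz := one_le_norm hz
  refine ⟨t * a * ‖x‖, t * b * ‖y‖, t * c * ‖z‖, by positivity, by positivity, by positivity, ?_, hw⟩
  rw [h]
  unfold nrm
  rw [smul_smul, smul_smul, smul_smul, smul_add, smul_add, smul_smul, smul_smul, smul_smul]
  have ex : t * a * ‖x‖ * ‖x‖⁻¹ = t * a := by
    rw [mul_assoc, mul_inv_cancel₀ (by linarith), mul_one]
  have ey : t * b * ‖y‖ * ‖y‖⁻¹ = t * b := by
    rw [mul_assoc, mul_inv_cancel₀ (by linarith), mul_one]
  have ez : t * c * ‖z‖ * ‖z‖⁻¹ = t * c := by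
    rw [mul_assoc, mul_inv_cancel₀ (by linarith), mul_one]
  rw [ex, ey, ez]

/-- the two triangles of a cell -/
noncomputable def CBu (p e f : E) (s : ℝ) (k : ℤ × ℤ) : Set E :=
  CB (nrm (X p e f s k)) (nrm (X p e f s (k.1 + 1, k.2))) (nrm (X p e f s (k.1, k.2 + 1)))
noncomputable def CBd (p e f : E) (s : ℝ) (k : ℤ × ℤ) : Set E :=
  CB (nrm (X p e f s (k.1 + 1, k.2 + 1))) (nrm (X p e f s (k.1, k.2 + 1)))
    (nrm (X p e f s (k.1 + 1, k.2)))
noncomputable def TTu (p e f : E) (s : ℝ) (k : ℤ × ℤ) : Set E :=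
  Tet (nrm (X p e f s k)) (nrm (X p e f s (k.1 + 1, k.2))) (nrm (X p e f s (k.1, k.2 + 1)))
noncomputable def TTd (p e f : E) (s : ℝ) (k : ℤ × ℤ) : Set E :=
  Tet (nrm (X p e f s (k.1 + 1, k.2 + 1))) (nrm (X p e f s (k.1, k.2 + 1)))
    (nrm (X p e f s (k.1 + 1, k.2)))

theorem X_norm {p e f : E} (h : Frame p e f) (s : ℝ) (k : ℤ × ℤ) :
    1 ≤ dot (X p e f s k) (X p e f s k) := one_le_dot_M h _ _ _

theorem cover_cell {Z : Finset E} {δ : ℝ} (hZ : Net Z δ) (hδ : 0 < δ) (hδ1 : δ ≤ 1) {p e f : E}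
    (h : Frame p e f) {s : ℝ} (hs : 0 < s) {z : E} (hz : z ∈ VC Z p) (hz0 : z ≠ 0)
    (hz1 : dot z z ≤ 1) : ∃ k ∈ I Z p e f s, z ∈ CBu p e f s k ∨ z ∈ CBd p e f s k := by
  have hμ : 0 < dot p z := by
    have h1 := vc_bound hZ hz
    have h2 : 0 < ‖z‖ := norm_pos_iff.2 hz0
    have h3 : 0 < 1 - δ ^ 2 / 2 := by nlinarith
    rw [dot_comm']
    exact lt_of_lt_of_le (mul_pos h2 h3) h1
  set ξ : ℝ := xi e f s z / dot p z with hξ
  set η : ℝ := et f s z / dot p z with hη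
  have hzz : z = dot p z • M p e f s ξ η := z_eq h hs hμ
  have hM : M p e f s ξ η ∈ VC Z p := by
    intro q hq
    have h1 := hz q hq
    rw [hzz, dot_smul_l, dot_smul_l] at h1
    exact le_of_mul_le_mul_left h1 hμ
  refine ⟨(⌊ξ⌋, ⌊η⌋), ⟨ξ, η, hM, Int.floor_le _, Int.lt_floor_add_one _, Int.floor_le _,
    Int.lt_floor_add_one _⟩, ?_⟩
  have f1 := Int.fract_nonneg ξ
  have f2 := Int.fract_nonneg η
  have g1 := (Int.fract_lt_one ξ).le
  have g2 := (Int.fract_lt_one η).le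
  have e1 : ξ = (⌊ξ⌋ : ℝ) + Int.fract ξ := (Int.floor_add_fract ξ).symm
  have e2 : η = (⌊η⌋ : ℝ) + Int.fract η := (Int.floor_add_fract η).symm
  rcases le_total (Int.fract ξ + Int.fract η) 1 with hle | hle
  · left
    have hc := M_comb p e f s (⌊ξ⌋ : ℝ) (⌊η⌋ : ℝ) (Int.fract ξ) (Int.fract η)
    rw [← e1, ← e2] at hc
    refine cb_of_comb (X_norm h s _) (X_norm h s _) (X_norm h s _) hz1 (t := dot p z)
      (a := 1 - Int.fract ξ - Int.fract η) (b := Int.fract ξ) (c := Int.fract η) hμ.le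
      (by linarith) f1 f2 ?_
    unfold X
    push_cast
    rw [← hc]
    exact hzz
  · right
    have hc := M_comb' p e f s (⌊ξ⌋ : ℝ) (⌊η⌋ : ℝ) (Int.fract ξ) (Int.fract η)
    rw [← e1, ← e2] at hc
    refine cb_of_comb (X_norm h s _) (X_norm h s _) (X_norm h s _) hz1 (t := dot p z)
      (a := Int.fract ξ + Int.fract η - 1) (b := 1 - Int.fract ξ) (c := 1 - Int.fract η) hμ.le
      (by linarith) (by linarith) (by linarith) ?_
    unfold X
    push_cast
    rw [← hc]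
    exact hzz

theorem defect_u {p e f : E} (h : Frame p e f) {s : ℝ} (hs : 0 < s) (hs1 : s ≤ 1 / 2) (k : ℤ × ℤ) :
    volume (CBu p e f s k \ TTu p e f s k) ≤
      ENNReal.ofReal (√3 / 12 * s ^ 2 * (3 * s ^ 2 / 8 + 10 * s ^ 4)) := by
  have hd : det (X p e f s k) (X p e f s (k.1 + 1, k.2)) (X p e f s (k.1, k.2 + 1))
      = √3 / 2 * s ^ 2 := by
    unfold X
    rw [det_M h]
    push_cast
    ring
  have h3 := sqrt3_pos
  have := tri_defect (X_norm h s k) (X_norm h s (k.1 + 1, k.2)) (X_norm h s (k.1, k.2 + 1))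
    (by rw [hd]; positivity) (q := s ^ 2) (by nlinarith)
    (by unfold X; rw [dot_M_sub h]; push_cast; apply le_of_eq; ring)
    (by unfold X; rw [dot_M_sub h]; push_cast; apply le_of_eq; ring)
    (by unfold X; rw [dot_M_sub h]; push_cast; apply le_of_eq; ring)
  refine this.trans (le_of_eq ?_)
  rw [hd]
  congr 1
  ring

theorem defect_d {p e f : E} (h : Frame p e f) {s : ℝ} (hs : 0 < s) (hs1 : s ≤ 1 / 2) (k : ℤ × ℤ) :
    volume (CBd p e f s k \ TTd p e f s k) ≤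
      ENNReal.ofReal (√3 / 12 * s ^ 2 * (3 * s ^ 2 / 8 + 10 * s ^ 4)) := by
  have hd : det (X p e f s (k.1 + 1, k.2 + 1)) (X p e f s (k.1, k.2 + 1))
      (X p e f s (k.1 + 1, k.2)) = √3 / 2 * s ^ 2 := by
    unfold X
    rw [det_M h]
    push_cast
    ring
  have h3 := sqrt3_pos
  have := tri_defect (X_norm h s (k.1 + 1, k.2 + 1)) (X_norm h s (k.1, k.2 + 1))
    (X_norm h s (k.1 + 1, k.2))
    (by rw [hd]; positivity) (q := s ^ 2) (by nlinarith)
    (by unfold X; rw [dot_M_sub h]; push_cast; apply le_of_eq; ring)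
    (by unfold X; rw [dot_M_sub h]; push_cast; apply le_of_eq; ring)
    (by unfold X; rw [dot_M_sub h]; push_cast; apply le_of_eq; ring)
  refine this.trans (le_of_eq ?_)
  rw [hd]
  congr 1
  ring

/-! ### counting -/

theorem vol_hyperplane {w : E} (hw : w ≠ 0) : volume {z : E | dot w z = 0} = 0 := by
  have h1 : {z : E | dot w z = 0} = (LinearMap.ker ((innerSL ℝ w : E →L[ℝ] ℝ) : E →ₗ[ℝ] ℝ) : Set E) := by
    ext z
    simp [dot_eq]
  rw [h1]
  apply Measure.addHaar_submodule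
  intro htop
  have h2 : w ∈ LinearMap.ker ((innerSL ℝ w : E →L[ℝ] ℝ) : E →ₗ[ℝ] ℝ) := by rw [htop]; trivial
  simp at h2
  exact hw h2

/-- the cone over a lattice cell -/
def Y (p e f : E) (s : ℝ) (k : ℤ × ℤ) : Set E :=
  {z | 0 < dot p z ∧ dot p z ≤ 1 ∧ (k.1 : ℝ) * dot p z ≤ xi e f s z ∧
    xi e f s z < (k.1 + 1) * dot p z ∧ (k.2 : ℝ) * dot p z ≤ et f s z ∧
    et f s z < (k.2 + 1) * dot p z}

theorem continuous_dot (a : E) : Continuous (fun z : E => dot a z) := by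
  unfold dot; fun_prop

theorem continuous_xi (e f : E) (s : ℝ) : Continuous (xi e f s) := by
  unfold xi
  exact ((continuous_dot e).sub ((continuous_dot f).div_const _)).div_const _

theorem continuous_et (f : E) (s : ℝ) : Continuous (et f s) := by
  unfold et
  exact (continuous_const.mul (continuous_dot f)).div_const _

theorem measurableSet_Y (p e f : E) (s : ℝ) (k : ℤ × ℤ) : MeasurableSet (Y p e f s k) := by
  have h1 := (continuous_dot p).measurable
  have h2 := (continuous_xi e f s).measurable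
  have h3 := (continuous_et f s).measurable
  unfold Y
  have e1 : {z | 0 < dot p z ∧ dot p z ≤ 1 ∧ (k.1 : ℝ) * dot p z ≤ xi e f s z ∧
    xi e f s z < (k.1 + 1) * dot p z ∧ (k.2 : ℝ) * dot p z ≤ et f s z ∧
    et f s z < (k.2 + 1) * dot p z} = {z | 0 < dot p z} ∩ ({z | dot p z ≤ 1} ∩
      ({z | (k.1 : ℝ) * dot p z ≤ xi e f s z} ∩ ({z | xi e f s z < (k.1 + 1) * dot p z} ∩
      ({z | (k.2 : ℝ) * dot p z ≤ et f s z} ∩ {z | et f s z < (k.2 + 1) * dot p z})))) := by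
    ext z; rfl
  rw [e1]
  exact (measurableSet_lt measurable_const h1).inter ((measurableSet_le h1 measurable_const).inter
    ((measurableSet_le (h1.const_mul _) h2).inter ((measurableSet_lt h2 (h1.const_mul _)).inter
    ((measurableSet_le (h1.const_mul _) h3).inter (measurableSet_lt h3 (h1.const_mul _))))))

theorem Y_disjoint (p e f : E) (s : ℝ) {k k' : ℤ × ℤ} (hkk : k ≠ k') :
    Disjoint (Y p e f s k) (Y p e f s k') := by
  rw [Set.disjoint_left]
  rintro z ⟨h0, -, h1, h2, h3, h4⟩ ⟨-, -, h1', h2', h3', h4'⟩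
  apply hkk
  have a1 : (k.1 : ℝ) < k'.1 + 1 := lt_of_mul_lt_mul_right (lt_of_le_of_lt h1 h2') h0.le
  have a2 : (k'.1 : ℝ) < k.1 + 1 := lt_of_mul_lt_mul_right (lt_of_le_of_lt h1' h2) h0.le
  have a3 : (k.2 : ℝ) < k'.2 + 1 := lt_of_mul_lt_mul_right (lt_of_le_of_lt h3 h4') h0.le
  have a4 : (k'.2 : ℝ) < k.2 + 1 := lt_of_mul_lt_mul_right (lt_of_le_of_lt h3' h4) h0.le
  have b1 : k.1 < k'.1 + 1 := by exact_mod_cast a1
  have b2 : k'.1 < k.1 + 1 := by exact_mod_cast a2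
  have b3 : k.2 < k'.2 + 1 := by exact_mod_cast a3
  have b4 : k'.2 < k.2 + 1 := by exact_mod_cast a4
  exact Prod.ext (by omega) (by omega)

theorem xi_add (e f : E) (s : ℝ) (x y : E) : xi e f s (x + y) = xi e f s x + xi e f s y := by
  unfold xi; rw [dot_add_r, dot_add_r]; ring
theorem et_add (f : E) (s : ℝ) (x y : E) : et f s (x + y) = et f s x + et f s y := by
  unfold et; rw [dot_add_r]; ring

theorem vol_Y {p e f : E} (h : Frame p e f) {s : ℝ} (hs : 0 < s) (k : ℤ × ℤ) :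
    ENNReal.ofReal (√3 / 6 * s ^ 2) ≤ volume (Y p e f s k) := by
  have h3 := sqrt3_pos
  have hdu : det (X p e f s k) (X p e f s (k.1 + 1, k.2)) (X p e f s (k.1, k.2 + 1))
      = √3 / 2 * s ^ 2 := by
    unfold X
    rw [det_M h]
    push_cast
    ring
  have hdd : det (X p e f s (k.1 + 1, k.2 + 1)) (X p e f s (k.1, k.2 + 1))
      (X p e f s (k.1 + 1, k.2)) = √3 / 2 * s ^ 2 := by
    unfold X
    rw [det_M h]
    push_cast
    ring
  set U := Tet (X p e f s k) (X p e f s (k.1 + 1, k.2)) (X p e f s (k.1, k.2 + 1)) with hU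
  set D := Tet (X p e f s (k.1 + 1, k.2 + 1)) (X p e f s (k.1, k.2 + 1))
      (X p e f s (k.1 + 1, k.2)) with hD
  have hUv : volume U = ENNReal.ofReal (√3 / 12 * s ^ 2) := by
    rw [hU, vol_tet (by rw [hdu]; positivity), hdu]; congr 1; ring
  have hDv : volume D = ENNReal.ofReal (√3 / 12 * s ^ 2) := by
    rw [hD, vol_tet (by rw [hdd]; positivity), hdd]; congr 1; ring
  -- the coordinates
  have hcU : ∀ z ∈ U, ∃ μ b c : ℝ, 0 ≤ b ∧ 0 ≤ c ∧ b + c ≤ μ ∧ μ ≤ 1 ∧ dot p z = μ ∧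
      xi e f s z = k.1 * μ + b ∧ et f s z = k.2 * μ + c := by
    rintro z ⟨α, β, γ, ha, hb, hc, habc, rfl⟩
    refine ⟨α + β + γ, β, γ, hb, hc, by linarith, habc, ?_, ?_, ?_⟩
    · unfold X
      rw [dot_add_r, dot_add_r, mu_M h, mu_M h, mu_M h]
    · unfold X
      rw [xi_add, xi_add, xi_M h hs, xi_M h hs, xi_M h hs]
      push_cast
      ring
    · unfold X
      rw [et_add, et_add, et_M h hs, et_M h hs, et_M h hs]
      push_cast
      ring
  have hcD : ∀ z ∈ D, ∃ μ b c : ℝ, b ≤ μ ∧ c ≤ μ ∧ μ ≤ b + c ∧ μ ≤ 1 ∧ dot p z = μ ∧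
      xi e f s z = k.1 * μ + b ∧ et f s z = k.2 * μ + c := by
    rintro z ⟨α, β, γ, ha, hb, hc, habc, rfl⟩
    refine ⟨α + β + γ, α + γ, α + β, by linarith, by linarith, by linarith, habc, ?_, ?_, ?_⟩
    · unfold X
      rw [dot_add_r, dot_add_r, mu_M h, mu_M h, mu_M h]
    · unfold X
      rw [xi_add, xi_add, xi_M h hs, xi_M h hs, xi_M h hs]
      push_cast
      ring
    · unfold X
      rw [et_add, et_add, et_M h hs, et_M h hs, et_M h hs]
      push_cast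
      ring
  -- null planes
  set w1 : E := (1 / s) • e - (1 / (√3 * s)) • f - ((k.1 : ℝ) + 1) • p with hw1
  set w2 : E := (2 / (√3 * s)) • f - ((k.2 : ℝ) + 1) • p with hw2
  set w3 : E := (1 / s) • e + (1 / (√3 * s)) • f - ((k.1 : ℝ) + k.2 + 1) • p with hw3
  have d1 : ∀ z, dot w1 z = xi e f s z - (k.1 + 1) * dot p z := by
    intro z
    rw [hw1, dot_sub_l, dot_sub_l, dot_smul_l, dot_smul_l, dot_smul_l]
    unfold xi
    field_simp
  have d2 : ∀ z, dot w2 z = et f s z - (k.2 + 1) * dot p z := by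
    intro z
    rw [hw2, dot_sub_l, dot_smul_l, dot_smul_l]
    unfold et
    field_simp
  have d3 : ∀ z, dot w3 z = xi e f s z + et f s z - (k.1 + k.2 + 1) * dot p z := by
    intro z
    rw [hw3, dot_sub_l, dot_add_l, dot_smul_l, dot_smul_l, dot_smul_l]
    unfold xi et
    field_simp
    ring
  have n0 : p ≠ 0 := by
    rintro rfl
    have := h.pp
    simp [dot] at this
  have n1 : w1 ≠ 0 := by
    intro h0
    have : dot w1 e = 1 / s := by
      rw [hw1, dot_sub_l, dot_sub_l, dot_smul_l, dot_smul_l, dot_smul_l, h.ee, dot_comm' f e, h.ef,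
        h.pe]; ring
    rw [h0] at this
    simp [dot] at this
    exact hs.ne' this.symm
  have n2 : w2 ≠ 0 := by
    intro h0
    have : dot w2 f = 2 / (√3 * s) := by
      rw [hw2, dot_sub_l, dot_smul_l, dot_smul_l, h.ff, h.pf]; ring
    rw [h0] at this
    have h5 : dot (0 : E) f = 0 := by simp [dot]
    rw [h5] at this
    have : 0 < 2 / (√3 * s) := by positivity
    linarith
  have n3 : w3 ≠ 0 := by
    intro h0
    have : dot w3 e = 1 / s := by
      rw [hw3, dot_sub_l, dot_add_l, dot_smul_l, dot_smul_l, dot_smul_l, h.ee, dot_comm' f e, h.ef,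
        h.pe]; ring
    rw [h0] at this
    simp [dot] at this
    exact hs.ne' this.symm
  have hsub : U ∪ D ⊆ Y p e f s k ∪ ({z | dot p z = 0} ∪ {z | dot w1 z = 0} ∪ {z | dot w2 z = 0}) := by
    intro z hz
    have hcommon : ∃ μ b c : ℝ, 0 ≤ b ∧ 0 ≤ c ∧ b ≤ μ ∧ c ≤ μ ∧ μ ≤ 1 ∧ dot p z = μ ∧
      xi e f s z = k.1 * μ + b ∧ et f s z = k.2 * μ + c := by
      rcases hz with hz | hz
      · obtain ⟨μ, b, c, h1, h2, h3, h4, h5, h6, h7⟩ := hcU z hz
        exact ⟨μ, b, c, h1, h2, by linarith, by linarith, h4, h5, h6, h7⟩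
      · obtain ⟨μ, b, c, h1, h2, h3, h4, h5, h6, h7⟩ := hcD z hz
        exact ⟨μ, b, c, by linarith, by linarith, h1, h2, h4, h5, h6, h7⟩
    obtain ⟨μ, b, c, hb, hc, hbμ, hcμ, hμ1, h5, h6, h7⟩ := hcommon
    by_cases z0 : dot p z = 0
    · exact Or.inr (Or.inl (Or.inl z0))
    by_cases z1 : dot w1 z = 0
    · exact Or.inr (Or.inl (Or.inr z1))
    by_cases z2 : dot w2 z = 0
    · exact Or.inr (Or.inr z2)
    rw [d1, h6, h5] at z1
    rw [d2, h7, h5] at z2
    rw [h5] at z0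
    have hμ0 : 0 < μ := lt_of_le_of_ne (hb.trans hbμ) (Ne.symm z0)
    have hb' : b < μ := lt_of_le_of_ne hbμ (fun h => z1 (by rw [h]; ring))
    have hc' : c < μ := lt_of_le_of_ne hcμ (fun h => z2 (by rw [h]; ring))
    left
    refine ⟨by rw [h5]; exact hμ0, by rw [h5]; exact hμ1, ?_, ?_, ?_, ?_⟩
    · rw [h5, h6]; linarith
    · rw [h5, h6]; linarith
    · rw [h5, h7]; linarith
    · rw [h5, h7]; linarith
  have hdis : AEDisjoint volume U D := by
    refine measure_mono_null ?_ (vol_hyperplane n3)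
    rintro z ⟨hzU, hzD⟩
    obtain ⟨μ, b, c, h1, h2, h3, h4, h5, h6, h7⟩ := hcU z hzU
    obtain ⟨μ', b', c', h1', h2', h3', h4', h5', h6', h7'⟩ := hcD z hzD
    have hμμ : μ = μ' := by rw [← h5, ← h5']
    have hbb : b = b' := by
      have := h6.symm.trans h6'
      rw [hμμ] at this; linarith
    have hcc : c = c' := by
      have := h7.symm.trans h7'
      rw [hμμ] at this; linarith
    show dot w3 z = 0
    rw [d3, h6, h7, h5]
    have : b + c = μ := by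
      apply le_antisymm h3
      rw [hμμ, hbb, hcc]; exact h3'
    linarith
  have hUD : volume (U ∪ D) = ENNReal.ofReal (√3 / 6 * s ^ 2) := by
    rw [measure_union₀ (isCompact_tet _ _ _).measurableSet.nullMeasurableSet hdis, hUv, hDv,
      ← ENNReal.ofReal_add (by positivity) (by positivity)]
    congr 1; ring
  rw [← hUD]
  refine (measure_mono hsub).trans ((measure_union_le _ _).trans ?_)
  have : volume ({z : E | dot p z = 0} ∪ {z | dot w1 z = 0} ∪ {z | dot w2 z = 0}) = 0 :=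
    measure_union_null (measure_union_null (vol_hyperplane n0) (vol_hyperplane n1))
      (vol_hyperplane n2)
  rw [this, add_zero]

theorem unit_norm {p : E} (h : dot p p = 1) : ‖p‖ = 1 := by
  rw [dot_self_eq] at h
  nlinarith [norm_nonneg p]

/-- the truncated open Voronoi cone -/
def K (Z : Finset E) (p : E) (r : ℝ) : Set E := {z | ‖z‖ ≤ r ∧ z ∈ VO Z p}

theorem Y_sub {Z : Finset E} {δ : ℝ} (hZ : Net Z δ) (hδ : 0 < δ) (hδ1 : δ ≤ 1) {p e f : E}
    (hp : p ∈ Z) (h : Frame p e f) {s : ℝ} (hs : 0 < s) {k : ℤ × ℤ} (hk : k ∈ J Z p e f s) :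
    Y p e f s k ⊆ AffineMap.homothety ((1 / 2 : ℝ) • p) (1 + 20 * s / δ) ''
      K Z p (1 / (1 - δ ^ 2 / 2)) := by
  rintro z ⟨hμ, hμ1, h1, h2, h3, h4⟩
  obtain ⟨k', ⟨ξ0, η0, hM, a1, a2, a3, a4⟩, c1, c2⟩ := hk
  set μ := dot p z with hμdef
  set ξ : ℝ := xi e f s z / μ with hξ
  set η : ℝ := et f s z / μ with hη
  have hzz : z = μ • M p e f s ξ η := z_eq h hs hμ
  have b1 : (k.1 : ℝ) ≤ ξ := by rw [hξ, le_div_iff₀ hμ]; exact h1
  have b2 : ξ < k.1 + 1 := by rw [hξ, div_lt_iff₀ hμ]; exact h2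
  have b3 : (k.2 : ℝ) ≤ η := by rw [hη, le_div_iff₀ hμ]; exact h3
  have b4 : η < k.2 + 1 := by rw [hη, div_lt_iff₀ hμ]; exact h4
  have c1' : (k'.1 : ℝ) ≤ k.1 ∧ (k.1 : ℝ) ≤ k'.1 + 1 := by
    rcases c1 with c1 | c1 <;> rw [c1] <;> push_cast <;> constructor <;> linarith
  have c2' : (k'.2 : ℝ) ≤ k.2 ∧ (k.2 : ℝ) ≤ k'.2 + 1 := by
    rcases c2 with c2 | c2 <;> rw [c2] <;> push_cast <;> constructor <;> linarith
  have dξ : |ξ - ξ0| ≤ 2 := by rw [abs_le]; constructor <;> linarith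
  have dη : |η - η0| ≤ 2 := by rw [abs_le]; constructor <;> linarith
  have hMM : ‖M p e f s ξ η - M p e f s ξ0 η0‖ ≤ 4 * s := by
    have h5 := dot_M_sub h s ξ η ξ0 η0
    rw [dot_self_eq] at h5
    rw [abs_le] at dξ dη
    have h6 : (ξ - ξ0) ^ 2 + (ξ - ξ0) * (η - η0) + (η - η0) ^ 2 ≤ 16 := by nlinarith
    have h7 : ‖M p e f s ξ η - M p e f s ξ0 η0‖ ^ 2 ≤ (4 * s) ^ 2 := by
      rw [h5]
      nlinarith [sq_nonneg s]
    exact (sq_le_sq₀ (norm_nonneg _) (by positivity)).1 h7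
  set x0 : E := μ • M p e f s ξ0 η0 with hx0
  set w : E := z - x0 with hw
  have hwn : ‖w‖ ≤ 4 * s := by
    have : w = μ • (M p e f s ξ η - M p e f s ξ0 η0) := by
      rw [hw, hx0, smul_sub, ← hzz]
    rw [this, norm_smul, Real.norm_of_nonneg hμ.le]
    nlinarith [norm_nonneg (M p e f s ξ η - M p e f s ξ0 η0)]
  have hδ2 : 0 < 1 - δ ^ 2 / 2 := by nlinarith
  set lam : ℝ := 1 / (1 - δ ^ 2 / 2) with hlam
  have hlam1 : 1 ≤ lam := by
    rw [hlam, le_div_iff₀ hδ2]; nlinarith [sq_nonneg δ]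
  have hx0n : ‖x0‖ ≤ lam := by
    have h5 := vc_bound hZ hM
    have h6 : dot (M p e f s ξ0 η0) p = 1 := by
      rw [dot_comm']; have := mu_M h s 1 ξ0 η0; rwa [one_smul] at this
    rw [h6] at h5
    rw [hx0, norm_smul, Real.norm_of_nonneg hμ.le, hlam, le_div_iff₀ hδ2]
    nlinarith [norm_nonneg (M p e f s ξ0 η0)]
  have hx0v : x0 ∈ VC Z p := by
    intro q hq
    rw [hx0, dot_smul_l, dot_smul_l]
    exact mul_le_mul_of_nonneg_left (hM q hq) hμ.le
  set κ : ℝ := 20 * s / δ with hκ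
  have hκ0 : 0 < κ := by positivity
  set y : E := (1 / 2 : ℝ) • p + κ⁻¹ • w with hy
  have hwκ : κ⁻¹ * ‖w‖ ≤ δ / 5 := by
    rw [hκ, inv_div]
    calc δ / (20 * s) * ‖w‖ ≤ δ / (20 * s) * (4 * s) :=
          mul_le_mul_of_nonneg_left hwn (by positivity)
      _ = δ / 5 := by field_simp; norm_num
  have hpn : ‖p‖ = 1 := unit_norm h.pp
  have hyn : ‖y‖ ≤ lam := by
    have g1 : ‖y‖ ≤ ‖(1 / 2 : ℝ) • p‖ + ‖κ⁻¹ • w‖ := norm_add_le _ _
    have g2 : ‖(1 / 2 : ℝ) • p‖ = 1 / 2 := by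
      rw [norm_smul, hpn, Real.norm_of_nonneg (by norm_num), mul_one]
    have g3 : ‖κ⁻¹ • w‖ = κ⁻¹ * ‖w‖ := by
      rw [norm_smul, Real.norm_of_nonneg (inv_nonneg.2 hκ0.le)]
    rw [g2, g3] at g1
    linarith
  have hyv : y ∈ VO Z p := by
    intro q hq hqp
    have hd := hZ.sep p hp q hq (Ne.symm hqp)
    have hd2 := norm_sub_sq_unit h.pp (hZ.unit q hq)
    have h7 : dot y p - dot y q = 1 / 2 * (1 - dot p q) + κ⁻¹ * dot w (p - q) := by
      rw [hy, dot_add_l, dot_add_l, dot_smul_l, dot_smul_l, dot_smul_l, dot_smul_l, h.pp, dot_sub_r]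
      ring
    have h8 : -(‖w‖ * ‖p - q‖) ≤ dot w (p - q) := by
      have := dot_le_norm w (-(p - q))
      have h9 : dot w (-(p - q)) = - dot w (p - q) := by
        simp only [dot, PiLp.neg_apply]; ring
      rw [h9, norm_neg] at this
      linarith
    have h10 : -(δ / 5 * ‖p - q‖) ≤ κ⁻¹ * dot w (p - q) := by
      have h11 : κ⁻¹ * -(‖w‖ * ‖p - q‖) ≤ κ⁻¹ * dot w (p - q) :=
        mul_le_mul_of_nonneg_left h8 (inv_nonneg.2 hκ0.le)
      have h12 : κ⁻¹ * ‖w‖ * ‖p - q‖ ≤ δ / 5 * ‖p - q‖ :=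
        mul_le_mul_of_nonneg_right hwκ (norm_nonneg _)
      have h14 : κ⁻¹ * -(‖w‖ * ‖p - q‖) = -(κ⁻¹ * ‖w‖ * ‖p - q‖) := by ring
      rw [h14] at h11
      linarith
    have h13 : 0 < dot y p - dot y q := by
      rw [h7]
      have h15 : 1 / 2 * (1 - dot p q) = ‖p - q‖ ^ 2 / 4 := by rw [hd2]; ring
      rw [h15]
      have h16 : 0 < ‖p - q‖ * (‖p - q‖ / 4 - δ / 5) := by
        apply mul_pos <;> linarith
      have h17 : ‖p - q‖ * (‖p - q‖ / 4 - δ / 5) = ‖p - q‖ ^ 2 / 4 - δ / 5 * ‖p - q‖ := by ring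
      linarith
    linarith
  have hκ1 : 0 < 1 + κ := by linarith
  clear_value y w x0 lam κ
  refine ⟨(1 + κ)⁻¹ • x0 + (κ * (1 + κ)⁻¹) • y, ⟨?_, ?_⟩, ?_⟩
  · calc ‖(1 + κ)⁻¹ • x0 + (κ * (1 + κ)⁻¹) • y‖ ≤ ‖(1 + κ)⁻¹ • x0‖ + ‖(κ * (1 + κ)⁻¹) • y‖ :=
          norm_add_le _ _
      _ = (1 + κ)⁻¹ * ‖x0‖ + κ * (1 + κ)⁻¹ * ‖y‖ := by
        rw [norm_smul, norm_smul, Real.norm_of_nonneg (by positivity),
          Real.norm_of_nonneg (by positivity)]
      _ ≤ (1 + κ)⁻¹ * lam + κ * (1 + κ)⁻¹ * lam := by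
        apply add_le_add
        · exact mul_le_mul_of_nonneg_left hx0n (by positivity)
        · exact mul_le_mul_of_nonneg_left hyn (by positivity)
      _ = lam := by field_simp
  · intro q hq hqp
    have g1 := hx0v q hq
    have g2 := hyv q hq hqp
    rw [dot_add_l, dot_add_l, dot_smul_l, dot_smul_l, dot_smul_l, dot_smul_l]
    have g3 : (1 + κ)⁻¹ * dot x0 q ≤ (1 + κ)⁻¹ * dot x0 p :=
      mul_le_mul_of_nonneg_left g1 (by positivity)
    have g4 : κ * (1 + κ)⁻¹ * dot y q < κ * (1 + κ)⁻¹ * dot y p :=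
      mul_lt_mul_of_pos_left g2 (by positivity)
    linarith
  · rw [AffineMap.homothety_apply]
    simp only [vsub_eq_sub, vadd_eq_add]
    have hz2 : z = x0 + w := by rw [hw]; abel
    rw [hz2, hy]
    ext i
    simp only [PiLp.add_apply, PiLp.smul_apply, PiLp.sub_apply, smul_eq_mul]
    field_simp
    ring

theorem isOpen_VO (Z : Finset E) (p : E) : IsOpen (VO Z p) := by
  classical
  have e1 : VO Z p = ⋂ q ∈ Z.erase p, {z : E | dot z q < dot z p} := by
    ext z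
    simp only [VO, Set.mem_ofPred_eq, Finset.mem_erase, Set.mem_iInter, and_imp]
    constructor
    · intro h q h1 h2; exact h q h2 h1
    · intro h q h1 h2; exact h q h2 h1
  rw [e1]
  refine isOpen_biInter_finset (fun q _ => isOpen_lt ?_ ?_)
  · simp only [dot_comm' _ q]; exact continuous_dot q
  · simp only [dot_comm' _ p]; exact continuous_dot p

theorem VO_disjoint {Z : Finset E} {p q : E} (hp : p ∈ Z) (hq : q ∈ Z) (hpq : p ≠ q) :
    Disjoint (VO Z p) (VO Z q) := by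
  rw [Set.disjoint_left]
  intro z h1 h2
  exact lt_asymm (h1 q hq hpq.symm) (h2 p hp hpq)

open scoped Pointwise in
theorem vol_K (Z : Finset E) (p : E) {r : ℝ} (hr : 0 < r) :
    volume (K Z p r) ≤ ENNReal.ofReal (r ^ 3) * volume (Metric.closedBall (0 : E) 1 ∩ VO Z p) := by
  have h1 : K Z p r ⊆ r • (Metric.closedBall (0 : E) 1 ∩ VO Z p) := by
    rintro z ⟨hz1, hz2⟩
    rw [Set.mem_smul_set_iff_inv_smul_mem₀ hr.ne']
    refine ⟨?_, ?_⟩
    · rw [mem_closedBall_zero_iff, norm_smul, Real.norm_of_nonneg (inv_nonneg.2 hr.le)]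
      rw [inv_mul_le_iff₀ hr, mul_one]
      exact hz1
    · intro q hq hqp
      rw [dot_smul_l, dot_smul_l]
      exact mul_lt_mul_of_pos_left (hz2 q hq hqp) (inv_pos.2 hr)
  refine (measure_mono h1).trans ?_
  rw [Measure.addHaar_smul]
  have : Module.finrank ℝ E = 3 := by simp
  rw [this, abs_of_pos (by positivity)]

theorem count_cell {Z : Finset E} {δ : ℝ} (hZ : Net Z δ) (hδ : 0 < δ) (hδ1 : δ ≤ 1) {p e f : E}
    (hp : p ∈ Z) (h : Frame p e f) {s : ℝ} (hs : 0 < s) {F : Finset (ℤ × ℤ)}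
    (hF : (F : Set (ℤ × ℤ)) = J Z p e f s) :
    (F.card : ENNReal) * ENNReal.ofReal (√3 / 6 * s ^ 2) ≤
      ENNReal.ofReal ((1 + 20 * s / δ) ^ 3 * (1 / (1 - δ ^ 2 / 2)) ^ 3) *
        volume (Metric.closedBall (0 : E) 1 ∩ VO Z p) := by
  have hδ2 : 0 < 1 - δ ^ 2 / 2 := by nlinarith
  have h1 : (F.card : ENNReal) * ENNReal.ofReal (√3 / 6 * s ^ 2) ≤
      ∑ k ∈ F, volume (Y p e f s k) := by
    rw [← nsmul_eq_mul, ← Finset.sum_const]
    exact Finset.sum_le_sum (fun k _ => vol_Y h hs k)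
  have h2 : ∑ k ∈ F, volume (Y p e f s k) = volume (⋃ k ∈ F, Y p e f s k) := by
    rw [measure_biUnion_finset (fun k _ k' _ hkk => Y_disjoint p e f s hkk)
      (fun k _ => measurableSet_Y p e f s k)]
  have h3 : (⋃ k ∈ F, Y p e f s k) ⊆
      AffineMap.homothety ((1 / 2 : ℝ) • p) (1 + 20 * s / δ) '' K Z p (1 / (1 - δ ^ 2 / 2)) := by
    refine Set.iUnion₂_subset (fun k hk => ?_)
    exact Y_sub hZ hδ hδ1 hp h hs (by rw [← hF]; exact hk)
  refine h1.trans (h2.le.trans ((measure_mono h3).trans ?_))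
  rw [Measure.addHaar_image_homothety]
  have h4 : Module.finrank ℝ E = 3 := by simp
  have h5 : 0 < 1 + 20 * s / δ := by positivity
  rw [h4, abs_of_pos (by positivity), ENNReal.ofReal_mul (by positivity), mul_assoc]
  gcongr
  exact vol_K Z p (by positivity)

theorem vol_ball_one : volume (Metric.closedBall (0 : E) 1) = ENNReal.ofReal (4 * Real.pi / 3) := by
  rw [EuclideanSpace.volume_closedBall_fin_three]
  simp
  congr 1
  ring

theorem zero_mem_hull {T : Set E} (hT : T.Finite) (hne : T.Nonempty) (hu : ∀ x ∈ T, dot x x = 1)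
    (hc : ∀ z : E, z ≠ 0 → dot z z ≤ 1 → ∃ a ∈ T, ∃ b ∈ T, ∃ c ∈ T, z ∈ CB a b c) :
    (0 : E) ∈ convexHull ℝ T := by
  by_contra h0
  obtain ⟨g, u, h1, h2⟩ := geometric_hahn_banach_point_closed (convex_convexHull ℝ T)
    (hT.isCompact_convexHull ℝ).isClosed h0
  have hpos : ∀ x ∈ T, 0 < g x := by
    intro x hx
    have := h2 x (subset_convexHull ℝ T hx)
    rw [map_zero] at h1
    linarith
  obtain ⟨x, hx⟩ := hne
  have hxx := hu x hx
  have hx0 : -x ≠ 0 := by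
    intro h
    rw [neg_eq_zero] at h
    rw [h] at hxx
    simp [dot] at hxx
  have hxn : dot (-x) (-x) ≤ 1 := by
    have : dot (-x) (-x) = dot x x := by simp only [dot, PiLp.neg_apply]; ring
    rw [this, hxx]
  obtain ⟨a, ha, b, hb, c, hc', α, β, γ, g1, g2, g3, g4, -⟩ := hc (-x) hx0 hxn
  have h5 : g (-x) = α * g a + β * g b + γ * g c := by
    rw [g4, map_add, map_add, map_smul, map_smul, map_smul]; simp
  rw [map_neg] at h5
  have := hpos x hx
  have := mul_nonneg g1 (hpos a ha).le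
  have := mul_nonneg g2 (hpos b hb).le
  have := mul_nonneg g3 (hpos c hc').le
  linarith

theorem tet_subset_hull {T : Set E} (h0 : (0 : E) ∈ convexHull ℝ T) {a b c : E} (ha : a ∈ T)
    (hb : b ∈ T) (hc : c ∈ T) : Tet a b c ⊆ convexHull ℝ T := by
  rintro z ⟨α, β, γ, g1, g2, g3, g4, rfl⟩
  have hcv := convex_convexHull ℝ T
  have ha' := subset_convexHull ℝ T ha
  have hb' := subset_convexHull ℝ T hb
  have hc' := subset_convexHull ℝ T hc
  have := hcv.sum_mem (t := Finset.univ) (w := ![α, β, γ, 1 - α - β - γ]) (z := ![a, b, c, 0])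
    (by intro i _; fin_cases i <;> simp <;> linarith)
    (by simp [Fin.sum_univ_four])
    (by intro i _; fin_cases i <;> simp [ha', hb', hc', h0])
  simpa [Fin.sum_univ_four] using this

theorem two_ofReal (d : ℝ) : (2 : ENNReal) * ENNReal.ofReal d = ENNReal.ofReal (2 * d) := by
  rw [ENNReal.ofReal_mul (by norm_num)]; simp

theorem ennreal_conv (N : ℕ) (a c d : ℝ) (hc : 0 ≤ c) (hd : 0 ≤ d)
    (h : (N : ENNReal) * ENNReal.ofReal a ≤ ENNReal.ofReal c * ENNReal.ofReal d) :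
    (N : ℝ) * a ≤ c * d := by
  rw [← ENNReal.ofReal_natCast, ← ENNReal.ofReal_mul (Nat.cast_nonneg N),
      ← ENNReal.ofReal_mul hc] at h
  exact (ENNReal.ofReal_le_ofReal_iff (mul_nonneg hc hd)).1 h

theorem ennreal_conv2 (N : ℕ) (v : ENNReal) (hv : v ≠ ⊤) (b d : ℝ) (hd : 0 ≤ d)
    (h : ENNReal.ofReal b ≤ v + (N : ENNReal) * (2 * ENNReal.ofReal d)) :
    b ≤ v.toReal + N * (2 * d) := by
  have h1 : 0 ≤ (N : ℝ) * (2 * d) := mul_nonneg (Nat.cast_nonneg N) (by linarith)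
  rw [← ENNReal.ofReal_toReal hv, two_ofReal, ← ENNReal.ofReal_natCast,
    ← ENNReal.ofReal_mul (Nat.cast_nonneg N), ← ENNReal.ofReal_add ENNReal.toReal_nonneg h1] at h
  exact (ENNReal.ofReal_le_ofReal_iff (add_nonneg ENNReal.toReal_nonneg h1)).1 h

theorem main_est {s δ : ℝ} (hs : 0 < s) (hs1 : s ≤ 1 / 2) (hδ : 0 < δ) (hδ1 : δ ≤ 1) :
    ∃ (T : Finset E) (N : ℕ), T.card ≤ N ∧ (∀ x ∈ T, dot x x = 1) ∧
      (N : ℝ) * (√3 / 6 * s ^ 2) ≤
        (1 + 20 * s / δ) ^ 3 * (1 / (1 - δ ^ 2 / 2)) ^ 3 * (4 * Real.pi / 3) ∧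
      4 * Real.pi / 3 - N * (2 * (√3 / 12 * s ^ 2 * (3 * s ^ 2 / 8 + 10 * s ^ 4))) ≤
        (volume (convexHull ℝ (T : Set E))).toReal := by
  classical
  obtain ⟨Z, hZ1, hZ2, hZ3⟩ := exists_net δ hδ
  have hZ : Net Z δ := ⟨hZ1, hZ2, hZ3⟩
  have hfr : ∀ p : E, ∃ ef : E × E, p ∈ Z → Frame p ef.1 ef.2 := by
    intro p
    by_cases hp : p ∈ Z
    · obtain ⟨e, f, h⟩ := exists_frame p (hZ1 p hp)
      exact ⟨(e, f), fun _ => h⟩
    · exact ⟨(0, 0), fun h => absurd h hp⟩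
  choose ef hef using hfr
  have hJ : ∀ p : E, ∃ F : Finset (ℤ × ℤ), p ∈ Z →
      (F : Set (ℤ × ℤ)) = J Z p (ef p).1 (ef p).2 s := by
    intro p
    by_cases hp : p ∈ Z
    · exact ⟨(J_finite hZ hδ hδ1 (hef p hp) hs).toFinset, fun _ => by simp⟩
    · exact ⟨∅, fun h => absurd h hp⟩
  choose F hF using hJ
  set V : E → (ℤ × ℤ) → E := fun p k => nrm (X p (ef p).1 (ef p).2 s k) with hV
  set T : Finset E := Z.biUnion (fun p => (F p).image (V p)) with hT
  set N : ℕ := ∑ p ∈ Z, (F p).card with hN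
  have hTm : ∀ p ∈ Z, ∀ k ∈ J Z p (ef p).1 (ef p).2 s, V p k ∈ T := by
    intro p hp k hk
    rw [hT, Finset.mem_biUnion]
    refine ⟨p, hp, Finset.mem_image_of_mem _ ?_⟩
    rw [← Finset.mem_coe, hF p hp]; exact hk
  have hTu : ∀ x ∈ T, dot x x = 1 := by
    intro x hx
    rw [hT, Finset.mem_biUnion] at hx
    obtain ⟨p, hp, hx⟩ := hx
    obtain ⟨k, hk, rfl⟩ := Finset.mem_image.1 hx
    exact nrm_dot (X_norm (hef p hp) s k)
  have hcorner : ∀ p ∈ Z, ∀ k ∈ I Z p (ef p).1 (ef p).2 s, V p k ∈ T ∧ V p (k.1 + 1, k.2) ∈ T ∧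
      V p (k.1, k.2 + 1) ∈ T ∧ V p (k.1 + 1, k.2 + 1) ∈ T := by
    intro p hp k hk
    exact ⟨hTm p hp _ (I_subset_J _ _ _ _ _ hk), hTm p hp _ ⟨k, hk, Or.inr rfl, Or.inl rfl⟩,
      hTm p hp _ ⟨k, hk, Or.inl rfl, Or.inr rfl⟩, hTm p hp _ ⟨k, hk, Or.inr rfl, Or.inr rfl⟩⟩
  have hcov : ∀ z : E, z ≠ 0 → dot z z ≤ 1 → ∃ p ∈ Z, ∃ k ∈ I Z p (ef p).1 (ef p).2 s,
      z ∈ CBu p (ef p).1 (ef p).2 s k ∨ z ∈ CBd p (ef p).1 (ef p).2 s k := by
    intro z hz0 hz1
    obtain ⟨p, hp, hzp⟩ := exists_vc hZ z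
    exact ⟨p, hp, cover_cell hZ hδ hδ1 (hef p hp) hs hzp hz0 hz1⟩
  have h0 : (0 : E) ∈ convexHull ℝ (T : Set E) := by
    refine zero_mem_hull T.finite_toSet ?_ (fun x hx => hTu x hx) ?_
    · obtain ⟨u, hu⟩ := exists_unit
      have hu0 : u ≠ 0 := by
        rintro rfl
        simp [dot] at hu
      obtain ⟨p, hp, k, hk, -⟩ := hcov u hu0 hu.le
      exact ⟨_, (hcorner p hp k hk).1⟩
    · intro z hz0 hz1
      obtain ⟨p, hp, k, hk, hz | hz⟩ := hcov z hz0 hz1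
      · exact ⟨_, (hcorner p hp k hk).1, _, (hcorner p hp k hk).2.1, _,
          (hcorner p hp k hk).2.2.1, hz⟩
      · exact ⟨_, (hcorner p hp k hk).2.2.2, _, (hcorner p hp k hk).2.2.1, _,
          (hcorner p hp k hk).2.1, hz⟩
  refine ⟨T, N, ?_, hTu, ?_, ?_⟩
  · refine Finset.card_biUnion_le.trans (Finset.sum_le_sum (fun p _ => Finset.card_image_le))
  · -- the count
    have hδ2 : 0 < 1 - δ ^ 2 / 2 := by nlinarith
    have h1 : (N : ENNReal) * ENNReal.ofReal (√3 / 6 * s ^ 2) ≤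
        ENNReal.ofReal ((1 + 20 * s / δ) ^ 3 * (1 / (1 - δ ^ 2 / 2)) ^ 3) *
          ENNReal.ofReal (4 * Real.pi / 3) := by
      rw [hN]
      push_cast
      rw [Finset.sum_mul]
      have h2 : ∑ p ∈ Z, ((F p).card : ENNReal) * ENNReal.ofReal (√3 / 6 * s ^ 2) ≤
          ∑ p ∈ Z, ENNReal.ofReal ((1 + 20 * s / δ) ^ 3 * (1 / (1 - δ ^ 2 / 2)) ^ 3) *
            volume (Metric.closedBall (0 : E) 1 ∩ VO Z p) :=
        Finset.sum_le_sum (fun p hp => count_cell hZ hδ hδ1 hp (hef p hp) hs (hF p hp))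
      refine h2.trans ?_
      rw [← Finset.mul_sum]
      gcongr
      rw [← measure_biUnion_finset]
      · rw [← vol_ball_one]
        exact measure_mono (Set.iUnion₂_subset (fun p _ => Set.inter_subset_left))
      · intro p hp q hq hpq
        exact (VO_disjoint hp hq hpq).mono Set.inter_subset_right Set.inter_subset_right
      · intro p _
        exact measurableSet_closedBall.inter (isOpen_VO Z p).measurableSet
    exact ennreal_conv N _ _ _ (by positivity) (by positivity) h1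
  · -- the volume
    set d : ℝ := √3 / 12 * s ^ 2 * (3 * s ^ 2 / 8 + 10 * s ^ 4) with hd
    have hd0 : 0 ≤ d := by positivity
    have h1 : Metric.closedBall (0 : E) 1 ⊆ convexHull ℝ (T : Set E) ∪ ⋃ p ∈ Z, ⋃ k ∈ F p,
        ((CBu p (ef p).1 (ef p).2 s k \ TTu p (ef p).1 (ef p).2 s k) ∪
          (CBd p (ef p).1 (ef p).2 s k \ TTd p (ef p).1 (ef p).2 s k)) := by
      intro z hz
      by_cases hzT : z ∈ convexHull ℝ (T : Set E)
      · exact Or.inl hzT
      right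
      have hz0 : z ≠ 0 := by
        rintro rfl
        exact hzT h0
      have hz1 : dot z z ≤ 1 := by
        rw [dot_self_eq]
        rw [mem_closedBall_zero_iff] at hz
        nlinarith [norm_nonneg z]
      obtain ⟨p, hp, k, hk, hz | hz⟩ := hcov z hz0 hz1
      · simp only [Set.mem_iUnion]
        refine ⟨p, hp, k, ?_, Or.inl ⟨hz, fun hzt => hzT ?_⟩⟩
        · rw [← Finset.mem_coe, hF p hp]; exact I_subset_J _ _ _ _ _ hk
        · exact tet_subset_hull h0 (hcorner p hp k hk).1 (hcorner p hp k hk).2.1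
            (hcorner p hp k hk).2.2.1 hzt
      · simp only [Set.mem_iUnion]
        refine ⟨p, hp, k, ?_, Or.inr ⟨hz, fun hzt => hzT ?_⟩⟩
        · rw [← Finset.mem_coe, hF p hp]; exact I_subset_J _ _ _ _ _ hk
        · exact tet_subset_hull h0 (hcorner p hp k hk).2.2.2 (hcorner p hp k hk).2.2.1
            (hcorner p hp k hk).2.1 hzt
    have h2 : ENNReal.ofReal (4 * Real.pi / 3) ≤ volume (convexHull ℝ (T : Set E)) +
        (N : ENNReal) * (2 * ENNReal.ofReal d) := by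
      rw [← vol_ball_one]
      refine (measure_mono h1).trans ((measure_union_le _ _).trans ?_)
      gcongr
      refine (measure_biUnion_finset_le _ _).trans ?_
      rw [hN]
      push_cast
      rw [Finset.sum_mul]
      refine Finset.sum_le_sum (fun p hp => ?_)
      refine (measure_biUnion_finset_le _ _).trans ?_
      rw [← nsmul_eq_mul, ← Finset.sum_const]
      refine Finset.sum_le_sum (fun k _ => ?_)
      refine (measure_union_le _ _).trans ?_
      rw [two_mul]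
      exact add_le_add (defect_u (hef p hp) hs hs1 k) (defect_d (hef p hp) hs hs1 k)
    have h3 : volume (convexHull ℝ (T : Set E)) ≠ ⊤ :=
      (T.finite_toSet.isCompact_convexHull ℝ).measure_lt_top.ne
    have h5 := ennreal_conv2 N _ h3 _ d hd0 h2
    linarith

theorem sphere_infinite : {x : E | dot x x = 1}.Infinite := by
  refine Set.infinite_of_injOn_mapsTo (s := Set.Icc (0 : ℝ) 1)
    (f := fun a : ℝ => (!₂[a, √(1 - a ^ 2), 0] : E)) ?_ ?_ (Set.Icc_infinite zero_lt_one)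
  · intro a _ b _ hab
    have := congrArg (fun z : E => z 0) hab
    simpa using this
  · intro a ha
    show dot _ _ = 1
    have h1 : 0 ≤ 1 - a ^ 2 := by nlinarith [ha.1, ha.2]
    have h2 : √(1 - a ^ 2) * √(1 - a ^ 2) = 1 - a ^ 2 := Real.mul_self_sqrt h1
    simp [dot, h2]
    ring

theorem extend_card {T : Finset E} (hT : ∀ x ∈ T, dot x x = 1) {n : ℕ} (hn : T.card ≤ n) :
    ∃ T' : Finset E, T ⊆ T' ∧ T'.card = n ∧ ∀ x ∈ T', dot x x = 1 := by
  obtain ⟨S, hS1, hS2, hS3⟩ := sphere_infinite.exists_superset_ncard_eq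
    (s := (T : Set E)) (fun x hx => hT x hx) T.finite_toSet (k := n) (by simpa using hn)
  rcases Nat.eq_zero_or_pos n with rfl | hn0
  · have : T = ∅ := Finset.card_eq_zero.1 (Nat.le_zero.1 hn)
    exact ⟨∅, by rw [this], rfl, by simp⟩
  · have hfin : S.Finite := Set.finite_of_ncard_pos (by omega)
    refine ⟨hfin.toFinset, ?_, ?_, ?_⟩
    · intro x hx
      exact hfin.mem_toFinset.2 (hS1 hx)
    · rw [← Set.ncard_eq_toFinset_card S hfin]; exact hS3
    · intro x hx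
      exact hS2 (hfin.mem_toFinset.1 hx)

theorem factor_bound {r : ℝ} (h0 : 0 < r) (h1 : r ≤ 1 / 2) :
    (1 + 20 * r ^ 2 / r) ^ 3 * (1 / (1 - r ^ 2 / 2)) ^ 3 ≤ 1 + 6000 * r := by
  have e1 : 20 * r ^ 2 / r = 20 * r := by field_simp
  have e2 : 1 / (1 - r ^ 2 / 2) ≤ 1 + r / 2 := by
    rw [div_le_iff₀ (by nlinarith)]
    nlinarith [mul_pos h0 h0]
  have e3 : (1 / (1 - r ^ 2 / 2)) ^ 3 ≤ (1 + r / 2) ^ 3 := by
    apply pow_le_pow_left₀ _ e2
    apply div_nonneg zero_le_one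
    nlinarith
  have e4 : (1 + r / 2) ^ 3 ≤ 1 + 2 * r := by nlinarith [mul_pos h0 h0, mul_pos (mul_pos h0 h0) h0]
  have e5 : (1 + 20 * r) ^ 3 ≤ 1 + 2660 * r := by
    have : r ^ 2 ≤ r / 2 := by nlinarith
    have : r ^ 3 ≤ r / 4 := by nlinarith
    nlinarith
  rw [e1]
  calc (1 + 20 * r) ^ 3 * (1 / (1 - r ^ 2 / 2)) ^ 3 ≤ (1 + 2660 * r) * (1 + 2 * r) := by
        apply mul_le_mul e5 (e3.trans e4) _ (by positivity)
        apply pow_nonneg
        apply div_nonneg zero_le_one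
        nlinarith
    _ ≤ 1 + 6000 * r := by nlinarith

theorem def_bound {r x : ℝ} (hr0 : 0 < r) (hr12 : r ≤ 1 / 2)
    (hx : x ≤ (1 + 6000 * r) * (4 * Real.pi / 3)) :
    x * (3 * (r ^ 2) ^ 2 / 8 + 10 * (r ^ 2) ^ 4) ≤ Real.pi / 2 * (r ^ 2) ^ 2 * (1 + 20000 * r) := by
  have hπ := Real.pi_pos
  refine (mul_le_mul_of_nonneg_right hx (by positivity)).trans ?_
  have h2 : (1 + 6000 * r) * (4 * Real.pi / 3) * (3 * (r ^ 2) ^ 2 / 8 + 10 * (r ^ 2) ^ 4) =
      Real.pi / 2 * (r ^ 2) ^ 2 * ((1 + 6000 * r) * (1 + 80 / 3 * r ^ 4)) := by ring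
  rw [h2]
  apply mul_le_mul_of_nonneg_left _ (by positivity)
  have h4 : r ^ 4 ≤ r / 8 := by
    have : r ^ 3 ≤ (1 / 2) ^ 3 := pow_le_pow_left₀ hr0.le hr12 3
    nlinarith
  have h5 : 1 + 80 / 3 * r ^ 4 ≤ 1 + 4 * r := by linarith
  have h6 : (1 + 6000 * r) * (1 + 80 / 3 * r ^ 4) ≤ (1 + 6000 * r) * (1 + 4 * r) :=
    mul_le_mul_of_nonneg_left h5 (by positivity)
  nlinarith

theorem fin_bound {t r : ℝ} (ht0 : 0 < t) (ht1 : t ≤ 1 / 18000) (hr3 : r ≤ 3 * t) :
    (1 + 18000 * t) * (1 + 20000 * r) ≤ 1 + (18000 + 60000 + 18000 * 60000) * t := by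
  have h2 : (1 + 18000 * t) * (1 + 20000 * r) ≤ (1 + 18000 * t) * (1 + 60000 * t) := by
    apply mul_le_mul_of_nonneg_left _ (by positivity)
    linarith
  have h4 : t ^ 2 ≤ t := by nlinarith
  nlinarith

end T1

open T1 in
/-- the competitor: almost optimal inscribed polyhedra -/
theorem competitor : ∃ (C₀ : ℝ) (N₀ : ℕ), ∀ n : ℕ, N₀ ≤ n → ∃ T : Finset E, T.card = n ∧
    (∀ x ∈ T, dot x x = 1) ∧
    4 * Real.pi / 3 - 4 * √3 * Real.pi ^ 2 / 3 / n * (1 + C₀ * (n : ℝ) ^ (-(1 / 4) : ℝ)) ≤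
      (volume (convexHull ℝ (T : Set E))).toReal := by
  refine ⟨18000 + 60000 + 18000 * 60000, 18000 ^ 4, ?_⟩
  intro n hn
  have hnR : ((18000 : ℝ) ^ 4) ≤ n := by exact_mod_cast hn
  have hn0 : (0 : ℝ) < n := lt_of_lt_of_le (by norm_num) hnR
  set t : ℝ := (n : ℝ) ^ (-(1 / 4) : ℝ) with ht
  have ht0 : 0 < t := Real.rpow_pos_of_pos hn0 _
  have ht4 : t ^ 4 = 1 / n := by
    rw [ht, ← Real.rpow_natCast, ← Real.rpow_mul hn0.le]
    norm_num
    rw [Real.rpow_neg_one]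
  have ht1 : t ≤ 1 / 18000 := by
    have h1 : t ^ 4 ≤ (1 / 18000) ^ 4 := by
      rw [ht4, div_pow, one_pow]
      exact one_div_le_one_div_of_le (by norm_num) hnR
    exact (pow_le_pow_iff_left₀ ht0.le (by norm_num) (by norm_num)).1 h1
  clear_value t
  have h3 := sqrt3_pos
  have h3' := sqrt3_sq
  have hπ := Real.pi_pos
  have hπ4 := Real.pi_le_four
  set A : ℝ := 8 * Real.pi / √3 with hA
  have hA0 : 0 < A := by positivity
  have hA32 : A ≤ 32 := by
    rw [hA, div_le_iff₀ h3]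
    nlinarith
  have hA1 : √3 / 6 * A = 4 * Real.pi / 3 := by rw [hA]; field_simp; ring
  have hA2 : Real.pi / 2 * A = 4 * √3 * Real.pi ^ 2 / 3 := by
    rw [hA]; field_simp; rw [h3']; ring
  set s : ℝ := √(A * (1 + 18000 * t) * t ^ 4) with hs
  have harg : 0 < A * (1 + 18000 * t) * t ^ 4 := by positivity
  have hs0 : 0 < s := Real.sqrt_pos.2 harg
  have hs2 : s ^ 2 = A * (1 + 18000 * t) * t ^ 4 := Real.sq_sqrt harg.le
  clear_value s A
  set r : ℝ := √s with hr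
  have hr0 : 0 < r := Real.sqrt_pos.2 hs0
  have hrs : r ^ 2 = s := Real.sq_sqrt hs0.le
  clear_value r
  have hr3 : r ≤ 3 * t := by
    have h1 : r ^ 4 ≤ (3 * t) ^ 4 := by
      have : r ^ 4 = s ^ 2 := by rw [← hrs]; ring
      rw [this, hs2]
      have h2 : A * (1 + 18000 * t) ≤ 81 := by nlinarith
      calc A * (1 + 18000 * t) * t ^ 4 ≤ 81 * t ^ 4 :=
            mul_le_mul_of_nonneg_right h2 (by positivity)
        _ = (3 * t) ^ 4 := by ring
    exact (pow_le_pow_iff_left₀ hr0.le (by positivity) (by norm_num)).1 h1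
  have hr12 : r ≤ 1 / 2 := by linarith
  subst hrs
  obtain ⟨T, N, hTN, hT1, hN1, hN2⟩ := main_est (s := r ^ 2) (δ := r) hs0 (by nlinarith) hr0
    (by linarith)
  have hfb := factor_bound hr0 hr12
  have hN3 : (N : ℝ) * (√3 / 6 * (r ^ 2) ^ 2) ≤ (1 + 6000 * r) * (4 * Real.pi / 3) :=
    hN1.trans (mul_le_mul_of_nonneg_right hfb (by positivity))
  have hNn : N ≤ n := by
    have h1 : (N : ℝ) * (√3 / 6 * (r ^ 2) ^ 2) = N * ((4 * Real.pi / 3) * (1 + 18000 * t) / n) := by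
      rw [hs2, ht4, ← hA1]; ring
    rw [h1] at hN3
    have h2 : (N : ℝ) * ((4 * Real.pi / 3) * (1 + 18000 * t) / n) ≤
        (4 * Real.pi / 3) * (1 + 18000 * t) := by
      refine hN3.trans ?_
      rw [mul_comm]
      apply mul_le_mul_of_nonneg_left _ (by positivity)
      linarith
    have h4 : 0 < (4 * Real.pi / 3) * (1 + 18000 * t) := by positivity
    have h5 : (N : ℝ) * ((4 * Real.pi / 3) * (1 + 18000 * t)) ≤
        n * ((4 * Real.pi / 3) * (1 + 18000 * t)) := by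
      have h6 := mul_le_mul_of_nonneg_left h2 hn0.le
      have h7 : (n : ℝ) * (N * ((4 * Real.pi / 3) * (1 + 18000 * t) / n)) =
        N * ((4 * Real.pi / 3) * (1 + 18000 * t)) := by field_simp
      rw [h7] at h6
      exact h6
    have h8 : (N : ℝ) ≤ n := le_of_mul_le_mul_right h5 h4
    exact_mod_cast h8
  obtain ⟨T', hTT', hT'n, hT'1⟩ := extend_card hT1 (hTN.trans hNn)
  refine ⟨T', hT'n, hT'1, ?_⟩
  have hmono : (volume (convexHull ℝ (T : Set E))).toReal ≤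
      (volume (convexHull ℝ (T' : Set E))).toReal := by
    apply ENNReal.toReal_mono (T'.finite_toSet.isCompact_convexHull ℝ).measure_lt_top.ne
    exact measure_mono (convexHull_mono (by exact_mod_cast hTT'))
  refine le_trans ?_ (hN2.trans hmono)
  have hdef : (N : ℝ) * (2 * (√3 / 12 * (r ^ 2) ^ 2 * (3 * (r ^ 2) ^ 2 / 8 + 10 * (r ^ 2) ^ 4))) ≤
      Real.pi / 2 * (r ^ 2) ^ 2 * (1 + 20000 * r) := by
    have h1 : (N : ℝ) * (2 * (√3 / 12 * (r ^ 2) ^ 2 * (3 * (r ^ 2) ^ 2 / 8 + 10 * (r ^ 2) ^ 4))) =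
        (N : ℝ) * (√3 / 6 * (r ^ 2) ^ 2) * (3 * (r ^ 2) ^ 2 / 8 + 10 * (r ^ 2) ^ 4) := by ring
    rw [h1]
    exact def_bound hr0 hr12 hN3
  have hfin : Real.pi / 2 * (r ^ 2) ^ 2 * (1 + 20000 * r) ≤
      4 * √3 * Real.pi ^ 2 / 3 / n * (1 + (18000 + 60000 + 18000 * 60000) * t) := by
    have h1 : Real.pi / 2 * (r ^ 2) ^ 2 = 4 * √3 * Real.pi ^ 2 / 3 / n * (1 + 18000 * t) := by
      rw [hs2, ht4, ← hA2]; ring
    rw [h1, mul_assoc]
    exact mul_le_mul_of_nonneg_left (fin_bound ht0 ht1 hr3) (by positivity)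
  linarith

end Med
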