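import Pool.Agent.Med.Cap
import Pool.Agent.Med.VolSum

set_option autoImplicit false

open Finset MeasureTheory

namespace Med

/-- points of a facet cone are close to the vertices of the facet -/
lemma facet_near {S : Finset E} (hS : Simp S) {l : ℝ} (hl : ∀ v w, Adj S v w → ‖v - w‖ ≤ l)
    (hl0 : 0 ≤ l) (hl1 : l ≤ 1) {a b c x v : E} (ht : Tri S a b c) (hin : InC a b c x)
    (hx0 : x ≠ 0) (hva : v = a ∨ v = b ∨ v = c) : ‖‖x‖⁻¹ • x - v‖ ≤ l := by
  obtain ⟨α, β, γ, h1, h2, h3, hxe⟩ := hin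
  have hu := hS.unit
  have hv1 : dot v v = 1 := by
    rcases hva with rfl | rfl | rfl
    · exact hu _ ht.1
    · exact hu _ ht.2.1
    · exact hu _ ht.2.2.1
  have key : ∀ w, (w = a ∨ w = b ∨ w = c) → 1 - l ^ 2 / 2 ≤ dot v w := by
    intro w hw
    have hw1 : dot w w = 1 := by
      rcases hw with rfl | rfl | rfl
      · exact hu _ ht.1
      · exact hu _ ht.2.1
      · exact hu _ ht.2.2.1
    have had : w = v ∨ Adj S v w := by
      have s1 := Adj.symm hS ⟨_, ht⟩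
      have s2 := Adj.symm hS ⟨_, ht.cyc⟩
      have s3 := Adj.symm hS ⟨_, ht.cyc.cyc⟩
      rcases hva with rfl | rfl | rfl <;> rcases hw with rfl | rfl | rfl <;>
        first
        | exact Or.inl rfl
        | exact Or.inr ⟨_, ht⟩
        | exact Or.inr ⟨_, ht.cyc⟩
        | exact Or.inr ⟨_, ht.cyc.cyc⟩
        | exact Or.inr s1
        | exact Or.inr s2
        | exact Or.inr s3
    rcases had with rfl | had
    · rw [hw1]; nlinarith
    · have h := hl _ _ had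
      have h' : ‖v - w‖ ^ 2 ≤ l ^ 2 := by gcongr
      rw [norm_sq_eq, sub_dot, dot_sub, dot_sub, hv1, hw1, dot_comm w v] at h'
      linarith
  have ka := key a (Or.inl rfl)
  have kb := key b (Or.inr (Or.inl rfl))
  have kc := key c (Or.inr (Or.inr rfl))
  have hsum : (α + β + γ) * (1 - l ^ 2 / 2) ≤ dot v x := by
    rw [hxe, dot_add, dot_add, dot_smul, dot_smul, dot_smul]
    nlinarith
  have hn1 : ‖x‖ ≤ α + β + γ := by
    rw [hxe]
    refine (norm_add₃_le).trans ?_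
    rw [norm_smul, norm_smul, norm_smul, norm_of_unit (hu a ht.1), norm_of_unit (hu b ht.2.1),
      norm_of_unit (hu c ht.2.2.1), Real.norm_of_nonneg h1, Real.norm_of_nonneg h2,
      Real.norm_of_nonneg h3]
    linarith
  have hn : 0 < ‖x‖ := norm_pos_iff.2 hx0
  have hl2 : 0 ≤ 1 - l ^ 2 / 2 := by nlinarith
  have hvx : ‖x‖ * (1 - l ^ 2 / 2) ≤ dot v x := by nlinarith
  set x' := ‖x‖⁻¹ • x with hx'e
  have hx'1 : dot x' x' = 1 := by
    rw [hx'e, dot_smul, smul_dot, dot_self]; field_simp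
  have hvx' : 1 - l ^ 2 / 2 ≤ dot v x' := by
    rw [hx'e, dot_smul, ← div_eq_inv_mul, le_div_iff₀ hn]; linarith
  have : ‖x' - v‖ ^ 2 ≤ l ^ 2 := by
    rw [norm_sq_eq, sub_dot, dot_sub, dot_sub, hx'1, hv1, dot_comm x' v]
    linarith
  exact le_of_sq_le_sq this hl0

lemma det_le_sides (a b c : E) (ha : dot a a = 1) : det a b c ≤ ‖b - a‖ * ‖c - a‖ := by
  have e : det a b c = dot a (cr (b - a) (c - a)) := by
    rw [dot_comm, dot_cr]; simp only [det]; simp; ring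
  have h1 := dot_le_norm a (cr (b - a) (c - a))
  rw [norm_of_unit ha, one_mul, ← e] at h1
  refine h1.trans ?_
  have : ‖cr (b - a) (c - a)‖ ^ 2 ≤ (‖b - a‖ * ‖c - a‖) ^ 2 := by
    rw [mul_pow, norm_sq_eq, norm_sq_eq, norm_sq_eq]
    have : dot (b - a) (b - a) * dot (c - a) (c - a) - dot (cr (b - a) (c - a)) (cr (b - a) (c - a))
        = dot (b - a) (c - a) ^ 2 := by
      simp only [dot, cr]; simp; ring
    nlinarith [sq_nonneg (dot (b - a) (c - a))]
  exact le_of_sq_le_sq this (by positivity)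

/-- hypotheses of the core theorem -/
structure CoreHyp (S : Finset E) (s l : ℝ) (B₀ : Finset (E × E)) : Prop where
  simp : Simp S
  val : ∀ v ∈ S, (nb S v).card = 5 ∨ (nb S v).card = 6
  s0 : 0 < s
  s1 : s ≤ 1 / 10 ^ 9
  l0 : 0 ≤ l
  l1 : l ≤ 1 / 10 ^ 9
  sub : B₀ ⊆ darts S
  near : ∀ d ∈ darts S, d ∉ B₀ → NearD S s (1 / 10 ^ 4) d
  vol : ∀ d ∈ darts S, d ∉ B₀ →
    (1 - 1 / 10 ^ 9) * (√3 * s ^ 2 / 12) ≤ det d.1 d.2 (third S d.1 d.2) / 6
  edge : ∀ v w, Adj S v w → ‖v - w‖ ≤ l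
  count : 4 * Real.pi * (1 - 1 / 10 ^ 9) ≤ (darts S).card * (√3 * s ^ 2 / 12)
  bad1 : (B₀.card : ℝ) * s ^ 2 ≤ 1 / 10 ^ 9
  bad2 : ((B₀.card : ℝ) + 1) * l * s ≤ 1 / 10 ^ 15

lemma sqrt3_lt : √3 < 1.7320509 := by
  rw [Real.sqrt_lt' (by norm_num)]; norm_num
lemma sqrt3_gt : 1.7320508 < √3 := by
  rw [Real.lt_sqrt (by norm_num)]; norm_num

open Classical in
/-- darts starting near `e` -/
noncomputable def D0 (S : Finset E) (e : E) : Finset (E × E) :=
  (darts S).filter (fun d => ‖e - d.1‖ ≤ 2 / 1000)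

theorem card_D0 {S : Finset E} {s l : ℝ} {B₀ : Finset (E × E)} (h : CoreHyp S s l B₀) {e : E}
    (he : dot e e = 1) : 2 / 10 ^ 6 ≤ ((D0 S e).card : ℝ) * s ^ 2 := by
  classical
  have hS := h.simp
  have hs0 := h.s0
  have hs1 := h.s1
  have hl0 := h.l0
  have hl1 := h.l1
  have hpi := Real.pi_gt_d6
  have hpi2 := Real.pi_lt_d6
  have k3 := sqrt3_lt
  have k3' := sqrt3_gt
  set v0 := √3 * s ^ 2 / 12 with hv0
  have hs2 : 0 < s ^ 2 := by positivity
  have hv0pos : 0 < v0 := by rw [hv0]; positivity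
  have hv0le : v0 ≤ s ^ 2 := by rw [hv0]; nlinarith
  -- the small sector
  set K : Set E := {x : E | dot x x ≤ 1 ∧ (1 - 5 / 10 ^ 7 : ℝ) * ‖x‖ ≤ dot e x} \ {0} with hK
  have hmeas : MeasurableSet {x : E | dot x x ≤ 1 ∧ (1 - 5 / 10 ^ 7 : ℝ) * ‖x‖ ≤ dot e x} := by
    apply IsClosed.measurableSet
    have hc : Continuous fun x : E => dot x x := by
      simp only [dot_self]; fun_prop
    exact (isClosed_le hc continuous_const).inter
      (isClosed_le (continuous_const.mul continuous_norm) (continuous_dot e))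
  have hKm : MeasurableSet K := hmeas.diff (measurableSet_singleton 0)
  have hKv : (volume K).toReal = 2 * Real.pi / 3 * (5 / 10 ^ 7) := by
    have h1 : volume K = volume {x : E | dot x x ≤ 1 ∧ (1 - 5 / 10 ^ 7 : ℝ) * ‖x‖ ≤ dot e x} := by
      rw [hK]
      exact measure_sdiff_null (measure_singleton 0)
    rw [h1, vol_sector he (by norm_num) (by norm_num), ENNReal.toReal_ofReal (by
      have := Real.pi_pos; positivity)]
    ring
  have hmem : ∀ z ∈ K, ∀ d ∈ darts S, InC d.1 d.2 (third S d.1 d.2) z → d ∈ D0 S e := by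
    rintro z ⟨⟨hz1, hz2⟩, hz0⟩ d hd hin
    have hz0' : z ≠ 0 := hz0
    have ht := third_spec (mem_darts.1 hd)
    have h1 := facet_near hS h.edge hl0 (by linarith [(by norm_num : (1 : ℝ) / 10 ^ 9 ≤ 1)])
      ht hin hz0' (Or.inl rfl)
    have hn : 0 < ‖z‖ := norm_pos_iff.2 hz0'
    set z' := ‖z‖⁻¹ • z with hz'
    have hz'1 : dot z' z' = 1 := by
      rw [hz', dot_smul, smul_dot, dot_self]; field_simp
    have h2 : (1 - 5 / 10 ^ 7 : ℝ) ≤ dot e z' := by
      rw [hz', dot_smul, ← div_eq_inv_mul, le_div_iff₀ hn]; linarith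
    have h3 : ‖e - z'‖ ≤ 1 / 1000 := by
      have : ‖e - z'‖ ^ 2 ≤ (1 / 1000 : ℝ) ^ 2 := by
        rw [norm_sq_eq, sub_dot, dot_sub, dot_sub, hz'1, he, dot_comm z' e]
        norm_num at h2 ⊢
        linarith
      exact le_of_sq_le_sq this (by norm_num)
    refine Finset.mem_filter.2 ⟨hd, ?_⟩
    calc ‖e - d.1‖ = ‖(e - z') + (z' - d.1)‖ := by congr 1; abel
      _ ≤ ‖e - z'‖ + ‖z' - d.1‖ := norm_add_le _ _
      _ ≤ 2 / 1000 := by
          have : l ≤ 1 / 1000 := hl1.trans (by norm_num)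
          linarith
  have hlow := le_sum_CBD hS (D := D0 S e) (Finset.filter_subset _ _) hKm
    (fun z hz => hz.1.1) hmem
  rw [hKv] at hlow
  -- volumes
  have hW0 : ∀ d, 0 ≤ (volume (CBD S d)).toReal := fun d => ENNReal.toReal_nonneg
  have hgoodlow : ∀ d ∈ darts S, d ∉ B₀ → (1 - 1 / 10 ^ 9) * v0 ≤ (volume (CBD S d)).toReal := by
    intro d hd hdB
    have ht := third_spec (mem_darts.1 hd)
    have h1 := vol_cb_lower ht.2.2.2.1 (hS.unit _ ht.1) (hS.unit _ ht.2.1) (hS.unit _ ht.2.2.1)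
    have h2 := h.vol d hd hdB
    have hZ : 0 ≤ Zs d.1 d.2 (third S d.1 d.2) :=
      add_nonneg (add_nonneg (dot_self_nonneg _) (dot_self_nonneg _)) (dot_self_nonneg _)
    have hdet := ht.2.2.2.1
    refine h2.trans (le_trans ?_ h1)
    nlinarith [mul_nonneg hdet.le hZ]
  have hgoodup : ∀ d ∈ darts S, d ∉ B₀ → (volume (CBD S d)).toReal ≤ s ^ 2 := by
    intro d hd hdB
    have ht := third_spec (mem_darts.1 hd)
    obtain ⟨⟨-, n1⟩, ⟨-, n2⟩, ⟨-, n3⟩⟩ := h.near d hd hdB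
    have hq : ((1 + 1 / 10 ^ 4) * s) ^ 2 ≤ (1 : ℝ) / 10 ^ 15 := by
      have : ((1 + 1 / 10 ^ 4) * s) ≤ (1 / 10 ^ 8 : ℝ) := by
        calc ((1 + 1 / 10 ^ 4) * s) ≤ (1 + 1 / 10 ^ 4) * (1 / 10 ^ 9) := by gcongr
          _ ≤ _ := by norm_num
      calc ((1 + 1 / 10 ^ 4) * s) ^ 2 ≤ (1 / 10 ^ 8 : ℝ) ^ 2 := by gcongr
        _ ≤ _ := by norm_num
    have e1 : dot (d.1 - d.2) (d.1 - d.2) ≤ ((1 + 1 / 10 ^ 4) * s) ^ 2 := by
      rw [← norm_sq_eq]; gcongr
    have e2 : dot (d.2 - third S d.1 d.2) (d.2 - third S d.1 d.2) ≤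
        ((1 + 1 / 10 ^ 4) * s) ^ 2 := by
      rw [← norm_sq_eq]; gcongr
    have e3 : dot (third S d.1 d.2 - d.1) (third S d.1 d.2 - d.1) ≤
        ((1 + 1 / 10 ^ 4) * s) ^ 2 := by
      rw [← norm_sq_eq]; gcongr
    have h1 := vol_cb_upper ht.2.2.2.1 (hS.unit _ ht.1) (hS.unit _ ht.2.1) (hS.unit _ ht.2.2.1)
      (hq.trans (by norm_num)) e1 e2 e3
    have hdet := ht.2.2.2.1
    have h2 : det d.1 d.2 (third S d.1 d.2) ≤ ((1 + 1 / 10 ^ 4) * s) ^ 2 := by
      refine (det_le_sides _ _ _ (hS.unit _ ht.1)).trans ?_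
      rw [sq]
      rw [norm_sub_rev] at n1
      gcongr
    have hZ : Zs d.1 d.2 (third S d.1 d.2) ≤ 1 := by
      unfold Zs
      have : (1 : ℝ) / 10 ^ 15 ≤ 1 / 3 := by norm_num
      linarith
    have h3 : 1 + Zs d.1 d.2 (third S d.1 d.2) / 8 + 10 * (((1 + 1 / 10 ^ 4) * s) ^ 2) ^ 2 ≤ 2 := by
      have hq0 : 0 ≤ ((1 + 1 / 10 ^ 4) * s) ^ 2 := by positivity
      have : (((1 + 1 / 10 ^ 4) * s) ^ 2) ^ 2 ≤ ((1 : ℝ) / 10 ^ 15) ^ 2 := by gcongr
      have h10 : (10 : ℝ) * ((1 : ℝ) / 10 ^ 15) ^ 2 ≤ 1 / 2 := by norm_num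
      linarith
    refine h1.trans ?_
    have hZ0 : 0 ≤ Zs d.1 d.2 (third S d.1 d.2) :=
      add_nonneg (add_nonneg (dot_self_nonneg _) (dot_self_nonneg _)) (dot_self_nonneg _)
    have hnn : 0 ≤ 1 + Zs d.1 d.2 (third S d.1 d.2) / 8 +
        10 * (((1 + 1 / 10 ^ 4) * s) ^ 2) ^ 2 := by positivity
    calc det d.1 d.2 (third S d.1 d.2) / 6 * _ ≤ ((1 + 1 / 10 ^ 4) * s) ^ 2 / 6 * 2 :=
          mul_le_mul (by gcongr) h3 hnn (by positivity)
      _ ≤ s ^ 2 := by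
          rw [mul_pow]
          nlinarith
  -- the bad part
  have hbad : ∑ d ∈ B₀, (volume (CBD S d)).toReal ≤ 1 / 10 ^ 7 := by
    have h1 : ∑ d ∈ B₀, (volume (CBD S d)).toReal + ∑ d ∈ darts S \ B₀, (volume (CBD S d)).toReal
        = 4 * Real.pi := by
      rw [← sum_CBD hS, add_comm]; exact Finset.sum_sdiff h.sub
    have h2 : ∑ d ∈ darts S \ B₀, ((1 - 1 / 10 ^ 9) * v0) ≤
        ∑ d ∈ darts S \ B₀, (volume (CBD S d)).toReal :=
      Finset.sum_le_sum fun d hd =>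
        hgoodlow d (Finset.mem_sdiff.1 hd).1 (Finset.mem_sdiff.1 hd).2
    rw [Finset.sum_const, nsmul_eq_mul, Finset.card_sdiff_of_subset h.sub,
      Nat.cast_sub (Finset.card_le_card h.sub)] at h2
    have h3 := h.count
    rw [← hv0] at h3
    have h4 : (B₀.card : ℝ) * v0 ≤ 1 / 10 ^ 9 := by
      refine le_trans ?_ h.bad1
      gcongr
    have h5 : ((darts S).card - B₀.card : ℝ) * ((1 - 1 / 10 ^ 9) * v0) =
        (1 - 1 / 10 ^ 9) * ((darts S).card * v0 - B₀.card * v0) := by ring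
    rw [h5] at h2
    have h6 : (1 - 1 / 10 ^ 9) * (4 * Real.pi * (1 - 1 / 10 ^ 9) - 1 / 10 ^ 9) ≤
        (1 - 1 / 10 ^ 9) * ((darts S).card * v0 - B₀.card * v0) := by
      apply mul_le_mul_of_nonneg_left _ (by norm_num)
      linarith
    norm_num at h6 h1 h2 ⊢
    linarith
  -- conclusion
  have hsplit : ∑ d ∈ D0 S e, (volume (CBD S d)).toReal ≤
      (D0 S e).card * s ^ 2 + 1 / 10 ^ 7 := by
    have h1 : ∑ d ∈ D0 S e, (volume (CBD S d)).toReal =
        ∑ d ∈ (D0 S e).filter (fun d => d ∉ B₀), (volume (CBD S d)).toReal +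
        ∑ d ∈ (D0 S e).filter (fun d => ¬ d ∉ B₀), (volume (CBD S d)).toReal :=
      (Finset.sum_filter_add_sum_filter_not _ _ _).symm
    rw [h1]
    have h2 : ∑ d ∈ (D0 S e).filter (fun d => d ∉ B₀), (volume (CBD S d)).toReal ≤
        (D0 S e).card * s ^ 2 := by
      calc _ ≤ ∑ d ∈ (D0 S e).filter (fun d => d ∉ B₀), s ^ 2 := by
            refine Finset.sum_le_sum fun d hd => ?_
            obtain ⟨a1, a2⟩ := Finset.mem_filter.1 hd
            exact hgoodup d (Finset.mem_filter.1 a1).1 a2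
        _ = ((D0 S e).filter (fun d => d ∉ B₀)).card * s ^ 2 := by
            rw [Finset.sum_const, nsmul_eq_mul]
        _ ≤ _ := by
            gcongr
            exact Finset.filter_subset _ _
    have h3 : ∑ d ∈ (D0 S e).filter (fun d => ¬ d ∉ B₀), (volume (CBD S d)).toReal ≤
        1 / 10 ^ 7 := by
      refine le_trans (Finset.sum_le_sum_of_subset_of_nonneg ?_ fun d _ _ => hW0 d) hbad
      intro d hd
      have := (Finset.mem_filter.1 hd).2
      push Not at this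
      exact this
    linarith
  norm_num at hlow hsplit ⊢
  linarith

end Med
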