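import Pool.Agent.Med.Core1

set_option autoImplicit false

open Finset MeasureTheory

namespace Med

lemma cos_lower {x : ℝ} (h0 : 0 ≤ x) (h1 : x ≤ 1) :
    1 - x ^ 2 / 2 - x ^ 4 * (5 / 96) ≤ Real.cos x := by
  have h := Real.cos_bound (x := x) (by rw [abs_of_nonneg h0]; exact h1)
  rw [abs_of_nonneg h0] at h
  have := (abs_le.1 h).1
  linarith

lemma cos_575 : (0.8385 : ℝ) ≤ Real.cos (575 / 1000) := by
  have h1 := cos_lower (x := 575 / 4000) (by norm_num) (by norm_num)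
  have h2 : (0.989645 : ℝ) ≤ Real.cos (575 / 4000) := by
    refine le_trans ?_ h1; norm_num
  have h3 : (0.958794 : ℝ) ≤ Real.cos (575 / 2000) := by
    have := Real.cos_two_mul (575 / 4000 : ℝ)
    rw [show (2 : ℝ) * (575 / 4000) = 575 / 2000 by norm_num] at this
    rw [this]; nlinarith
  have := Real.cos_two_mul (575 / 2000 : ℝ)
  rw [show (2 : ℝ) * (575 / 2000) = 575 / 1000 by norm_num] at this
  rw [this]; nlinarith

lemma cos_579 : (0.8344 : ℝ) ≤ Real.cos (579 / 1000) := by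
  have h1 := cos_lower (x := 579 / 2000) (by norm_num) (by norm_num)
  have h2 : (0.957728 : ℝ) ≤ Real.cos (579 / 2000) := by
    refine le_trans ?_ h1; norm_num
  have := Real.cos_two_mul (579 / 2000 : ℝ)
  rw [show (2 : ℝ) * (579 / 2000) = 579 / 1000 by norm_num] at this
  rw [this]; nlinarith

lemma cJ_lower : (0.59618 : ℝ) ≤ 1 / √7 + 1 / (√3 * √7) := by
  have h7 : √7 ≤ 2.6457514 := by
    rw [Real.sqrt_le_left (by norm_num)]; norm_num
  have h7' : 0 < √7 := Real.sqrt_pos.2 (by norm_num)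
  have h3 := sqrt3_lt
  have h3' : 0 < √3 := Real.sqrt_pos.2 (by norm_num)
  have h21 : √3 * √7 ≤ 4.5825758 := by
    rw [← Real.sqrt_mul (by norm_num), Real.sqrt_le_left (by norm_num)]; norm_num
  have e1 : (1 : ℝ) / 2.6457514 ≤ 1 / √7 := by gcongr
  have e2 : (1 : ℝ) / 4.5825758 ≤ 1 / (√3 * √7) := by gcongr
  have : (0.59618 : ℝ) ≤ 1 / 2.6457514 + 1 / 4.5825758 := by norm_num
  linarith

lemma dot_of_ang {x y : E} (hx : dot x x = 1) (hy : dot y y = 1) {r : ℝ} (h : ang x y ≤ r)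
    (hr : r ≤ 3) : Real.cos r ≤ dot x y := by
  rw [← cos_ang hx hy]
  have hpi := Real.pi_gt_three
  exact Real.cos_le_cos_of_nonneg_of_le_pi (ang_nonneg _ _) (by linarith) h

lemma card_darts_over {S : Finset E} {Y : Finset E} (hY : ∀ y ∈ Y, (nb S y).card = 6)
    [DecidablePred fun x : E × E => x.1 ∈ Y] :
    ((darts S).filter (fun x => x.1 ∈ Y)).card = 6 * Y.card := by
  classical
  have hmap : ∀ x ∈ (darts S).filter (fun x => x.1 ∈ Y), (fun x : E × E => x.1) x ∈ Y :=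
    fun x hx => (Finset.mem_filter.1 hx).2
  rw [Finset.card_eq_sum_card_fiberwise hmap]
  rw [Finset.sum_congr rfl (g := fun _ => 6) ?_, Finset.sum_const, smul_eq_mul, mul_comm]
  intro y hy
  rw [← hY y hy]
  refine Finset.card_bij' (fun x _ => x.2) (fun w _ => (y, w)) ?_ ?_ ?_ ?_
  · intro x hx
    obtain ⟨h1, h2⟩ := Finset.mem_filter.1 hx
    rw [mem_nb, ← h2]; exact mem_darts.1 (Finset.mem_filter.1 h1).1
  · intro w hw
    exact Finset.mem_filter.2 ⟨Finset.mem_filter.2 ⟨mem_darts.2 (mem_nb.1 hw), hy⟩, rfl⟩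
  · intro x hx
    obtain ⟨h1, h2⟩ := Finset.mem_filter.1 hx
    exact Prod.ext h2.symm rfl
  · intro w _
    rfl

/-- The tetrahedra at the vertices in a cap fit in a spherical sector. -/
lemma sector_bound {S : Finset E} {s l : ℝ} {B₀ : Finset (E × E)} (h : CoreHyp S s l B₀)
    {o : E} (ho : dot o o = 1) {Y : Finset E}
    (hYprop : ∀ y ∈ Y, (0.8385 : ℝ) ≤ dot o y ∧ (nb S y).card = 6) :
    (6 * Y.card - B₀.card : ℝ) * ((1 - 1 / 10 ^ 9) * (√3 * s ^ 2 / 12)) ≤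
      3 * (2 * Real.pi / 3 * (1 - (0.8385 - l))) := by
  classical
  have hS := h.simp
  have hs0 := h.s0
  have hl0 := h.l0
  have hl1 := h.l1
  have hu := hS.unit
  have hpi := Real.pi_gt_d6
  set DY := (darts S).filter (fun x => x.1 ∈ Y) with hDY
  have hDYcard : DY.card = 6 * Y.card := card_darts_over fun y hy => (hYprop y hy).2
  -- the sector containing all these tetrahedra
  obtain ⟨c', hc'⟩ : ∃ c' : ℝ, c' = 0.8385 - l := ⟨_, rfl⟩
  have hc'0 : 0 ≤ c' := by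
    rw [hc']
    have : l ≤ 1 / 10 := hl1.trans (by norm_num)
    linarith
  have hc'1 : c' ≤ 1 := by rw [hc']; linarith
  obtain ⟨K, hK⟩ : ∃ K : Set E, K = {x : E | dot x x ≤ 1 ∧ c' * ‖x‖ ≤ dot o x} := ⟨_, rfl⟩
  have hKm : MeasurableSet K := by
    rw [hK]
    apply IsClosed.measurableSet
    have hc : Continuous fun x : E => dot x x := by
      simp only [dot_self]; fun_prop
    exact (isClosed_le hc continuous_const).inter
      (isClosed_le (continuous_const.mul continuous_norm) (continuous_dot _))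
  have hKv : volume K = ENNReal.ofReal (2 * Real.pi / 3 * (1 - c')) := by
    rw [hK]; exact vol_sector ho hc'0 hc'1
  have hsub : ∀ x ∈ DY.filter (fun x => x ∉ B₀), TetD S x ⊆ K := by
    intro x hx z hz
    obtain ⟨hx1, -⟩ := Finset.mem_filter.1 hx
    obtain ⟨hx2, hx3⟩ := Finset.mem_filter.1 hx1
    have ht := third_spec (mem_darts.1 hx2)
    obtain ⟨α, β, γ, p1, p2, p3, p4, rfl⟩ := hz
    have hy := (hYprop _ hx3).1
    have q2 := dot_near ho (h.edge _ _ (mem_darts.1 hx2))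
    have q3 := dot_near ho (h.edge _ _ (adj_third hS (mem_darts.1 hx2)))
    have hn : ‖α • x.1 + β • x.2 + γ • third S x.1 x.2‖ ≤ α + β + γ := by
      refine (norm_add₃_le).trans ?_
      rw [norm_smul, norm_smul, norm_smul, norm_of_unit (hu _ ht.1), norm_of_unit (hu _ ht.2.1),
        norm_of_unit (hu _ ht.2.2.1), Real.norm_of_nonneg p1, Real.norm_of_nonneg p2,
        Real.norm_of_nonneg p3]
      linarith
    rw [hK]
    constructor
    · rw [dot_self]
      have h0 := norm_nonneg (α • x.1 + β • x.2 + γ • third S x.1 x.2)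
      have h1 : ‖α • x.1 + β • x.2 + γ • third S x.1 x.2‖ ≤ 1 := hn.trans p4
      exact pow_le_one₀ h0 h1
    · have h1 : c' * ‖α • x.1 + β • x.2 + γ • third S x.1 x.2‖ ≤ c' * (α + β + γ) := by gcongr
      refine h1.trans ?_
      rw [dot_add, dot_add, dot_smul, dot_smul, dot_smul]
      have r1 : c' ≤ dot o x.1 := by rw [hc']; linarith
      have r2 : c' ≤ dot o x.2 := by rw [hc']; linarith
      have r3 : c' ≤ dot o (third S x.1 x.2) := by rw [hc']; linarith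
      have w1 := mul_le_mul_of_nonneg_left r1 p1
      have w2 := mul_le_mul_of_nonneg_left r2 p2
      have w3 := mul_le_mul_of_nonneg_left r3 p3
      linarith
  have hupper := sum_TetD_le hS (D := DY.filter (fun x => x ∉ B₀))
    ((Finset.filter_subset _ _).trans (Finset.filter_subset _ _)) hKm
    (by rw [hKv]; exact ENNReal.ofReal_ne_top) hsub
  rw [hKv, ENNReal.toReal_ofReal (by
    have : 0 ≤ 1 - c' := by linarith
    have := Real.pi_pos
    positivity), hc'] at hupper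
  obtain ⟨v0, hv0⟩ : ∃ v0 : ℝ, v0 = √3 * s ^ 2 / 12 := ⟨_, rfl⟩
  rw [← hv0]
  have hv0pos : 0 < v0 := by rw [hv0]; positivity
  have hlower : ((DY.filter (fun x => x ∉ B₀)).card : ℝ) * ((1 - 1 / 10 ^ 9) * v0) ≤
      ∑ x ∈ DY.filter (fun x => x ∉ B₀), (volume (TetD S x)).toReal := by
    rw [← nsmul_eq_mul, ← Finset.sum_const]
    refine Finset.sum_le_sum fun x hx => ?_
    obtain ⟨hx1, hx0⟩ := Finset.mem_filter.1 hx
    obtain ⟨hx2, hx3⟩ := Finset.mem_filter.1 hx1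
    have ht := third_spec (mem_darts.1 hx2)
    have := h.vol x hx2 hx0
    show _ ≤ (volume (Tet x.1 x.2 (third S x.1 x.2))).toReal
    rw [vol_tet ht.2.2.2.1, ENNReal.toReal_ofReal (by have := ht.2.2.2.1; positivity), hv0]
    exact this
  have hcard2 : (6 * Y.card : ℝ) - B₀.card ≤ (DY.filter (fun x => x ∉ B₀)).card := by
    have h1 : DY.card ≤ (DY.filter (fun x => x ∉ B₀)).card + B₀.card := by
      have h2 : DY.card = (DY.filter (fun x => x ∉ B₀)).card +
          (DY.filter (fun x => ¬ x ∉ B₀)).card :=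
        (Finset.card_filter_add_card_filter_not _).symm
      have h3 : (DY.filter (fun x => ¬ x ∉ B₀)).card ≤ B₀.card := by
        apply Finset.card_le_card
        intro x hx
        have := (Finset.mem_filter.1 hx).2
        push Not at this
        exact this
      omega
    rw [hDYcard] at h1
    have : (6 * Y.card : ℝ) ≤ (DY.filter (fun x => x ∉ B₀)).card + B₀.card := by exact_mod_cast h1
    linarith
  refine le_trans ?_ hupper
  refine le_trans ?_ hlower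
  exact mul_le_mul_of_nonneg_right hcard2 (mul_nonneg (by norm_num) hv0pos.le)

/-- The final numerical contradiction. -/
lemma core_final {s l : ℝ} (hs0 : 0 < s) (hs1 : s ≤ 1 / 10 ^ 9) (hl0 : 0 ≤ l)
    (hl1 : l ≤ 1 / 10 ^ 9) {X lam Y Bc : ℝ} (hlam : lam = (1 + 4 * (1 / 10 ^ 4)) * s)
    (hX : X = 574 / 1000 / lam) (hY : 6 * ((J X).card : ℝ) * (1 - 1 / 1000) ≤ Y)
    (hB : Bc * s ^ 2 ≤ 1 / 10 ^ 9) (hB0 : 0 ≤ Bc)
    (hfin : (6 * Y - Bc : ℝ) * ((1 - 1 / 10 ^ 9) * (√3 * s ^ 2 / 12)) ≤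
      3 * (2 * Real.pi / 3 * (1 - (0.8385 - l)))) : False := by
  have hpi := Real.pi_gt_d6
  have hpi2 := Real.pi_lt_d6
  have k3 := sqrt3_lt
  have k3' := sqrt3_gt
  have hlam0 : 0 < lam := by rw [hlam]; positivity
  have hX0 : 0 < X := by rw [hX]; positivity
  have hXlam : X * lam = 574 / 1000 := by rw [hX]; field_simp
  have hJ := card_J hX0.le
  have hcJ := cJ_lower
  obtain ⟨cJ, hcJe⟩ : ∃ cJ : ℝ, cJ = 1 / √7 + 1 / (√3 * √7) := ⟨_, rfl⟩
  rw [← hcJe] at hJ hcJ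
  obtain ⟨Jc, hJc⟩ : ∃ Jc : ℝ, Jc = ((J X).card : ℝ) := ⟨_, rfl⟩
  rw [← hJc] at hJ hY
  obtain ⟨v0, hv0⟩ : ∃ v0 : ℝ, v0 = √3 * s ^ 2 / 12 := ⟨_, rfl⟩
  rw [← hv0] at hfin
  have hv0pos : 0 < v0 := by rw [hv0]; positivity
  have hXv : X ^ 2 * v0 = (574 / 1000) ^ 2 / (1 + 4 * (1 / 10 ^ 4)) ^ 2 * (√3 / 12) := by
    rw [hX, hv0, hlam]; field_simp
  have hXs : X * s ≤ 1 := by
    have : X * s ≤ X * lam := by
      rw [hlam]; nlinarith [mul_pos hX0 hs0]
    linarith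
  have hXv1 : X * v0 ≤ 1 / 10 ^ 9 := by
    have h2 : X * v0 = (X * s) * (√3 / 12) * s := by rw [hv0]; ring
    rw [h2]
    calc (X * s) * (√3 / 12) * s ≤ 1 * (√3 / 12) * (1 / 10 ^ 9) := by gcongr
      _ ≤ 1 / 10 ^ 9 := by
          have : √3 ≤ 12 := by linarith
          calc 1 * (√3 / 12) * (1 / 10 ^ 9 : ℝ) ≤ 1 * (12 / 12) * (1 / 10 ^ 9) := by gcongr
            _ ≤ _ := by norm_num
  have hB0v : Bc * v0 ≤ 1 / 10 ^ 9 := by
    refine le_trans ?_ hB
    have : v0 ≤ s ^ 2 := by rw [hv0]; nlinarith [sq_nonneg s]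
    gcongr
  have hXv2 : (0.04751 : ℝ) ≤ X ^ 2 * v0 := by
    rw [hXv]
    have : (0.04751 : ℝ) ≤ (574 / 1000) ^ 2 / (1 + 4 * (1 / 10 ^ 4)) ^ 2 * (1.7320508 / 12) := by
      norm_num
    refine this.trans ?_
    gcongr
  have hJv : (0.0283235 : ℝ) ≤ Jc * v0 := by
    have h1 : (X ^ 2 * cJ - 4 * X) * v0 ≤ Jc * v0 :=
      mul_le_mul_of_nonneg_right hJ hv0pos.le
    refine le_trans ?_ h1
    have h2 : (X ^ 2 * cJ - 4 * X) * v0 =
        (X ^ 2 * v0) * cJ - 4 * (X * v0) := by ring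
    rw [h2]
    have h3 : (0.04751 : ℝ) * 0.59618 ≤ (X ^ 2 * v0) * cJ :=
      mul_le_mul hXv2 hcJ (by norm_num) (by positivity)
    norm_num at h3 hXv1 ⊢
    linarith
  have hYv : (0.1697 : ℝ) ≤ Y * v0 := by
    have h1 : 6 * Jc * (1 - 1 / 1000) * v0 ≤ Y * v0 :=
      mul_le_mul_of_nonneg_right hY hv0pos.le
    have h2 : 6 * Jc * (1 - 1 / 1000) * v0 =
        6 * (1 - 1 / 1000) * (Jc * v0) := by ring
    rw [h2] at h1
    norm_num at h1 hJv ⊢
    linarith
  have e1 : (6 * Y - Bc : ℝ) * ((1 - 1 / 10 ^ 9) * v0) =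
      (1 - 1 / 10 ^ 9) * (6 * (Y * v0) - Bc * v0) := by ring
  rw [e1] at hfin
  have e2 : (1 - 1 / 10 ^ 9 : ℝ) * (6 * 0.1697 - 1 / 10 ^ 9) ≤
      (1 - 1 / 10 ^ 9) * (6 * (Y * v0) - Bc * v0) := by
    apply mul_le_mul_of_nonneg_left _ (by norm_num)
    linarith
  have e3 : 3 * (2 * Real.pi / 3 * (1 - (0.8385 - l))) ≤ 2 * 3.141593 * (0.1615 + 1 / 10 ^ 9) := by
    have : 3 * (2 * Real.pi / 3 * (1 - (0.8385 - l))) = 2 * Real.pi * (0.1615 + l) := by ring
    rw [this]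
    gcongr
  have e4 := e2.trans (hfin.trans e3)
  norm_num at e4

set_option maxHeartbeats 4000000 in
/-- The rigidity core: a triangulated sphere with valences 5 and 6 cannot consist almost
entirely of nearly equilateral triangles of the same size. -/
theorem core {S : Finset E} {s l : ℝ} {B₀ : Finset (E × E)} (h : CoreHyp S s l B₀) : False := by
  classical
  have hS := h.simp
  have hs0 := h.s0
  have hs1 := h.s1
  have hl0 := h.l0
  have hl1 := h.l1
  have hu := hS.unit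
  have hpi := Real.pi_gt_d6
  have hpi2 := Real.pi_lt_d6
  have k3 := sqrt3_lt
  have k3' := sqrt3_gt
  obtain ⟨e, he, hcap⟩ := exists_cap hS h.val (κ := 0.8334) (by norm_num) (by norm_num)
  -- the region
  set κ : ℝ := 0.8334 + l with hκ
  have hκ0 : 0 ≤ κ := by rw [hκ]; linarith
  have hdeg : ∀ v ∈ S, ∀ x ∈ Cone e κ, x ∈ Star S v → (nb S v).card = 6 := by
    intro v hv x hx hxs
    by_contra h6
    have h1 := hcap v hv h6
    have h2 := star_near hS h.edge hl0 (hl1.trans (by norm_num)) he hx hxs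
    rw [hκ] at h2
    linarith
  have hne : (Cone e κ).Nonempty := by
    refine ⟨e, (mem_Cone_unit he).2 ?_⟩
    rw [he, hκ]
    have : l ≤ 1 / 10 := hl1.trans (by norm_num)
    linarith
  obtain ⟨H, HR, HM⟩ := dev hS rho6 mu2 rm3 e hκ0 hne hdeg
  have h6 : ∀ v ∈ S, κ < dot e v → (nb S v).card = 6 := fun v hv hv2 =>
    hdeg v hv v ((mem_Cone_unit (hu v hv)).2 hv2) (self_mem_Star hS hv)
  -- the steps
  set θ : ℝ := 1 / 10 ^ 4 with hθ
  set lam : ℝ := (1 + 4 * θ) * s with hlam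
  have hlam0 : 0 < lam := by rw [hlam, hθ]; positivity
  have hsmall : 7 * ((1 + 2 * θ) * s) ^ 2 ≤ 2 * θ := by
    rw [hθ]
    have : (1 + 2 * (1 / 10 ^ 4)) * s ≤ (1 / 10 ^ 8 : ℝ) := by
      calc (1 + 2 * (1 / 10 ^ 4)) * s ≤ (1 + 2 * (1 / 10 ^ 4)) * (1 / 10 ^ 9) := by gcongr
        _ ≤ _ := by norm_num
    calc 7 * ((1 + 2 * (1 / 10 ^ 4)) * s) ^ 2 ≤ 7 * (1 / 10 ^ 8 : ℝ) ^ 2 := by gcongr
      _ ≤ _ := by norm_num
  have hθ0 : 0 ≤ θ := by rw [hθ]; norm_num
  have hθ1 : θ ≤ 1 / 2 := by rw [hθ]; norm_num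
  set b : ℝ := 4 * B₀.card + 3 * (irr S).card with hb
  have st1 : ∀ t, IsStep S (p1 t) lam (6 * l) b (g1 S t) (B1 S B₀ t) := fun t =>
    isStep1 hS hs0 hθ0 hθ1 hsmall h.edge hl0 h.sub h.near t
  have st2 : ∀ t, IsStep S (p2 t) lam (6 * l) b (g2 S t) (B2 S B₀ t) := fun t =>
    isStep2 hS hs0 hθ0 hθ1 hsmall h.edge hl0 h.sub h.near t
  set X : ℝ := 574 / 1000 / lam with hX
  have hX0 : 0 < X := by rw [hX]; positivity
  have hXlam : X * lam = 574 / 1000 := by rw [hX]; field_simp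
  -- choose the dart
  have hD0 := card_D0 h he
  have hD0pos : 0 < ((D0 S e).card : ℝ) := by
    by_contra hcon
    push Not at hcon
    have : ((D0 S e).card : ℝ) * s ^ 2 ≤ 0 := mul_nonpos_of_nonpos_of_nonneg hcon (by positivity)
    have h2 : (0 : ℝ) < 2 / 10 ^ 6 := by norm_num
    linarith
  have hD0ne : (D0 S e).Nonempty := by
    rw [← Finset.card_pos]; exact_mod_cast hD0pos
  obtain ⟨d, hdD, hgood⟩ := exists_good_dart (B₀ := B₀) (X := X) hS st1 st2 hl0 hX0.le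
    (δ := 1 / 1000) (by norm_num) (D₀ := D0 S e) (Finset.filter_subset _ _) hD0ne
  obtain ⟨hd, hde⟩ := Finset.mem_filter.1 hdD
  have hd1 : d.1 ∈ S := (mem_darts.1 hd).mem_left
  have hang : ang e d.1 ≤ 4 / 1000 := by
    have := ang_le_two he (hu _ hd1)
    linarith
  -- positions
  have hpos : ∀ i ∈ good S B₀ X l (1 / 1000) d,
      (∀ n ≤ i.2.2.1, ang d.1 ((g1 S i.2.1)^[n] ((rot S)^[i.1] d)).1 ≤ 575 / 1000) ∧
      (∀ n ≤ i.2.2.2, ang d.1 ((g2 S i.2.1)^[n] ((g1 S i.2.1)^[i.2.2.1]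
        ((rot S)^[i.1] d))).1 ≤ 575 / 1000) := by
    intro i hi
    have := good_pos hS st1 st2 hlam0.le hl0 hd hi
    rw [hXlam] at this
    refine ⟨fun n hn => (this.1 n hn).trans (by norm_num),
      fun n hn => (this.2 n hn).trans (by norm_num)⟩
  have hbuf : ∀ y : E, dot y y = 1 → ang d.1 y ≤ 575 / 1000 → κ + 3 * l < dot e y := by
    intro y hy hya
    have h1 := ang_triangle e d.1 y
    have h2 : ang e y ≤ 579 / 1000 := by linarith
    have h3 := dot_of_ang he hy h2 (by norm_num)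
    have h4 := cos_579
    rw [hκ]
    have : l ≤ 1 / 10 ^ 6 := hl1.trans (by norm_num)
    norm_num at h4 this ⊢
    linarith
  have hmemd : ∀ (i : ℕ × Fin 4 × ℕ × ℕ) n, (g1 S i.2.1)^[n] ((rot S)^[i.1] d) ∈ darts S := by
    intro i n
    exact ((st1 i.2.1).perm.iterate n).1 _ (((isPerm_rot hS).iterate i.1).1 d hd)
  have hmemd2 : ∀ (i : ℕ × Fin 4 × ℕ × ℕ) n, (g2 S i.2.1)^[n] ((g1 S i.2.1)^[i.2.2.1]
      ((rot S)^[i.1] d)) ∈ darts S := by
    intro i n
    exact ((st2 i.2.1).perm.iterate n).1 _ (hmemd i _)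
  -- injectivity
  set G := good S B₀ X l (1 / 1000) d with hG
  have hinj : Set.InjOn (fun i => (endD S d i).1) G := by
    intro i hi j hj hij
    have hi' : i ∈ G := hi
    have hj' : j ∈ G := hj
    obtain ⟨i1, i2⟩ := hpos i hi'
    obtain ⟨j1, j2⟩ := hpos j hj'
    rw [hG] at hi' hj'
    obtain ⟨a1, a2⟩ := Finset.mem_product.1 (Finset.mem_filter.1 hi').1
    obtain ⟨b1, b2⟩ := Finset.mem_product.1 (Finset.mem_filter.1 hj').1
    exact endD_inj hS he h.edge hl0 HR HM h6 hd (Finset.mem_range.1 a1) (Finset.mem_range.1 b1)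
      (mem_J.1 a2).1 (mem_J.1 b2).1
      (fun n hn => hbuf _ (hu _ (mem_darts.1 (hmemd i n)).mem_left) (i1 n hn))
      (fun n hn => hbuf _ (hu _ (mem_darts.1 (hmemd2 i n)).mem_left) (i2 n hn))
      (fun n hn => hbuf _ (hu _ (mem_darts.1 (hmemd j n)).mem_left) (j1 n hn))
      (fun n hn => hbuf _ (hu _ (mem_darts.1 (hmemd2 j n)).mem_left) (j2 n hn)) hij
  set Y := G.image (fun i => (endD S d i).1) with hY
  have hYcard : Y.card = G.card := Finset.card_image_of_injOn hinj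
  have hYprop : ∀ y ∈ Y, y ∈ S ∧ (0.8385 : ℝ) ≤ dot d.1 y ∧ (nb S y).card = 6 := by
    intro y hy
    obtain ⟨i, hi, rfl⟩ := Finset.mem_image.1 hy
    have hyS : (endD S d i).1 ∈ S := (mem_darts.1 (hmemd2 i i.2.2.2)).mem_left
    have hya : ang d.1 (endD S d i).1 ≤ 575 / 1000 := (hpos i hi).2 _ le_rfl
    refine ⟨hyS, ?_, ?_⟩
    · exact cos_575.trans (dot_of_ang (hu _ hd1) (hu _ hyS) hya (by norm_num))
    · refine h6 _ hyS ?_
      have := hbuf _ (hu _ hyS) hya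
      linarith
  have hfin := sector_bound h (hu _ hd1) fun y hy => ⟨(hYprop y hy).2.1, (hYprop y hy).2.2⟩
  -- numbers
  have hbb : b ≤ 180 * (B₀.card + 1) := by
    have h1 : ((irr S).card : ℝ) ≤ 60 := by exact_mod_cast card_irr hS h.val
    have h2 : (0 : ℝ) ≤ B₀.card := Nat.cast_nonneg _
    rw [hb]; linarith
  have hratio : 6 * l * X * b / (1 / 1000 * (D0 S e).card) ≤ 1 / 1000 := by
    rw [div_le_iff₀ (by positivity)]
    have hs2 : 0 < s ^ 2 := by positivity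
    have hb0 : (0 : ℝ) ≤ B₀.card := Nat.cast_nonneg _
    -- X ≤ 1 / s
    have hXs : X * s ≤ 1 := by
      have : X * s ≤ X * lam := by
        rw [hlam, hθ]; nlinarith [mul_pos hX0 hs0]
      linarith
    have h1 : 6 * l * X * b * s ^ 2 ≤ 1080 / 10 ^ 15 := by
      calc 6 * l * X * b * s ^ 2 ≤ 6 * l * X * (180 * (B₀.card + 1)) * s ^ 2 := by gcongr
        _ = 1080 * (X * s) * ((B₀.card + 1) * l * s) := by ring
        _ ≤ 1080 * 1 * (1 / 10 ^ 15) := by
            have := h.bad2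
            gcongr
        _ = _ := by norm_num
    have h2 : (1080 : ℝ) / 10 ^ 15 ≤ 1 / 1000 * (1 / 1000 * ((D0 S e).card : ℝ)) * s ^ 2 := by
      calc (1080 : ℝ) / 10 ^ 15 ≤ 1 / 1000 * (1 / 1000 * (2 / 10 ^ 6)) := by norm_num
        _ ≤ 1 / 1000 * (1 / 1000 * ((D0 S e).card * s ^ 2)) := by gcongr
        _ = _ := by ring
    have h3 : 6 * l * X * b * s ^ 2 ≤ 1 / 1000 * (1 / 1000 * ((D0 S e).card : ℝ)) * s ^ 2 :=
      h1.trans h2
    exact le_of_mul_le_mul_right h3 hs2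
  have hGc : 6 * ((J X).card : ℝ) * (1 - 1 / 1000) ≤ Y.card := by
    rw [hYcard]
    refine le_trans ?_ hgood
    exact mul_le_mul_of_nonneg_left (by linarith) (by positivity)
  exact core_final hs0 hs1 hl0 hl1 hlam hX hGc h.bad1 (Nat.cast_nonneg _) hfin

end Med
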