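import Pool.Agent.Med.Frozen

set_option autoImplicit false

open Finset

namespace Med

lemma iter_mem {S : Finset E} (hS : Simp S) {v b : E} (hb : b ∈ nb S v) (k : ℕ) :
    (third S v)^[k] b ∈ nb S v := by
  induction k with
  | zero => exact hb
  | succ k ih =>
    rw [Function.iterate_succ_apply']
    exact mem_nb.2 (adj_third hS (mem_nb.1 ih))

lemma iter_cancel {S : Finset E} (hS : Simp S) {v b b' : E} (hb : b ∈ nb S v) (hb' : b' ∈ nb S v)
    (k : ℕ) (h : (third S v)^[k] b = (third S v)^[k] b') : b = b' := by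
  induction k with
  | zero => exact h
  | succ k ih =>
    rw [Function.iterate_succ_apply', Function.iterate_succ_apply'] at h
    exact ih (third_injOn (mem_nb.1 (iter_mem hS hb k)) (mem_nb.1 (iter_mem hS hb' k)) h)

/-- the rotation around a vertex is one cycle of length the valence -/
theorem cycle {S : Finset E} (hS : Simp S) {v b : E} (hv : v ∈ S) (hb : b ∈ nb S v) :
    (third S v)^[(nb S v).card] b = b ∧
    (∀ w ∈ nb S v, ∃ k < (nb S v).card, (third S v)^[k] b = w) ∧
    (∀ i < (nb S v).card, ∀ j < (nb S v).card,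
      (third S v)^[i] b = (third S v)^[j] b → i = j) := by
  classical
  set f := third S v with hf
  have hex : ∃ k, 0 < k ∧ f^[k] b = b := by
    obtain ⟨i, j, hij, he⟩ : ∃ i j : ℕ, i ≠ j ∧ f^[i] b = f^[j] b := by
      have := Finset.exists_ne_map_eq_of_card_lt_of_maps_to
        (s := Finset.range ((nb S v).card + 1)) (t := nb S v) (f := fun k => f^[k] b)
        (by simp) (fun k _ => iter_mem hS hb k)
      obtain ⟨i, -, j, -, h1, h2⟩ := this
      exact ⟨i, j, h1, h2⟩
    wlog hlt : i < j generalizing i j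
    · exact this j i hij.symm he.symm (by omega)
    refine ⟨j - i, by omega, ?_⟩
    have h1 : f^[i] (f^[j - i] b) = f^[i] b := by
      rw [← Function.iterate_add_apply, he]; congr 2; omega
    exact iter_cancel hS (iter_mem hS hb (j - i)) hb i h1
  set p := Nat.find hex with hp
  obtain ⟨hp0, hpb⟩ := Nat.find_spec hex
  rw [← hp] at hp0 hpb
  have hinj : ∀ i < p, ∀ j < p, f^[i] b = f^[j] b → i = j := by
    intro i hi j hj he
    by_contra hne
    wlog hlt : i < j generalizing i j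
    · exact this j hj i hi he.symm (Ne.symm hne) (by omega)
    have h1 : f^[i] (f^[j - i] b) = f^[i] b := by
      rw [← Function.iterate_add_apply, he]; congr 2; omega
    have h2 := iter_cancel hS (iter_mem hS hb (j - i)) hb i h1
    exact Nat.find_min hex (m := j - i) (by omega) ⟨by omega, h2⟩
  have horb := orbit hS hv (O := (Finset.range p).image (fun k => f^[k] b)) (by
    intro x hx
    obtain ⟨k, -, rfl⟩ := Finset.mem_image.1 hx
    exact iter_mem hS hb k) ⟨b, Finset.mem_image.2 ⟨0, by simpa using hp0, rfl⟩⟩ (by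
    intro x hx
    obtain ⟨k, hk, rfl⟩ := Finset.mem_image.1 hx
    rw [Finset.mem_range] at hk
    by_cases h : k + 1 < p
    · refine Finset.mem_image.2 ⟨k + 1, Finset.mem_range.2 h, ?_⟩
      exact Function.iterate_succ_apply' f k b
    · have : k + 1 = p := by omega
      refine Finset.mem_image.2 ⟨0, Finset.mem_range.2 hp0, ?_⟩
      show b = f (f^[k] b)
      rw [← Function.iterate_succ_apply' f k b, Nat.succ_eq_add_one, this, hpb])
  have hcard : (nb S v).card = p := by
    rw [← horb, Finset.card_image_of_injOn, Finset.card_range]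
    intro i hi j hj he
    exact hinj i (by simpa using hi) j (by simpa using hj) he
  rw [hcard]
  refine ⟨hpb, ?_, hinj⟩
  intro w hw
  rw [← horb] at hw
  obtain ⟨k, hk, he⟩ := Finset.mem_image.1 hw
  exact ⟨k, Finset.mem_range.1 hk, he⟩

/-- index of a neighbour with respect to a base neighbour -/
lemma exists_index {S : Finset E} (hS : Simp S) {v : E} (hv : v ∈ S) (h6 : (nb S v).card = 6)
    {G : Type} [Group G] {ρ : G} (hρ : ρ ^ 6 = 1) :
    ∃ r : E → G, (∀ w ∈ nb S v, r (third S v w) = r w * ρ) ∧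
      ∀ w, ∃ k : ℕ, r w = ρ ^ k := by
  classical
  obtain ⟨b, hb⟩ := nb_nonempty hS hv
  obtain ⟨h1, h2, h3⟩ := cycle hS hv hb
  rw [h6] at h1 h2 h3
  set f := third S v with hf
  have : ∀ w, ∃ k : ℕ, w ∈ nb S v → k < 6 ∧ f^[k] b = w := by
    intro w
    by_cases hw : w ∈ nb S v
    · obtain ⟨k, hk⟩ := h2 w hw
      exact ⟨k, fun _ => hk⟩
    · exact ⟨0, fun h => absurd h hw⟩
  choose idx hidx using this
  refine ⟨fun w => ρ ^ idx w, fun w hw => ?_, fun w => ⟨idx w, rfl⟩⟩
  obtain ⟨k1, k2⟩ := hidx w hw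
  have hw' : f w ∈ nb S v := mem_nb.2 (adj_third hS (mem_nb.1 hw))
  obtain ⟨k3, k4⟩ := hidx (f w) hw'
  have k5 : f^[idx w + 1] b = f w := by
    rw [Function.iterate_succ_apply' f, k2]
  show ρ ^ idx (f w) = ρ ^ idx w * ρ
  rw [← pow_succ]
  by_cases h : idx w + 1 < 6
  · rw [h3 _ k3 _ h (k4.trans k5.symm)]
  · have h5 : idx w = 5 := by omega
    have h6' : idx (f w) = 0 := by
      apply h3 _ k3 _ (by norm_num)
      rw [k4, ← k5, h5]
      exact h1
    rw [h5, h6', hρ, pow_zero]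

/-- open star (in the cone sense) -/
def Star (S : Finset E) (v : E) : Set E :=
  {x | ∀ a b c, Tri S a b c → InC a b c x → v = a ∨ v = b ∨ v = c}

lemma isOpen_Star (S : Finset E) (v : E) : IsOpen (Star S v) := by
  classical
  have : (Star S v)ᶜ = ⋃ T ∈ {T : E × E × E | T ∈ S ×ˢ S ×ˢ S ∧ Tri S T.1 T.2.1 T.2.2 ∧
      v ≠ T.1 ∧ v ≠ T.2.1 ∧ v ≠ T.2.2}, {z | InC T.1 T.2.1 T.2.2 z} := by
    ext z
    simp only [Star, Set.mem_compl_iff, Set.mem_ofPred_eq, Set.mem_iUnion, exists_prop]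
    push Not
    constructor
    · rintro ⟨a, b, c, h1, h2, h3⟩
      exact ⟨(a, b, c), ⟨by simp only [Finset.mem_product]; exact ⟨h1.1, h1.2.1, h1.2.2.1⟩,
        h1, h3⟩, h2⟩
    · rintro ⟨T, ⟨-, h1, h3⟩, h2⟩
      exact ⟨_, _, _, h1, h2, h3⟩
  rw [← isClosed_compl_iff, this]
  apply Set.Finite.isClosed_biUnion
  · exact (Finset.finite_toSet (S ×ˢ S ×ˢ S)).subset fun T hT => hT.1
  · intro T hT
    exact isClosed_inC hT.2.1.2.2.2.1

lemma self_mem_Star {S : Finset E} (hS : Simp S) {v : E} (hv : v ∈ S) : v ∈ Star S v :=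
  fun _ _ _ h1 h2 => vertex hS hv h1 h2

lemma comb_mem_Star {S : Finset E} {v w : E} (h : Adj S v w) {s t : ℝ} (hs : 0 < s)
    (ht : 0 ≤ t) : s • v + t • w ∈ Star S v := by
  intro a b c h1 h2
  obtain ⟨d, hd⟩ := h
  refine carrier hd h1 hs ht le_rfl (γ := 0) ?_
  rwa [zero_smul, add_zero]

lemma adj_of_star {S : Finset E} (hS : Simp S) {v w x : E} (hv : x ∈ Star S v)
    (hw : x ∈ Star S w) (hne : v ≠ w) : Adj S v w := by
  obtain ⟨a, b, c, ht, hin⟩ := cover hS x
  have s1 := Adj.symm hS ⟨_, ht⟩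
  have s2 := Adj.symm hS ⟨_, ht.cyc⟩
  have s3 := Adj.symm hS ⟨_, ht.cyc.cyc⟩
  rcases hv a b c ht hin with rfl | rfl | rfl <;> rcases hw _ _ _ ht hin with rfl | rfl | rfl <;>
    first
    | exact absurd rfl hne
    | exact ⟨_, ht⟩
    | exact ⟨_, ht.cyc⟩
    | exact ⟨_, ht.cyc.cyc⟩
    | exact s1
    | exact s2
    | exact s3

lemma tri_of_star {S : Finset E} (hS : Simp S) {u v w x : E} (hu : x ∈ Star S u)
    (hv : x ∈ Star S v) (hw : x ∈ Star S w) (h1 : u ≠ v) (h2 : v ≠ w) (h3 : u ≠ w) :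
    Tri S u v w ∨ Tri S u w v := by
  obtain ⟨a, b, c, ht, hin⟩ := cover hS x
  rcases hu a b c ht hin with rfl | rfl | rfl <;> rcases hv _ _ _ ht hin with rfl | rfl | rfl <;>
    rcases hw _ _ _ ht hin with rfl | rfl | rfl <;>
    first
    | exact absurd rfl h1
    | exact absurd rfl h2
    | exact absurd rfl h3
    | exact Or.inl ht
    | exact Or.inl ht.cyc
    | exact Or.inl ht.cyc.cyc
    | exact Or.inr ht
    | exact Or.inr ht.cyc
    | exact Or.inr ht.cyc.cyc

lemma exists_star {S : Finset E} (hS : Simp S) {x : E} (hx : x ≠ 0) : ∃ v ∈ S, x ∈ Star S v := by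
  obtain ⟨a, b, c, ht, α, β, γ, h1, h2, h3, he⟩ := cover hS x
  rcases h1.lt_or_eq with p1 | p1
  · refine ⟨a, ht.1, fun a' b' c' ht' hin => carrier ht ht' p1 h2 h3 ?_⟩
    rwa [← he]
  rcases h2.lt_or_eq with p2 | p2
  · refine ⟨b, ht.2.1, fun a' b' c' ht' hin => carrier ht.cyc ht' p2 h3 h1 ?_⟩
    have : β • b + γ • c + α • a = x := by rw [he]; abel
    rwa [this]
  rcases h3.lt_or_eq with p3 | p3
  · refine ⟨c, ht.2.2.1, fun a' b' c' ht' hin => carrier ht.cyc.cyc ht' p3 h1 h2 ?_⟩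
    have : γ • c + α • a + β • b = x := by rw [he]; abel
    rwa [this]
  · exfalso
    apply hx
    rw [he, ← p1, ← p2, ← p3]; simp

end Med
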