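import Pool.Agent.Med.Fan

set_option autoImplicit false

open Finset

namespace Med

/-- the carrier lemma: a vertex with positive coefficient belongs to every facet whose cone
contains the point -/
lemma carrier {S : Finset E} {a b c a' b' c' : E} (h : Tri S a b c) (h' : Tri S a' b' c')
    {α β γ : ℝ} (hα : 0 < α) (hβ : 0 ≤ β) (hγ : 0 ≤ γ)
    (hz : InC a' b' c' (α • a + β • b + γ • c)) : a = a' ∨ a = b' ∨ a = c' := by
  obtain ⟨α', β', γ', hα', hβ', hγ', he⟩ := hz
  obtain ⟨ha, hb, hc, -, m, m1, m2, m3, m4⟩ := h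
  obtain ⟨ha', hb', hc', -, m', n1, n2, n3, n4⟩ := h'
  by_contra hcon
  push Not at hcon
  have hlt := n4 a ha hcon.1 hcon.2.1 hcon.2.2
  have hle : ∀ p ∈ S, dot m p ≤ 1 := by
    intro p hp
    by_cases pa : p = a
    · rw [pa, m1]
    by_cases pb : p = b
    · rw [pb, m2]
    by_cases pc : p = c
    · rw [pc, m3]
    exact (m4 p hp pa pb pc).le
  have hle' : ∀ p ∈ S, dot m' p ≤ 1 := by
    intro p hp
    by_cases pa : p = a'
    · rw [pa, n1]
    by_cases pb : p = b'
    · rw [pb, n2]
    by_cases pc : p = c'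
    · rw [pc, n3]
    exact (n4 p hp pa pb pc).le
  have e1 : dot m (α • a + β • b + γ • c) = α + β + γ := by
    rw [dot_add, dot_add, dot_smul, dot_smul, dot_smul, m1, m2, m3]; ring
  have e2 : dot m' (α' • a' + β' • b' + γ' • c') = α' + β' + γ' := by
    rw [dot_add, dot_add, dot_smul, dot_smul, dot_smul, n1, n2, n3]; ring
  have e3 : dot m (α' • a' + β' • b' + γ' • c') ≤ α' + β' + γ' := by
    rw [dot_add, dot_add, dot_smul, dot_smul, dot_smul]
    nlinarith [hle a' ha', hle b' hb', hle c' hc']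
  have e4 : dot m' (α • a + β • b + γ • c) < α + β + γ := by
    rw [dot_add, dot_add, dot_smul, dot_smul, dot_smul]
    nlinarith [hle' b hb, hle' c hc]
  rw [he] at e1 e4
  linarith

/-- `m` is bounded by one on `S` -/
lemma Tri.exists_dual {S : Finset E} {a b c : E} (h : Tri S a b c) :
    ∃ m : E, dot m a = 1 ∧ dot m b = 1 ∧ dot m c = 1 ∧ ∀ p ∈ S, dot m p ≤ 1 := by
  obtain ⟨ha, hb, hc, -, m, m1, m2, m3, m4⟩ := h
  refine ⟨m, m1, m2, m3, fun p hp => ?_⟩
  by_cases pa : p = a
  · rw [pa, m1]
  by_cases pb : p = b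
  · rw [pb, m2]
  by_cases pc : p = c
  · rw [pc, m3]
  exact (m4 p hp pa pb pc).le

/-- the third vertex on the left of a dart is unique -/
lemma Tri.unique {S : Finset E} {a b c c' : E} (h : Tri S a b c) (h' : Tri S a b c') :
    c = c' := by
  have hd := h.2.2.2.1
  have hd' := h'.2.2.2.1
  -- z = a + b + t c
  obtain ⟨l, hl⟩ : ∃ l, l = det c b c' / det a b c' := ⟨_, rfl⟩
  obtain ⟨k, hk⟩ : ∃ k, k = det a c c' / det a b c' := ⟨_, rfl⟩
  obtain ⟨t, ht0, ht1, ht2⟩ : ∃ t : ℝ, 0 < t ∧ 0 ≤ 1 + t * l ∧ 0 ≤ 1 + t * k := by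
    refine ⟨1 / (|l| + |k| + 1), by positivity, ?_, ?_⟩
    · have h1 : (1 / (|l| + |k| + 1)) * |l| ≤ 1 := by
        rw [div_mul_eq_mul_div, one_mul, div_le_one (by positivity)]
        have := abs_nonneg k; linarith
      have h2 : -( (1 / (|l| + |k| + 1)) * |l|) ≤ (1 / (|l| + |k| + 1)) * l := by
        rw [← mul_neg]
        exact mul_le_mul_of_nonneg_left (neg_abs_le l) (by positivity)
      linarith
    · have h1 : (1 / (|l| + |k| + 1)) * |k| ≤ 1 := by
        rw [div_mul_eq_mul_div, one_mul, div_le_one (by positivity)]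
        have := abs_nonneg l; linarith
      have h2 : -( (1 / (|l| + |k| + 1)) * |k|) ≤ (1 / (|l| + |k| + 1)) * k := by
        rw [← mul_neg]
        exact mul_le_mul_of_nonneg_left (neg_abs_le k) (by positivity)
      linarith
  have hz : InC a b c' (t • c + (1 : ℝ) • a + (1 : ℝ) • b) := by
    refine ⟨1 + t * l, 1 + t * k, t * (det a b c / det a b c'), ht1, ht2, by positivity, ?_⟩
    have hc := cramer a b c' c
    have hc2 : c = (det a b c')⁻¹ • (det c b c' • a + det a c c' • b + det a b c • c') := by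
      rw [← hc, smul_smul, inv_mul_cancel₀ hd'.ne', one_smul]
    have hc3 : c = l • a + k • b + (det a b c / det a b c') • c' := by
      rw [hl, hk]
      refine hc2.trans ?_
      rw [smul_add, smul_add, smul_smul, smul_smul, smul_smul]
      simp only [div_eq_inv_mul]
    generalize hq : det a b c / det a b c' = q at *
    rw [hc3]
    module
  have := carrier h.cyc.cyc h' ht0 zero_le_one zero_le_one hz
  rcases this with h1 | h1 | h1
  · exact absurd h1 h.ne_ac.symm
  · exact absurd h1 h.ne_bc.symm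
  · exact h1

/-- adjacency: `b` is a neighbour of `a` -/
def Adj (S : Finset E) (a b : E) : Prop := ∃ c, Tri S a b c

lemma InC.convex {a b c x y : E} (hx : InC a b c x) (hy : InC a b c y) {s t : ℝ}
    (hs : 0 ≤ s) (ht : 0 ≤ t) : InC a b c (s • x + t • y) := by
  obtain ⟨α, β, γ, h1, h2, h3, rfl⟩ := hx
  obtain ⟨α', β', γ', h1', h2', h3', rfl⟩ := hy
  refine ⟨s * α + t * α', s * β + t * β', s * γ + t * γ', by positivity, by positivity,
    by positivity, ?_⟩
  module

lemma isClosed_inC {a b c : E} (h : 0 < det a b c) : IsClosed {z | InC a b c z} := by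
  have : {z | InC a b c z} = {z | 0 ≤ det z b c} ∩ ({z | 0 ≤ det a z c} ∩ {z | 0 ≤ det a b z}) := by
    ext z; simp only [Set.mem_ofPred_eq, Set.mem_inter_iff]; exact inC_iff h
  rw [this]
  exact (isClosed_le continuous_const (continuous_det1 b c)).inter
    ((isClosed_le continuous_const (continuous_det2 a c)).inter
      (isClosed_le continuous_const (continuous_det3 a b)))

/-- covering, with a direction -/
lemma cover_dir {S : Finset E} (hS : Simp S) (z u : E) :
    ∃ a b c, Tri S a b c ∧ ∃ t₀ : ℝ, 0 < t₀ ∧ ∀ t, 0 ≤ t → t ≤ t₀ → InC a b c (z + t • u) := by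
  classical
  have key : ∃ T ∈ S ×ˢ S ×ˢ S, ∃ᶠ t in nhdsWithin (0 : ℝ) (Set.Ioi 0),
      Tri S T.1 T.2.1 T.2.2 ∧ InC T.1 T.2.1 T.2.2 (z + t • u) := by
    by_contra hcon
    have hcon' : ∀ T ∈ S ×ˢ S ×ˢ S, ∀ᶠ t in nhdsWithin (0 : ℝ) (Set.Ioi 0),
        ¬ (Tri S T.1 T.2.1 T.2.2 ∧ InC T.1 T.2.1 T.2.2 (z + t • u)) := by
      intro T hT
      rw [← Filter.not_frequently]
      exact fun h => hcon ⟨T, hT, h⟩
    have := (Filter.eventually_all_finset (S ×ˢ S ×ˢ S)).2 hcon'
    obtain ⟨t, ht⟩ := this.exists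
    obtain ⟨a, b, c, h1, h2⟩ := cover hS (z + t • u)
    refine ht (a, b, c) ?_ ⟨h1, h2⟩
    simp only [Finset.mem_product]
    exact ⟨h1.1, h1.2.1, h1.2.2.1⟩
  obtain ⟨⟨a, b, c⟩, -, hfr⟩ := key
  have htri : Tri S a b c := by
    obtain ⟨t, ht, -⟩ := hfr.exists
    exact ht
  have hcl := isClosed_inC htri.2.2.2.1
  have h0 : InC a b c z := by
    have hcont : Continuous fun t : ℝ => z + t • u := by fun_prop
    have hpre : IsClosed {t : ℝ | InC a b c (z + t • u)} := hcl.preimage hcont
    have hmem : (0 : ℝ) ∈ closure {t : ℝ | InC a b c (z + t • u)} := by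
      rw [mem_closure_iff_frequently]
      refine Filter.Frequently.filter_mono ?_ (nhdsWithin_le_nhds (s := Set.Ioi 0))
      exact hfr.mono fun t ht => ht.2
    rw [hpre.closure_eq] at hmem
    simpa using hmem
  obtain ⟨t₀, ht, ht0⟩ := (hfr.and_eventually self_mem_nhdsWithin).exists
  have ht0' : 0 < t₀ := ht0
  refine ⟨a, b, c, htri, t₀, ht0', fun t h1 h2 => ?_⟩
  have : z + t • u = (1 - t / t₀) • z + (t / t₀) • (z + t₀ • u) := by
    have : t • u = (t / t₀) • (t₀ • u) := by rw [smul_smul]; congr 1; field_simp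
    rw [this]; module
  rw [this]
  refine h0.convex ht.2 ?_ (by positivity)
  rw [sub_nonneg, div_le_one ht0']; exact h2

/-- every edge of a facet has a facet on its left -/
lemma exists_left {S : Finset E} (hS : Simp S) {a b c : E} (h : Tri S b a c) :
    ∃ d, Tri S a b d := by
  classical
  set n := cr a b with hn
  have hn0 : 0 < dot n n := by
    apply dot_self_pos
    intro h0
    have hd := h.2.2.2.1
    have : det a b c = 0 := by rw [← dot_cr, ← hn, h0]; simp
    rw [det_swap] at hd
    linarith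
  obtain ⟨x, y, w, htri, t₀, ht0, hin⟩ := cover_dir hS (a + b) n
  have hin0 := hin 0 le_rfl ht0.le
  rw [zero_smul, add_zero] at hin0
  have hab : a ≠ b := h.ne_ab.symm
  have e1 : b + a = (1 : ℝ) • b + (1 : ℝ) • a + (0 : ℝ) • c := by module
  have e2 : a + b = (1 : ℝ) • a + (0 : ℝ) • c + (1 : ℝ) • b := by module
  have c1 : b = x ∨ b = y ∨ b = w :=
    carrier h htri one_pos zero_le_one le_rfl (by rw [← e1, add_comm]; exact hin0)
  have c2 : a = x ∨ a = y ∨ a = w :=
    carrier h.cyc htri one_pos le_rfl zero_le_one (by rw [← e2]; exact hin0)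
  -- a point to the left
  have hin1 := hin t₀ ht0.le le_rfl
  have hdet : 0 < det a b (a + b + t₀ • n) := by
    rw [det_add_right, det_add_right, det_smul_right, hn, det_cr, ← hn]
    simp; positivity
  -- reduce to the case where the facet is (a, b, d) or (b, a, d)
  have key : ∀ d, Tri S b a d → InC b a d (a + b + t₀ • n) → False := by
    intro d hd hin
    have := ((inC_iff hd.2.2.2.1).1 hin).2.2
    rw [det_swap] at this
    linarith
  rcases c1 with rfl | rfl | rfl <;> rcases c2 with rfl | rfl | rfl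
  · exact absurd rfl hab
  · exact absurd hin1 (fun h => key _ htri h)
  · exact ⟨_, htri.cyc.cyc⟩
  · exact ⟨_, htri⟩
  · exact absurd rfl hab
  · exact absurd hin1.cyc (fun h => key _ htri.cyc h)
  · exact absurd hin1.cyc.cyc (fun h => key _ htri.cyc.cyc h)
  · exact ⟨_, htri.cyc⟩
  · exact absurd rfl hab

lemma Adj.symm {S : Finset E} (hS : Simp S) {a b : E} (h : Adj S a b) : Adj S b a := by
  obtain ⟨c, hc⟩ := h
  exact exists_left hS hc

lemma Adj.ne {S : Finset E} {a b : E} (h : Adj S a b) : a ≠ b := h.choose_spec.ne_ab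
lemma Adj.mem_left {S : Finset E} {a b : E} (h : Adj S a b) : a ∈ S := h.choose_spec.1
lemma Adj.mem_right {S : Finset E} {a b : E} (h : Adj S a b) : b ∈ S := h.choose_spec.2.1

/-- the third vertex of the facet to the left of a dart -/
noncomputable def third (S : Finset E) (a b : E) : E :=
  open Classical in if h : Adj S a b then h.choose else b

lemma third_spec {S : Finset E} {a b : E} (h : Adj S a b) : Tri S a b (third S a b) := by
  rw [third, dif_pos h]; exact h.choose_spec

lemma third_eq {S : Finset E} {a b c : E} (h : Tri S a b c) : third S a b = c :=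
  (third_spec ⟨c, h⟩).unique h

lemma adj_third {S : Finset E} (hS : Simp S) {a b : E} (h : Adj S a b) :
    Adj S a (third S a b) := by
  have := third_spec h
  exact Adj.symm hS ⟨b, this.cyc.cyc⟩

lemma third_injOn {S : Finset E} {a b b' : E} (h : Adj S a b) (h' : Adj S a b')
    (he : third S a b = third S a b') : b = b' := by
  have h1 := (third_spec h).cyc.cyc
  have h2 := (third_spec h').cyc.cyc
  rw [← he] at h2
  exact h1.unique h2

/-- the neighbours -/
noncomputable def nb (S : Finset E) (a : E) : Finset E :=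
  open Classical in S.filter (fun b => Adj S a b)

lemma mem_nb {S : Finset E} {a b : E} : b ∈ nb S a ↔ Adj S a b := by
  classical
  simp only [nb, Finset.mem_filter]
  exact ⟨fun h => h.2, fun h => ⟨h.mem_right, h⟩⟩

end Med
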