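import Pool.Agent.Med.Cycle
import Pool.Agent.Med.Cech

set_option autoImplicit false

open Finset Filter Topology

namespace Med

/-- the round open cone -/
def Cone (e : E) (κ : ℝ) : Set E := {x | κ * ‖x‖ < dot e x}

lemma isOpen_Cone (e : E) (κ : ℝ) : IsOpen (Cone e κ) :=
  isOpen_lt (continuous_const.mul continuous_norm) (continuous_dot e)

lemma Cone.comb {e : E} {κ : ℝ} (hκ : 0 ≤ κ) {x y : E} (hx : x ∈ Cone e κ) (hy : y ∈ Cone e κ)
    {s t : ℝ} (hs : 0 ≤ s) (ht : 0 ≤ t) (hst : 0 < s + t) : s • x + t • y ∈ Cone e κ := by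
  have hx' : κ * ‖x‖ < dot e x := hx
  have hy' : κ * ‖y‖ < dot e y := hy
  show κ * ‖s • x + t • y‖ < dot e (s • x + t • y)
  have h1 : ‖s • x + t • y‖ ≤ s * ‖x‖ + t * ‖y‖ := by
    refine (norm_add_le _ _).trans ?_
    rw [norm_smul, norm_smul, Real.norm_of_nonneg hs, Real.norm_of_nonneg ht]
  rw [dot_add, dot_smul, dot_smul]
  have h2 : κ * ‖s • x + t • y‖ ≤ κ * (s * ‖x‖ + t * ‖y‖) := by gcongr
  refine h2.trans_lt ?_
  rcases hs.lt_or_eq with h | h
  · nlinarith [mul_lt_mul_of_pos_left hx' h, mul_le_mul_of_nonneg_left hy'.le ht]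
  · rw [← h] at hst ⊢
    rw [zero_add] at hst
    nlinarith [mul_lt_mul_of_pos_left hy' hst]

lemma convex_Cone {e : E} {κ : ℝ} (hκ : 0 ≤ κ) : Convex ℝ (Cone e κ) := by
  intro x hx y hy s t hs ht hst
  exact Cone.comb hκ hx hy hs ht (by linarith)

/-- the development of a region without irregular vertices -/
theorem dev {S : Finset E} (hS : Simp S) {G : Type} [Group G] {ρ μ : G} (hρ : ρ ^ 6 = 1)
    (hμ : μ * μ = 1) (h3 : ρ * μ * (ρ * μ) * (ρ * μ) = 1) (e : E) {κ : ℝ} (hκ : 0 ≤ κ)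
    (hne : (Cone e κ).Nonempty)
    (hdeg : ∀ v ∈ S, ∀ x ∈ Cone e κ, x ∈ Star S v → (nb S v).card = 6) :
    ∃ H : E → E → G,
      (∀ v w, Adj S v w → v ∈ Cone e κ → H v (third S v w) = H v w * ρ) ∧
      (∀ v w, Adj S v w → v ∈ Cone e κ → w ∈ Cone e κ → H w v = H v w * μ) := by
  classical
  have hr : ∀ v : E, ∃ r : E → G, (v ∈ S ∧ (nb S v).card = 6) →
      ∀ w ∈ nb S v, r (third S v w) = r w * ρ := by
    intro v
    by_cases h : v ∈ S ∧ (nb S v).card = 6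
    · obtain ⟨r, hr, -⟩ := exists_index hS h.1 h.2 hρ
      exact ⟨r, fun _ => hr⟩
    · exact ⟨fun _ => 1, fun h' => absurd h' h⟩
  choose r hr using hr
  have hμi : μ⁻¹ = μ := inv_eq_of_mul_eq_one_left hμ
  -- the topological space
  let X : Type := Cone e κ
  have : ContractibleSpace X := (convex_Cone hκ).contractibleSpace hne
  have : LocallyPathConnectedSpace X := (isOpen_Cone e κ).locallyPathConnectedSpace
  have hX0 : ∀ x ∈ Cone e κ, x ≠ 0 := by
    rintro x hx rfl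
    have : κ * ‖(0 : E)‖ < dot e 0 := hx
    simp at this
  let ι : Type := {v : E // v ∈ S ∧ (nb S v).card = 6}
  let W : ι → Set X := fun v => {x | (x : E) ∈ Star S v.1}
  let c : ι → ι → G := fun v w =>
    if v.1 = w.1 then 1 else r w.1 v.1 * μ * (r v.1 w.1)⁻¹
  have hW : ∀ i, IsOpen (W i) := fun i => (isOpen_Star S i.1).preimage continuous_subtype_val
  have hcov : ∀ x : X, ∃ i, x ∈ W i := by
    intro x
    obtain ⟨v, hv, hx⟩ := exists_star hS (hX0 x.1 x.2)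
    exact ⟨⟨v, hv, hdeg v hv x.1 x.2 hx⟩, hx⟩
  have hrel1 : ρ * μ * (ρ * μ) = μ * ρ⁻¹ := by
    have : ρ * μ * (ρ * μ) = (ρ * μ)⁻¹ := eq_inv_of_mul_eq_one_left h3
    rw [this, mul_inv_rev, hμi]
  have hrel2 : μ * ρ⁻¹ * (μ * ρ⁻¹) = ρ * μ := by
    have : μ * ρ⁻¹ = (ρ * μ)⁻¹ := by rw [mul_inv_rev, hμi]
    rw [this, ← mul_inv_rev, inv_eq_of_mul_eq_one_left]
    rw [← mul_assoc]; exact h3
  have hcoc : ∀ i j k, ∀ x, x ∈ W i → x ∈ W j → x ∈ W k → c j k * c i j = c i k := by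
    intro i j k x hi hj hk
    by_cases hij : i.1 = j.1
    · have : i = j := Subtype.ext hij
      subst this
      simp [c]
    by_cases hjk : j.1 = k.1
    · have : j = k := Subtype.ext hjk
      subst this
      simp [c]
    by_cases hik : i.1 = k.1
    · have : i = k := Subtype.ext hik
      subst this
      simp only [c, if_neg hij, if_neg hjk, if_true]
      calc r i.1 j.1 * μ * (r j.1 i.1)⁻¹ * (r j.1 i.1 * μ * (r i.1 j.1)⁻¹)
          = r i.1 j.1 * (μ * μ) * (r i.1 j.1)⁻¹ := by group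
        _ = 1 := by rw [hμ]; group
    have hri := hr i.1 i.2
    have hrj := hr j.1 j.2
    have hrk := hr k.1 k.2
    simp only [c, if_neg hij, if_neg hjk, if_neg hik]
    rcases tri_of_star hS hi hj hk hij hjk hik with ht | ht
    · -- Tri i j k
      have e1 : r i.1 k.1 = r i.1 j.1 * ρ := by
        rw [← hri j.1 (mem_nb.2 ⟨_, ht⟩), third_eq ht]
      have e2 : r j.1 i.1 = r j.1 k.1 * ρ := by
        rw [← hrj k.1 (mem_nb.2 ⟨_, ht.cyc⟩), third_eq ht.cyc]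
      have e3 : r k.1 j.1 = r k.1 i.1 * ρ := by
        rw [← hrk i.1 (mem_nb.2 ⟨_, ht.cyc.cyc⟩), third_eq ht.cyc.cyc]
      rw [e1, e2, e3]
      calc r k.1 i.1 * ρ * μ * (r j.1 k.1)⁻¹ * (r j.1 k.1 * ρ * μ * (r i.1 j.1)⁻¹)
          = r k.1 i.1 * (ρ * μ * (ρ * μ)) * (r i.1 j.1)⁻¹ := by group
        _ = r k.1 i.1 * μ * (r i.1 j.1 * ρ)⁻¹ := by rw [hrel1]; group
    · -- Tri i k j
      have e1 : r i.1 j.1 = r i.1 k.1 * ρ := by
        rw [← hri k.1 (mem_nb.2 ⟨_, ht⟩), third_eq ht]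
      have e2 : r k.1 i.1 = r k.1 j.1 * ρ := by
        rw [← hrk j.1 (mem_nb.2 ⟨_, ht.cyc⟩), third_eq ht.cyc]
      have e3 : r j.1 k.1 = r j.1 i.1 * ρ := by
        rw [← hrj i.1 (mem_nb.2 ⟨_, ht.cyc.cyc⟩), third_eq ht.cyc.cyc]
      rw [e1, e2, e3]
      calc r k.1 j.1 * μ * (r j.1 i.1 * ρ)⁻¹ * (r j.1 i.1 * μ * (r i.1 k.1 * ρ)⁻¹)
          = r k.1 j.1 * (μ * ρ⁻¹ * (μ * ρ⁻¹)) * (r i.1 k.1)⁻¹ := by group
        _ = r k.1 j.1 * ρ * μ * (r i.1 k.1)⁻¹ := by rw [hrel2]; group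
  obtain ⟨t, ht1, ht2⟩ := cech_triv W hW c hcoc hcov
  -- vertices in the region
  have h6 : ∀ v, v ∈ S → v ∈ Cone e κ → v ∈ S ∧ (nb S v).card = 6 := fun v hv hvX =>
    ⟨hv, hdeg v hv v hvX (self_mem_Star hS hv)⟩
  let T : E → G := fun v =>
    if h : (v ∈ S ∧ (nb S v).card = 6) ∧ v ∈ Cone e κ then t ⟨v, h.1⟩ ⟨v, h.2⟩ else 1
  refine ⟨fun v w => (T v)⁻¹ * r v w, ?_, ?_⟩
  · intro v w hvw hvX
    show (T v)⁻¹ * r v (third S v w) = (T v)⁻¹ * r v w * ρ
    rw [hr v (h6 v hvw.mem_left hvX) w (mem_nb.2 hvw), mul_assoc]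
  · intro v w hvw hvX hwX
    have hv6 := h6 v hvw.mem_left hvX
    have hw6 := h6 w hvw.mem_right hwX
    have hwv := Adj.symm hS hvw
    -- constancy along the segment
    have key : ∀ v w (hvw : Adj S v w) (hvX : v ∈ Cone e κ) (hwX : w ∈ Cone e κ)
        (hv6 : v ∈ S ∧ (nb S v).card = 6) (hz : v + w ∈ Cone e κ),
        t ⟨v, hv6⟩ ⟨v + w, hz⟩ = t ⟨v, hv6⟩ ⟨v, hvX⟩ := by
      intro v w hvw hvX hwX hv6 hz
      have hmem : ∀ s : unitInterval, v + (s : ℝ) • w ∈ Cone e κ := by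
        intro s
        have := Cone.comb hκ hvX hwX (s := 1) (t := s) zero_le_one s.2.1
          (by have := s.2.1; linarith)
        rwa [one_smul] at this
      have hst : ∀ s : unitInterval, v + (s : ℝ) • w ∈ Star S v := by
        intro s
        have := comb_mem_Star hvw (s := 1) (t := s) one_pos s.2.1
        rwa [one_smul] at this
      let γ : unitInterval → X := fun s => ⟨v + (s : ℝ) • w, hmem s⟩
      have hγ : Continuous γ := by
        refine Continuous.subtype_mk ?_ _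
        fun_prop
      have hloc : IsLocallyConstant (fun s => t ⟨v, hv6⟩ (γ s)) := by
        rw [IsLocallyConstant.iff_eventually_eq]
        intro s
        exact (hγ.tendsto s).eventually (ht1 ⟨v, hv6⟩ (γ s) (hst s))
      have := hloc.apply_eq_of_preconnectedSpace 1 0
      have g1 : γ 1 = ⟨v + w, hz⟩ := Subtype.ext (by simp [γ])
      have g0 : γ 0 = ⟨v, hvX⟩ := Subtype.ext (by simp [γ])
      rw [g1, g0] at this
      exact this
    have hz : v + w ∈ Cone e κ := by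
      have := Cone.comb hκ hvX hwX (s := 1) (t := 1) zero_le_one zero_le_one (by norm_num)
      rwa [one_smul, one_smul] at this
    have hz' : w + v ∈ Cone e κ := by rw [add_comm]; exact hz
    have k1 := key v w hvw hvX hwX hv6 hz
    have k2 := key w v hwv hwX hvX hw6 hz'
    have hT1 : T v = t ⟨v, hv6⟩ ⟨v, hvX⟩ := dif_pos ⟨hv6, hvX⟩
    have hT2 : T w = t ⟨w, hw6⟩ ⟨w, hwX⟩ := dif_pos ⟨hw6, hwX⟩
    have hsw : (⟨w + v, hz'⟩ : X) = ⟨v + w, hz⟩ := Subtype.ext (add_comm w v)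
    rw [hsw] at k2
    have hzv : (⟨v + w, hz⟩ : X) ∈ W ⟨v, hv6⟩ := by
      have := comb_mem_Star hvw (s := 1) (t := 1) one_pos zero_le_one
      rw [one_smul, one_smul] at this
      exact this
    have hzw : (⟨v + w, hz⟩ : X) ∈ W ⟨w, hw6⟩ := by
      have := comb_mem_Star hwv (s := 1) (t := 1) one_pos zero_le_one
      rw [one_smul, one_smul, add_comm] at this
      exact this
    have hcomp := ht2 ⟨v, hv6⟩ ⟨w, hw6⟩ ⟨v + w, hz⟩ hzv hzw
    rw [k1, k2, ← hT1, ← hT2] at hcomp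
    have hcvw : c ⟨v, hv6⟩ ⟨w, hw6⟩ = r w v * μ * (r v w)⁻¹ := if_neg hvw.ne
    rw [hcvw] at hcomp
    show (T w)⁻¹ * r w v = (T v)⁻¹ * r v w * μ
    rw [hcomp]
    calc (r w v * μ * (r v w)⁻¹ * T v)⁻¹ * r w v
        = (T v)⁻¹ * r v w * μ⁻¹ := by group
      _ = (T v)⁻¹ * r v w * μ := by rw [hμi]

end Med
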