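import Pool.Agent.Med.VolSum
import Pool.Agent.Med.VolCap
set_option autoImplicit false

open Finset MeasureTheory

namespace Med

namespace EdgeB

/-- Gram determinant -/
lemma gram (a b c : E) : det a b c ^ 2 = dot a a * dot b b * dot c c +
    2 * dot a b * dot b c * dot c a - dot a a * dot b c ^ 2 - dot b b * dot c a ^ 2 -
    dot c c * dot a b ^ 2 := by
  simp only [det, dot]; ring

lemma dot_sub_sub (a b : E) : dot (a - b) (a - b) = dot a a + dot b b - 2 * dot a b := by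
  simp [dot]; ring

/-- Weitzenboeck -/
lemma weitz {a b c : E} (ha : dot a a = 1) (hb : dot b b = 1) (hc : dot c c = 1) :
    2 * √3 * det a b c ≤ Zs a b c := by
  have g := gram a b c
  rw [ha, hb, hc] at g
  have e1 := dot_sub_sub a b
  have e2 := dot_sub_sub b c
  have e3 := dot_sub_sub c a
  rw [ha, hb] at e1
  rw [hb, hc] at e2
  rw [hc, ha] at e3
  have n1 := dot_self_nonneg (a - b)
  have n2 := dot_self_nonneg (b - c)
  have n3 := dot_self_nonneg (c - a)
  have hZ : Zs a b c = 6 - 2 * dot a b - 2 * dot b c - 2 * dot c a := by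
    unfold Zs; rw [e1, e2, e3]; ring
  have hZ0 : 0 ≤ Zs a b c := by unfold Zs; linarith
  rw [e1] at n1
  rw [e2] at n2
  rw [e3] at n3
  generalize dot a b = p at *
  generalize dot b c = q at *
  generalize dot c a = r at *
  have hP : 0 ≤ 1 - p := by linarith
  have hQ : 0 ≤ 1 - q := by linarith
  have hR : 0 ≤ 1 - r := by linarith
  have hPQR : 0 ≤ (1 - p) * (1 - q) * (1 - r) := by positivity
  have h3 : √3 ^ 2 = 3 := Real.sq_sqrt (by norm_num)
  have hsq : (2 * √3 * det a b c) ^ 2 ≤ Zs a b c ^ 2 := by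
    have : (2 * √3 * det a b c) ^ 2 = 12 * det a b c ^ 2 := by
      rw [mul_pow, mul_pow, h3]; ring
    rw [this, g, hZ]
    nlinarith [sq_nonneg (p - q), sq_nonneg (q - r), sq_nonneg (r - p)]
  exact (le_abs_self _).trans (abs_le_of_sq_le_sq hsq hZ0)

/-- facts about one dart -/
lemma dart_facts {S : Finset E} (hS : Simp S) {d : E × E} (hd : d ∈ darts S) :
    0 ≤ (volume (TetD S d)).toReal ∧
    3 * √3 / 2 * (volume (TetD S d)).toReal ^ 2 ≤
      (volume (CBD S d)).toReal - (volume (TetD S d)).toReal := by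
  have ht := third_spec (mem_darts.1 hd)
  have hdet := ht.2.2.2.1
  have ha := hS.unit _ ht.1
  have hb := hS.unit _ ht.2.1
  have hc := hS.unit _ ht.2.2.1
  have hV : (volume (TetD S d)).toReal = det d.1 d.2 (third S d.1 d.2) / 6 := by
    unfold TetD
    rw [vol_tet hdet, ENNReal.toReal_ofReal (by positivity)]
  have hC := vol_cb_lower hdet ha hb hc
  have hW := weitz ha hb hc
  unfold CBD
  rw [hV]
  generalize det d.1 d.2 (third S d.1 d.2) = D at *
  refine ⟨by positivity, ?_⟩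
  have : D / 6 * (2 * √3 * D / 8) ≤ D / 6 * (Zs d.1 d.2 (third S d.1 d.2) / 8) := by
    apply mul_le_mul_of_nonneg_left _ (by positivity)
    linarith
  nlinarith

/-- the volume bookkeeping -/
lemma volume_ineq {S : Finset E} (hS : Simp S) {n : ℕ} (hn : 1 ≤ n) (hcard : S.card = n)
    (hval : ∀ v ∈ S, (nb S v).card ≤ 6) {H : Finset (E × E)} (hH : H ⊆ darts S) {X D : ℝ}
    (hX : 3 * X ≤ ∑ d ∈ H, ((volume (CBD S d)).toReal - (volume (TetD S d)).toReal))
    (hD : D = 4 * Real.pi / 3 - (volume (convexHull ℝ (S : Set E))).toReal) :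
    3 * X ≤ 3 * D - 4 * √3 * Real.pi ^ 2 / n + 6 * √3 * Real.pi / n * D +
      2 * √3 * Real.pi / n * ∑ d ∈ H, (volume (TetD S d)).toReal := by
  have hnr : (1:ℝ) ≤ n := by exact_mod_cast hn
  have hn0 : (0:ℝ) < n := by linarith
  set T : E × E → ℝ := fun d => (volume (TetD S d)).toReal with hT
  set B : E × E → ℝ := fun d => (volume (CBD S d)).toReal with hB
  have hsumB : ∑ d ∈ darts S, B d = 4 * Real.pi := sum_CBD hS
  have hsumT : ∑ d ∈ darts S, T d = 4 * Real.pi - 3 * D := by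
    rw [hT, sum_TetD hS, hD]; ring
  set v0 : ℝ := 2 * Real.pi / (3 * n) with hv0
  have hcd : ((darts S).card : ℝ) ≤ 6 * n := by
    have : (darts S).card ≤ 6 * n := by
      rw [card_darts, ← hcard]
      calc ∑ a ∈ S, (nb S a).card ≤ ∑ _a ∈ S, 6 := Finset.sum_le_sum hval
        _ = 6 * S.card := by rw [Finset.sum_const, smul_eq_mul, mul_comm]
    exact_mod_cast this
  have hcH : (((darts S) \ H).card : ℝ) ≤ 6 * n := by
    refine le_trans ?_ hcd
    exact_mod_cast Finset.card_le_card Finset.sdiff_subset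
  have h3 : (0:ℝ) ≤ √3 := Real.sqrt_nonneg _
  have hlow : 3 * √3 / 2 * (2 * v0 * (∑ d ∈ darts S \ H, T d) - v0 ^ 2 * (6 * n)) ≤
      ∑ d ∈ darts S \ H, (B d - T d) := by
    have h4 : ∑ d ∈ darts S \ H, (3 * √3 / 2 * (2 * v0 * T d - v0 ^ 2)) ≤
        ∑ d ∈ darts S \ H, (B d - T d) := by
      apply Finset.sum_le_sum
      intro d hd
      have h5 := (dart_facts hS (Finset.mem_sdiff.1 hd).1).2
      have h6 : 2 * v0 * T d - v0 ^ 2 ≤ T d ^ 2 := by nlinarith [sq_nonneg (T d - v0)]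
      have h7 : 3 * √3 / 2 * (2 * v0 * T d - v0 ^ 2) ≤ 3 * √3 / 2 * T d ^ 2 :=
        mul_le_mul_of_nonneg_left h6 (by positivity)
      exact h7.trans h5
    refine le_trans ?_ h4
    rw [← Finset.mul_sum, Finset.sum_sub_distrib, ← Finset.mul_sum, Finset.sum_const, nsmul_eq_mul]
    apply mul_le_mul_of_nonneg_left _ (by positivity)
    have : ((darts S \ H).card : ℝ) * v0 ^ 2 ≤ (6 * n) * v0 ^ 2 :=
      mul_le_mul_of_nonneg_right hcH (by positivity)
    linarith
  have hsplit : ∑ d ∈ darts S \ H, (B d - T d) + ∑ d ∈ H, (B d - T d) =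
      ∑ d ∈ darts S, (B d - T d) := Finset.sum_sdiff hH
  have hsplitT : ∑ d ∈ darts S \ H, T d + ∑ d ∈ H, T d = ∑ d ∈ darts S, T d :=
    Finset.sum_sdiff hH
  have htot : ∑ d ∈ darts S, (B d - T d) = 3 * D := by
    rw [Finset.sum_sub_distrib, hsumB, hsumT]; ring
  have hTH : ∑ d ∈ darts S \ H, T d = 4 * Real.pi - 3 * D - ∑ d ∈ H, T d := by
    rw [← hsumT, ← hsplitT]; ring
  rw [hTH] at hlow
  have hfin : 3 * √3 / 2 * (2 * v0 * (4 * Real.pi - 3 * D - ∑ d ∈ H, T d) - v0 ^ 2 * (6 * n)) =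
      4 * √3 * Real.pi ^ 2 / n - 6 * √3 * Real.pi / n * D -
      2 * √3 * Real.pi / n * ∑ d ∈ H, T d := by
    rw [hv0]; field_simp; ring
  rw [hfin] at hlow
  linarith

lemma norm_one_of_dot {a : E} (h : dot a a = 1) : ‖a‖ = 1 := by
  rw [dot_self] at h
  nlinarith [norm_nonneg a]

lemma dot_le_norm (a b : E) : dot a b ≤ ‖a‖ * ‖b‖ := by
  rw [← inner_eq]; exact real_inner_le_norm a b

lemma norm_sub_sq' (a b : E) : ‖a - b‖ ^ 2 = ‖a‖ ^ 2 + ‖b‖ ^ 2 - 2 * dot a b := by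
  rw [← dot_self, dot_sub_sub, dot_self, dot_self]

/-- a unit vector with large inner product is near -/
lemma near_of_dot {a b : E} (ha : ‖a‖ = 1) (hb : ‖b‖ = 1) {h : ℝ} (hab : h ≤ dot a b) :
    ‖a - b‖ ≤ √(2 * (1 - h)) := by
  apply Real.le_sqrt_of_sq_le
  rw [norm_sub_sq', ha, hb]
  linarith

/-- the norm of a point of the cone -/
lemma norm_cone_le {a b c : E} (ha : ‖a‖ = 1) (hb : ‖b‖ = 1) (hc : ‖c‖ = 1) {α β γ : ℝ}
    (h1 : 0 ≤ α) (h2 : 0 ≤ β) (h3 : 0 ≤ γ) : ‖α • a + β • b + γ • c‖ ≤ α + β + γ := by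
  calc ‖α • a + β • b + γ • c‖ ≤ ‖α • a‖ + ‖β • b‖ + ‖γ • c‖ := norm_add₃_le
    _ = α + β + γ := by
      rw [norm_smul, norm_smul, norm_smul, ha, hb, hc, Real.norm_of_nonneg h1,
        Real.norm_of_nonneg h2, Real.norm_of_nonneg h3]; ring

/-- the unit normal of a facet -/
lemma unit_normal {m a : E} (ha : ‖a‖ = 1) (hm : dot m a = 1) :
    1 ≤ ‖m‖ ∧ ‖(1 / ‖m‖) • m‖ = 1 ∧ ∀ p, dot ((1 / ‖m‖) • m) p = 1 / ‖m‖ * dot m p := by
  have h1 : 1 ≤ ‖m‖ := by
    have := dot_le_norm m a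
    rw [hm, ha, mul_one] at this; exact this
  refine ⟨h1, ?_, fun p => smul_dot _ _ _⟩
  rw [norm_smul, Real.norm_of_nonneg (by positivity)]
  field_simp

/-- a facet whose cone meets the cap is near the centre of the cap -/
lemma near_facet {ν : E} (hν : ‖ν‖ = 1) {h : ℝ} (h0 : 0 ≤ h) {a b c m : E} (ha : ‖a‖ = 1)
    (hb : ‖b‖ = 1) (hc : ‖c‖ = 1) (m1 : dot m a = 1) (m2 : dot m b = 1) (m3 : dot m c = 1)
    (hmh : h ≤ 1 / ‖m‖) {z : E} (hz : InC a b c z) (hz1 : dot z z ≤ 1) (hz2 : h < dot ν z)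
    {p : E} (hp : ‖p‖ = 1) (hmp : dot m p = 1) :
    1 - 9 * (1 - h) ≤ dot ν p := by
  obtain ⟨hm1, hm2, hm3⟩ := unit_normal ha m1
  set μ : E := (1 / ‖m‖) • m with hμ
  have hzpos : 0 < ‖z‖ := by
    rw [norm_pos_iff]
    rintro rfl
    rw [dot_zero] at hz2
    linarith
  have hz1' : ‖z‖ ≤ 1 := by
    rw [dot_self] at hz1
    nlinarith [norm_nonneg z]
  set w : E := (1 / ‖z‖) • z with hw
  have hw1 : ‖w‖ = 1 := by
    rw [hw, norm_smul, Real.norm_of_nonneg (by positivity)]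
    field_simp
  have e1 : h ≤ dot ν w := by
    rw [hw, dot_smul]
    have : 1 ≤ 1 / ‖z‖ := by rw [le_div_iff₀ hzpos]; linarith
    nlinarith
  have e2 : h ≤ dot μ w := by
    obtain ⟨α, β, γ, h1, h2, h3, he⟩ := hz
    have hn := norm_cone_le ha hb hc h1 h2 h3
    rw [← he] at hn
    have hmz : dot m z = α + β + γ := by
      rw [he, dot_add, dot_add, dot_smul, dot_smul, dot_smul, m1, m2, m3]; ring
    rw [hw, dot_smul, hμ, smul_dot, hmz]
    have : 1 ≤ 1 / ‖z‖ * (α + β + γ) := by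
      rw [div_mul_eq_mul_div, one_mul, le_div_iff₀ hzpos]; linarith
    have hpos : 0 ≤ 1 / ‖m‖ := by positivity
    nlinarith
  have e3 : h ≤ dot μ p := by
    rw [hμ, smul_dot, hmp, mul_one]; exact hmh
  have n1 := near_of_dot hν hw1 e1
  have n2 := near_of_dot hm2 hw1 e2
  have n3 := near_of_dot hm2 hp e3
  have n4 : ‖ν - p‖ ≤ 3 * √(2 * (1 - h)) := by
    calc ‖ν - p‖ = ‖(ν - w) + (w - μ) + (μ - p)‖ := by congr 1; abel
      _ ≤ ‖ν - w‖ + ‖w - μ‖ + ‖μ - p‖ := norm_add₃_le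
      _ ≤ 3 * √(2 * (1 - h)) := by
        rw [norm_sub_rev w μ]; linarith
  have hx : 0 ≤ 1 - h := by
    have := dot_le_norm ν w
    rw [hν, hw1] at this; linarith
  have n5 : ‖ν - p‖ ^ 2 ≤ 18 * (1 - h) := by
    have h6 : (3 * √(2 * (1 - h))) ^ 2 = 18 * (1 - h) := by
      rw [mul_pow, Real.sq_sqrt (by positivity)]; ring
    rw [← h6]
    exact pow_le_pow_left₀ (norm_nonneg _) n4 2
  rw [norm_sub_sq', hν, hp] at n5
  linarith

/-- the tetrahedron over a near facet lies in a sector -/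
lemma tet_sector {S : Finset E} (hS : Simp S) {d : E × E} (hd : d ∈ darts S) {ν : E} {k : ℝ}
    (hk : 0 ≤ k) (h1 : k ≤ dot ν d.1) (h2 : k ≤ dot ν d.2) (h3 : k ≤ dot ν (third S d.1 d.2)) :
    TetD S d ⊆ {x : E | dot x x ≤ 1 ∧ k * ‖x‖ ≤ dot ν x} := by
  have ht := third_spec (mem_darts.1 hd)
  have ha := norm_one_of_dot (hS.unit _ ht.1)
  have hb := norm_one_of_dot (hS.unit _ ht.2.1)
  have hc := norm_one_of_dot (hS.unit _ ht.2.2.1)
  rintro z ⟨α, β, γ, g1, g2, g3, g4, he⟩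
  have hn := norm_cone_le ha hb hc g1 g2 g3
  refine ⟨?_, ?_⟩
  · rw [dot_self, he]
    have := norm_nonneg (α • d.1 + β • d.2 + γ • third S d.1 d.2)
    nlinarith
  · rw [he, dot_add, dot_add, dot_smul, dot_smul, dot_smul]
    nlinarith

/-- the deepest cap controls the edges -/
lemma cap_bound {S : Finset E} (hS : Simp S) {n : ℕ} (hn : 1 ≤ n) (hcard : S.card = n)
    (hval : ∀ v ∈ S, (nb S v).card ≤ 6) {D : ℝ}
    (hD : D = 4 * Real.pi / 3 - (volume (convexHull ℝ (S : Set E))).toReal)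
    {v w : E} (hvw : Adj S v w) :
    ∃ x : ℝ, 0 ≤ x ∧ ‖v - w‖ ≤ 2 * √(2 * x) ∧
      2 * Real.pi * x ^ 2 ≤ 3 * D - 4 * √3 * Real.pi ^ 2 / n + 6 * √3 * Real.pi / n * D +
        2 * √3 * Real.pi / n * (36 * Real.pi * x) := by
  classical
  have hex : ∀ d ∈ darts S, ∃ m : E, dot m d.1 = 1 ∧ dot m d.2 = 1 ∧
      dot m (third S d.1 d.2) = 1 ∧ ∀ p ∈ S, dot m p ≤ 1 := fun d hd =>
    (third_spec (mem_darts.1 hd)).exists_dual
  choose! m m1 m2 m3 m4 using hex
  obtain ⟨d0, hd0, hmax⟩ := Finset.exists_max_image (darts S) (fun d => ‖m d‖)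
    ⟨(v, w), mem_darts.2 hvw⟩
  have hunit : ∀ d ∈ darts S, ‖d.1‖ = 1 ∧ ‖d.2‖ = 1 ∧ ‖third S d.1 d.2‖ = 1 := by
    intro d hd
    have ht := third_spec (mem_darts.1 hd)
    exact ⟨norm_one_of_dot (hS.unit _ ht.1), norm_one_of_dot (hS.unit _ ht.2.1),
      norm_one_of_dot (hS.unit _ ht.2.2.1)⟩
  obtain ⟨hm1, hm2, hm3⟩ := unit_normal (hunit d0 hd0).1 (m1 d0 hd0)
  set ν : E := (1 / ‖m d0‖) • m d0 with hν
  set h : ℝ := 1 / ‖m d0‖ with hh
  have h0 : 0 ≤ h := by positivity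
  have h1 : h ≤ 1 := by rw [hh, div_le_one (by linarith)]; exact hm1
  have hle : ∀ d ∈ darts S, h ≤ 1 / ‖m d‖ := by
    intro d hd
    have g1 := (unit_normal (hunit d hd).1 (m1 d hd)).1
    rw [hh]
    exact one_div_le_one_div_of_le (by linarith) (hmax d hd)
  refine ⟨1 - h, by linarith, ?_, ?_⟩
  · -- edges
    have hd : (v, w) ∈ darts S := mem_darts.2 hvw
    obtain ⟨g1, g2, g3⟩ := unit_normal (hunit _ hd).1 (m1 _ hd)
    have hu := hunit _ hd
    have k1 := m1 _ hd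
    have k2 := m2 _ hd
    have k3 := hle _ hd
    set μ : E := (1 / ‖m (v, w)‖) • m (v, w) with hμ
    have e1 : h ≤ dot μ v := by
      rw [g3]
      have : dot (m (v, w)) v = 1 := k1
      rw [this, mul_one]; exact k3
    have e2 : h ≤ dot μ w := by
      rw [g3]
      have : dot (m (v, w)) w = 1 := k2
      rw [this, mul_one]; exact k3
    have n1 := near_of_dot g2 hu.1 e1
    have n2 := near_of_dot g2 hu.2.1 e2
    calc ‖v - w‖ = ‖(μ - w) - (μ - v)‖ := by congr 1; abel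
      _ ≤ ‖μ - w‖ + ‖μ - v‖ := norm_sub_le _ _
      _ ≤ 2 * √(2 * (1 - h)) := by
        have n1' : ‖μ - v‖ ≤ √(2 * (1 - h)) := n1
        have n2' : ‖μ - w‖ ≤ √(2 * (1 - h)) := n2
        linarith
  · -- the cap
    set K : Set E := {z : E | dot z z ≤ 1 ∧ h < dot ν z} with hK
    set H : Finset (E × E) := (darts S).filter
      (fun d => ∃ z ∈ K, InC d.1 d.2 (third S d.1 d.2) z) with hH
    have hHs : H ⊆ darts S := Finset.filter_subset _ _
    have hdν : dot ν ν = 1 := by rw [dot_self, hm2]; norm_num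
    have hKm : MeasurableSet K := by
      have a1 : MeasurableSet {z : E | dot z z ≤ 1} := by
        rw [ball_eq]; exact Metric.isClosed_closedBall.measurableSet
      have a2 : MeasurableSet {z : E | h < dot ν z} :=
        (isOpen_lt continuous_const (continuous_dot ν)).measurableSet
      exact a1.inter a2
    have hmiss : ∀ z ∈ K, z ∉ convexHull ℝ (S : Set E) := by
      rintro z ⟨-, hz⟩ hz'
      have g := inner_mem hz' (m4 d0 hd0)
      rw [hm3] at hz
      have : h * dot (m d0) z ≤ h * 1 := mul_le_mul_of_nonneg_left g h0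
      linarith
    have hhole := hole_le hS hHs hKm (fun z hz => hz.1) hmiss (fun z hz d hd hc =>
      Finset.mem_filter.2 ⟨hd, z, hz, hc⟩)
    have hvol : (volume K).toReal = Real.pi / 3 * (1 - h) ^ 2 * (2 + h) := by
      rw [hK, vol_cap hdν h0 h1, ENNReal.toReal_ofReal]
      have : 0 ≤ 2 + h := by linarith
      have := Real.pi_pos
      positivity
    have hTH : ∑ d ∈ H, (volume (TetD S d)).toReal ≤ 36 * Real.pi * (1 - h) := by
      rcases le_or_gt (9 * (1 - h)) 1 with hx | hx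
      · have hk0 : 0 ≤ 1 - 9 * (1 - h) := by linarith
        have hk1 : 1 - 9 * (1 - h) ≤ 1 := by linarith
        have hsec := vol_sector hdν hk0 hk1
        have hsm : MeasurableSet {x : E | dot x x ≤ 1 ∧ (1 - 9 * (1 - h)) * ‖x‖ ≤ dot ν x} := by
          have a1 : MeasurableSet {z : E | dot z z ≤ 1} := by
            rw [ball_eq]; exact Metric.isClosed_closedBall.measurableSet
          have a2 : MeasurableSet {x : E | (1 - 9 * (1 - h)) * ‖x‖ ≤ dot ν x} :=
            (isClosed_le (continuous_const.mul continuous_norm) (continuous_dot ν)).measurableSet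
          exact a1.inter a2
        have hsf : volume {x : E | dot x x ≤ 1 ∧ (1 - 9 * (1 - h)) * ‖x‖ ≤ dot ν x} ≠ ⊤ := by
          rw [hsec]; exact ENNReal.ofReal_ne_top
        have hsum := sum_TetD_le hS hHs hsm hsf (fun d hd => by
          obtain ⟨hd1, z, hzK, hz⟩ := Finset.mem_filter.1 hd
          have hu := hunit d hd1
          have key := fun p (hp : ‖p‖ = 1) (hmp : dot (m d) p = 1) =>
            near_facet hm2 h0 hu.1 hu.2.1 hu.2.2 (m1 d hd1) (m2 d hd1) (m3 d hd1) (hle d hd1) hz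
              hzK.1 hzK.2 hp hmp
          exact tet_sector hS hd1 hk0 (key _ hu.1 (m1 d hd1)) (key _ hu.2.1 (m2 d hd1))
            (key _ hu.2.2 (m3 d hd1)))
        rw [hsec, ENNReal.toReal_ofReal (by
          have := Real.pi_pos
          have h5 : 0 ≤ 1 - (1 - 9 * (1 - h)) := by linarith
          positivity)] at hsum
        have := Real.pi_pos
        nlinarith
      · have hbf : volume {z : E | dot z z ≤ 1} ≠ ⊤ := by
          rw [vol_ball]; exact ENNReal.ofReal_ne_top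
        have hbm : MeasurableSet {z : E | dot z z ≤ 1} := by
          rw [ball_eq]; exact Metric.isClosed_closedBall.measurableSet
        have hsum := sum_TetD_le hS hHs hbm hbf (fun d hd => by
          rw [TetD_eq hS (hHs hd)]
          exact Set.inter_subset_right.trans (hull_ball hS))
        rw [vol_ball, ENNReal.toReal_ofReal (by positivity)] at hsum
        have := Real.pi_pos
        nlinarith
    have hmain := volume_ineq hS hn hcard hval hHs hhole hD
    have hn0 : (0:ℝ) < n := by exact_mod_cast hn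
    have hcoef : 0 ≤ 2 * √3 * Real.pi / n := by positivity
    have hmul := mul_le_mul_of_nonneg_left hTH hcoef
    have hfirst : 2 * Real.pi * (1 - h) ^ 2 ≤ 3 * (volume K).toReal := by
      rw [hvol]
      have hp := Real.pi_pos
      have : 0 ≤ Real.pi * (1 - h) ^ 2 * h := by positivity
      nlinarith
    linarith

end EdgeB

open EdgeB in
/-- near optimal polyhedra have short edges -/
theorem edge_bound (C : ℝ) :
    ∃ (K : ℝ) (N : ℕ), ∀ n : ℕ, N ≤ n → ∀ S : Finset E, Simp S → S.card = n →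
      (∀ v ∈ S, (nb S v).card = 5 ∨ (nb S v).card = 6) →
      4 * Real.pi / 3 - (volume (convexHull ℝ (S : Set E))).toReal ≤
        4 * √3 * Real.pi ^ 2 / 3 / n * (1 + C * (n : ℝ) ^ (-(1 / 4) : ℝ)) →
      ∀ v w, Adj S v w → ‖v - w‖ ≤ K * (n : ℝ) ^ (-(5 / 16) : ℝ) := by
  obtain ⟨c, hc⟩ : ∃ c : ℝ, c = 4 * √3 * Real.pi ^ 2 / 3 := ⟨_, rfl⟩
  have hpi := Real.pi_pos
  have hpi1 : 1 ≤ Real.pi := by linarith [Real.pi_gt_three]
  have hc0 : 0 ≤ c := by rw [hc]; positivity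
  obtain ⟨A, hA⟩ : ∃ A : ℝ, A = 3 * c * |C| + 6 * √3 * Real.pi * (c * (1 + |C|)) := ⟨_, rfl⟩
  obtain ⟨B, hB⟩ : ∃ B : ℝ, B = 72 * √3 * Real.pi ^ 2 := ⟨_, rfl⟩
  have hA0 : 0 ≤ A := by rw [hA]; positivity
  have hB0 : 0 ≤ B := by rw [hB]; positivity
  refine ⟨2 * √(2 * √(A + B ^ 2)), 1, fun n hn S hS hcard hval hdef v w hvw => ?_⟩
  have hn1 : (1:ℝ) ≤ n := by exact_mod_cast hn
  have hn0 : (0:ℝ) < n := by linarith
  obtain ⟨x, hx0, hx1, hx2⟩ := cap_bound hS hn hcard (fun v hv => by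
    rcases hval v hv with h | h <;> omega) rfl hvw
  rw [← hc] at hdef
  set D : ℝ := 4 * Real.pi / 3 - (volume (convexHull ℝ (S : Set E))).toReal with hDdef
  obtain ⟨u, hu⟩ : ∃ u : ℝ, u = 1 / (n:ℝ) := ⟨_, rfl⟩
  obtain ⟨s, hs⟩ : ∃ s : ℝ, s = (n : ℝ) ^ (-(1 / 4) : ℝ) := ⟨_, rfl⟩
  obtain ⟨t, ht⟩ : ∃ t : ℝ, t = (n : ℝ) ^ (-(5 / 16) : ℝ) := ⟨_, rfl⟩
  rw [← hs] at hdef
  rw [← ht]
  have hu0 : 0 < u := by rw [hu]; positivity
  have hs0 : 0 < s := by rw [hs]; positivity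
  have ht0 : 0 < t := by rw [ht]; positivity
  have hs1 : s ≤ 1 := by
    rw [hs]; exact Real.rpow_le_one_of_one_le_of_nonpos hn1 (by norm_num)
  have hu' : u = (n:ℝ) ^ (-1 : ℝ) := by rw [hu, Real.rpow_neg_one, one_div]
  have ht4 : t ^ 4 = u * s := by
    rw [ht, hu', hs, ← Real.rpow_natCast, ← Real.rpow_mul hn0.le, ← Real.rpow_add hn0]
    norm_num
  have hus : u ≤ s := by
    rw [hu', hs]
    exact Real.rpow_le_rpow_of_exponent_le hn1 (by norm_num)
  have hdef1 : D ≤ c * u * (1 + |C| * s) := by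
    have e1 : c / n * (1 + C * s) ≤ c * u * (1 + |C| * s) := by
      have : c / n = c * u := by rw [hu]; ring
      rw [this]
      apply mul_le_mul_of_nonneg_left _ (by positivity)
      have := mul_le_mul_of_nonneg_right (le_abs_self C) hs0.le
      linarith
    exact hdef.trans e1
  have hdef2 : D ≤ u * (c * (1 + |C|)) := by
    have e1 : c * u * (1 + |C| * s) ≤ c * u * (1 + |C|) := by
      apply mul_le_mul_of_nonneg_left _ (by positivity)
      nlinarith [abs_nonneg C]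
    linarith
  have e2 : 4 * √3 * Real.pi ^ 2 / n = 3 * (c * u) := by rw [hc, hu]; ring
  have e3 : 6 * √3 * Real.pi / n * D ≤ 6 * √3 * Real.pi * (c * (1 + |C|)) * (u * u) := by
    have : 6 * √3 * Real.pi / n * D = 6 * √3 * Real.pi * u * D := by rw [hu]; ring
    rw [this]
    have h5 : 0 ≤ 6 * √3 * Real.pi * u := by positivity
    have h6 := mul_le_mul_of_nonneg_left hdef2 h5
    calc _ ≤ _ := h6
      _ = _ := by ring
  have e4 : 2 * √3 * Real.pi / n * (36 * Real.pi * x) = B * u * x := by rw [hB, hu]; ring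
  rw [e2, e4] at hx2
  have e5 : u * u ≤ u * s := mul_le_mul_of_nonneg_left hus hu0.le
  have e6 : B * u * x ≤ B ^ 2 * (u * u) + x ^ 2 := by nlinarith [sq_nonneg (B * u - x), sq_nonneg x, sq_nonneg (B * u)]
  have e7 : 2 * x ^ 2 ≤ 2 * Real.pi * x ^ 2 := by nlinarith [sq_nonneg x]
  have e8 : x ^ 2 ≤ (A + B ^ 2) * t ^ 4 := by
    rw [ht4]
    have e9 : 6 * √3 * Real.pi * (c * (1 + |C|)) * (u * u) ≤
        6 * √3 * Real.pi * (c * (1 + |C|)) * (u * s) :=
      mul_le_mul_of_nonneg_left e5 (by positivity)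
    have e10 : B ^ 2 * (u * u) ≤ B ^ 2 * (u * s) :=
      mul_le_mul_of_nonneg_left e5 (by positivity)
    have e11 : 3 * D ≤ 3 * (c * u) + 3 * c * |C| * (u * s) := by
      calc 3 * D ≤ 3 * (c * u * (1 + |C| * s)) := by linarith
        _ = _ := by ring
    rw [hA]
    have e12 : (3 * c * |C| + 6 * √3 * Real.pi * (c * (1 + |C|)) + B ^ 2) * (u * s) =
      3 * c * |C| * (u * s) + 6 * √3 * Real.pi * (c * (1 + |C|)) * (u * s) + B ^ 2 * (u * s) := by
      ring
    rw [e12]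
    linarith
  have e9 : x ≤ √(A + B ^ 2) * t ^ 2 := by
    apply le_of_sq_le_sq _ (by positivity)
    rw [mul_pow, Real.sq_sqrt (by positivity)]
    calc x ^ 2 ≤ _ := e8
      _ = _ := by ring
  calc ‖v - w‖ ≤ 2 * √(2 * x) := hx1
    _ ≤ 2 * √(2 * (√(A + B ^ 2) * t ^ 2)) := by
      apply mul_le_mul_of_nonneg_left _ (by norm_num)
      apply Real.sqrt_le_sqrt
      linarith
    _ = 2 * √(2 * √(A + B ^ 2)) * t := by
      rw [show 2 * (√(A + B ^ 2) * t ^ 2) = (2 * √(A + B ^ 2)) * t ^ 2 by ring,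
        Real.sqrt_mul (by positivity), Real.sqrt_sq ht0.le]
      ring

end Med

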