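import Pool.Agent.Med.Orbit

set_option autoImplicit false

open Finset

namespace Med

/-- the darts -/
noncomputable def darts (S : Finset E) : Finset (E × E) :=
  open Classical in (S ×ˢ S).filter (fun d => Adj S d.1 d.2)

lemma mem_darts {S : Finset E} {d : E × E} : d ∈ darts S ↔ Adj S d.1 d.2 := by
  classical
  simp only [darts, Finset.mem_filter, Finset.mem_product]
  exact ⟨fun h => h.2, fun h => ⟨⟨h.mem_left, h.mem_right⟩, h⟩⟩

/-- rotate around the source -/
noncomputable def rot (S : Finset E) (d : E × E) : E × E := (d.1, third S d.1 d.2)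

/-- reverse -/
def rev (d : E × E) : E × E := (d.2, d.1)

/-- next dart of the facet on the left -/
noncomputable def nxt (S : Finset E) (d : E × E) : E × E := (d.2, third S d.1 d.2)

lemma rot_mem {S : Finset E} (hS : Simp S) {d : E × E} (h : d ∈ darts S) : rot S d ∈ darts S :=
  mem_darts.2 (adj_third hS (mem_darts.1 h))

lemma rev_mem {S : Finset E} (hS : Simp S) {d : E × E} (h : d ∈ darts S) : rev d ∈ darts S :=
  mem_darts.2 (Adj.symm hS (mem_darts.1 h))

lemma nxt_mem {S : Finset E} {d : E × E} (h : d ∈ darts S) : nxt S d ∈ darts S :=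
  mem_darts.2 ⟨d.1, (third_spec (mem_darts.1 h)).cyc⟩

lemma nxt_nxt {S : Finset E} {d : E × E} (h : d ∈ darts S) :
    nxt S (nxt S d) = (third S d.1 d.2, d.1) := by
  have := third_eq (third_spec (mem_darts.1 h)).cyc
  simp only [nxt, this]

lemma nxt_nxt_nxt {S : Finset E} {d : E × E} (h : d ∈ darts S) :
    nxt S (nxt S (nxt S d)) = d := by
  rw [nxt_nxt h]
  have := third_eq (third_spec (mem_darts.1 h)).cyc.cyc
  simp only [nxt, this]

lemma rot_injOn {S : Finset E} : Set.InjOn (rot S) (darts S : Set (E × E)) := by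
  rintro ⟨a, b⟩ hd ⟨a', b'⟩ hd' he
  have h0 : ((a, third S a b) : E × E) = (a', third S a' b') := he
  have h1 : a = a' := congrArg Prod.fst h0
  have h2 : third S a b = third S a' b' := congrArg Prod.snd h0
  subst h1
  have h3 : Adj S a b := mem_darts.1 hd
  have h4 : Adj S a b' := mem_darts.1 hd'
  rw [third_injOn h3 h4 h2]

lemma rev_injOn {S : Finset E} : Set.InjOn rev (darts S : Set (E × E)) := by
  intro d _ d' _ he
  have h1 : d.2 = d'.2 := congrArg Prod.fst he
  have h2 : d.1 = d'.1 := congrArg Prod.snd he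
  exact Prod.ext h2 h1

lemma nxt_injOn {S : Finset E} : Set.InjOn (nxt S) (darts S) := by
  intro d hd d' hd' he
  rw [← nxt_nxt_nxt hd, ← nxt_nxt_nxt hd', he]

lemma image_rot {S : Finset E} [DecidableEq (E × E)] (hS : Simp S) :
    (darts S).image (rot S) = darts S := by
  apply Finset.eq_of_subset_of_card_le
  · intro x hx
    obtain ⟨b, hb, rfl⟩ := Finset.mem_image.1 hx
    exact rot_mem hS hb
  · rw [Finset.card_image_of_injOn rot_injOn]

lemma image_rev {S : Finset E} [DecidableEq (E × E)] (hS : Simp S) :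
    (darts S).image rev = darts S := by
  apply Finset.eq_of_subset_of_card_le
  · intro x hx
    obtain ⟨b, hb, rfl⟩ := Finset.mem_image.1 hx
    exact rev_mem hS hb
  · rw [Finset.card_image_of_injOn rev_injOn]

lemma image_nxt {S : Finset E} [DecidableEq (E × E)] :
    (darts S).image (nxt S) = darts S := by
  apply Finset.eq_of_subset_of_card_le
  · intro x hx
    obtain ⟨b, hb, rfl⟩ := Finset.mem_image.1 hx
    exact nxt_mem hb
  · rw [Finset.card_image_of_injOn nxt_injOn]

lemma sum_rot {S : Finset E} (hS : Simp S) (f : E × E → ℝ) :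
    ∑ d ∈ darts S, f (rot S d) = ∑ d ∈ darts S, f d := by
  classical
  conv_rhs => rw [← image_rot hS]
  rw [Finset.sum_image rot_injOn]

lemma sum_rev {S : Finset E} (hS : Simp S) (f : E × E → ℝ) :
    ∑ d ∈ darts S, f (rev d) = ∑ d ∈ darts S, f d := by
  classical
  conv_rhs => rw [← image_rev hS]
  rw [Finset.sum_image rev_injOn]

lemma sum_nxt {S : Finset E} (f : E × E → ℝ) :
    ∑ d ∈ darts S, f (nxt S d) = ∑ d ∈ darts S, f d := by
  classical
  conv_rhs => rw [← image_nxt (S := S)]
  rw [Finset.sum_image nxt_injOn]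

lemma card_darts (S : Finset E) : (darts S).card = ∑ a ∈ S, (nb S a).card := by
  classical
  rw [Finset.card_eq_sum_card_fiberwise (f := fun d : E × E => d.1) (t := S)
    (fun d hd => (mem_darts.1 hd).mem_left)]
  refine Finset.sum_congr rfl fun a _ => ?_
  refine Finset.card_bij' (fun d _ => d.2) (fun b _ => (a, b)) ?_ ?_ ?_ ?_
  · intro d hd
    obtain ⟨h1, h2⟩ := Finset.mem_filter.1 hd
    rw [mem_nb, ← h2]; exact mem_darts.1 h1
  · intro b hb
    exact Finset.mem_filter.2 ⟨mem_darts.2 (mem_nb.1 hb), rfl⟩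
  · intro d hd
    obtain ⟨h1, h2⟩ := Finset.mem_filter.1 hd
    exact Prod.ext h2.symm rfl
  · intro b _
    rfl

/-- a local maximum among the neighbours is a global maximum -/
lemma local_max {S : Finset E} (hS : Simp S) {a : E} (ha : a ∈ S) (y : E)
    (hloc : ∀ b ∈ nb S a, dot y b < dot y a) : ∀ p ∈ S, dot y p ≤ dot y a := by
  -- first the value at `a` is positive
  have hpos : 0 < dot y a := by
    obtain ⟨b, hb⟩ := nb_nonempty hS ha
    have hbA := mem_nb.1 hb
    have hb1 : b ∈ S := hbA.mem_right
    obtain ⟨b', hb', l, β, γ, h1, h2, h3, -⟩ := sec_cover hS ha (-b)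
    have hbA' := mem_nb.1 hb'
    set c' := third S a b' with hc'
    have hcA' : Adj S a c' := adj_third hS hbA'
    have u := hS.unit
    have d1 := dot_lt_one (u a ha) (u b hb1) hbA.ne.symm
    have d2 := dot_lt_one (u a ha) (u b' hbA'.mem_right) hbA'.ne.symm
    have d3 := dot_lt_one (u a ha) (u c' hcA'.mem_right) hcA'.ne.symm
    have e1 : dot a (-b) = l + β * dot a b' + γ * dot a c' := by
      rw [h3, dot_add, dot_add, dot_smul, dot_smul, dot_smul, u a ha]; ring
    rw [dot_neg] at e1
    have e2 : dot y (-b) = l * dot y a + β * dot y b' + γ * dot y c' := by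
      rw [h3, dot_add, dot_add, dot_smul, dot_smul, dot_smul]
    rw [dot_neg] at e2
    have f1 := hloc b hb
    have f2 := hloc b' hb'
    have f3 := hloc c' (mem_nb.2 hcA')
    -- Λ = l + 1 + β + γ > 0
    have hL : 0 < l + 1 + β + γ := by nlinarith
    have : 0 < (l + 1 + β + γ) * dot y a := by nlinarith
    exact (pos_iff_pos_of_mul_pos this).1 hL
  intro p hp
  obtain ⟨b, hb, l, β, γ, h1, h2, h3, -⟩ := sec_cover hS ha p
  have hbA := mem_nb.1 hb
  have ht := third_spec hbA
  obtain ⟨m, m1, m2, m3, m4⟩ := ht.exists_dual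
  have e1 : dot m p = l + β + γ := by
    rw [h3, dot_add, dot_add, dot_smul, dot_smul, dot_smul, m1, m2, m3]; ring
  have e2 := m4 p hp
  have f1 := hloc b hb
  have f2 := hloc _ (mem_nb.2 (adj_third hS hbA))
  rw [h3, dot_add, dot_add, dot_smul, dot_smul, dot_smul]
  nlinarith

/-- a generic linear functional -/
lemma exists_generic (S : Finset E) :
    ∃ y : E, ∀ p ∈ S, ∀ q ∈ S, p ≠ q → dot y p ≠ dot y q := by
  classical
  -- moment curve
  set bad : Set ℝ := ⋃ pq ∈ (S ×ˢ S).filter (fun pq => pq.1 ≠ pq.2),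
    {t : ℝ | dot (!₂[1, t, t ^ 2] : E) (pq.1 - pq.2) = 0} with hbad
  have hfin : bad.Finite := by
    refine Set.Finite.biUnion (Finset.finite_toSet _) ?_
    rintro ⟨p, q⟩ hpq
    have hne : p ≠ q := by simpa using (Finset.mem_filter.1 hpq).2
    set v := p - q with hv
    have hv0 : v ≠ 0 := sub_ne_zero.2 hne
    set P : Polynomial ℝ := Polynomial.C (v 0) + Polynomial.C (v 1) * Polynomial.X +
      Polynomial.C (v 2) * Polynomial.X ^ 2 with hP
    have hP0 : P ≠ 0 := by
      intro h0
      apply hv0
      have c0 := congrArg (fun Q => Polynomial.coeff Q 0) h0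
      have c1 := congrArg (fun Q => Polynomial.coeff Q 1) h0
      have c2 := congrArg (fun Q => Polynomial.coeff Q 2) h0
      simp [hP, Polynomial.coeff_X, Polynomial.coeff_C, Polynomial.coeff_X_pow] at c0 c1 c2
      exact ext3 c0 c1 c2
    refine (P.roots.toFinset.finite_toSet).subset ?_
    intro t ht
    have ht' : dot (!₂[1, t, t ^ 2] : E) v = 0 := ht
    simp only [Finset.mem_coe, Multiset.mem_toFinset]
    rw [Polynomial.mem_roots hP0, Polynomial.IsRoot, hP]
    simp [dot] at ht'
    simp
    linarith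
  obtain ⟨t, ht⟩ := hfin.infinite_compl.nonempty
  refine ⟨!₂[1, t, t ^ 2], fun p hp q hq hne he => ht ?_⟩
  refine Set.mem_biUnion (x := (p, q)) ?_ ?_
  · simp [hp, hq, hne]
  · show dot (!₂[1, t, t ^ 2] : E) (p - q) = 0
    rw [dot_sub, he, sub_self]

/-- Euler's inequality -/
theorem euler {S : Finset E} (hS : Simp S) : 6 * S.card ≤ (darts S).card + 12 := by
  classical
  obtain ⟨y, hy⟩ := exists_generic S
  set Mid : E × E → Prop := fun d =>
    (dot y d.2 < dot y d.1 ∧ dot y d.1 < dot y (third S d.1 d.2)) ∨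
    (dot y (third S d.1 d.2) < dot y d.1 ∧ dot y d.1 < dot y d.2) with hMid
  -- exactly one corner of a facet is the middle one
  have hone : ∀ d ∈ darts S, (if Mid d then (1 : ℝ) else 0) + (if Mid (nxt S d) then 1 else 0) +
      (if Mid (nxt S (nxt S d)) then 1 else 0) = 1 := by
    intro d hd
    have ht := third_spec (mem_darts.1 hd)
    have n1 := nxt_nxt hd
    obtain ⟨a, b⟩ := d
    simp only at ht n1
    set c := third S a b with hc
    have t1 : third S b c = a := third_eq ht.cyc
    have t2 : third S c a = b := third_eq ht.cyc.cyc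
    have nn : nxt S (a, b) = (b, c) := rfl
    rw [nn] at n1 ⊢
    rw [n1]
    simp only [hMid]
    rw [← hc, t1, t2]
    have g1 := hy a ht.1 b ht.2.1 ht.ne_ab
    have g2 := hy b ht.2.1 c ht.2.2.1 ht.ne_bc
    have g3 := hy a ht.1 c ht.2.2.1 ht.ne_ac
    rcases lt_or_gt_of_ne g1 with g1 | g1 <;> rcases lt_or_gt_of_ne g2 with g2 | g2 <;>
      rcases lt_or_gt_of_ne g3 with g3 | g3 <;>
      first
      | (exfalso; linarith)
      | (simp only [g1, g2, g3, g1.not_gt, g2.not_gt, g3.not_gt, and_true, true_and, and_false,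
          false_and, or_false, false_or, if_true, if_false, or_self, and_self]; norm_num)
  have hsum : ((darts S).card : ℝ) = 3 * ∑ d ∈ darts S, (if Mid d then (1 : ℝ) else 0) := by
    have h1 : ∑ d ∈ darts S, ((if Mid d then (1 : ℝ) else 0) +
        (if Mid (nxt S d) then 1 else 0) + (if Mid (nxt S (nxt S d)) then 1 else 0)) =
        ∑ d ∈ darts S, (1 : ℝ) := Finset.sum_congr rfl hone
    rw [Finset.sum_add_distrib, Finset.sum_add_distrib,
      sum_nxt (fun d => if Mid (nxt S d) then (1 : ℝ) else 0),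
      sum_nxt (fun d => if Mid d then (1 : ℝ) else 0)] at h1
    simp only [Finset.sum_const, nsmul_eq_mul, mul_one] at h1
    linarith
  rw [Finset.sum_ite, Finset.sum_const_zero, add_zero, Finset.sum_const, nsmul_eq_mul,
    mul_one] at hsum
  have hsum' : (darts S).card = 3 * ((darts S).filter Mid).card := by exact_mod_cast hsum
  -- lower bound for the number of middle corners
  have hfib : ((darts S).filter Mid).card =
      ∑ a ∈ S, ((nb S a).filter (fun b => Mid (a, b))).card := by
    rw [Finset.card_eq_sum_card_fiberwise (f := fun d : E × E => d.1) (t := S)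
      (fun d hd => (mem_darts.1 (Finset.mem_filter.1 hd).1).mem_left)]
    refine Finset.sum_congr rfl fun a _ => ?_
    refine Finset.card_bij' (fun d _ => d.2) (fun b _ => (a, b)) ?_ ?_ ?_ ?_
    · intro d hd
      obtain ⟨h1, h2⟩ := Finset.mem_filter.1 hd
      obtain ⟨h3, h4⟩ := Finset.mem_filter.1 h1
      have : d = (a, d.2) := Prod.ext h2 rfl
      refine Finset.mem_filter.2 ⟨?_, this ▸ h4⟩
      rw [mem_nb, ← h2]; exact mem_darts.1 h3
    · intro b hb
      obtain ⟨h1, h2⟩ := Finset.mem_filter.1 hb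
      exact Finset.mem_filter.2 ⟨Finset.mem_filter.2 ⟨mem_darts.2 (mem_nb.1 h1), h2⟩, rfl⟩
    · intro d hd
      obtain ⟨h1, h2⟩ := Finset.mem_filter.1 hd
      exact Prod.ext h2.symm rfl
    · intro b _
      rfl
  -- vertices which are not extreme have at least two middle corners
  have htwo : ∀ a ∈ S, (∃ p ∈ S, dot y a < dot y p) → (∃ p ∈ S, dot y p < dot y a) →
      2 ≤ ((nb S a).filter (fun b => Mid (a, b))).card := by
    intro a ha hup hdn
    have hU : ∃ b ∈ nb S a, dot y a < dot y b := by
      by_contra hcon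
      push Not at hcon
      obtain ⟨p, hp, hlt⟩ := hup
      have := local_max hS ha y (fun b hb => lt_of_le_of_ne (hcon b hb)
        (hy b (mem_nb.1 hb).mem_right a ha (mem_nb.1 hb).ne.symm)) p hp
      linarith
    have hD : ∃ b ∈ nb S a, dot y b < dot y a := by
      by_contra hcon
      push Not at hcon
      obtain ⟨p, hp, hlt⟩ := hdn
      have := local_max hS ha (-y) (fun b hb => by
        rw [neg_dot, neg_dot]
        have := lt_of_le_of_ne (hcon b hb)
          (hy a ha b (mem_nb.1 hb).mem_right (mem_nb.1 hb).ne)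
        linarith) p hp
      rw [neg_dot, neg_dot] at this
      linarith
    -- an up-crossing and a down-crossing
    have c1 : ∃ b ∈ nb S a, dot y a < dot y b ∧ dot y (third S a b) < dot y a := by
      by_contra hcon
      push Not at hcon
      have := orbit hS ha (O := (nb S a).filter (fun b => dot y a < dot y b))
        (Finset.filter_subset _ _) (by
          obtain ⟨b, hb, h⟩ := hU
          exact ⟨b, Finset.mem_filter.2 ⟨hb, h⟩⟩) (by
          intro b hb
          obtain ⟨h1, h2⟩ := Finset.mem_filter.1 hb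
          have hA := adj_third hS (mem_nb.1 h1)
          refine Finset.mem_filter.2 ⟨mem_nb.2 hA, ?_⟩
          exact lt_of_le_of_ne (hcon b h1 h2) (hy a ha _ hA.mem_right hA.ne))
      obtain ⟨b, hb, h⟩ := hD
      rw [← this] at hb
      have := (Finset.mem_filter.1 hb).2
      linarith
    have c2 : ∃ b ∈ nb S a, dot y b < dot y a ∧ dot y a < dot y (third S a b) := by
      by_contra hcon
      push Not at hcon
      have := orbit hS ha (O := (nb S a).filter (fun b => dot y b < dot y a))
        (Finset.filter_subset _ _) (by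
          obtain ⟨b, hb, h⟩ := hD
          exact ⟨b, Finset.mem_filter.2 ⟨hb, h⟩⟩) (by
          intro b hb
          obtain ⟨h1, h2⟩ := Finset.mem_filter.1 hb
          have hA := adj_third hS (mem_nb.1 h1)
          refine Finset.mem_filter.2 ⟨mem_nb.2 hA, ?_⟩
          exact lt_of_le_of_ne (hcon b h1 h2) (hy _ hA.mem_right a ha hA.ne.symm))
      obtain ⟨b, hb, h⟩ := hU
      rw [← this] at hb
      have := (Finset.mem_filter.1 hb).2
      linarith
    obtain ⟨b1, hb1, h11, h12⟩ := c1
    obtain ⟨b2, hb2, h21, h22⟩ := c2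
    have hne : b1 ≠ b2 := by rintro rfl; linarith
    have hsub : ({b1, b2} : Finset E) ⊆ (nb S a).filter (fun b => Mid (a, b)) := by
      intro x hx
      simp only [Finset.mem_insert, Finset.mem_singleton] at hx
      rcases hx with rfl | rfl
      · exact Finset.mem_filter.2 ⟨hb1, Or.inr ⟨h12, h11⟩⟩
      · exact Finset.mem_filter.2 ⟨hb2, Or.inl ⟨h21, h22⟩⟩
    calc 2 = ({b1, b2} : Finset E).card := (Finset.card_pair hne).symm
      _ ≤ _ := Finset.card_le_card hsub
  -- all but two vertices
  rcases S.eq_empty_or_nonempty with rfl | hne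
  · simp
  obtain ⟨pmax, hpmax, hmax⟩ := S.exists_max_image (fun p => dot y p) hne
  obtain ⟨pmin, hpmin, hmin⟩ := S.exists_min_image (fun p => dot y p) hne
  have hlow : 2 * ((S.erase pmax).erase pmin).card ≤
      ∑ a ∈ S, ((nb S a).filter (fun b => Mid (a, b))).card := by
    calc 2 * ((S.erase pmax).erase pmin).card = ∑ a ∈ (S.erase pmax).erase pmin, 2 := by
          rw [Finset.sum_const, smul_eq_mul]; ring
      _ ≤ ∑ a ∈ (S.erase pmax).erase pmin, ((nb S a).filter (fun b => Mid (a, b))).card := by
          refine Finset.sum_le_sum fun a ha => ?_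
          obtain ⟨h1, h2⟩ := Finset.mem_erase.1 ha
          obtain ⟨h3, h4⟩ := Finset.mem_erase.1 h2
          refine htwo a h4 ⟨pmax, hpmax, ?_⟩ ⟨pmin, hpmin, ?_⟩
          · exact lt_of_le_of_ne (hmax a h4) (hy a h4 pmax hpmax h3)
          · exact lt_of_le_of_ne (hmin a h4) (hy pmin hpmin a h4 h1.symm)
      _ ≤ _ := by
          refine Finset.sum_le_sum_of_subset ?_
          exact (Finset.erase_subset _ _).trans (Finset.erase_subset _ _)
  have hcard : S.card ≤ ((S.erase pmax).erase pmin).card + 2 := by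
    have h1 := Finset.pred_card_le_card_erase (s := S) (a := pmax)
    have h2 := Finset.pred_card_le_card_erase (s := S.erase pmax) (a := pmin)
    omega
  rw [← hfib] at hlow
  omega

end Med
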