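import Pool.Agent.Med.Basic

set_option autoImplicit false

open Finset

namespace Med

/-- simplicial inscribed polyhedra with the origin inside -/
structure Simp (S : Finset E) : Prop where
  unit : ∀ x ∈ S, dot x x = 1
  pos : ∀ a : E, a ≠ 0 → ∃ p ∈ S, 0 < dot a p
  simp : ∀ (m : E) (T : Finset E), T ⊆ S → (∀ x ∈ S, dot m x ≤ 1) →
    (∀ x ∈ T, dot m x = 1) → T.card ≤ 3

/-- positively oriented facets -/
def Tri (S : Finset E) (a b c : E) : Prop :=
  a ∈ S ∧ b ∈ S ∧ c ∈ S ∧ 0 < det a b c ∧
    ∃ m : E, dot m a = 1 ∧ dot m b = 1 ∧ dot m c = 1 ∧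
      ∀ p ∈ S, p ≠ a → p ≠ b → p ≠ c → dot m p < 1

/-- the closed cone over a triangle -/
def InC (a b c z : E) : Prop :=
  ∃ α β γ : ℝ, 0 ≤ α ∧ 0 ≤ β ∧ 0 ≤ γ ∧ z = α • a + β • b + γ • c

lemma Tri.cyc {S : Finset E} {a b c : E} (h : Tri S a b c) : Tri S b c a := by
  obtain ⟨ha, hb, hc, hd, m, h1, h2, h3, h4⟩ := h
  refine ⟨hb, hc, ha, by rw [det_cyc]; exact hd, m, h2, h3, h1, ?_⟩
  intro p hp p1 p2 p3
  exact h4 p hp p3 p1 p2

lemma InC.cyc {a b c z : E} (h : InC a b c z) : InC b c a z := by
  obtain ⟨α, β, γ, h1, h2, h3, rfl⟩ := h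
  exact ⟨β, γ, α, h2, h3, h1, by abel⟩

lemma Tri.ne_ab {S : Finset E} {a b c : E} (h : Tri S a b c) : a ≠ b := by
  rintro rfl; have := h.2.2.2.1; simp at this

lemma Tri.ne_bc {S : Finset E} {a b c : E} (h : Tri S a b c) : b ≠ c := by
  rintro rfl; have := h.2.2.2.1; simp at this

lemma Tri.ne_ac {S : Finset E} {a b c : E} (h : Tri S a b c) : a ≠ c := by
  rintro rfl; have := h.2.2.2.1; simp at this

lemma inC_iff {a b c z : E} (h : 0 < det a b c) :
    InC a b c z ↔ 0 ≤ det z b c ∧ 0 ≤ det a z c ∧ 0 ≤ det a b z := by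
  constructor
  · rintro ⟨α, β, γ, h1, h2, h3, rfl⟩
    simp only [det_add_left, det_smul_left, det_add_mid, det_smul_mid, det_add_right,
      det_smul_right, det_self12, det_self13, det_self23, mul_zero, add_zero, zero_add]
    exact ⟨by positivity, by positivity, by positivity⟩
  · rintro ⟨h1, h2, h3⟩
    refine ⟨det z b c / det a b c, det a z c / det a b c, det a b z / det a b c,
      by positivity, by positivity, by positivity, ?_⟩
    have := cramer a b c z
    have hd : det a b c ≠ 0 := h.ne'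
    have h2 : (det a b c)⁻¹ • (det a b c • z) =
        (det a b c)⁻¹ • (det z b c • a + det a z c • b + det a b z • c) := by rw [this]
    rw [smul_smul, inv_mul_cancel₀ hd, one_smul] at h2
    refine h2.trans ?_
    rw [smul_add, smul_add, smul_smul, smul_smul, smul_smul]
    simp only [div_eq_inv_mul]

/-- the polar body -/
def polar (S : Finset E) : Set E := {m | ∀ p ∈ S, dot m p ≤ 1}

lemma isClosed_polar (S : Finset E) : IsClosed (polar S) := by
  have : polar S = ⋂ p ∈ S, {m | dot m p ≤ 1} := by ext m; simp [polar]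
  rw [this]
  refine isClosed_biInter fun p _ => ?_
  exact isClosed_le (continuous_dot' p) continuous_const

lemma isBounded_polar {S : Finset E} (h : ∀ a : E, a ≠ 0 → ∃ p ∈ S, 0 < dot a p) :
    Bornology.IsBounded (polar S) := by
  classical
  have hc : IsCompact (Metric.sphere (0 : E) 1) := isCompact_sphere _ _
  have hne : (Metric.sphere (0 : E) 1).Nonempty := (NormedSpace.sphere_nonempty).2 zero_le_one
  have hF : Continuous fun a : E => ∑ p ∈ S, max (dot a p) 0 :=
    continuous_finsetSum _ fun p _ => (continuous_dot' p).max continuous_const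
  obtain ⟨a₀, ha₀, hmin⟩ := hc.exists_isMinOn hne hF.continuousOn
  set δ := ∑ p ∈ S, max (dot a₀ p) 0 with hδ
  have ha0 : a₀ ≠ 0 := by
    rintro rfl; simp at ha₀
  have hδpos : 0 < δ := by
    obtain ⟨p, hp, hpp⟩ := h a₀ ha0
    refine Finset.sum_pos' (fun i _ => le_max_right _ _) ⟨p, hp, ?_⟩
    exact lt_max_of_lt_left hpp
  refine (Metric.isBounded_iff_subset_closedBall (0 : E)).2 ⟨S.card / δ, ?_⟩
  intro m hm
  rw [mem_closedBall_zero_iff]
  rcases eq_or_ne m 0 with rfl | hm0
  · simp; positivity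
  have hn : 0 < ‖m‖ := norm_pos_iff.2 hm0
  have hu : (‖m‖⁻¹ • m) ∈ Metric.sphere (0 : E) 1 := by
    simp [norm_smul, hn.ne']
  have h1 := hmin hu
  simp only [Set.mem_ofPred_eq] at h1
  have h2 : ∀ p ∈ S, max (dot (‖m‖⁻¹ • m) p) 0 ≤ ‖m‖⁻¹ := by
    intro p hp
    rw [smul_dot]
    apply max_le
    · have := hm p hp
      calc ‖m‖⁻¹ * dot m p ≤ ‖m‖⁻¹ * 1 := by gcongr
        _ = _ := mul_one _
    · positivity
  have h3 : δ ≤ S.card * ‖m‖⁻¹ := by
    calc δ ≤ ∑ p ∈ S, max (dot (‖m‖⁻¹ • m) p) 0 := h1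
      _ ≤ ∑ p ∈ S, ‖m‖⁻¹ := Finset.sum_le_sum h2
      _ = _ := by simp
  rw [le_div_iff₀ hδpos]
  calc ‖m‖ * δ ≤ ‖m‖ * (S.card * ‖m‖⁻¹) := by gcongr
    _ = S.card := by field_simp

lemma isCompact_polar {S : Finset E} (h : ∀ a : E, a ≠ 0 → ∃ p ∈ S, 0 < dot a p) :
    IsCompact (polar S) :=
  Metric.isCompact_of_isClosed_isBounded (isClosed_polar S) (isBounded_polar h)

lemma zero_mem_polar (S : Finset E) : (0 : E) ∈ polar S := fun p _ => by simp

/-- a perturbation argument: `m + t y` stays in the polar body -/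
lemma perturb (S : Finset E) (m y : E) (hm : ∀ p ∈ S, dot m p ≤ 1)
    (hy : ∀ p ∈ S, dot m p = 1 → dot y p ≤ 0) :
    ∃ ε : ℝ, 0 < ε ∧ ∀ t : ℝ, 0 ≤ t → t ≤ ε → ∀ p ∈ S, dot (m + t • y) p ≤ 1 := by
  classical
  induction S using Finset.induction_on with
  | empty => exact ⟨1, one_pos, by simp⟩
  | insert q S hq ih =>
    obtain ⟨ε, hε, h⟩ := ih (fun p hp => hm p (Finset.mem_insert_of_mem hp))
      (fun p hp => hy p (Finset.mem_insert_of_mem hp))
    rcases (hm q (Finset.mem_insert_self _ _)).lt_or_eq with h1 | h1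
    · refine ⟨min ε ((1 - dot m q) / (|dot y q| + 1)), lt_min hε ?_, ?_⟩
      · have : 0 < 1 - dot m q := by linarith
        positivity
      intro t ht0 ht p hp
      rcases Finset.mem_insert.1 hp with rfl | hp
      · have h2 : t ≤ (1 - dot m p) / (|dot y p| + 1) := ht.trans (min_le_right _ _)
        rw [le_div_iff₀ (by positivity)] at h2
        rw [add_dot, smul_dot]
        have h3 : t * dot y p ≤ t * |dot y p| := by gcongr; exact le_abs_self _
        nlinarith
      · exact h t ht0 (ht.trans (min_le_left _ _)) p hp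
    · refine ⟨ε, hε, fun t ht0 ht p hp => ?_⟩
      rcases Finset.mem_insert.1 hp with rfl | hp
      · have := hy p (Finset.mem_insert_self _ _) h1
        rw [add_dot, smul_dot, h1]
        nlinarith
      · exact h t ht0 ht p hp

/-- a set which is not contained in a plane through 0 -/
lemma exists_det_ne_zero (T : Set E) (h : ∀ y : E, (∀ p ∈ T, dot y p = 0) → y = 0) :
    ∃ a ∈ T, ∃ b ∈ T, ∃ c ∈ T, det a b c ≠ 0 := by
  by_contra hcon
  push Not at hcon
  -- exists a nonzero vector
  have e1 : ∃ a ∈ T, a ≠ 0 := by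
    by_contra h'
    push Not at h'
    have := h (EuclideanSpace.single 0 1) (fun p hp => by rw [h' p hp]; simp)
    have := congrArg (fun v : E => v 0) this
    simp at this
  obtain ⟨a, haT, ha⟩ := e1
  have e2 : ∃ b ∈ T, cr a b ≠ 0 := by
    by_contra h'
    push Not at h'
    -- every b in T is parallel to a; take y orthogonal to a
    obtain ⟨y, hy, hya⟩ : ∃ y : E, y ≠ 0 ∧ dot y a = 0 := by
      by_cases h0 : a 0 = 0 ∧ a 1 = 0
      · refine ⟨EuclideanSpace.single 0 1, fun hh => ?_, ?_⟩
        · have := congrArg (fun v : E => v 0) hh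
          simp at this
        · simp [dot, h0.1]
      · refine ⟨!₂[a 1, - a 0, 0], fun hh => h0 ?_, ?_⟩
        · have h1 := congrArg (fun v : E => v 0) hh
          have h2 := congrArg (fun v : E => v 1) hh
          simp at h1 h2
          exact ⟨h2, h1⟩
        · simp [dot]; ring
    refine hy (h y fun b hb => ?_)
    have hcr := h' b hb
    have c0 := congrArg (fun v : E => v 0) hcr
    have c1 := congrArg (fun v : E => v 1) hcr
    have c2 := congrArg (fun v : E => v 2) hcr
    simp [cr] at c0 c1 c2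
    have hpos := dot_self_pos ha
    have : dot a a * dot y b = dot y a * dot a b := by
      simp only [dot]
      linear_combination (a 1 * y 2 - a 2 * y 1) * c0 + (a 2 * y 0 - a 0 * y 2) * c1 +
        (a 0 * y 1 - a 1 * y 0) * c2
    rw [hya, zero_mul] at this
    exact (mul_eq_zero.1 this).resolve_left hpos.ne'
  obtain ⟨b, hbT, hb⟩ := e2
  refine hb (h _ fun c hc => ?_)
  rw [dot_cr]
  exact hcon a haT b hbT c hc

/-- a facet through a given point of the dual body where the tight points span -/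
lemma tri_of_tight {S : Finset E} (hS : Simp S) {m a b c : E} (hm : ∀ p ∈ S, dot m p ≤ 1)
    (ha : a ∈ S) (hb : b ∈ S) (hc : c ∈ S) (h1 : dot m a = 1) (h2 : dot m b = 1)
    (h3 : dot m c = 1) (hd : 0 < det a b c) : Tri S a b c := by
  classical
  refine ⟨ha, hb, hc, hd, m, h1, h2, h3, fun p hp pa pb pc => ?_⟩
  refine lt_of_le_of_ne (hm p hp) fun hp1 => ?_
  have hab : a ≠ b := by rintro rfl; simp at hd
  have hac : a ≠ c := by rintro rfl; simp at hd
  have hbc : b ≠ c := by rintro rfl; simp at hd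
  have := hS.simp m {p, a, b, c} (by
    intro x hx
    simp only [Finset.mem_insert, Finset.mem_singleton] at hx
    rcases hx with rfl | rfl | rfl | rfl <;> assumption) hm (by
    intro x hx
    simp only [Finset.mem_insert, Finset.mem_singleton] at hx
    rcases hx with rfl | rfl | rfl | rfl <;> assumption)
  rw [Finset.card_insert_of_notMem (by simp [pa, pb, pc]),
    Finset.card_insert_of_notMem (by simp [hab, hac]),
    Finset.card_insert_of_notMem (by simp [hbc]), Finset.card_singleton] at this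
  omega

/-- the cones over the facets cover space -/
theorem cover {S : Finset E} (hS : Simp S) (z : E) :
    ∃ a b c, Tri S a b c ∧ InC a b c z := by
  classical
  have hK := isCompact_polar hS.pos
  obtain ⟨m₁, hm₁, hmax⟩ := hK.exists_isMaxOn ⟨0, zero_mem_polar S⟩
    (continuous_dot' z).continuousOn
  set M := dot m₁ z with hM
  set F : Set E := {m | m ∈ polar S ∧ dot m z = M} with hF
  have hFc : IsCompact F := by
    have : F = polar S ∩ {m | dot m z = M} := rfl
    rw [this]
    exact hK.inter_right (isClosed_eq (continuous_dot' z) continuous_const)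
  obtain ⟨m, hmF, hext⟩ := hFc.extremePoints_nonempty ⟨m₁, hm₁, rfl⟩
  obtain ⟨hm, hmz⟩ := hmF
  have hle : ∀ m' ∈ polar S, dot m' z ≤ M := fun m' hm' => hmax hm'
  -- tight points span
  have hspan : ∀ y : E, (∀ p ∈ {p | p ∈ S ∧ dot m p = 1}, dot y p = 0) → y = 0 := by
    intro y hy
    by_contra hy0
    obtain ⟨ε, hε, h1⟩ := perturb S m y hm (fun p hp h1 => (hy p ⟨hp, h1⟩).le)
    obtain ⟨ε', hε', h2⟩ := perturb S m (-y) hm
      (fun p hp h1 => by rw [neg_dot, hy p ⟨hp, h1⟩]; simp)
    set t := min ε ε' with ht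
    have htpos : 0 < t := lt_min hε hε'
    have k1 : m + t • y ∈ polar S := fun p hp => h1 t htpos.le (min_le_left _ _) p hp
    have k2 : m + t • (-y) ∈ polar S := fun p hp => h2 t htpos.le (min_le_right _ _) p hp
    have l1 := hle _ k1
    have l2 := hle _ k2
    rw [add_dot, smul_dot, hmz] at l1
    rw [add_dot, smul_dot, neg_dot, hmz] at l2
    have hyz : dot y z = 0 := by
      have e1 : t * dot y z ≤ 0 := by linarith
      have e2 : 0 ≤ t * dot y z := by linarith
      have : t * dot y z = 0 := le_antisymm e1 e2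
      exact (mul_eq_zero.1 this).resolve_left htpos.ne'
    have f1 : m + t • y ∈ F := ⟨k1, by rw [add_dot, smul_dot, hyz, hmz]; ring⟩
    have f2 : m + t • (-y) ∈ F := ⟨k2, by rw [add_dot, smul_dot, neg_dot, hyz, hmz]; ring⟩
    have hseg : m ∈ openSegment ℝ (m + t • y) (m + t • (-y)) := by
      refine ⟨1/2, 1/2, by norm_num, by norm_num, by norm_num, ?_⟩
      module
    have := hext f1 f2 hseg
    have h0 : t • y = 0 := by simpa using this
    rcases smul_eq_zero.1 h0 with h | h
    · exact htpos.ne' h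
    · exact hy0 h
  obtain ⟨a, ⟨haS, ha1⟩, b, ⟨hbS, hb1⟩, c, ⟨hcS, hc1⟩, hd⟩ := exists_det_ne_zero _ hspan
  -- the key: z lies in the cone
  have key : ∀ a b c : E, a ∈ S → b ∈ S → c ∈ S → dot m a = 1 → dot m b = 1 → dot m c = 1 →
      0 < det a b c → 0 ≤ det a b z := by
    intro a b c ha hb hc h1 h2 h3 hd
    have htri := tri_of_tight hS hm ha hb hc h1 h2 h3 hd
    by_contra hneg
    push Not at hneg
    -- y = -(a × b)
    obtain ⟨ε, hε, hp⟩ := perturb S m (-(cr a b)) hm (by
      intro p hp hp1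
      rw [neg_dot, dot_cr]
      by_cases pa : p = a
      · subst pa; simp
      by_cases pb : p = b
      · subst pb; simp
      by_cases pc : p = c
      · subst pc; linarith
      · obtain ⟨-, -, -, -, m', e1, e2, e3, e4⟩ := htri
        exfalso
        -- m' = m
        have : m' = m := by
          have h0 : ∀ q, dot (m' - m) q = 0 := by
            intro q
            have hc := cramer a b c q
            have : det a b c * dot (m' - m) q = 0 := by
              rw [← dot_smul, hc, dot_add, dot_add, dot_smul, dot_smul, dot_smul, sub_dot,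
                sub_dot, sub_dot, e1, e2, e3, h1, h2, h3]; ring
            exact (mul_eq_zero.1 this).resolve_left hd.ne'
          have := dot_self_eq_zero (h0 (m' - m))
          exact sub_eq_zero.1 this
        rw [this] at e4
        exact absurd hp1 (e4 p hp pa pb pc).ne)
    have := hle _ (fun p hpS => hp ε hε.le le_rfl p hpS)
    rw [add_dot, smul_dot, neg_dot, dot_cr, hmz] at this
    nlinarith
  rcases lt_or_gt_of_ne hd with hd | hd
  · have hd' : 0 < det b a c := by rw [det_swap]; linarith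
    refine ⟨b, a, c, tri_of_tight hS hm hbS haS hcS hb1 ha1 hc1 hd', (inC_iff hd').2 ⟨?_, ?_, ?_⟩⟩
    · rw [← det_cyc]; exact key a c b haS hcS hbS ha1 hc1 hb1 (by rw [← det_cyc'] ; exact hd')
    · rw [← det_cyc']; exact key c b a hcS hbS haS hc1 hb1 ha1 (by rw [det_cyc] at hd'; rw [← det_cyc, ← det_cyc]; linarith [det_cyc b a c, det_cyc' b a c])
    · exact key b a c hbS haS hcS hb1 ha1 hc1 hd'
  · refine ⟨a, b, c, tri_of_tight hS hm haS hbS hcS ha1 hb1 hc1 hd, (inC_iff hd).2 ⟨?_, ?_, ?_⟩⟩
    · rw [← det_cyc]; exact key b c a hbS hcS haS hb1 hc1 ha1 (by rw [det_cyc]; exact hd)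
    · rw [← det_cyc']; exact key c a b hcS haS hbS hc1 ha1 hb1 (by rw [det_cyc']; exact hd)
    · exact key a b c haS hbS hcS ha1 hb1 hc1 hd

end Med
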