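import Pool.Agent.Med.Euler

set_option autoImplicit false

open Finset

namespace Med

lemma Simp.card_ge {S : Finset E} (hS : Simp S) (v w : E) : ∃ x ∈ S, x ≠ v ∧ x ≠ w := by
  classical
  by_contra hcon
  push Not at hcon
  -- S ⊆ {v, w}; take a direction orthogonal to both
  obtain ⟨a, b, c, ht, -⟩ := cover hS 0
  have h1 := ht.ne_ab
  have h2 := ht.ne_bc
  have h3 := ht.ne_ac
  have ha : a = v ∨ a = w := by
    by_cases h : a = v
    · exact Or.inl h
    · exact Or.inr (hcon a ht.1 h)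
  have hb : b = v ∨ b = w := by
    by_cases h : b = v
    · exact Or.inl h
    · exact Or.inr (hcon b ht.2.1 h)
  have hc : c = v ∨ c = w := by
    by_cases h : c = v
    · exact Or.inl h
    · exact Or.inr (hcon c ht.2.2.1 h)
  rcases ha with rfl | rfl <;> rcases hb with rfl | rfl <;> rcases hc with rfl | rfl <;> simp_all

/-- an edge of a facet is exposed -/
lemma exposed_of_adj {S : Finset E} {v w : E} (h : Adj S v w) :
    ∃ m : E, (∀ x ∈ S, dot m x ≤ 1) ∧ ∀ x ∈ S, (dot m x = 1 ↔ (x = v ∨ x = w)) := by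
  obtain ⟨c, ht⟩ := h
  obtain ⟨hv, hw, hc, hd, m, m1, m2, m3, m4⟩ := ht
  have hle : ∀ p ∈ S, dot m p ≤ 1 := by
    intro p hp
    by_cases pa : p = v
    · rw [pa, m1]
    by_cases pb : p = w
    · rw [pb, m2]
    by_cases pc : p = c
    · rw [pc, m3]
    exact (m4 p hp pa pb pc).le
  set y : E := -(cr v w) with hy
  have y1 : dot y v = 0 := by rw [hy, neg_dot, dot_cr]; simp
  have y2 : dot y w = 0 := by rw [hy, neg_dot, dot_cr]; simp
  have y3 : dot y c < 0 := by rw [hy, neg_dot, dot_cr]; linarith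
  obtain ⟨ε, hε, h⟩ := perturb S m y hle (by
    intro p hp hp1
    by_cases pa : p = v
    · rw [pa, y1]
    by_cases pb : p = w
    · rw [pb, y2]
    by_cases pc : p = c
    · rw [pc]; exact y3.le
    exact absurd hp1 (m4 p hp pa pb pc).ne)
  have hlt : ∀ p ∈ S, p ≠ v → p ≠ w → dot (m + (ε / 2) • y) p < 1 := by
    intro p hp pv pw
    by_cases pc : p = c
    · rw [pc, add_dot, smul_dot, m3]; nlinarith
    · have h1 := h ε hε.le le_rfl p hp
      have h2 := m4 p hp pv pw pc
      rw [add_dot, smul_dot] at h1 ⊢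
      linarith
  have e1 : dot (m + (ε / 2) • y) v = 1 := by rw [add_dot, smul_dot, m1, y1]; ring
  have e2 : dot (m + (ε / 2) • y) w = 1 := by rw [add_dot, smul_dot, m2, y2]; ring
  refine ⟨m + (ε / 2) • y, ?_, ?_⟩
  · intro x hx
    by_cases h1 : x = v
    · rw [h1, e1]
    by_cases h2 : x = w
    · rw [h2, e2]
    exact (hlt x hx h1 h2).le
  · intro x hx
    constructor
    · intro h1
      by_contra hcon
      push Not at hcon
      exact absurd h1 (hlt x hx hcon.1 hcon.2).ne
    · rintro (rfl | rfl)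
      · exact e1
      · exact e2

/-- an exposed edge is an edge of a facet -/
lemma adj_of_exposed {S : Finset E} (hS : Simp S) {v w : E} (hv : v ∈ S) (hw : w ∈ S)
    (hne : w ≠ v) (m : E) (hm : ∀ x ∈ S, dot m x ≤ 1)
    (hmeq : ∀ x ∈ S, (dot m x = 1 ↔ (x = v ∨ x = w))) : Adj S v w := by
  have mv : dot m v = 1 := (hmeq v hv).2 (Or.inl rfl)
  have mw : dot m w = 1 := (hmeq w hw).2 (Or.inr rfl)
  obtain ⟨a, b, c, ht, α, β, γ, h1, h2, h3, he⟩ := cover hS (v + w)
  obtain ⟨m', n1, n2, n3, n4⟩ := ht.exists_dual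
  have e1 : dot m (v + w) = 2 := by rw [dot_add, mv, mw]; norm_num
  have e2 : dot m (v + w) = α * dot m a + β * dot m b + γ * dot m c := by
    rw [he, dot_add, dot_add, dot_smul, dot_smul, dot_smul]
  have e3 : dot m' (v + w) = α + β + γ := by
    rw [he, dot_add, dot_add, dot_smul, dot_smul, dot_smul, n1, n2, n3]; ring
  have e4 : dot m' (v + w) ≤ 2 := by rw [dot_add]; linarith [n4 v hv, n4 w hw]
  have la := hm a ht.1
  have lb := hm b ht.2.1
  have lc := hm c ht.2.2.1
  -- positive coefficients only at v and w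
  have ka : α = 0 ∨ a = v ∨ a = w := by
    rcases h1.eq_or_lt with h | h
    · exact Or.inl h.symm
    · right; rw [← hmeq a ht.1]
      by_contra hh
      have := lt_of_le_of_ne la hh
      nlinarith
  have kb : β = 0 ∨ b = v ∨ b = w := by
    rcases h2.eq_or_lt with h | h
    · exact Or.inl h.symm
    · right; rw [← hmeq b ht.2.1]
      by_contra hh
      have := lt_of_le_of_ne lb hh
      nlinarith
  have kc : γ = 0 ∨ c = v ∨ c = w := by
    rcases h3.eq_or_lt with h | h
    · exact Or.inl h.symm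
    · right; rw [← hmeq c ht.2.2.1]
      by_contra hh
      have := lt_of_le_of_ne lc hh
      nlinarith
  -- v and w are not parallel
  have hpar : ∀ t : ℝ, v ≠ t • w := by
    intro t ht
    have : dot m v = t * dot m w := by rw [ht, dot_smul]
    rw [mv, mw] at this
    apply hne
    rw [ht, ← (by linarith : (1 : ℝ) = t), one_smul]
  have hpar' : ∀ t : ℝ, w ≠ t • v := by
    intro t ht
    have : dot m w = t * dot m v := by rw [ht, dot_smul]
    rw [mv, mw] at this
    apply hne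
    rw [ht, ← (by linarith : (1 : ℝ) = t), one_smul]
  have hab := ht.ne_ab
  have hbc := ht.ne_bc
  have hac := ht.ne_ac
  -- both v and w occur
  have hvmem : a = v ∨ b = v ∨ c = v := by
    by_contra hcon
    push Not at hcon
    obtain ⟨c1, c2, c3⟩ := hcon
    have key : ∀ (α : ℝ) (a : E), (α = 0 ∨ a = v ∨ a = w) → a ≠ v → ∃ r : ℝ, α • a = r • w := by
      rintro α a (h | h | h) hav
      · exact ⟨0, by rw [h]; simp⟩
      · exact absurd h hav
      · exact ⟨α, by rw [h]⟩
    obtain ⟨r1, q1⟩ := key α a ka c1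
    obtain ⟨r2, q2⟩ := key β b kb c2
    obtain ⟨r3, q3⟩ := key γ c kc c3
    have : v = (r1 + r2 + r3 - 1) • w := by
      have hx : v = α • a + β • b + γ • c - w := by rw [← he]; abel
      rw [hx, q1, q2, q3]; module
    exact hpar _ this
  have hwmem : a = w ∨ b = w ∨ c = w := by
    by_contra hcon
    push Not at hcon
    obtain ⟨c1, c2, c3⟩ := hcon
    have key : ∀ (α : ℝ) (a : E), (α = 0 ∨ a = v ∨ a = w) → a ≠ w → ∃ r : ℝ, α • a = r • v := by
      rintro α a (h | h | h) hav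
      · exact ⟨0, by rw [h]; simp⟩
      · exact ⟨α, by rw [h]⟩
      · exact absurd h hav
    obtain ⟨r1, q1⟩ := key α a ka c1
    obtain ⟨r2, q2⟩ := key β b kb c2
    obtain ⟨r3, q3⟩ := key γ c kc c3
    have : w = (r1 + r2 + r3 - 1) • v := by
      have hx : w = α • a + β • b + γ • c - v := by rw [← he]; abel
      rw [hx, q1, q2, q3]; module
    exact hpar' _ this
  rcases hvmem with rfl | rfl | rfl <;> rcases hwmem with rfl | rfl | rfl
  · exact absurd rfl hne
  · exact ⟨_, ht⟩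
  · exact Adj.symm hS ⟨_, ht.cyc.cyc⟩
  · exact Adj.symm hS ⟨_, ht⟩
  · exact absurd rfl hne
  · exact ⟨_, ht.cyc⟩
  · exact ⟨_, ht.cyc.cyc⟩
  · exact Adj.symm hS ⟨_, ht.cyc⟩
  · exact absurd rfl hne

/-- the frozen adjacency -/
theorem nb_frozen {S : Finset E} (hS : Simp S) {v : E} (hv : v ∈ S) :
    {w : E | w ∈ S ∧ w ≠ v ∧
      ∃ (a : E) (c : ℝ), (∀ x ∈ S, inner ℝ a x ≤ c) ∧
        ∀ x ∈ S, (inner ℝ a x = c ↔ (x = v ∨ x = w))} = (nb S v : Set E) := by
  ext w
  simp only [Set.mem_ofPred_eq, Finset.mem_coe, mem_nb]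
  constructor
  · rintro ⟨hw, hne, a, c, h1, h2⟩
    simp only [inner_eq] at h1 h2
    have hc : 0 < c := by
      rcases eq_or_ne a 0 with rfl | ha
      · exfalso
        obtain ⟨x, hx, xv, xw⟩ := hS.card_ge v w
        have hv' := (h2 v hv).2 (Or.inl rfl)
        rw [zero_dot] at hv'
        have := (h2 x hx).1 (by rw [zero_dot]; exact hv')
        rcases this with h | h
        · exact xv h
        · exact xw h
      · obtain ⟨p, hp, hpp⟩ := hS.pos a ha
        exact hpp.trans_le (h1 p hp)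
    refine adj_of_exposed hS hv hw hne (c⁻¹ • a) ?_ ?_
    · intro x hx
      rw [smul_dot, inv_mul_le_iff₀ hc, mul_one]; exact h1 x hx
    · intro x hx
      rw [smul_dot, inv_mul_eq_one₀ hc.ne', ← h2 x hx]
      exact ⟨fun h => h.symm, fun h => h.symm⟩
  · intro h
    obtain ⟨m, h1, h2⟩ := exposed_of_adj h
    refine ⟨h.mem_right, h.ne.symm, m, 1, ?_, ?_⟩
    · simpa only [inner_eq] using h1
    · simpa only [inner_eq] using h2

theorem ncard_frozen {S : Finset E} (hS : Simp S) {v : E} (hv : v ∈ S) :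
    Set.ncard {w : E | w ∈ S ∧ w ≠ v ∧
      ∃ (a : E) (c : ℝ), (∀ x ∈ S, inner ℝ a x ≤ c) ∧
        ∀ x ∈ S, (inner ℝ a x = c ↔ (x = v ∨ x = w))} = (nb S v).card := by
  rw [nb_frozen hS hv, Set.ncard_coe_finset]

/-- the frozen hypotheses give `Simp` as soon as the origin is inside -/
theorem simp_of_frozen {S : Finset E} (hunit : ∀ x ∈ S, ‖x‖ = 1)
    (hT : ∀ (a : E) (c : ℝ) (T : Finset E),
          a ≠ 0 → T ⊆ S → (∀ x ∈ S, inner ℝ a x ≤ c) → (∀ x ∈ T, inner ℝ a x = c) → T.card ≤ 3)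
    (hpos : ∀ a : E, a ≠ 0 → ∃ p ∈ S, 0 < dot a p) : Simp S := by
  refine ⟨fun x hx => by rw [dot_self, hunit x hx]; norm_num, hpos, ?_⟩
  intro m T hTS h1 h2
  rcases eq_or_ne m 0 with rfl | hm
  · rcases T.eq_empty_or_nonempty with rfl | ⟨x, hx⟩
    · simp
    · have := h2 x hx
      simp at this
  · exact hT m 1 T hm hTS (by simpa only [inner_eq] using h1) (by simpa only [inner_eq] using h2)

/-- conversely -/
theorem frozen_of_simp {S : Finset E} (hS : Simp S) (a : E) (c : ℝ) (T : Finset E)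
    (ha : a ≠ 0) (hTS : T ⊆ S) (h1 : ∀ x ∈ S, inner ℝ a x ≤ c)
    (h2 : ∀ x ∈ T, inner ℝ a x = c) : T.card ≤ 3 := by
  simp only [inner_eq] at h1 h2
  obtain ⟨p, hp, hpp⟩ := hS.pos a ha
  have hc : 0 < c := hpp.trans_le (h1 p hp)
  refine hS.simp (c⁻¹ • a) T hTS ?_ ?_
  · intro x hx
    rw [smul_dot, inv_mul_le_iff₀ hc, mul_one]; exact h1 x hx
  · intro x hx
    rw [smul_dot, h2 x hx, inv_mul_cancel₀ hc.ne']

end Med
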