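import Pool.Agent.Med.Surface
/- proof by helper350 (job 2946) -/

set_option autoImplicit false

open Finset

namespace Med

/-- cosines and sines of multiples of 36 degrees -/
noncomputable def cc (n : ℤ) : ℝ := Real.cos (n * (Real.pi / 5))
noncomputable def ss (n : ℤ) : ℝ := Real.sin (n * (Real.pi / 5))

lemma cc_sq (n : ℤ) : cc n ^ 2 + ss n ^ 2 = 1 := Real.cos_sq_add_sin_sq _

lemma cc_per (n t : ℤ) : cc (n + 10 * t) = cc n := by
  unfold cc
  have : ((n + 10 * t : ℤ) : ℝ) * (Real.pi / 5) = n * (Real.pi / 5) + t * (2 * Real.pi) := by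
    push_cast; ring
  rw [this, Real.cos_add_int_mul_two_pi]

lemma ss_per (n t : ℤ) : ss (n + 10 * t) = ss n := by
  unfold ss
  have : ((n + 10 * t : ℤ) : ℝ) * (Real.pi / 5) = n * (Real.pi / 5) + t * (2 * Real.pi) := by
    push_cast; ring
  rw [this, Real.sin_add_int_mul_two_pi]

lemma cc_sub (a b : ℤ) : cc (a - b) = cc a * cc b + ss a * ss b := by
  unfold cc ss; push_cast; rw [sub_mul, Real.cos_sub]

lemma ss_sub (a b : ℤ) : ss (a - b) = ss a * cc b - cc a * ss b := by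
  unfold cc ss; push_cast; rw [sub_mul, Real.sin_sub]

lemma cc_zero : cc 0 = 1 := by simp [cc]
lemma ss_zero : ss 0 = 0 := by simp [ss]
lemma cc_neg (n : ℤ) : cc (-n) = cc n := by
  unfold cc; push_cast; rw [neg_mul, Real.cos_neg]
lemma ss_neg (n : ℤ) : ss (-n) = - ss n := by
  unfold ss; push_cast; rw [neg_mul, Real.sin_neg]

lemma ss_two : ss 2 = 2 * ss 1 * cc 1 := by
  unfold ss cc
  have : ((2 : ℤ) : ℝ) * (Real.pi / 5) = 2 * (((1 : ℤ) : ℝ) * (Real.pi / 5)) := by push_cast; ring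
  rw [this, Real.sin_two_mul]

lemma cc_le_one (n : ℤ) : cc n ≤ 1 := Real.cos_le_one _

lemma cc_one_gt : 1 / 2 < cc 1 := by
  unfold cc
  rw [← Real.cos_pi_div_three]
  have := Real.pi_pos
  apply Real.cos_lt_cos_of_nonneg_of_le_pi
  · positivity
  · linarith
  · push_cast; linarith

lemma ss_one_pos : 0 < ss 1 := by
  unfold ss
  have := Real.pi_pos
  apply Real.sin_pos_of_pos_of_lt_pi
  · positivity
  · push_cast; linarith

lemma cc_lt_one (n : ℤ) (h : ¬ (10 : ℤ) ∣ n) : cc n < 1 := by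
  refine lt_of_le_of_ne (cc_le_one n) fun he => h ?_
  unfold cc at he
  obtain ⟨m, hm⟩ := (Real.cos_eq_one_iff _).mp he
  refine ⟨m, ?_⟩
  have hpi := Real.pi_pos
  have h1 : (n : ℝ) * Real.pi = (10 * m : ℝ) * Real.pi := by linarith
  have h2 := mul_right_cancel₀ hpi.ne' h1
  exact_mod_cast h2

lemma cc_one_lt : cc 1 < 1 := cc_lt_one 1 (by omega)

lemma cc_lt_g (n : ℤ) (hodd : ¬ (2 : ℤ) ∣ n) (h1 : ¬ (10 : ℤ) ∣ n - 1) (h2 : ¬ (10 : ℤ) ∣ n + 1) :
    cc n < cc 1 := by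
  have hpi := Real.pi_pos
  have key : ∀ m : ℤ, 3 ≤ m → m ≤ 7 → cc m < cc 1 := by
    intro m hm3 hm7
    have hm3' : (3 : ℝ) ≤ m := by exact_mod_cast hm3
    have hm7' : (m : ℝ) ≤ 7 := by exact_mod_cast hm7
    have : cc m < 0 := by
      unfold cc
      apply Real.cos_neg_of_pi_div_two_lt_of_lt
      · nlinarith
      · nlinarith
    have := cc_one_gt
    linarith
  have : n = n % 10 + 10 * (n / 10) := by omega
  rw [this, cc_per]
  exact key _ (by omega) (by omega)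

/-- points of the sphere in homogeneous polar coordinates -/
noncomputable def pt (u v : ℝ) (n : ℤ) : E :=
  !₂[2 * u * v * cc n / (u ^ 2 + v ^ 2), 2 * u * v * ss n / (u ^ 2 + v ^ 2),
    (u ^ 2 - v ^ 2) / (u ^ 2 + v ^ 2)]

noncomputable def mm (l c d : ℝ) (n : ℤ) : E :=
  !₂[c * cc n / (l + d), c * ss n / (l + d), (d - l) / (l + d)]

lemma pt_unit (u v : ℝ) (n : ℤ) (h : 0 < u ^ 2 + v ^ 2) : dot (pt u v n) (pt u v n) = 1 := by
  have h1 := cc_sq n
  simp only [dot, pt, PiLp.toLp_apply, Matrix.cons_val_zero, Matrix.cons_val_one,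
    Matrix.cons_val]
  have h0 : u ^ 2 + v ^ 2 ≠ 0 := h.ne'
  have : ss n ^ 2 = 1 - cc n ^ 2 := by linarith
  field_simp
  rw [this]
  ring

lemma dot_mm (l c d u v : ℝ) (a b : ℤ) (h : 0 < l + d) (h' : 0 < u ^ 2 + v ^ 2) :
    (1 - dot (mm l c d a) (pt u v b)) * ((l + d) * (u ^ 2 + v ^ 2)) =
      2 * (l * u ^ 2 - c * u * v * cc (b - a) + d * v ^ 2) := by
  rw [cc_sub]
  simp only [dot, pt, mm, PiLp.toLp_apply, Matrix.cons_val_zero, Matrix.cons_val_one,
    Matrix.cons_val]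
  have h1 : l + d ≠ 0 := h.ne'
  have h2 : u ^ 2 + v ^ 2 ≠ 0 := h'.ne'
  field_simp
  ring

lemma det_pt (u1 v1 u2 v2 u3 v3 : ℝ) (n1 n2 n3 : ℤ) (h1 : 0 < u1 ^ 2 + v1 ^ 2)
    (h2 : 0 < u2 ^ 2 + v2 ^ 2) (h3 : 0 < u3 ^ 2 + v3 ^ 2) :
    det (pt u1 v1 n1) (pt u2 v2 n2) (pt u3 v3 n3) *
      ((u1 ^ 2 + v1 ^ 2) * (u2 ^ 2 + v2 ^ 2) * (u3 ^ 2 + v3 ^ 2)) =
      4 * (u1 * v1 * (u2 * v2) * (u3 ^ 2 - v3 ^ 2) * ss (n2 - n1) +
        u2 * v2 * (u3 * v3) * (u1 ^ 2 - v1 ^ 2) * ss (n3 - n2) +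
        u3 * v3 * (u1 * v1) * (u2 ^ 2 - v2 ^ 2) * ss (n1 - n3)) := by
  rw [ss_sub, ss_sub, ss_sub]
  simp only [det, pt, PiLp.toLp_apply, Matrix.cons_val_zero, Matrix.cons_val_one,
    Matrix.cons_val]
  have e1 : u1 ^ 2 + v1 ^ 2 ≠ 0 := h1.ne'
  have e2 : u2 ^ 2 + v2 ^ 2 ≠ 0 := h2.ne'
  have e3 : u3 ^ 2 + v3 ^ 2 ≠ 0 := h3.ne'
  field_simp
  ring

/-- facts on the circle through a point at distance `t0` on the axis and two points at distance
`t1` at angle 36 degrees -/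
structure XX (t0 t1 c d : ℝ) : Prop where
  t0n : 0 ≤ t0
  t1p : 0 < t1
  h10 : 10 * t0 ≤ t1
  hc : c * (cc 1 * t1 - t0) = t1 ^ 2 - t0 ^ 2
  hd : d = t0 * (c - t0)

lemma XX.c_bounds {t0 t1 c d : ℝ} (h : XX t0 t1 c d) : 0.99 * t1 ≤ c ∧ c ≤ 2.5 * t1 := by
  obtain ⟨h1, h2, h3, h4, -⟩ := h
  have g1 := cc_one_gt
  have g2 := cc_one_lt
  have e1 : 0.4 * t1 ≤ cc 1 * t1 - t0 := by nlinarith
  have e2 : cc 1 * t1 - t0 ≤ t1 := by nlinarith
  have e3 : 0.99 * t1 ^ 2 ≤ t1 ^ 2 - t0 ^ 2 := by nlinarith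
  have e4 : t1 ^ 2 - t0 ^ 2 ≤ t1 ^ 2 := by nlinarith
  have hcpos : 0 < c := by
    by_contra hcon
    push Not at hcon
    have : c * (cc 1 * t1 - t0) ≤ 0 := mul_nonpos_of_nonpos_of_nonneg hcon (by nlinarith)
    nlinarith [mul_pos h2 h2]
  constructor
  · have : c * (cc 1 * t1 - t0) ≤ c * t1 := mul_le_mul_of_nonneg_left e2 hcpos.le
    have h5 : 0.99 * t1 * t1 ≤ c * t1 := by nlinarith
    exact le_of_mul_le_mul_right h5 h2
  · have : c * (0.4 * t1) ≤ c * (cc 1 * t1 - t0) := mul_le_mul_of_nonneg_left e1 hcpos.le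
    have h5 : c * (0.4 * t1) ≤ 2.5 * t1 * (0.4 * t1) := by nlinarith
    exact le_of_mul_le_mul_right h5 (by positivity)

lemma XX.lo {t0 t1 c d : ℝ} (h : XX t0 t1 c d) {t C : ℝ} (ht : 0 ≤ t) (ht0 : t < t0)
    (hC : C ≤ 1) : 0 < t ^ 2 - c * t * C + d := by
  obtain ⟨b1, b2⟩ := h.c_bounds
  obtain ⟨h1, h2, h3, h4, h5⟩ := h
  have e1 : 0 < (t0 - t) * (c - t0 - t) := mul_pos (by linarith) (by linarith)
  have e2 : c * t * C ≤ c * t * 1 := mul_le_mul_of_nonneg_left hC (by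
    have : 0 ≤ c := by linarith
    positivity)
  rw [h5]
  nlinarith

lemma XX.hi {t0 t1 c d : ℝ} (h : XX t0 t1 c d) {t C : ℝ} (ht : 10 * t1 ≤ t)
    (hC : C ≤ 1) : 0 < t ^ 2 - c * t * C + d := by
  obtain ⟨b1, b2⟩ := h.c_bounds
  obtain ⟨h1, h2, h3, h4, h5⟩ := h
  have e1 : 0 < (t - t0) * (t - (c - t0)) := mul_pos (by linarith) (by linarith)
  have e2 : c * t * C ≤ c * t * 1 := mul_le_mul_of_nonneg_left hC (by
    have : 0 ≤ c := by linarith
    have : 0 ≤ t := by linarith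
    positivity)
  rw [h5]
  nlinarith

lemma XX.on0 {t0 t1 c d : ℝ} (h : XX t0 t1 c d) : t0 ^ 2 - c * t0 * 1 + d = 0 := by
  rw [h.hd]; ring

lemma XX.on1 {t0 t1 c d : ℝ} (h : XX t0 t1 c d) : t1 ^ 2 - c * t1 * cc 1 + d = 0 := by
  have := h.hc
  rw [h.hd]; linarith

lemma XX.out0 {t0 t1 c d : ℝ} (h : XX t0 t1 c d) {C : ℝ} (ht : 0 < t0) (hC : C < 1) :
    0 < t0 ^ 2 - c * t0 * C + d := by
  obtain ⟨b1, b2⟩ := h.c_bounds
  have h0 := h.on0
  have h1 := h.t1p
  have : 0 < c * t0 * (1 - C) := by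
    have : 0 < c := by linarith
    have : 0 < 1 - C := by linarith
    positivity
  linarith

lemma XX.out1 {t0 t1 c d : ℝ} (h : XX t0 t1 c d) {C : ℝ} (hC : C < cc 1) :
    0 < t1 ^ 2 - c * t1 * C + d := by
  obtain ⟨b1, b2⟩ := h.c_bounds
  have h0 := h.on1
  have h1 := h.t1p
  have : 0 < c * t1 * (cc 1 - C) := by
    have : 0 < c := by linarith
    have : 0 < cc 1 - C := by linarith
    positivity
  linarith

lemma XX.dn {t0 t1 c d : ℝ} (h : XX t0 t1 c d) : 0 ≤ d := by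
  obtain ⟨b1, b2⟩ := h.c_bounds
  rw [h.hd]
  have h1 := h.t1p
  have h2 := h.h10
  exact mul_nonneg h.t0n (by linarith)

lemma exists_XX {t0 t1 : ℝ} (h0 : 0 ≤ t0) (h1 : 0 < t1) (h : 10 * t0 ≤ t1) :
    ∃ c d, XX t0 t1 c d := by
  have g1 := cc_one_gt
  have : 0 < cc 1 * t1 - t0 := by nlinarith
  exact ⟨(t1 ^ 2 - t0 ^ 2) / (cc 1 * t1 - t0), _, h0, h1, h,
    div_mul_cancel₀ _ this.ne', rfl⟩

/-- radii of the rings -/
noncomputable def uu (r i : ℕ) : ℝ := if i = 0 then 0 else if i ≤ r then 10 ^ i else 1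
noncomputable def vv (r i : ℕ) : ℝ := if i ≤ r then 1 else 0

/-- the vertices -/
noncomputable def PP (r i : ℕ) (k : ℤ) : E := pt (uu r i) (vv r i) (2 * k + i)

lemma uu_zero (r : ℕ) : uu r 0 = 0 := by simp [uu]
lemma vv_zero (r : ℕ) : vv r 0 = 1 := by simp [vv]
lemma uu_mid {r i : ℕ} (h1 : 1 ≤ i) (h2 : i ≤ r) : uu r i = 10 ^ i := by
  unfold uu; rw [if_neg (by omega), if_pos h2]
lemma vv_mid {r i : ℕ} (h2 : i ≤ r) : vv r i = 1 := by
  unfold vv; rw [if_pos h2]
lemma uu_top {r i : ℕ} (h : r < i) : uu r i = 1 := by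
  unfold uu; rw [if_neg (by omega), if_neg (by omega)]
lemma vv_top {r i : ℕ} (h : r < i) : vv r i = 0 := by
  unfold vv; rw [if_neg (by omega)]

lemma uv_pos (r i : ℕ) : 0 < uu r i ^ 2 + vv r i ^ 2 := by
  by_cases h : i ≤ r
  · rw [vv_mid h]; positivity
  · rw [uu_top (by omega), vv_top (by omega)]; norm_num

lemma PP_unit (r i : ℕ) (k : ℤ) : dot (PP r i k) (PP r i k) = 1 := pt_unit _ _ _ (uv_pos r i)

lemma PP_congr (r i : ℕ) {k l : ℤ} (h : (5 : ℤ) ∣ k - l) : PP r i k = PP r i l := by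
  obtain ⟨t, ht⟩ := h
  have : 2 * k + (i : ℤ) = 2 * l + i + 10 * t := by omega
  unfold PP pt
  rw [this, cc_per, ss_per]

lemma PP_zero (r : ℕ) (k l : ℤ) : PP r 0 k = PP r 0 l := by
  unfold PP pt
  rw [uu_zero]
  simp

lemma PP_top (r i : ℕ) (h : r < i) (k l : ℤ) : PP r i k = PP r i l := by
  unfold PP pt
  rw [vv_top h]
  simp

/-- the third coordinate -/
lemma PP_two (r i : ℕ) (k : ℤ) : PP r i k 2 =
    (uu r i ^ 2 - vv r i ^ 2) / (uu r i ^ 2 + vv r i ^ 2) := by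
  simp [PP, pt]

lemma PP_inj {r i j : ℕ} {k l : ℤ} (hi : i ≤ r + 1) (hj : j ≤ r + 1) (h : PP r i k = PP r j l) :
    i = j ∧ (i = 0 ∨ i = r + 1 ∨ (5 : ℤ) ∣ k - l) := by
  have h2 : PP r i k 2 = PP r j l 2 := by rw [h]
  rw [PP_two, PP_two] at h2
  have hpi := uv_pos r i
  have hpj := uv_pos r j
  rw [div_eq_div_iff hpi.ne' hpj.ne'] at h2
  have h3 : uu r i ^ 2 * vv r j ^ 2 = uu r j ^ 2 * vv r i ^ 2 := by linarith
  have hij : i = j := by
    by_cases hi' : i ≤ r
    · by_cases hj' : j ≤ r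
      · rw [vv_mid hi', vv_mid hj'] at h3
        by_cases hi0 : i = 0
        · by_cases hj0 : j = 0
          · omega
          · exfalso
            rw [hi0, uu_zero, uu_mid (by omega) hj'] at h3
            have : (0 : ℝ) < (10 ^ j) ^ 2 := by positivity
            linarith
        · by_cases hj0 : j = 0
          · exfalso
            rw [hj0, uu_zero, uu_mid (by omega) hi'] at h3
            have : (0 : ℝ) < (10 ^ i) ^ 2 := by positivity
            linarith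
          · rw [uu_mid (by omega) hi', uu_mid (by omega) hj', one_pow, mul_one, mul_one, ← pow_mul,
              ← pow_mul] at h3
            have := pow_right_injective₀ (by norm_num : (0 : ℝ) < 10) (by norm_num) h3
            omega
      · exfalso
        rw [vv_mid hi', vv_top (by omega : r < j), uu_top (by omega : r < j)] at h3
        norm_num at h3
    · by_cases hj' : j ≤ r
      · exfalso
        rw [vv_mid hj', vv_top (by omega : r < i), uu_top (by omega : r < i)] at h3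
        norm_num at h3
      · omega
  subst hij
  refine ⟨rfl, ?_⟩
  by_cases hi0 : i = 0
  · exact Or.inl hi0
  by_cases hi' : i = r + 1
  · exact Or.inr (Or.inl hi')
  right; right
  have hu : uu r i = 10 ^ i := uu_mid (by omega) (by omega)
  have hv : vv r i = 1 := vv_mid (by omega)
  have h0 : PP r i k 0 = PP r i l 0 := by rw [h]
  have h1 : PP r i k 1 = PP r i l 1 := by rw [h]
  simp only [PP, pt, PiLp.toLp_apply, Matrix.cons_val_zero, Matrix.cons_val_one] at h0 h1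
  rw [hu, hv] at h0 h1
  have hne : (2 * (10 : ℝ) ^ i * 1) / (((10 : ℝ) ^ i) ^ 2 + 1 ^ 2) ≠ 0 := by positivity
  have e0 : cc (2 * k + i) = cc (2 * l + i) := by
    have : (2 * (10 : ℝ) ^ i * 1) / (((10 : ℝ) ^ i) ^ 2 + 1 ^ 2) * cc (2 * k + i) =
        (2 * (10 : ℝ) ^ i * 1) / (((10 : ℝ) ^ i) ^ 2 + 1 ^ 2) * cc (2 * l + i) := by
      rw [div_mul_eq_mul_div, div_mul_eq_mul_div]; exact h0
    exact mul_left_cancel₀ hne this
  have e1 : ss (2 * k + i) = ss (2 * l + i) := by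
    have : (2 * (10 : ℝ) ^ i * 1) / (((10 : ℝ) ^ i) ^ 2 + 1 ^ 2) * ss (2 * k + i) =
        (2 * (10 : ℝ) ^ i * 1) / (((10 : ℝ) ^ i) ^ 2 + 1 ^ 2) * ss (2 * l + i) := by
      rw [div_mul_eq_mul_div, div_mul_eq_mul_div]; exact h1
    exact mul_left_cancel₀ hne this
  have e2 := cc_sub (2 * k + i) (2 * l + i)
  rw [e0, e1] at e2
  have e3 := cc_sq (2 * l + i)
  by_contra hcon
  have e4 := cc_lt_one (2 * k + i - (2 * l + i)) (by omega)
  nlinarith

/-- the vertex set -/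
noncomputable def SS (r : ℕ) : Finset E :=
  open Classical in insert (PP r 0 0) (insert (PP r (r + 1) 0)
    ((Finset.Icc 1 r ×ˢ Finset.Ico (0 : ℤ) 5).image (fun x => PP r x.1 x.2)))

lemma mem_SS {r : ℕ} {x : E} : x ∈ SS r ↔ ∃ (i : ℕ) (k : ℤ), i ≤ r + 1 ∧ x = PP r i k := by
  classical
  unfold SS
  constructor
  · intro hx
    rcases Finset.mem_insert.1 hx with rfl | hx
    · exact ⟨0, 0, by omega, rfl⟩
    rcases Finset.mem_insert.1 hx with rfl | hx
    · exact ⟨r + 1, 0, le_rfl, rfl⟩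
    obtain ⟨⟨i, k⟩, hik, rfl⟩ := Finset.mem_image.1 hx
    simp only [Finset.mem_product, Finset.mem_Icc] at hik
    exact ⟨i, k, by omega, rfl⟩
  · rintro ⟨i, k, hi, rfl⟩
    by_cases h0 : i = 0
    · subst h0
      rw [PP_zero r k 0]
      exact Finset.mem_insert_self _ _
    by_cases h1 : i = r + 1
    · subst h1
      rw [PP_top r (r + 1) (by omega) k 0]
      exact Finset.mem_insert_of_mem (Finset.mem_insert_self _ _)
    · refine Finset.mem_insert_of_mem (Finset.mem_insert_of_mem (Finset.mem_image.2 ⟨(i, k % 5), ?_, ?_⟩))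
      · simp only [Finset.mem_product, Finset.mem_Icc, Finset.mem_Ico]
        omega
      · exact PP_congr r i (by omega)

lemma card_SS (r : ℕ) : (SS r).card = 5 * r + 2 := by
  classical
  unfold SS
  have h1 : ((Finset.Icc 1 r ×ˢ Finset.Ico (0 : ℤ) 5).image (fun x => PP r x.1 x.2)).card = 5 * r := by
    rw [Finset.card_image_of_injOn, Finset.card_product, Nat.card_Icc, Int.card_Ico]
    · simp only [Nat.add_sub_cancel, sub_zero]
      rw [mul_comm]; rfl
    · rintro ⟨i, k⟩ hik ⟨j, l⟩ hjl h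
      simp only [Finset.coe_product, Set.mem_prod, Finset.mem_coe, Finset.mem_Icc,
        Finset.mem_Ico] at hik hjl
      obtain ⟨h1, h2⟩ := PP_inj (by omega) (by omega) h
      rcases h2 with h2 | h2 | h2
      · omega
      · omega
      · ext
        · exact h1
        · show k = l
          omega
  rw [Finset.card_insert_of_notMem, Finset.card_insert_of_notMem, h1]
  · intro h
    obtain ⟨⟨i, k⟩, hik, he⟩ := Finset.mem_image.1 h
    simp only [Finset.mem_product, Finset.mem_Icc] at hik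
    obtain ⟨h2, -⟩ := PP_inj (by omega) (by omega) he
    omega
  · intro h
    rcases Finset.mem_insert.1 h with h | h
    · obtain ⟨h2, -⟩ := PP_inj (by omega) (by omega) h
      omega
    · obtain ⟨⟨i, k⟩, hik, he⟩ := Finset.mem_image.1 h
      simp only [Finset.mem_product, Finset.mem_Icc] at hik
      obtain ⟨h2, -⟩ := PP_inj (by omega) (by omega) he
      omega

lemma mem_PP {r i : ℕ} (k : ℤ) (hi : i ≤ r + 1) : PP r i k ∈ SS r := mem_SS.2 ⟨i, k, hi, rfl⟩

lemma uu_nonneg (r i : ℕ) : 0 ≤ uu r i := by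
  unfold uu; split_ifs <;> positivity

theorem tri_B {r i : ℕ} (hi : i < r) (k : ℤ) :
    Tri (SS r) (PP r i k) (PP r (i + 1) k) (PP r (i + 1) (k - 1)) := by
  have ht1 : uu r (i + 1) = 10 ^ (i + 1) := uu_mid (by omega) (by omega)
  have hv1 : vv r (i + 1) = 1 := vv_mid (by omega)
  have hv0 : vv r i = 1 := vv_mid (by omega)
  have ht0n : 0 ≤ uu r i := uu_nonneg r i
  have h10 : 10 * uu r i ≤ (10 : ℝ) ^ (i + 1) := by
    by_cases h0 : i = 0
    · subst h0
      rw [uu_zero]; norm_num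
    · rw [uu_mid (by omega) (by omega), pow_succ]
      linarith
  obtain ⟨c, d, hX⟩ := exists_XX ht0n (by positivity : (0 : ℝ) < 10 ^ (i + 1)) h10
  have hd := hX.dn
  have hF : ∀ (j : ℕ) (l : ℤ), (1 - dot (mm 1 c d (2 * k + i)) (PP r j l)) *
      ((1 + d) * (uu r j ^ 2 + vv r j ^ 2)) = 2 * (1 * uu r j ^ 2 - c * uu r j * vv r j *
        cc (2 * l + j - (2 * k + i)) + d * vv r j ^ 2) :=
    fun j l => dot_mm 1 c d _ _ _ _ (by linarith) (uv_pos r j)
  have hpos : ∀ j : ℕ, 0 < (1 + d) * (uu r j ^ 2 + vv r j ^ 2) := fun j =>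
    mul_pos (by linarith) (uv_pos r j)
  have hone : ∀ (j : ℕ) (l : ℤ), 1 * uu r j ^ 2 - c * uu r j * vv r j *
        cc (2 * l + j - (2 * k + i)) + d * vv r j ^ 2 = 0 →
      dot (mm 1 c d (2 * k + i)) (PP r j l) = 1 := by
    intro j l h
    have h1 := hF j l
    rw [h, mul_zero] at h1
    rcases mul_eq_zero.1 h1 with h2 | h2
    · linarith
    · exact absurd h2 (hpos j).ne'
  have hlt : ∀ (j : ℕ) (l : ℤ), 0 < 1 * uu r j ^ 2 - c * uu r j * vv r j *
        cc (2 * l + j - (2 * k + i)) + d * vv r j ^ 2 →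
      dot (mm 1 c d (2 * k + i)) (PP r j l) < 1 := by
    intro j l h
    have h1 := hF j l
    have h2 : 0 < (1 - dot (mm 1 c d (2 * k + i)) (PP r j l)) *
        ((1 + d) * (uu r j ^ 2 + vv r j ^ 2)) := by rw [h1]; linarith
    have h3 := (pos_iff_pos_of_mul_pos h2).2 (hpos j)
    linarith
  refine ⟨mem_PP _ (by omega), mem_PP _ (by omega), mem_PP _ (by omega), ?_,
    mm 1 c d (2 * k + i), ?_, ?_, ?_, ?_⟩
  · have hdet := det_pt (uu r i) (vv r i) (uu r (i + 1)) (vv r (i + 1)) (uu r (i + 1))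
      (vv r (i + 1)) (2 * k + i) (2 * k + (i + 1 : ℕ)) (2 * (k - 1) + (i + 1 : ℕ)) (uv_pos r i)
      (uv_pos r (i + 1)) (uv_pos r (i + 1))
    have e1 : 2 * k + ((i + 1 : ℕ) : ℤ) - (2 * k + i) = 1 := by push_cast; ring
    have e2 : 2 * (k - 1) + ((i + 1 : ℕ) : ℤ) - (2 * k + ((i + 1 : ℕ) : ℤ)) = -2 := by
      push_cast; ring
    have e3 : 2 * k + (i : ℤ) - (2 * (k - 1) + ((i + 1 : ℕ) : ℤ)) = 1 := by push_cast; ring
    rw [e1, e2, e3, ss_neg, ss_two, hv0, hv1, ht1] at hdet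
    have hp := mul_pos (mul_pos (uv_pos r i) (uv_pos r (i + 1))) (uv_pos r (i + 1))
    rw [hv0, hv1, ht1] at hp
    have s1 := ss_one_pos
    have g1 := cc_one_gt
    have g2 := cc_one_lt
    have hw : (1 : ℝ) ≤ 10 ^ i := one_le_pow₀ (by norm_num)
    have hval : 0 < det (PP r i k) (PP r (i + 1) k) (PP r (i + 1) (k - 1)) *
        ((uu r i ^ 2 + 1 ^ 2) * (((10 : ℝ) ^ (i + 1)) ^ 2 + 1 ^ 2) *
          (((10 : ℝ) ^ (i + 1)) ^ 2 + 1 ^ 2)) := by
      unfold PP
      rw [hv0, hv1, ht1, hdet]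
      have e4 : 4 * (uu r i * 1 * ((10 : ℝ) ^ (i + 1) * 1) * (((10 : ℝ) ^ (i + 1)) ^ 2 - 1 ^ 2) * ss 1 +
          (10 : ℝ) ^ (i + 1) * 1 * ((10 : ℝ) ^ (i + 1) * 1) * (uu r i ^ 2 - 1 ^ 2) *
            -(2 * ss 1 * cc 1) +
          (10 : ℝ) ^ (i + 1) * 1 * (uu r i * 1) * (((10 : ℝ) ^ (i + 1)) ^ 2 - 1 ^ 2) * ss 1) =
          8 * (10 : ℝ) ^ (i + 1) * ss 1 * (uu r i * (((10 : ℝ) ^ (i + 1)) ^ 2 - 1) -
            cc 1 * (10 : ℝ) ^ (i + 1) * (uu r i ^ 2 - 1)) := by ring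
      rw [e4]
      apply mul_pos (by positivity)
      by_cases h0 : i = 0
      · subst h0
        rw [uu_zero]
        norm_num
        linarith
      · rw [uu_mid (by omega) (by omega), pow_succ (10 : ℝ) i]
        generalize (10 : ℝ) ^ i = w at hw
        have e5 : w * ((w * 10) ^ 2 - 1) - cc 1 * (w * 10) * (w ^ 2 - 1) =
          w * (100 * w ^ 2 - 1 - 10 * cc 1 * (w ^ 2 - 1)) := by ring
        rw [e5]
        apply mul_pos (by linarith)
        have e6 : cc 1 * (w ^ 2 - 1) ≤ 1 * (w ^ 2 - 1) :=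
          mul_le_mul_of_nonneg_right g2.le (by nlinarith)
        nlinarith
    exact (pos_iff_pos_of_mul_pos hval).2 hp
  · apply hone
    have : 2 * k + (i : ℤ) - (2 * k + i) = 0 := by ring
    rw [this, cc_zero, hv0]
    have := hX.on0
    linarith
  · apply hone
    have : 2 * k + ((i + 1 : ℕ) : ℤ) - (2 * k + i) = 1 := by push_cast; ring
    rw [this, hv1, ht1]
    have := hX.on1
    linarith
  · apply hone
    have : 2 * (k - 1) + ((i + 1 : ℕ) : ℤ) - (2 * k + i) = -1 := by push_cast; ring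
    rw [this, cc_neg, hv1, ht1]
    have := hX.on1
    linarith
  · intro p hp pa pb pc
    obtain ⟨j, l, hj, rfl⟩ := mem_SS.1 hp
    apply hlt
    rcases lt_trichotomy j i with hji | hji | hji
    · have h1 : uu r j < uu r i := by
        rw [uu_mid (show 1 ≤ i by omega) (by omega)]
        by_cases h0 : j = 0
        · subst h0
          rw [uu_zero]; positivity
        · rw [uu_mid (by omega) (by omega)]
          exact pow_lt_pow_right₀ (by norm_num) hji
      have h2 := hX.lo (uu_nonneg r j) h1 (cc_le_one (2 * l + j - (2 * k + i)))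
      rw [vv_mid (by omega : j ≤ r)]
      linarith
    · subst hji
      by_cases h0 : j = 0
      · subst h0
        exact absurd (PP_zero r l k) pa
      have h1 : ¬ (5 : ℤ) ∣ l - k := fun h => pa (PP_congr r j h)
      have h2 : cc (2 * l + j - (2 * k + j)) < 1 := cc_lt_one _ (by omega)
      have h3 := hX.out0 (by rw [uu_mid (by omega) (by omega)]; positivity) h2
      rw [hv0]
      linarith
    · rcases Nat.lt_or_ge (i + 1) j with hj2 | hj2
      · by_cases hjr : j ≤ r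
        · have h1 : 10 * (10 : ℝ) ^ (i + 1) ≤ uu r j := by
            rw [uu_mid (by omega) hjr, ← pow_succ']
            exact pow_le_pow_right₀ (by norm_num) (by omega)
          have h2 := hX.hi h1 (cc_le_one (2 * l + j - (2 * k + i)))
          rw [vv_mid hjr]
          linarith
        · rw [uu_top (by omega), vv_top (by omega)]
          norm_num
      · have hj3 : j = i + 1 := by omega
        subst hj3
        have h1 : ¬ (5 : ℤ) ∣ l - k := fun h => pb (PP_congr r (i + 1) h)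
        have h2 : ¬ (5 : ℤ) ∣ l - (k - 1) := fun h => pc (PP_congr r (i + 1) h)
        have h3 : cc (2 * l + ((i + 1 : ℕ) : ℤ) - (2 * k + i)) < cc 1 := by
          apply cc_lt_g
          · push_cast; omega
          · push_cast; omega
          · push_cast; omega
        have h4 := hX.out1 h3
        rw [hv1, ht1]
        linarith

theorem tri_A {r i : ℕ} (hi1 : 1 ≤ i) (hi : i ≤ r) (k : ℤ) :
    Tri (SS r) (PP r i k) (PP r i (k + 1)) (PP r (i + 1) k) := by
  have hu0 : uu r i = 10 ^ i := uu_mid hi1 hi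
  have hv0 : vv r i = 1 := vv_mid hi
  have hw : (1 : ℝ) ≤ 10 ^ i := one_le_pow₀ (by norm_num)
  have hup : 0 < uu r (i + 1) := by
    by_cases h : i < r
    · rw [uu_mid (by omega) (by omega)]; positivity
    · rw [uu_top (by omega)]; norm_num
  have ht0n : 0 ≤ vv r (i + 1) / uu r (i + 1) := by
    apply div_nonneg _ hup.le
    unfold vv; split_ifs <;> norm_num
  have h10 : 10 * (vv r (i + 1) / uu r (i + 1)) ≤ 1 / (10 : ℝ) ^ i := by
    by_cases h : i < r
    · rw [uu_mid (by omega) (by omega), vv_mid (by omega), pow_succ]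
      rw [mul_one_div, div_le_div_iff₀ (by positivity) (by positivity)]
      linarith
    · rw [vv_top (by omega)]
      simp
  obtain ⟨c, d, hX⟩ := exists_XX ht0n (by positivity : (0 : ℝ) < 1 / 10 ^ i) h10
  have hd := hX.dn
  have hF : ∀ (j : ℕ) (l : ℤ), (1 - dot (mm d c 1 (2 * k + i + 1)) (PP r j l)) *
      ((d + 1) * (uu r j ^ 2 + vv r j ^ 2)) = 2 * (d * uu r j ^ 2 - c * uu r j * vv r j *
        cc (2 * l + j - (2 * k + i + 1)) + 1 * vv r j ^ 2) :=
    fun j l => dot_mm d c 1 _ _ _ _ (by linarith) (uv_pos r j)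
  have hpos : ∀ j : ℕ, 0 < (d + 1) * (uu r j ^ 2 + vv r j ^ 2) := fun j =>
    mul_pos (by linarith) (uv_pos r j)
  have hfac : ∀ (j : ℕ) (C : ℝ), 0 < uu r j →
      d * uu r j ^ 2 - c * uu r j * vv r j * C + 1 * vv r j ^ 2 =
        uu r j ^ 2 * ((vv r j / uu r j) ^ 2 - c * (vv r j / uu r j) * C + d) := by
    intro j C h
    have := h.ne'
    field_simp
    ring
  have hone : ∀ (j : ℕ) (l : ℤ), 0 < uu r j → (vv r j / uu r j) ^ 2 - c * (vv r j / uu r j) *
        cc (2 * l + j - (2 * k + i + 1)) + d = 0 →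
      dot (mm d c 1 (2 * k + i + 1)) (PP r j l) = 1 := by
    intro j l hu h
    have h1 := hF j l
    rw [hfac j _ hu, h, mul_zero, mul_zero] at h1
    rcases mul_eq_zero.1 h1 with h2 | h2
    · linarith
    · exact absurd h2 (hpos j).ne'
  have hlt0 : ∀ (j : ℕ) (l : ℤ), 0 < d * uu r j ^ 2 - c * uu r j * vv r j *
        cc (2 * l + j - (2 * k + i + 1)) + 1 * vv r j ^ 2 →
      dot (mm d c 1 (2 * k + i + 1)) (PP r j l) < 1 := by
    intro j l h
    have h1 := hF j l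
    have h2 : 0 < (1 - dot (mm d c 1 (2 * k + i + 1)) (PP r j l)) *
        ((d + 1) * (uu r j ^ 2 + vv r j ^ 2)) := by rw [h1]; linarith
    have h3 := (pos_iff_pos_of_mul_pos h2).2 (hpos j)
    linarith
  have hlt : ∀ (j : ℕ) (l : ℤ), 0 < uu r j → 0 < (vv r j / uu r j) ^ 2 - c * (vv r j / uu r j) *
        cc (2 * l + j - (2 * k + i + 1)) + d →
      dot (mm d c 1 (2 * k + i + 1)) (PP r j l) < 1 := by
    intro j l hu h
    apply hlt0
    rw [hfac j _ hu]
    positivity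
  have hui : 0 < uu r i := by rw [hu0]; positivity
  have hti : vv r i / uu r i = 1 / 10 ^ i := by rw [hu0, hv0]
  refine ⟨mem_PP _ (by omega), mem_PP _ (by omega), mem_PP _ (by omega), ?_,
    mm d c 1 (2 * k + i + 1), ?_, ?_, ?_, ?_⟩
  · have hdet := det_pt (uu r i) (vv r i) (uu r i) (vv r i) (uu r (i + 1))
      (vv r (i + 1)) (2 * k + i) (2 * (k + 1) + i) (2 * k + (i + 1 : ℕ)) (uv_pos r i)
      (uv_pos r i) (uv_pos r (i + 1))
    have e1 : 2 * (k + 1) + (i : ℤ) - (2 * k + i) = 2 := by ring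
    have e2 : 2 * k + ((i + 1 : ℕ) : ℤ) - (2 * (k + 1) + i) = -1 := by push_cast; ring
    have e3 : 2 * k + (i : ℤ) - (2 * k + ((i + 1 : ℕ) : ℤ)) = -1 := by push_cast; ring
    rw [e1, e2, e3, ss_neg, ss_two, hv0, hu0] at hdet
    have hp := mul_pos (mul_pos (uv_pos r i) (uv_pos r i)) (uv_pos r (i + 1))
    rw [hv0, hu0] at hp
    have s1 := ss_one_pos
    have g1 := cc_one_gt
    have g2 := cc_one_lt
    have hval : 0 < det (PP r i k) (PP r i (k + 1)) (PP r (i + 1) k) *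
        ((((10 : ℝ) ^ i) ^ 2 + 1 ^ 2) * (((10 : ℝ) ^ i) ^ 2 + 1 ^ 2) *
          (uu r (i + 1) ^ 2 + vv r (i + 1) ^ 2)) := by
      unfold PP
      rw [hv0, hu0, hdet]
      have e4 : 4 * ((10 : ℝ) ^ i * 1 * ((10 : ℝ) ^ i * 1) * (uu r (i + 1) ^ 2 - vv r (i + 1) ^ 2) *
            (2 * ss 1 * cc 1) +
          (10 : ℝ) ^ i * 1 * (uu r (i + 1) * vv r (i + 1)) * (((10 : ℝ) ^ i) ^ 2 - 1 ^ 2) * -ss 1 +
          uu r (i + 1) * vv r (i + 1) * ((10 : ℝ) ^ i * 1) * (((10 : ℝ) ^ i) ^ 2 - 1 ^ 2) * -ss 1) =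
          8 * (10 : ℝ) ^ i * ss 1 * (cc 1 * (10 : ℝ) ^ i * (uu r (i + 1) ^ 2 - vv r (i + 1) ^ 2) -
            uu r (i + 1) * vv r (i + 1) * (((10 : ℝ) ^ i) ^ 2 - 1)) := by ring
      rw [e4]
      apply mul_pos (by positivity)
      by_cases h : i < r
      · rw [uu_mid (by omega) (by omega), vv_mid (by omega), pow_succ (10 : ℝ) i]
        generalize (10 : ℝ) ^ i = w at hw
        have e5 : cc 1 * w * ((w * 10) ^ 2 - 1 ^ 2) - w * 10 * 1 * (w ^ 2 - 1) =
          w * (cc 1 * (100 * w ^ 2 - 1) - 10 * (w ^ 2 - 1)) := by ring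
        rw [e5]
        apply mul_pos (by linarith)
        have e6 : 1 / 2 * (100 * w ^ 2 - 1) ≤ cc 1 * (100 * w ^ 2 - 1) :=
          mul_le_mul_of_nonneg_right g1.le (by nlinarith)
        nlinarith
      · rw [uu_top (by omega), vv_top (by omega)]
        have : 0 < cc 1 * (10 : ℝ) ^ i := by positivity
        linarith
    exact (pos_iff_pos_of_mul_pos hval).2 hp
  · apply hone _ _ hui
    have : 2 * k + (i : ℤ) - (2 * k + i + 1) = -1 := by ring
    rw [this, cc_neg, hti]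
    exact hX.on1
  · apply hone _ _ hui
    have : 2 * (k + 1) + (i : ℤ) - (2 * k + i + 1) = 1 := by ring
    rw [this, hti]
    exact hX.on1
  · apply hone _ _ hup
    have : 2 * k + ((i + 1 : ℕ) : ℤ) - (2 * k + i + 1) = 0 := by push_cast; ring
    rw [this, cc_zero]
    exact hX.on0
  · intro p hp pa pb pc
    obtain ⟨j, l, hj, rfl⟩ := mem_SS.1 hp
    rcases Nat.eq_zero_or_pos j with hj0 | hj0
    · subst hj0
      apply hlt0
      rw [uu_zero, vv_zero]
      norm_num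
    have huj : 0 < uu r j := by
      by_cases h : j ≤ r
      · rw [uu_mid (by omega) h]; positivity
      · rw [uu_top (by omega)]; norm_num
    apply hlt _ _ huj
    rcases lt_trichotomy j i with hji | hji | hji
    · apply hX.hi _ (cc_le_one _)
      rw [uu_mid (by omega) (by omega), vv_mid (by omega), mul_one_div,
        div_le_div_iff₀ (by positivity) (by positivity), ← pow_succ', one_mul]
      exact pow_le_pow_right₀ (by norm_num) (by omega)
    · subst hji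
      rw [hti]
      apply hX.out1
      have h1 : ¬ (5 : ℤ) ∣ l - k := fun h => pa (PP_congr r j h)
      have h2 : ¬ (5 : ℤ) ∣ l - (k + 1) := fun h => pb (PP_congr r j h)
      apply cc_lt_g <;> omega
    · rcases Nat.lt_or_ge (i + 1) j with hj2 | hj2
      · have hT : 0 ≤ vv r j / uu r j := by
          apply div_nonneg _ huj.le
          unfold vv; split_ifs <;> norm_num
        apply hX.lo hT _ (cc_le_one _)
        rw [uu_mid (show 1 ≤ i + 1 by omega) (show i + 1 ≤ r by omega),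
          vv_mid (show i + 1 ≤ r by omega)]
        by_cases hjr : j ≤ r
        · rw [uu_mid (by omega) hjr, vv_mid hjr]
          apply one_div_lt_one_div_of_lt (by positivity)
          exact pow_lt_pow_right₀ (by norm_num) hj2
        · rw [vv_top (by omega), zero_div]
          positivity
      · have hj3 : j = i + 1 := by omega
        subst hj3
        by_cases hir : i < r
        · have h1 : ¬ (5 : ℤ) ∣ l - k := fun h => pc (PP_congr r (i + 1) h)
          have h2 : cc (2 * l + ((i + 1 : ℕ) : ℤ) - (2 * k + i + 1)) < 1 :=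
            cc_lt_one _ (by push_cast; omega)
          apply hX.out0 _ h2
          rw [uu_mid (by omega) (by omega), vv_mid (by omega)]
          positivity
        · exact absurd (PP_top r (i + 1) (by omega) l k) pc

/-- the facets -/
inductive LL (r : ℕ) : E → E → E → Prop
  | A1 (i : ℕ) (k : ℤ) : 1 ≤ i → i ≤ r → LL r (PP r i k) (PP r i (k + 1)) (PP r (i + 1) k)
  | A2 (i : ℕ) (k : ℤ) : 1 ≤ i → i ≤ r → LL r (PP r i (k + 1)) (PP r (i + 1) k) (PP r i k)
  | A3 (i : ℕ) (k : ℤ) : 1 ≤ i → i ≤ r → LL r (PP r (i + 1) k) (PP r i k) (PP r i (k + 1))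
  | B1 (i : ℕ) (k : ℤ) : i < r → LL r (PP r i k) (PP r (i + 1) k) (PP r (i + 1) (k - 1))
  | B2 (i : ℕ) (k : ℤ) : i < r → LL r (PP r (i + 1) k) (PP r (i + 1) (k - 1)) (PP r i k)
  | B3 (i : ℕ) (k : ℤ) : i < r → LL r (PP r (i + 1) (k - 1)) (PP r i k) (PP r (i + 1) k)

lemma LL.tri {r : ℕ} {a b c : E} (h : LL r a b c) : Tri (SS r) a b c := by
  cases h with
  | A1 i k h1 h2 => exact tri_A h1 h2 k
  | A2 i k h1 h2 => exact (tri_A h1 h2 k).cyc
  | A3 i k h1 h2 => exact (tri_A h1 h2 k).cyc.cyc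
  | B1 i k h1 => exact tri_B h1 k
  | B2 i k h1 => exact (tri_B h1 k).cyc
  | B3 i k h1 => exact (tri_B h1 k).cyc.cyc

lemma LL.cyc {r : ℕ} {a b c : E} (h : LL r a b c) : LL r b c a := by
  cases h with
  | A1 i k h1 h2 => exact LL.A2 i k h1 h2
  | A2 i k h1 h2 => exact LL.A3 i k h1 h2
  | A3 i k h1 h2 => exact LL.A1 i k h1 h2
  | B1 i k h1 => exact LL.B2 i k h1
  | B2 i k h1 => exact LL.B3 i k h1
  | B3 i k h1 => exact LL.B1 i k h1

lemma LL.adj {r : ℕ} {a b c : E} (h : LL r a b c) : ∃ d, LL r b a d := by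
  cases h with
  | A1 i k h1 h2 =>
    obtain ⟨i', rfl⟩ : ∃ i', i = i' + 1 := ⟨i - 1, by omega⟩
    have := LL.B2 (r := r) i' (k + 1) (by omega)
    rw [add_sub_cancel_right] at this
    exact ⟨_, this⟩
  | A2 i k h1 h2 =>
    by_cases hi : i < r
    · have := LL.B3 (r := r) i (k + 1) hi
      rw [add_sub_cancel_right] at this
      exact ⟨_, this⟩
    · have := LL.A3 (r := r) i (k + 1) h1 h2
      rw [PP_top r (i + 1) (by omega) (k + 1) k] at this
      exact ⟨_, this⟩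
  | A3 i k h1 h2 =>
    by_cases hi : i < r
    · exact ⟨_, LL.B1 (r := r) i k hi⟩
    · have := LL.A2 (r := r) i (k - 1) h1 h2
      rw [PP_top r (i + 1) (by omega) (k - 1) k, sub_add_cancel] at this
      exact ⟨_, this⟩
  | B1 i k h1 =>
    by_cases hi : i = 0
    · subst hi
      have := LL.B3 (r := r) 0 (k + 1) h1
      rw [PP_zero r (k + 1) k, add_sub_cancel_right] at this
      exact ⟨_, this⟩
    · exact ⟨_, LL.A3 (r := r) i k (by omega) h1.le⟩
  | B2 i k h1 =>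
    have := LL.A1 (r := r) (i + 1) (k - 1) (by omega) (by omega)
    rw [sub_add_cancel] at this
    exact ⟨_, this⟩
  | B3 i k h1 =>
    by_cases hi : i = 0
    · subst hi
      have := LL.B1 (r := r) 0 (k - 1) h1
      rw [PP_zero r (k - 1) k] at this
      exact ⟨_, this⟩
    · have := LL.A2 (r := r) i (k - 1) (by omega) h1.le
      rw [sub_add_cancel] at this
      exact ⟨_, this⟩

lemma simp_SS {r : ℕ} (hr : 1 ≤ r) : Simp (SS r) := by
  refine (simp_of_surface (S := SS r) ?_ (LL r) (fun a b c h => h.tri) (fun a b c h => h.cyc)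
    (fun a b c h => h.adj) ⟨_, _, _, LL.B1 0 0 (by omega)⟩).1
  intro x hx
  obtain ⟨i, k, -, rfl⟩ := mem_SS.1 hx
  exact PP_unit r i k

lemma nb5 {S : Finset E} (hS : Simp S) {v w1 w2 w3 w4 w5 : E} (h1 : Tri S v w1 w2)
    (h2 : Tri S v w2 w3) (h3 : Tri S v w3 w4) (h4 : Tri S v w4 w5) (h5 : Tri S v w5 w1)
    (d12 : w1 ≠ w2) (d13 : w1 ≠ w3) (d14 : w1 ≠ w4) (d15 : w1 ≠ w5) (d23 : w2 ≠ w3)
    (d24 : w2 ≠ w4) (d25 : w2 ≠ w5) (d34 : w3 ≠ w4) (d35 : w3 ≠ w5) (d45 : w4 ≠ w5) :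
    (nb S v).card = 5 := by
  classical
  have : ({w1, w2, w3, w4, w5} : Finset E) = nb S v := by
    apply orbit hS h1.1
    · intro b hb
      simp only [Finset.mem_insert, Finset.mem_singleton] at hb
      rcases hb with rfl | rfl | rfl | rfl | rfl
      · exact mem_nb.2 ⟨_, h1⟩
      · exact mem_nb.2 ⟨_, h2⟩
      · exact mem_nb.2 ⟨_, h3⟩
      · exact mem_nb.2 ⟨_, h4⟩
      · exact mem_nb.2 ⟨_, h5⟩
    · exact ⟨w1, by simp⟩
    · intro b hb
      simp only [Finset.mem_insert, Finset.mem_singleton] at hb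
      rcases hb with rfl | rfl | rfl | rfl | rfl
      · rw [third_eq h1]; simp
      · rw [third_eq h2]; simp
      · rw [third_eq h3]; simp
      · rw [third_eq h4]; simp
      · rw [third_eq h5]; simp
  rw [← this]
  rw [Finset.card_insert_of_notMem (by simp [d12, d13, d14, d15]),
    Finset.card_insert_of_notMem (by simp [d23, d24, d25]),
    Finset.card_insert_of_notMem (by simp [d34, d35]),
    Finset.card_insert_of_notMem (by simp [d45]), Finset.card_singleton]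

lemma nb6 {S : Finset E} (hS : Simp S) {v w1 w2 w3 w4 w5 w6 : E} (h1 : Tri S v w1 w2)
    (h2 : Tri S v w2 w3) (h3 : Tri S v w3 w4) (h4 : Tri S v w4 w5) (h5 : Tri S v w5 w6)
    (h6 : Tri S v w6 w1)
    (d12 : w1 ≠ w2) (d13 : w1 ≠ w3) (d14 : w1 ≠ w4) (d15 : w1 ≠ w5) (d16 : w1 ≠ w6)
    (d23 : w2 ≠ w3) (d24 : w2 ≠ w4) (d25 : w2 ≠ w5) (d26 : w2 ≠ w6) (d34 : w3 ≠ w4)
    (d35 : w3 ≠ w5) (d36 : w3 ≠ w6) (d45 : w4 ≠ w5) (d46 : w4 ≠ w6) (d56 : w5 ≠ w6) :
    (nb S v).card = 6 := by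
  classical
  have : ({w1, w2, w3, w4, w5, w6} : Finset E) = nb S v := by
    apply orbit hS h1.1
    · intro b hb
      simp only [Finset.mem_insert, Finset.mem_singleton] at hb
      rcases hb with rfl | rfl | rfl | rfl | rfl | rfl
      · exact mem_nb.2 ⟨_, h1⟩
      · exact mem_nb.2 ⟨_, h2⟩
      · exact mem_nb.2 ⟨_, h3⟩
      · exact mem_nb.2 ⟨_, h4⟩
      · exact mem_nb.2 ⟨_, h5⟩
      · exact mem_nb.2 ⟨_, h6⟩
    · exact ⟨w1, by simp⟩
    · intro b hb
      simp only [Finset.mem_insert, Finset.mem_singleton] at hb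
      rcases hb with rfl | rfl | rfl | rfl | rfl | rfl
      · rw [third_eq h1]; simp
      · rw [third_eq h2]; simp
      · rw [third_eq h3]; simp
      · rw [third_eq h4]; simp
      · rw [third_eq h5]; simp
      · rw [third_eq h6]; simp
  rw [← this]
  rw [Finset.card_insert_of_notMem (by simp [d12, d13, d14, d15, d16]),
    Finset.card_insert_of_notMem (by simp [d23, d24, d25, d26]),
    Finset.card_insert_of_notMem (by simp [d34, d35, d36]),
    Finset.card_insert_of_notMem (by simp [d45, d46]),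
    Finset.card_insert_of_notMem (by simp [d56]), Finset.card_singleton]

lemma PP_ne {r i j : ℕ} {k l : ℤ} (hi : i ≤ r + 1) (hj : j ≤ r + 1)
    (h : i ≠ j ∨ (i ≠ 0 ∧ i ≠ r + 1 ∧ ¬ (5 : ℤ) ∣ k - l)) : PP r i k ≠ PP r j l := by
  intro he
  obtain ⟨h1, h2⟩ := PP_inj hi hj he
  omega

/-- medial inscribed polyhedra with 5 r + 2 vertices -/
theorem medial_exists (r : ℕ) (hr : 2 ≤ r) :
    ∃ S : Finset E, S.card = 5 * r + 2 ∧ Simp S ∧
      ∀ v ∈ S, (nb S v).card = 5 ∨ (nb S v).card = 6 := by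
  have hS : Simp (SS r) := simp_SS (by omega)
  refine ⟨SS r, card_SS r, hS, ?_⟩
  intro v hv
  obtain ⟨i, k, hi, rfl⟩ := mem_SS.1 hv
  by_cases hi0 : i = 0
  · subst hi0
    left
    have key : ∀ m l : ℤ, l = m - 1 → Tri (SS r) (PP r 0 k) (PP r 1 m) (PP r 1 l) := by
      intro m l hl
      subst hl
      have := tri_B (r := r) (i := 0) (by omega) m
      rwa [PP_zero r m k] at this
    have e : PP r 1 (k - 5) = PP r 1 k := PP_congr r 1 (by omega)
    have h5 := key (k - 4) (k - 5) (by ring)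
    rw [e] at h5
    refine nb5 hS (key k (k - 1) (by ring)) (key (k - 1) (k - 2) (by ring))
      (key (k - 2) (k - 3) (by ring)) (key (k - 3) (k - 4) (by ring)) h5 ?_ ?_ ?_ ?_ ?_ ?_ ?_ ?_ ?_ ?_
    all_goals exact PP_ne (by omega) (by omega) (by omega)
  by_cases hi1 : i = r + 1
  · subst hi1
    left
    have key : ∀ m l : ℤ, l = m + 1 → Tri (SS r) (PP r (r + 1) k) (PP r r m) (PP r r l) := by
      intro m l hl
      subst hl
      have := (tri_A (r := r) (i := r) (by omega) le_rfl m).cyc.cyc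
      rwa [PP_top r (r + 1) (by omega) m k] at this
    have e : PP r r (k + 5) = PP r r k := PP_congr r r (by omega)
    have h5 := key (k + 4) (k + 5) (by ring)
    rw [e] at h5
    refine nb5 hS (key k (k + 1) (by ring)) (key (k + 1) (k + 2) (by ring))
      (key (k + 2) (k + 3) (by ring)) (key (k + 3) (k + 4) (by ring)) h5 ?_ ?_ ?_ ?_ ?_ ?_ ?_ ?_ ?_ ?_
    all_goals exact PP_ne (by omega) (by omega) (by omega)
  -- a ring vertex
  obtain ⟨j, rfl⟩ : ∃ j, i = j + 1 := ⟨i - 1, by omega⟩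
  -- B(j,k), B(j,k+1) exist
  have tb1 : Tri (SS r) (PP r (j + 1) k) (PP r (j + 1) (k - 1)) (PP r j k) :=
    (tri_B (r := r) (i := j) (by omega) k).cyc
  have tb2 : Tri (SS r) (PP r (j + 1) k) (PP r j (k + 1)) (PP r (j + 1) (k + 1)) := by
    have := (tri_B (r := r) (i := j) (by omega) (k + 1)).cyc.cyc
    rwa [add_sub_cancel_right] at this
  -- A(j+1,k), A(j+1,k-1) exist
  have ta1 : Tri (SS r) (PP r (j + 1) k) (PP r (j + 1) (k + 1)) (PP r (j + 2) k) :=
    tri_A (r := r) (i := j + 1) (by omega) (by omega) k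
  have ta2 : Tri (SS r) (PP r (j + 1) k) (PP r (j + 2) (k - 1)) (PP r (j + 1) (k - 1)) := by
    have := (tri_A (r := r) (i := j + 1) (by omega) (by omega) (k - 1)).cyc
    rwa [sub_add_cancel] at this
  by_cases hj0 : j = 0
  · subst hj0
    left
    have tc : Tri (SS r) (PP r 1 k) (PP r 2 k) (PP r 2 (k - 1)) :=
      tri_B (r := r) (i := 1) (by omega) k
    rw [PP_zero r (k + 1) k] at tb2
    refine nb5 hS ta1 tc ta2 tb1 tb2 ?_ ?_ ?_ ?_ ?_ ?_ ?_ ?_ ?_ ?_
    all_goals exact PP_ne (by omega) (by omega) (by omega)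
  have tc2 : Tri (SS r) (PP r (j + 1) k) (PP r j k) (PP r j (k + 1)) :=
    (tri_A (r := r) (i := j) (by omega) (by omega) k).cyc.cyc
  by_cases hjr : j + 1 = r
  · left
    rw [PP_top r (j + 2) (by omega) (k - 1) k] at ta2
    refine nb5 hS ta1 ta2 tb1 tc2 tb2 ?_ ?_ ?_ ?_ ?_ ?_ ?_ ?_ ?_ ?_
    all_goals exact PP_ne (by omega) (by omega) (by omega)
  · right
    have tc : Tri (SS r) (PP r (j + 1) k) (PP r (j + 2) k) (PP r (j + 2) (k - 1)) :=
      tri_B (r := r) (i := j + 1) (by omega) k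
    refine nb6 hS ta1 tc ta2 tb1 tc2 tb2 ?_ ?_ ?_ ?_ ?_ ?_ ?_ ?_ ?_ ?_ ?_ ?_ ?_ ?_ ?_
    all_goals exact PP_ne (by omega) (by omega) (by omega)

end Med
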