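import Pool.Agent.Med.Rigid
import Pool.Agent.Med.Competitor
import Pool.Agent.Med.Medial
import Pool.Agent.Med.Frozen

set_option autoImplicit false

open Finset MeasureTheory

namespace Med

/-- a polyhedron in a half ball has volume at most half of the ball -/
lemma pos_of_vol {S : Finset E} (hunit : ∀ x ∈ S, ‖x‖ = 1)
    (hvol : 2 * Real.pi / 3 < (volume (convexHull ℝ (S : Set E))).toReal) :
    ∀ a : E, a ≠ 0 → ∃ p ∈ S, 0 < dot a p := by
  intro a ha
  by_contra hcon
  push Not at hcon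
  have hna : 0 < ‖a‖ := norm_pos_iff.2 ha
  set e : E := -(‖a‖⁻¹ • a) with he
  have he1 : dot e e = 1 := by
    rw [he, neg_dot, dot_comm, neg_dot, dot_smul, smul_dot, dot_self]; field_simp
  have hsub : convexHull ℝ (S : Set E) ⊆ {x : E | dot x x ≤ 1 ∧ (0 : ℝ) * ‖x‖ ≤ dot e x} := by
    apply convexHull_min
    · intro x hx
      have hx' : x ∈ S := hx
      refine ⟨by rw [dot_self, hunit x hx']; norm_num, ?_⟩
      rw [zero_mul, he, neg_dot, smul_dot]
      have h1 := hcon x hx'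
      have h2 : 0 ≤ ‖a‖⁻¹ := by positivity
      have := mul_nonneg h2 (neg_nonneg.2 h1)
      linarith
    · have e1 : {x : E | dot x x ≤ 1 ∧ (0 : ℝ) * ‖x‖ ≤ dot e x} =
          Metric.closedBall (0 : E) 1 ∩ {x : E | 0 ≤ inner ℝ e x} := by
        ext x
        simp only [Set.mem_ofPred_eq, Set.mem_inter_iff, mem_closedBall_zero_iff, zero_mul,
          inner_eq, dot_self]
        constructor
        · rintro ⟨h1, h2⟩
          exact ⟨by rw [← one_pow 2] at h1; exact le_of_sq_le_sq h1 (by norm_num), h2⟩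
        · rintro ⟨h1, h2⟩
          exact ⟨pow_le_one₀ (norm_nonneg _) h1, h2⟩
      rw [e1]
      exact (convex_closedBall _ _).inter (convex_halfSpace_ge
        (f := fun x : E => (inner ℝ e x : ℝ)) ⟨fun x y => inner_add_right _ _ _,
          fun c x => by simp [inner_smul_right]⟩ 0)
  have hv := measure_mono (μ := volume) hsub
  rw [vol_sector he1 le_rfl zero_le_one] at hv
  have := ENNReal.toReal_mono ENNReal.ofReal_ne_top hv
  have hpi := Real.pi_pos
  rw [ENNReal.toReal_ofReal (by positivity)] at this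
  linarith

lemma vol_fin (S : Finset E) : volume (convexHull ℝ (S : Set E)) ≠ ⊤ := by
  have : Bornology.IsBounded (convexHull ℝ (S : Set E)) :=
    isBounded_convexHull.2 S.finite_toSet.isBounded
  exact this.measure_lt_top.ne

/-- For large `n`, an inscribed simplicial polyhedron with `n` vertices all of valence 5 or 6
does not have the largest volume. -/
theorem not_max : ∃ N : ℕ, ∀ n : ℕ, N ≤ n → ∀ S : Finset E, S.card = n → (∀ x ∈ S, ‖x‖ = 1) →
    (∀ (a : E) (c : ℝ) (T : Finset E),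
      a ≠ 0 → T ⊆ S → (∀ x ∈ S, inner ℝ a x ≤ c) → (∀ x ∈ T, inner ℝ a x = c) → T.card ≤ 3) →
    (Simp S → ∀ v ∈ S, (nb S v).card = 5 ∨ (nb S v).card = 6) →
    (∀ T : Finset E, T.card = n → (∀ x ∈ T, ‖x‖ = 1) →
      volume (convexHull ℝ (T : Set E)) ≤ volume (convexHull ℝ (S : Set E))) → False := by
  obtain ⟨C, N0, hcomp⟩ := competitor
  obtain ⟨N1, hrig⟩ := rigid C
  obtain ⟨N2, hN2⟩ := exists_nat_gt (100 * (1 + |C|))
  refine ⟨max N0 (max N1 N2), ?_⟩
  intro n hn S hcard hunit hT hval hmax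
  have hn0 : N0 ≤ n := (le_max_left _ _).trans hn
  have hn1 : N1 ≤ n := (le_max_left _ _).trans ((le_max_right _ _).trans hn)
  have hn2 : N2 ≤ n := (le_max_right _ _).trans ((le_max_right _ _).trans hn)
  have hnR : 100 * (1 + |C|) < n := lt_of_lt_of_le hN2 (by exact_mod_cast hn2)
  have hC := abs_nonneg C
  have hn0' : (0 : ℝ) < n := by linarith
  have hn1' : (1 : ℝ) ≤ n := by linarith
  obtain ⟨T, hTc, hTu, hTv⟩ := hcomp n hn0
  have hTu' : ∀ x ∈ T, ‖x‖ = 1 := fun x hx => norm_of_unit (hTu x hx)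
  have h1 := ENNReal.toReal_mono (vol_fin S) (hmax T hTc hTu')
  have hdef : 4 * Real.pi / 3 - (volume (convexHull ℝ (S : Set E))).toReal ≤
      4 * √3 * Real.pi ^ 2 / 3 / n * (1 + C * (n : ℝ) ^ (-(1 / 4) : ℝ)) := by linarith
  have hpi := Real.pi_gt_d6
  have hpi2 := Real.pi_lt_d6
  have k3 := sqrt3_lt
  have hbig : 2 * Real.pi / 3 < (volume (convexHull ℝ (S : Set E))).toReal := by
    have h2 : 4 * √3 * Real.pi ^ 2 / 3 / n * (1 + C * (n : ℝ) ^ (-(1 / 4) : ℝ)) ≤ 1 := by
      have h3 : (n : ℝ) ^ (-(1 / 4) : ℝ) ≤ 1 :=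
        Real.rpow_le_one_of_one_le_of_nonpos hn1' (by norm_num)
      have h4 : 0 ≤ (n : ℝ) ^ (-(1 / 4) : ℝ) := by positivity
      have h5 : 1 + C * (n : ℝ) ^ (-(1 / 4) : ℝ) ≤ 1 + |C| := by
        have : C * (n : ℝ) ^ (-(1 / 4) : ℝ) ≤ |C| * 1 :=
          (mul_le_mul_of_nonneg_right (le_abs_self C) h4).trans
            (mul_le_mul_of_nonneg_left h3 hC)
        linarith
      have h6 : 4 * √3 * Real.pi ^ 2 / 3 ≤ 100 := by
        have : Real.pi ^ 2 ≤ 4 ^ 2 := by gcongr; linarith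
        calc 4 * √3 * Real.pi ^ 2 / 3 ≤ 4 * 2 * 4 ^ 2 / 3 := by gcongr; linarith
          _ ≤ 100 := by norm_num
      calc 4 * √3 * Real.pi ^ 2 / 3 / n * (1 + C * (n : ℝ) ^ (-(1 / 4) : ℝ)) ≤
          4 * √3 * Real.pi ^ 2 / 3 / n * (1 + |C|) :=
            mul_le_mul_of_nonneg_left h5 (by positivity)
        _ ≤ 100 / n * (1 + |C|) := by gcongr
        _ = 100 * (1 + |C|) / n := by ring
        _ ≤ 1 := by rw [div_le_one hn0']; exact hnR.le
    linarith
  have hS : Simp S := simp_of_frozen hunit hT (pos_of_vol hunit hbig)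
  exact hrig n hn1 S hS hcard (hval hS) hdef

end Med
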