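import Pool.Agent.Med.Path

set_option autoImplicit false

open Finset

namespace Med

/-- darts whose source is an irregular vertex -/
noncomputable def irr (S : Finset E) : Finset (E × E) :=
  open Classical in (darts S).filter (fun d => (nb S d.1).card ≠ 6)

lemma irr_sub (S : Finset E) : irr S ⊆ darts S := Finset.filter_subset _ _

lemma reg_of_notMem {S : Finset E} {d : E × E} (hd : d ∈ darts S) (h : d ∉ irr S) :
    (nb S d.1).card = 6 := by
  classical
  by_contra hne
  exact h (Finset.mem_filter.2 ⟨hd, hne⟩)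

section
variable {S : Finset E} {s θ l : ℝ} {B₀ : Finset (E × E)}

lemma card_union_filter {g : E × E → E × E} (hg : IsPerm S g) {B : Finset (E × E)}
    (hB : B ⊆ darts S) :
    open Classical in (((darts S).filter (fun x => g x ∈ B)).card : ℝ) ≤ B.card :=
  (card_filter_mem hg hB).le

/-- the preimage of a set of darts -/
noncomputable def pre (S : Finset E) (g : E × E → E × E) (B : Finset (E × E)) :
    Finset (E × E) :=
  open Classical in (darts S).filter (fun x => g x ∈ B)

lemma pre_sub (S : Finset E) (g : E × E → E × E) (B : Finset (E × E)) :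
    pre S g B ⊆ darts S := Finset.filter_subset _ _

lemma card_pre {g : E × E → E × E} (hg : IsPerm S g) {B : Finset (E × E)}
    (hB : B ⊆ darts S) : (pre S g B).card ≤ B.card := by
  have := card_filter_mem hg hB
  have h2 : ((pre S g B).card : ℝ) = B.card := this
  exact_mod_cast h2.le

lemma notMem_pre {g : E × E → E × E} {B : Finset (E × E)} {d : E × E} (hd : d ∈ darts S)
    (h : d ∉ pre S g B) : g d ∉ B := by
  classical
  intro hg
  exact h (Finset.mem_filter.2 ⟨hd, hg⟩)

open Classical in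
/-- bad sets -/
noncomputable def BQ (S : Finset E) (B₀ : Finset (E × E)) : Finset (E × E) :=
  B₀ ∪ pre S (rot S ∘ stA S) B₀ ∪ pre S rev (irr S)

open Classical in
noncomputable def BP (S : Finset E) (B₀ : Finset (E × E)) : Finset (E × E) :=
  B₀ ∪ pre S (rot S ∘ stA S) B₀ ∪ pre S (stA S) B₀ ∪ pre S (rot S ∘ stA S ∘ stA S) B₀ ∪
    pre S rev (irr S) ∪ pre S (rev ∘ stA S) (irr S)

open Classical in
noncomputable def BP' (S : Finset E) (B₀ : Finset (E × E)) : Finset (E × E) :=
  B₀ ∪ pre S (rot S ∘ stA S) B₀ ∪ pre S (stB S) B₀ ∪ pre S (rot S ∘ stA S ∘ stB S) B₀ ∪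
    pre S rev (irr S) ∪ pre S (stB S) (irr S) ∪ pre S (rev ∘ stB S) (irr S)

lemma short_aux (hS : Simp S) (hs : 0 < s) (hθ : 0 ≤ θ) (hθ1 : θ ≤ 1 / 2)
    (hsmall : 7 * ((1 + 2 * θ) * s) ^ 2 ≤ 2 * θ) {p : ℝ} (hp0 : 0 ≤ p) (hp : p ^ 2 ≤ 7)
    {x y : E} (hx : x ∈ S) (hy : y ∈ S) (h : ‖x - y‖ ≤ p * ((1 + 2 * θ) * s)) :
    ang x y ≤ p * ((1 + 4 * θ) * s) := by
  have hn := norm_nonneg (x - y)
  have h1 : ‖x - y‖ ^ 2 ≤ 2 * θ := by
    calc ‖x - y‖ ^ 2 ≤ (p * ((1 + 2 * θ) * s)) ^ 2 := by gcongr
      _ = p ^ 2 * ((1 + 2 * θ) * s) ^ 2 := by ring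
      _ ≤ 7 * ((1 + 2 * θ) * s) ^ 2 := by gcongr
      _ ≤ _ := hsmall
  have h2 := ang_le_small (hS.unit x hx) (hS.unit y hy) hθ hθ1 h1
  calc ang x y ≤ (1 + θ) * ‖x - y‖ := h2
    _ ≤ (1 + θ) * (p * ((1 + 2 * θ) * s)) := by gcongr
    _ = p * (((1 + θ) * (1 + 2 * θ)) * s) := by ring
    _ ≤ p * ((1 + 4 * θ) * s) := by
        have : (1 + θ) * (1 + 2 * θ) ≤ 1 + 4 * θ := by nlinarith
        gcongr

variable (hS : Simp S) (hs : 0 < s) (hθ : 0 ≤ θ) (hθ1 : θ ≤ 1 / 2)
  (hsmall : 7 * ((1 + 2 * θ) * s) ^ 2 ≤ 2 * θ) (hl : ∀ v w, Adj S v w → ‖v - w‖ ≤ l)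
  (hl0 : 0 ≤ l) (hB₀ : B₀ ⊆ darts S) (hnear : ∀ d ∈ darts S, d ∉ B₀ → NearD S s θ d)

include hS hs hθ hθ1 hsmall hl hB₀ hnear

include hl0 in
lemma isStep_A : IsStep S 1 ((1 + 4 * θ) * s) (6 * l) (4 * B₀.card + 3 * (irr S).card)
    (stA S) B₀ where
  perm := isPerm_A hS
  sub := hB₀
  card := by
    have : (0 : ℝ) ≤ B₀.card := Nat.cast_nonneg _
    have : (0 : ℝ) ≤ (irr S).card := Nat.cast_nonneg _
    linarith
  short := by
    intro d hd hdB
    have hd' := (isPerm_A hS).1 d hd
    refine short_aux hS hs hθ hθ1 hsmall zero_le_one (by norm_num) (mem_darts.1 hd).mem_left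
      (mem_darts.1 hd').mem_left ?_
    rw [one_mul]
    exact lenA hs hθ (hnear d hd hdB)
  rough := by
    intro d hd
    have hd' := (isPerm_A hS).1 d hd
    have h1 := ang_le_two (hS.unit _ (mem_darts.1 hd).mem_left)
      (hS.unit _ (mem_darts.1 hd').mem_left)
    have h2 := stA_dist hl hd
    linarith

include hl0 in
lemma isStep_B : IsStep S 1 ((1 + 4 * θ) * s) (6 * l) (4 * B₀.card + 3 * (irr S).card)
    (stB S) B₀ where
  perm := isPerm_B hS
  sub := hB₀
  card := by
    have : (0 : ℝ) ≤ B₀.card := Nat.cast_nonneg _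
    have : (0 : ℝ) ≤ (irr S).card := Nat.cast_nonneg _
    linarith
  short := by
    intro d hd hdB
    have hd' := (isPerm_B hS).1 d hd
    refine short_aux hS hs hθ hθ1 hsmall zero_le_one (by norm_num) (mem_darts.1 hd).mem_left
      (mem_darts.1 hd').mem_left ?_
    rw [one_mul]
    exact lenB hs hθ (hnear d hd hdB)
  rough := by
    intro d hd
    have hd' := (isPerm_B hS).1 d hd
    have h1 := ang_le_two (hS.unit _ (mem_darts.1 hd).mem_left)
      (hS.unit _ (mem_darts.1 hd').mem_left)
    have h2 := stB_dist hS hl hd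
    linarith

include hl0 in
lemma isStep_Q : IsStep S √3 ((1 + 4 * θ) * s) (6 * l) (4 * B₀.card + 3 * (irr S).card)
    (stQ S) (BQ S B₀) where
  perm := isPerm_Q hS
  sub := by
    unfold BQ
    exact Finset.union_subset (Finset.union_subset hB₀ (pre_sub _ _ _)) (pre_sub _ _ _)
  card := by
    unfold BQ
    have c1 := card_pre ((isPerm_rot hS).comp (isPerm_A hS)) hB₀
    have c2 := card_pre (isPerm_rev hS) (irr_sub S)
    have c3 : (BQ S B₀).card ≤ 4 * B₀.card + 3 * (irr S).card := by
      unfold BQ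
      refine (Finset.card_union_le _ _).trans ?_
      have := Finset.card_union_le B₀ (pre S (rot S ∘ stA S) B₀)
      omega
    unfold BQ at c3
    exact_mod_cast c3
  short := by
    intro d hd hdB
    have hd' := (isPerm_Q hS).1 d hd
    unfold BQ at hdB
    simp only [Finset.mem_union, not_or] at hdB
    obtain ⟨⟨k1, k2⟩, k3⟩ := hdB
    refine short_aux hS hs hθ hθ1 hsmall (Real.sqrt_nonneg _)
      (by rw [Real.sq_sqrt (by norm_num)]; norm_num) (mem_darts.1 hd).mem_left
      (mem_darts.1 hd').mem_left ?_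
    have hA := (isPerm_A hS).1 d hd
    exact lenQ hS hs hθ (by linarith) hd
      (reg_of_notMem ((isPerm_rev hS).1 d hd) (notMem_pre (g := rev) hd k3)) (hnear d hd k1)
      (hnear _ ((isPerm_rot hS).1 _ hA) (notMem_pre (g := rot S ∘ stA S) hd k2))
  rough := by
    intro d hd
    have hd' := (isPerm_Q hS).1 d hd
    have h1 := ang_le_two (hS.unit _ (mem_darts.1 hd).mem_left)
      (hS.unit _ (mem_darts.1 hd').mem_left)
    have h2 := stQ_dist hS hl hd
    linarith

include hl0 in
lemma isStep_P : IsStep S √7 ((1 + 4 * θ) * s) (6 * l) (4 * B₀.card + 3 * (irr S).card)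
    (stP S) (BP S B₀) where
  perm := isPerm_P hS
  sub := by
    unfold BP
    exact Finset.union_subset (Finset.union_subset (Finset.union_subset (Finset.union_subset
      (Finset.union_subset hB₀ (pre_sub _ _ _)) (pre_sub _ _ _)) (pre_sub _ _ _))
      (pre_sub _ _ _)) (pre_sub _ _ _)
  card := by
    have c1 := card_pre ((isPerm_rot hS).comp (isPerm_A hS)) hB₀
    have c2 := card_pre (isPerm_A hS) hB₀
    have c3 := card_pre ((isPerm_rot hS).comp ((isPerm_A hS).comp (isPerm_A hS))) hB₀
    have c4 := card_pre (isPerm_rev hS) (irr_sub S)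
    have c5 := card_pre ((isPerm_rev hS).comp (isPerm_A hS)) (irr_sub S)
    have c6 : (BP S B₀).card ≤ 4 * B₀.card + 3 * (irr S).card := by
      unfold BP
      refine (Finset.card_union_le _ _).trans ?_
      refine (Nat.add_le_add_right (Finset.card_union_le _ _) _).trans ?_
      refine (Nat.add_le_add_right (Nat.add_le_add_right (Finset.card_union_le _ _) _) _).trans ?_
      refine (Nat.add_le_add_right (Nat.add_le_add_right (Nat.add_le_add_right
        (Finset.card_union_le _ _) _) _) _).trans ?_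
      refine (Nat.add_le_add_right (Nat.add_le_add_right (Nat.add_le_add_right
        (Nat.add_le_add_right (Finset.card_union_le _ _) _) _) _) _).trans ?_
      omega
    exact_mod_cast c6
  short := by
    intro d hd hdB
    have hd' := (isPerm_P hS).1 d hd
    unfold BP at hdB
    simp only [Finset.mem_union, not_or] at hdB
    obtain ⟨⟨⟨⟨⟨k1, k2⟩, k3⟩, k4⟩, k5⟩, k6⟩ := hdB
    refine short_aux hS hs hθ hθ1 hsmall (Real.sqrt_nonneg _)
      (by rw [Real.sq_sqrt (by norm_num)]) (mem_darts.1 hd).mem_left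
      (mem_darts.1 hd').mem_left ?_
    have hA := (isPerm_A hS).1 d hd
    have hAA := (isPerm_A hS).1 _ hA
    exact lenP hS hs hθ (by linarith) hd
      (reg_of_notMem ((isPerm_rev hS).1 d hd) (notMem_pre (g := rev) hd k5))
      (reg_of_notMem ((isPerm_rev hS).1 _ hA) (notMem_pre (g := rev ∘ stA S) hd k6))
      (hnear d hd k1)
      (hnear _ ((isPerm_rot hS).1 _ hA) (notMem_pre (g := rot S ∘ stA S) hd k2))
      (hnear _ hA (notMem_pre (g := stA S) hd k3))
      (hnear _ ((isPerm_rot hS).1 _ hAA) (notMem_pre (g := rot S ∘ stA S ∘ stA S) hd k4))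
  rough := by
    intro d hd
    have hd' := (isPerm_P hS).1 d hd
    have h1 := ang_le_two (hS.unit _ (mem_darts.1 hd).mem_left)
      (hS.unit _ (mem_darts.1 hd').mem_left)
    have h2 := stP_dist hS hl hd
    linarith

include hl0 in
lemma isStep_P' : IsStep S √7 ((1 + 4 * θ) * s) (6 * l) (4 * B₀.card + 3 * (irr S).card)
    (stP' S) (BP' S B₀) where
  perm := isPerm_P' hS
  sub := by
    unfold BP'
    exact Finset.union_subset (Finset.union_subset (Finset.union_subset (Finset.union_subset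
      (Finset.union_subset (Finset.union_subset hB₀ (pre_sub _ _ _)) (pre_sub _ _ _))
      (pre_sub _ _ _)) (pre_sub _ _ _)) (pre_sub _ _ _)) (pre_sub _ _ _)
  card := by
    have c1 := card_pre ((isPerm_rot hS).comp (isPerm_A hS)) hB₀
    have c2 := card_pre (isPerm_B hS) hB₀
    have c3 := card_pre ((isPerm_rot hS).comp ((isPerm_A hS).comp (isPerm_B hS))) hB₀
    have c4 := card_pre (isPerm_rev hS) (irr_sub S)
    have c5 := card_pre (isPerm_B hS) (irr_sub S)
    have c7 := card_pre ((isPerm_rev hS).comp (isPerm_B hS)) (irr_sub S)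
    have c6 : (BP' S B₀).card ≤ 4 * B₀.card + 3 * (irr S).card := by
      unfold BP'
      refine (Finset.card_union_le _ _).trans ?_
      refine (Nat.add_le_add_right (Finset.card_union_le _ _) _).trans ?_
      refine (Nat.add_le_add_right (Nat.add_le_add_right (Finset.card_union_le _ _) _) _).trans ?_
      refine (Nat.add_le_add_right (Nat.add_le_add_right (Nat.add_le_add_right
        (Finset.card_union_le _ _) _) _) _).trans ?_
      refine (Nat.add_le_add_right (Nat.add_le_add_right (Nat.add_le_add_right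
        (Nat.add_le_add_right (Finset.card_union_le _ _) _) _) _) _).trans ?_
      refine (Nat.add_le_add_right (Nat.add_le_add_right (Nat.add_le_add_right
        (Nat.add_le_add_right (Nat.add_le_add_right (Finset.card_union_le _ _) _) _) _) _)
        _).trans ?_
      omega
    exact_mod_cast c6
  short := by
    intro d hd hdB
    have hd' := (isPerm_P' hS).1 d hd
    unfold BP' at hdB
    simp only [Finset.mem_union, not_or] at hdB
    obtain ⟨⟨⟨⟨⟨⟨k1, k2⟩, k3⟩, k4⟩, k5⟩, k6⟩, k7⟩ := hdB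
    refine short_aux hS hs hθ hθ1 hsmall (Real.sqrt_nonneg _)
      (by rw [Real.sq_sqrt (by norm_num)]) (mem_darts.1 hd).mem_left
      (mem_darts.1 hd').mem_left ?_
    have hA := (isPerm_A hS).1 d hd
    have hB := (isPerm_B hS).1 _ hd
    have hAB := (isPerm_A hS).1 _ hB
    exact lenP' hS hs hθ (by linarith) hd
      (reg_of_notMem ((isPerm_rev hS).1 d hd) (notMem_pre (g := rev) hd k5))
      (reg_of_notMem hB (notMem_pre (g := stB S) hd k6))
      (reg_of_notMem ((isPerm_rev hS).1 _ hB) (notMem_pre (g := rev ∘ stB S) hd k7))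
      (hnear d hd k1)
      (hnear _ ((isPerm_rot hS).1 _ hA) (notMem_pre (g := rot S ∘ stA S) hd k2))
      (hnear _ hB (notMem_pre (g := stB S) hd k3))
      (hnear _ ((isPerm_rot hS).1 _ hAB) (notMem_pre (g := rot S ∘ stA S ∘ stB S) hd k4))
  rough := by
    intro d hd
    have hd' := (isPerm_P' hS).1 d hd
    have h1 := ang_le_two (hS.unit _ (mem_darts.1 hd).mem_left)
      (hS.unit _ (mem_darts.1 hd').mem_left)
    have h2 := stP'_dist hS hl hd
    linarith

end

end Med
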