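import Pool.Agent.Med.Trans

set_option autoImplicit false

open Finset

namespace Med

/-- the lattice point with integer coordinates -/
noncomputable def emb (x y : ℤ) : ℂ := x + y * om

lemma emb_re (x y : ℤ) : (emb x y).re = x + y / 2 := by
  simp [emb, om]; ring
lemma emb_im (x y : ℤ) : (emb x y).im = y * (√3 / 2) := by
  simp [emb, om]

lemma emb_inj {x y x' y' : ℤ} (h : emb x y = emb x' y') : x = x' ∧ y = y' := by
  have h3 : (0 : ℝ) < √3 := Real.sqrt_pos.2 (by norm_num)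
  have hi := congrArg Complex.im h
  have hr := congrArg Complex.re h
  rw [emb_im, emb_im] at hi
  rw [emb_re, emb_re] at hr
  have hy : (y : ℝ) = y' := by
    have h4 : √3 / 2 ≠ 0 := by positivity
    exact mul_right_cancel₀ h4 hi
  rw [hy] at hr
  have hx : (x : ℝ) = x' := by linarith
  exact ⟨by exact_mod_cast hx, by exact_mod_cast hy⟩

lemma om_mul_emb (x y : ℤ) : om * emb x y = emb (-y) (x + y) := by
  simp only [emb]
  push_cast
  linear_combination (y : ℂ) * om_sq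

lemma om_pow_emb (x y : ℤ) :
    om ^ 0 * emb x y = emb x y ∧ om ^ 1 * emb x y = emb (-y) (x + y) ∧
    om ^ 2 * emb x y = emb (-x - y) x ∧ om ^ 3 * emb x y = emb (-x) (-y) ∧
    om ^ 4 * emb x y = emb y (-x - y) ∧ om ^ 5 * emb x y = emb (x + y) (-x) := by
  have h1 : om * emb x y = emb (-y) (x + y) := om_mul_emb x y
  have h2 : om * emb (-y) (x + y) = emb (-x - y) x := by
    rw [om_mul_emb]; congr 1 <;> ring
  have h3 : om * emb (-x - y) x = emb (-x) (-y) := by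
    rw [om_mul_emb]; congr 1; ring
  have h4 : om * emb (-x) (-y) = emb y (-x - y) := by
    rw [om_mul_emb]; congr 1 <;> ring
  have h5 : om * emb y (-x - y) = emb (x + y) (-x) := by
    rw [om_mul_emb]; congr 1 <;> ring
  refine ⟨by simp, by simpa using h1, ?_, ?_, ?_, ?_⟩
  · rw [pow_succ', mul_assoc, pow_one, h1, h2]
  · rw [pow_succ', pow_succ', pow_one, mul_assoc, mul_assoc, h1, h2, h3]
  · rw [pow_succ', pow_succ', pow_succ', pow_one, mul_assoc, mul_assoc, mul_assoc, h1, h2, h3, h4]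
  · rw [pow_succ', pow_succ', pow_succ', pow_succ', pow_one, mul_assoc, mul_assoc, mul_assoc,
      mul_assoc, h1, h2, h3, h4, h5]

/-- the six sectors are disjoint -/
lemma sector_inj {k k' : ℕ} (hk : k < 6) (hk' : k' < 6) {m n m' n' : ℤ} (hm : 1 ≤ m)
    (hn : 0 ≤ n) (hm' : 1 ≤ m') (hn' : 0 ≤ n') (h : om ^ k * emb m n = om ^ k' * emb m' n') :
    k = k' ∧ m = m' ∧ n = n' := by
  obtain ⟨a0, a1, a2, a3, a4, a5⟩ := om_pow_emb m n
  obtain ⟨b0, b1, b2, b3, b4, b5⟩ := om_pow_emb m' n'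
  interval_cases k <;> interval_cases k' <;>
    simp only [a0, a1, a2, a3, a4, a5, b0, b1, b2, b3, b4, b5] at h <;>
    have hh := emb_inj h <;> omega

/-- coordinates in the four subsectors -/
def mn (t : Fin 4) (a b : ℕ) : ℤ × ℤ :=
  match t with
  | 0 => (a + 2 * b, b)
  | 1 => (2 * a + b, a + b)
  | 2 => (a + b, a + 2 * b)
  | 3 => (a, 2 * a + b)

lemma mn_pos (t : Fin 4) {a b : ℕ} (ha : 1 ≤ a) : 1 ≤ (mn t a b).1 ∧ 0 ≤ (mn t a b).2 := by
  fin_cases t <;> simp [mn] <;> omega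

lemma mn_inj {t t' : Fin 4} {a b a' b' : ℕ} (ha : 1 ≤ a) (ha' : 1 ≤ a')
    (h : mn t a b = mn t' a' b') : t = t' ∧ a = a' ∧ b = b' := by
  fin_cases t <;> fin_cases t' <;> simp [mn, Prod.ext_iff] at h ⊢ <;> omega

/-- the first and second step of a subsector, and its displacement -/
noncomputable def u1 (t : Fin 4) : ℂ :=
  match t with
  | 0 => 1
  | 1 => 2 + om
  | 2 => 1 + om
  | 3 => 1 + 2 * om
noncomputable def u2 (t : Fin 4) : ℂ :=
  match t with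
  | 0 => 2 + om
  | 1 => 1 + om
  | 2 => 1 + 2 * om
  | 3 => om
noncomputable def g1 (S : Finset E) (t : Fin 4) : E × E → E × E :=
  match t with
  | 0 => stA S
  | 1 => stP S
  | 2 => stQ S
  | 3 => stP' S
noncomputable def g2 (S : Finset E) (t : Fin 4) : E × E → E × E :=
  match t with
  | 0 => stP S
  | 1 => stQ S
  | 2 => stP' S
  | 3 => stB S
noncomputable def p1 (t : Fin 4) : ℝ :=
  match t with
  | 0 => 1
  | 1 => √7
  | 2 => √3
  | 3 => √7
noncomputable def p2 (t : Fin 4) : ℝ :=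
  match t with
  | 0 => √7
  | 1 => √3
  | 2 => √7
  | 3 => 1
noncomputable def B1 (S : Finset E) (B₀ : Finset (E × E)) (t : Fin 4) : Finset (E × E) :=
  match t with
  | 0 => B₀
  | 1 => BP S B₀
  | 2 => BQ S B₀
  | 3 => BP' S B₀
noncomputable def B2 (S : Finset E) (B₀ : Finset (E × E)) (t : Fin 4) : Finset (E × E) :=
  match t with
  | 0 => BP S B₀
  | 1 => BQ S B₀
  | 2 => BP' S B₀
  | 3 => B₀

lemma disp_eq (t : Fin 4) (a b : ℕ) :
    (a : ℂ) * u1 t + b * u2 t = emb (mn t a b).1 (mn t a b).2 := by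
  fin_cases t <;> simp [mn, u1, u2, emb] <;> ring

lemma one_le_sqrt3 : 1 ≤ √3 := Real.one_le_sqrt.2 (by norm_num)
lemma one_le_sqrt7 : 1 ≤ √7 := Real.one_le_sqrt.2 (by norm_num)

lemma one_le_p1 (t : Fin 4) : 1 ≤ p1 t := by
  fin_cases t <;> simp [p1, one_le_sqrt3, one_le_sqrt7]
lemma one_le_p2 (t : Fin 4) : 1 ≤ p2 t := by
  fin_cases t <;> simp [p2, one_le_sqrt3, one_le_sqrt7]

section
variable {S : Finset E} {s θ l : ℝ} {B₀ : Finset (E × E)}
variable (hS : Simp S) (hs : 0 < s) (hθ : 0 ≤ θ) (hθ1 : θ ≤ 1 / 2)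
  (hsmall : 7 * ((1 + 2 * θ) * s) ^ 2 ≤ 2 * θ) (hl : ∀ v w, Adj S v w → ‖v - w‖ ≤ l)
  (hl0 : 0 ≤ l) (hB₀ : B₀ ⊆ darts S) (hnear : ∀ d ∈ darts S, d ∉ B₀ → NearD S s θ d)

include hS hs hθ hθ1 hsmall hl hl0 hB₀ hnear

lemma isStep1 (t : Fin 4) : IsStep S (p1 t) ((1 + 4 * θ) * s) (6 * l)
    (4 * B₀.card + 3 * (irr S).card) (g1 S t) (B1 S B₀ t) := by
  fin_cases t
  · exact isStep_A hS hs hθ hθ1 hsmall hl hl0 hB₀ hnear
  · exact isStep_P hS hs hθ hθ1 hsmall hl hl0 hB₀ hnear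
  · exact isStep_Q hS hs hθ hθ1 hsmall hl hl0 hB₀ hnear
  · exact isStep_P' hS hs hθ hθ1 hsmall hl hl0 hB₀ hnear

lemma isStep2 (t : Fin 4) : IsStep S (p2 t) ((1 + 4 * θ) * s) (6 * l)
    (4 * B₀.card + 3 * (irr S).card) (g2 S t) (B2 S B₀ t) := by
  fin_cases t
  · exact isStep_P hS hs hθ hθ1 hsmall hl hl0 hB₀ hnear
  · exact isStep_Q hS hs hθ hθ1 hsmall hl hl0 hB₀ hnear
  · exact isStep_P' hS hs hθ hθ1 hsmall hl hl0 hB₀ hnear
  · exact isStep_B hS hs hθ hθ1 hsmall hl hl0 hB₀ hnear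

end

section
variable {S : Finset E} {e : E} {κ l : ℝ} {H : E → E → Equiv.Perm ℂ}
  (hS : Simp S) (he : dot e e = 1) (hl : ∀ v w, Adj S v w → ‖v - w‖ ≤ l) (hl0 : 0 ≤ l)
  (HR : ∀ v w, Adj S v w → v ∈ Cone e κ → H v (third S v w) = H v w * rho)
  (HM : ∀ v w, Adj S v w → v ∈ Cone e κ → w ∈ Cone e κ → H w v = H v w * mu)

include hS he hl hl0 HR HM

lemma tr1 (t : Fin 4) : TrStep S H e (κ + 3 * l) (g1 S t) (u1 t) := by
  intro d hd h
  fin_cases t
  · exact HD_A hS he hl hl0 HR HM hd (by linarith)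
  · exact HD_P hS he hl hl0 HR HM hd (by linarith)
  · exact HD_Q hS he hl hl0 HR HM hd (by linarith)
  · exact HD_P' hS he hl hl0 HR HM hd (by linarith)

lemma tr2 (t : Fin 4) : TrStep S H e (κ + 3 * l) (g2 S t) (u2 t) := by
  intro d hd h
  fin_cases t
  · exact HD_P hS he hl hl0 HR HM hd (by linarith)
  · exact HD_Q hS he hl hl0 HR HM hd (by linarith)
  · exact HD_P' hS he hl hl0 HR HM hd (by linarith)
  · exact HD_B hS he hl hl0 HR HM hd (by linarith)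

end

/-- end dart of the path with index `(k, t, a, b)` starting from `d` -/
noncomputable def endD (S : Finset E) (d : E × E) (i : ℕ × Fin 4 × ℕ × ℕ) : E × E :=
  (g2 S i.2.1)^[i.2.2.2] ((g1 S i.2.1)^[i.2.2.1] ((rot S)^[i.1] d))

/-- injectivity of the development -/
theorem endD_inj {S : Finset E} {e : E} {κ l : ℝ} {H : E → E → Equiv.Perm ℂ}
    (hS : Simp S) (he : dot e e = 1) (hl : ∀ v w, Adj S v w → ‖v - w‖ ≤ l) (hl0 : 0 ≤ l)
    (HR : ∀ v w, Adj S v w → v ∈ Cone e κ → H v (third S v w) = H v w * rho)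
    (HM : ∀ v w, Adj S v w → v ∈ Cone e κ → w ∈ Cone e κ → H w v = H v w * mu)
    (h6 : ∀ v ∈ S, κ < dot e v → (nb S v).card = 6)
    {d : E × E} (hd : d ∈ darts S)
    {i j : ℕ × Fin 4 × ℕ × ℕ} (hi : i.1 < 6) (hj : j.1 < 6) (hia : 1 ≤ i.2.2.1)
    (hja : 1 ≤ j.2.2.1)
    (hi1 : ∀ n ≤ i.2.2.1, κ + 3 * l < dot e ((g1 S i.2.1)^[n] ((rot S)^[i.1] d)).1)
    (hi2 : ∀ n ≤ i.2.2.2, κ + 3 * l < dot e ((g2 S i.2.1)^[n] ((g1 S i.2.1)^[i.2.2.1]
      ((rot S)^[i.1] d))).1)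
    (hj1 : ∀ n ≤ j.2.2.1, κ + 3 * l < dot e ((g1 S j.2.1)^[n] ((rot S)^[j.1] d)).1)
    (hj2 : ∀ n ≤ j.2.2.2, κ + 3 * l < dot e ((g2 S j.2.1)^[n] ((g1 S j.2.1)^[j.2.2.1]
      ((rot S)^[j.1] d))).1)
    (heq : (endD S d i).1 = (endD S d j).1) : i = j := by
  have hu : ∀ v ∈ S, dot v v = 1 := hS.unit
  -- formula for HD at the end
  have key : ∀ i : ℕ × Fin 4 × ℕ × ℕ,
      (∀ n ≤ i.2.2.1, κ + 3 * l < dot e ((g1 S i.2.1)^[n] ((rot S)^[i.1] d)).1) →
      (∀ n ≤ i.2.2.2, κ + 3 * l < dot e ((g2 S i.2.1)^[n] ((g1 S i.2.1)^[i.2.2.1]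
        ((rot S)^[i.1] d))).1) →
      endD S d i ∈ darts S ∧ κ < dot e (endD S d i).1 ∧
      HD H (endD S d i) = HD H d * rho ^ i.1 *
        tau (emb (mn i.2.1 i.2.2.1 i.2.2.2).1 (mn i.2.1 i.2.2.1 i.2.2.2).2) := by
    intro i h1 h2
    obtain ⟨k, t, a, b⟩ := i
    simp only at h1 h2 ⊢
    have hdk : (rot S)^[k] d ∈ darts S := ((isPerm_rot hS).iterate k).1 d hd
    have pg1 : IsPerm S (g1 S t) := by
      fin_cases t
      · exact isPerm_A hS
      · exact isPerm_P hS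
      · exact isPerm_Q hS
      · exact isPerm_P' hS
    have pg2 : IsPerm S (g2 S t) := by
      fin_cases t
      · exact isPerm_P hS
      · exact isPerm_Q hS
      · exact isPerm_P' hS
      · exact isPerm_B hS
    have hx1 : (g1 S t)^[a] ((rot S)^[k] d) ∈ darts S := (pg1.iterate a).1 _ hdk
    have hx2 : (g2 S t)^[b] ((g1 S t)^[a] ((rot S)^[k] d)) ∈ darts S := (pg2.iterate b).1 _ hx1
    have e1 := (tr1 hS he hl hl0 HR HM t).iterate pg1 hdk a (fun i hi => h1 i hi.le)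
    have e2 := (tr2 hS he hl hl0 HR HM t).iterate pg2 hx1 b (fun i hi => h2 i hi.le)
    have hd1 : κ < dot e d.1 := by
      have := h1 0 (Nat.zero_le _)
      rw [Function.iterate_zero, id_eq, rot_iter] at this
      simp only at this
      linarith
    have e3 : HD H ((rot S)^[k] d) = HD H d * rho ^ k :=
      HD_rot hS HR k hd ((mem_Cone_unit (hu _ (mem_darts.1 hd).mem_left)).2 hd1)
    refine ⟨hx2, ?_, ?_⟩
    · have := h2 b le_rfl
      have h0 : endD S d (k, t, a, b) = (g2 S t)^[b] ((g1 S t)^[a] ((rot S)^[k] d)) := rfl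
      rw [h0]; linarith
    · have h0 : endD S d (k, t, a, b) = (g2 S t)^[b] ((g1 S t)^[a] ((rot S)^[k] d)) := rfl
      rw [h0, e2, e1, e3, mul_assoc (HD H d * rho ^ k), tau_mul, disp_eq]
  obtain ⟨m1, c1, k1⟩ := key i hi1 hi2
  obtain ⟨m2, c2, k2⟩ := key j hj1 hj2
  -- the two end darts differ by a rotation
  set y := endD S d i with hy
  set y' := endD S d j with hy'
  have hAy : Adj S y.1 y.2 := mem_darts.1 m1
  have hAy' : Adj S y.1 y'.2 := by rw [heq]; exact mem_darts.1 m2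
  obtain ⟨r, hr, her⟩ := (cycle hS hAy.mem_left (mem_nb.2 hAy)).2.1 _ (mem_nb.2 hAy')
  have hyr : y' = (rot S)^[r] y := by
    rw [rot_iter]
    exact Prod.ext heq.symm her.symm
  have k3 : HD H y' = HD H y * rho ^ r := by
    rw [hyr]
    exact HD_rot hS HR r m1 ((mem_Cone_unit (hu _ hAy.mem_left)).2 c1)
  rw [k1, k2] at k3
  have k4 := congrArg (fun f : Equiv.Perm ℂ => f 0) k3
  simp only [Equiv.Perm.mul_apply, rho_pow_apply, tau_apply, mul_zero, zero_add] at k4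
  have k5 := (HD H d).injective k4
  obtain ⟨q1, q2⟩ := mn_pos i.2.1 (b := i.2.2.2) hia
  obtain ⟨q3, q4⟩ := mn_pos j.2.1 (b := j.2.2.2) hja
  obtain ⟨r1, r2, r3⟩ := sector_inj hj hi q3 q4 q1 q2 k5
  obtain ⟨s1, s2, s3⟩ := mn_inj hja hia (Prod.ext r2 r3)
  exact Prod.ext r1.symm (Prod.ext s1.symm (Prod.ext s2.symm s3.symm))

end Med
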