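import Pool.Agent.Med.Darts

set_option autoImplicit false

open Finset

namespace Med

lemma dot_lt_one {a x : E} (ha : dot a a = 1) (hx : dot x x = 1) (h : x ≠ a) : dot a x < 1 := by
  have : 0 < dot (a - x) (a - x) := dot_self_pos (sub_ne_zero.2 h.symm)
  rw [sub_dot, dot_sub, dot_sub, ha, hx, dot_comm x a] at this
  linarith

lemma dot_le_one {a x : E} (ha : dot a a = 1) (hx : dot x x = 1) : dot a x ≤ 1 := by
  have : 0 ≤ dot (a - x) (a - x) := dot_self_nonneg _
  rw [sub_dot, dot_sub, dot_sub, ha, hx, dot_comm x a] at this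
  linarith

/-- points of `S` are vertices -/
lemma vertex {S : Finset E} (hS : Simp S) {a x y w : E} (ha : a ∈ S) (h : Tri S x y w)
    (hin : InC x y w a) : a = x ∨ a = y ∨ a = w := by
  obtain ⟨α, β, γ, h1, h2, h3, he⟩ := hin
  obtain ⟨m, m1, m2, m3, m4⟩ := h.exists_dual
  by_contra hcon
  push Not at hcon
  have ha1 := hS.unit a ha
  have lx := dot_lt_one ha1 (hS.unit x h.1) hcon.1.symm
  have ly := dot_lt_one ha1 (hS.unit y h.2.1) hcon.2.1.symm
  have lw := dot_lt_one ha1 (hS.unit w h.2.2.1) hcon.2.2.symm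
  have e1 : dot m a = α + β + γ := by
    rw [he, dot_add, dot_add, dot_smul, dot_smul, dot_smul, m1, m2, m3]; ring
  have e2 : dot a a = α * dot a x + β * dot a y + γ * dot a w := by
    conv_lhs => rw [he]
    rw [add_dot, add_dot, smul_dot, smul_dot, smul_dot, ← he, dot_comm x a, dot_comm y a,
      dot_comm w a]
  have e3 := m4 a ha
  rw [ha1] at e2
  rcases eq_or_lt_of_le h1 with g1 | g1
  · rcases eq_or_lt_of_le h2 with g2 | g2
    · rcases eq_or_lt_of_le h3 with g3 | g3
      · rw [← g1, ← g2, ← g3] at e2; norm_num at e2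
      · nlinarith
    · nlinarith
  · nlinarith

/-- every direction at `a` lies in the sector of some neighbour -/
lemma sec_cover {S : Finset E} (hS : Simp S) {a : E} (ha : a ∈ S) (u : E) :
    ∃ b ∈ nb S a, ∃ l β γ : ℝ, 0 ≤ β ∧ 0 ≤ γ ∧ u = l • a + β • b + γ • third S a b ∧
      ∃ t₀ : ℝ, 0 < t₀ ∧ InC a b (third S a b) (a + t₀ • u) := by
  obtain ⟨x, y, w, htri, t₀, ht0, hin⟩ := cover_dir hS a u
  have hin0 := hin 0 le_rfl ht0.le
  rw [zero_smul, add_zero] at hin0
  have hin1 := hin t₀ ht0.le le_rfl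
  have key : ∀ b c, Tri S a b c → InC a b c (a + t₀ • u) → ∃ b ∈ nb S a, ∃ l β γ : ℝ,
      0 ≤ β ∧ 0 ≤ γ ∧ u = l • a + β • b + γ • third S a b ∧
      ∃ t₀ : ℝ, 0 < t₀ ∧ InC a b (third S a b) (a + t₀ • u) := by
    intro b c hb hc
    refine ⟨b, mem_nb.2 ⟨c, hb⟩, ?_⟩
    rw [third_eq hb]
    obtain ⟨α, β, γ, h1, h2, h3, he⟩ := hc
    refine ⟨(α - 1) / t₀, β / t₀, γ / t₀, by positivity, by positivity, ?_, t₀, ht0,
      ⟨α, β, γ, h1, h2, h3, he⟩⟩
    have : t₀ • u = (α - 1) • a + β • b + γ • c := by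
      have : t₀ • u = (a + t₀ • u) - a := by module
      rw [this, he]; module
    have h4 : u = t₀⁻¹ • (t₀ • u) := by rw [smul_smul, inv_mul_cancel₀ ht0.ne', one_smul]
    rw [h4, this]
    simp only [div_eq_inv_mul]
    module
  rcases vertex hS ha htri hin0 with rfl | rfl | rfl
  · exact key _ _ htri hin1
  · exact key _ _ htri.cyc hin1.cyc
  · exact key _ _ htri.cyc.cyc hin1.cyc.cyc

lemma nb_nonempty {S : Finset E} (hS : Simp S) {a : E} (ha : a ∈ S) : (nb S a).Nonempty := by
  obtain ⟨b, hb, -⟩ := sec_cover hS ha 0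
  exact ⟨b, hb⟩

/-- two sectors overlap only along common rays -/
lemma sec_disjoint {S : Finset E} {a b b' : E} (h : Adj S a b) (h' : Adj S a b')
    {l β γ l' β' γ' : ℝ} (hβ : 0 ≤ β) (hγ : 0 ≤ γ) (hβ' : 0 ≤ β') (hγ' : 0 ≤ γ')
    (he : l • a + β • b + γ • third S a b = l' • a + β' • b' + γ' • third S a b')
    (hne : 0 < β ∨ 0 < γ) :
    b = b' ∨ b = third S a b' ∨ third S a b = b' := by
  have ht := third_spec h
  have ht' := third_spec h'
  -- add a large multiple of a
  set L := |l| + |l'| with hL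
  have hl : 0 ≤ L + l := by
    have h1 := neg_abs_le l; have h2 := abs_nonneg l'; linarith
  have hl' : 0 ≤ L + l' := by
    have h1 := neg_abs_le l'; have h2 := abs_nonneg l; linarith
  have hin : InC a b' (third S a b') ((L + l) • a + β • b + γ • third S a b) := by
    refine ⟨L + l', β', γ', hl', hβ', hγ', ?_⟩
    have : (L + l) • a + β • b + γ • third S a b
        = L • a + (l • a + β • b + γ • third S a b) := by module
    rw [this, he]; module
  rcases hne with h1 | h1
  · have hin' : InC a b' (third S a b') (β • b + γ • third S a b + (L + l) • a) := by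
      have : β • b + γ • third S a b + (L + l) • a =
        (L + l) • a + β • b + γ • third S a b := by module
      rw [this]; exact hin
    rcases carrier ht.cyc ht' h1 hγ hl hin' with e | e | e
    · exact absurd e ht.ne_ab.symm
    · exact Or.inl e
    · exact Or.inr (Or.inl e)
  · have hin' : InC a b' (third S a b') (γ • third S a b + (L + l) • a + β • b) := by
      have : γ • third S a b + (L + l) • a + β • b =
        (L + l) • a + β • b + γ • third S a b := by module
      rw [this]; exact hin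
    rcases carrier ht.cyc.cyc ht' h1 hl hβ hin' with e | e | e
    · exact absurd e ht.ne_ac.symm
    · exact Or.inr (Or.inr e)
    · exact Or.inl (third_injOn h h' e)

/-- the closed sector -/
def Sec (S : Finset E) (a b : E) : Set E :=
  {u | 0 ≤ det a u (third S a b) ∧ 0 ≤ det a b u}

lemma isClosed_Sec (S : Finset E) (a b : E) : IsClosed (Sec S a b) :=
  (isClosed_le continuous_const (continuous_det2 a _)).inter
    (isClosed_le continuous_const (continuous_det3 a b))

lemma mem_Sec {S : Finset E} {a b : E} (h : Adj S a b) {u : E} :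
    u ∈ Sec S a b ↔ ∃ l β γ : ℝ, 0 ≤ β ∧ 0 ≤ γ ∧ u = l • a + β • b + γ • third S a b := by
  have ht := third_spec h
  have hd := ht.2.2.2.1
  constructor
  · rintro ⟨h1, h2⟩
    refine ⟨det u b (third S a b) / det a b (third S a b), det a u (third S a b) /
      det a b (third S a b), det a b u / det a b (third S a b), by positivity, by positivity, ?_⟩
    have hc := cramer a b (third S a b) u
    have hc2 : u = (det a b (third S a b))⁻¹ • (det u b (third S a b) • a +
        det a u (third S a b) • b + det a b u • third S a b) := by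
      rw [← hc, smul_smul, inv_mul_cancel₀ hd.ne', one_smul]
    refine hc2.trans ?_
    rw [smul_add, smul_add, smul_smul, smul_smul, smul_smul]
    simp only [div_eq_inv_mul]
  · rintro ⟨l, β, γ, h1, h2, rfl⟩
    refine ⟨?_, ?_⟩
    · simp only [det_add_mid, det_smul_mid, det_self12, det_self23, mul_zero, add_zero, zero_add]
      positivity
    · simp only [det_add_right, det_smul_right, det_self13, det_self23, mul_zero, add_zero,
        zero_add]
      positivity

lemma connected_compl_span {a : E} : IsConnected ((Submodule.span ℝ {a} : Set E)ᶜ) := by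
  apply isConnected_compl_of_one_lt_codim
  rw [← Module.finrank_eq_rank]
  have h1 := Submodule.finrank_quotient_add_finrank (Submodule.span ℝ {a})
  have h2 : Module.finrank ℝ E = 3 := by simp [E]
  have h3 : Module.finrank ℝ (Submodule.span ℝ {a}) ≤ 1 := by
    have := finrank_span_le_card (R := ℝ) ({a} : Set E)
    simpa using this
  have : 2 ≤ Module.finrank ℝ (E ⧸ Submodule.span ℝ {a}) := by omega
  exact_mod_cast this

/-- `third` acts transitively on the neighbours of a vertex -/
theorem orbit {S : Finset E} (hS : Simp S) {a : E} (ha : a ∈ S) {O : Finset E}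
    (hO : O ⊆ nb S a) (hne : O.Nonempty) (hcl : ∀ b ∈ O, third S a b ∈ O) : O = nb S a := by
  classical
  -- O is also closed under the inverse
  have hinj : Set.InjOn (third S a) O := by
    intro b hb b' hb' he
    exact third_injOn (mem_nb.1 (hO hb)) (mem_nb.1 (hO hb')) he
  have himg : O.image (third S a) = O := by
    apply Finset.eq_of_subset_of_card_le
    · intro x hx
      obtain ⟨b, hb, rfl⟩ := Finset.mem_image.1 hx
      exact hcl b hb
    · rw [Finset.card_image_of_injOn hinj]
  have hinv : ∀ b ∈ nb S a, third S a b ∈ O → b ∈ O := by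
    intro b hb hbO
    rw [← himg] at hbO
    obtain ⟨b', hb', he⟩ := Finset.mem_image.1 hbO
    have := third_injOn (mem_nb.1 (hO hb')) (mem_nb.1 hb) he
    rwa [← this]
  by_contra hcon
  have hne' : ∃ b' ∈ nb S a, b' ∉ O := by
    by_contra h
    push Not at h
    exact hcon (Finset.Subset.antisymm hO h)
  obtain ⟨b', hb', hb'O⟩ := hne'
  obtain ⟨b, hb⟩ := hne
  set A : Set E := ⋃ b ∈ O, Sec S a b with hA
  set A' : Set E := ⋃ b ∈ nb S a \ O, Sec S a b with hA'
  have hAcl : IsClosed A := by
    apply Set.Finite.isClosed_biUnion (Finset.finite_toSet O)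
    exact fun i _ => isClosed_Sec S a i
  have hAcl' : IsClosed A' := by
    apply Set.Finite.isClosed_biUnion (Finset.finite_toSet (nb S a \ O))
    exact fun i _ => isClosed_Sec S a i
  have hcover : ((Submodule.span ℝ {a} : Set E)ᶜ) ⊆ A ∪ A' := by
    intro u _
    obtain ⟨c, hc, l, β, γ, h1, h2, h3, -⟩ := sec_cover hS ha u
    have hmem : u ∈ Sec S a c := (mem_Sec (mem_nb.1 hc)).2 ⟨l, β, γ, h1, h2, h3⟩
    by_cases hcO : c ∈ O
    · left; exact Set.mem_biUnion hcO hmem
    · right; exact Set.mem_biUnion (Finset.mem_sdiff.2 ⟨hc, hcO⟩) hmem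
  have hnot : ∀ c, Adj S a c → c ∉ Submodule.span ℝ {a} := by
    intro c hc hmem
    obtain ⟨r, rfl⟩ := Submodule.mem_span_singleton.1 hmem
    have := (third_spec hc).2.2.2.1
    rw [det_smul_mid, det_self12] at this
    simp at this
  have hself : ∀ c, Adj S a c → c ∈ Sec S a c := by
    intro c hc
    exact (mem_Sec hc).2 ⟨0, 1, 0, zero_le_one, le_rfl, by module⟩
  have hconn := (connected_compl_span (a := a)).isPreconnected
  rw [isPreconnected_closed_iff] at hconn
  obtain ⟨u, hu, hu1, hu2⟩ := hconn A A' hAcl hAcl' hcover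
    ⟨b, hnot b (mem_nb.1 (hO hb)), Set.mem_biUnion hb (hself b (mem_nb.1 (hO hb)))⟩
    ⟨b', hnot b' (mem_nb.1 hb'), Set.mem_biUnion (Finset.mem_sdiff.2 ⟨hb', hb'O⟩)
      (hself b' (mem_nb.1 hb'))⟩
  simp only [hA, hA', Set.mem_iUnion, exists_prop, Finset.mem_sdiff] at hu1 hu2
  obtain ⟨c, hcO, hc⟩ := hu1
  obtain ⟨c', ⟨hc'n, hc'O⟩, hc'⟩ := hu2
  have hcA := mem_nb.1 (hO hcO)
  have hcA' := mem_nb.1 hc'n
  obtain ⟨l, β, γ, h1, h2, h3⟩ := (mem_Sec hcA).1 hc
  obtain ⟨l', β', γ', h1', h2', h3'⟩ := (mem_Sec hcA').1 hc'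
  have hpos : 0 < β ∨ 0 < γ := by
    by_contra hh
    push Not at hh
    have e1 : β = 0 := le_antisymm hh.1 h1
    have e2 : γ = 0 := le_antisymm hh.2 h2
    apply hu
    rw [h3, e1, e2]
    simp only [zero_smul, add_zero]
    exact Submodule.smul_mem _ _ (Submodule.mem_span_singleton_self a)
  rcases sec_disjoint hcA hcA' h1 h2 h1' h2' (h3.symm.trans h3') hpos with e | e | e
  · exact hc'O (e ▸ hcO)
  · exact hc'O (hinv c' hc'n (e ▸ hcO))
  · exact hc'O (e ▸ hcl c hcO)

end Med
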