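import Pool.Agent.Med.StepLen

set_option autoImplicit false

open Finset

namespace Med

/-- the angular distance -/
noncomputable def ang (x y : E) : ℝ := InnerProductGeometry.angle x y

lemma ang_nonneg (x y : E) : 0 ≤ ang x y := InnerProductGeometry.angle_nonneg x y
lemma ang_self {x : E} (hx : dot x x = 1) : ang x x = 0 := by
  apply InnerProductGeometry.angle_self
  rintro rfl; simp at hx
lemma ang_comm (x y : E) : ang x y = ang y x := InnerProductGeometry.angle_comm x y
lemma ang_le_pi (x y : E) : ang x y ≤ Real.pi := InnerProductGeometry.angle_le_pi x y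

lemma norm_of_unit {x : E} (hx : dot x x = 1) : ‖x‖ = 1 := by
  rw [dot_self] at hx
  nlinarith [norm_nonneg x]

lemma cos_ang {x y : E} (hx : dot x x = 1) (hy : dot y y = 1) : Real.cos (ang x y) = dot x y := by
  rw [ang, InnerProductGeometry.cos_angle, norm_of_unit hx, norm_of_unit hy, inner_eq]; simp

lemma ang_triangle (x y z : E) :
    ang x z ≤ ang x y + ang y z :=
  InnerProductGeometry.angle_le_angle_add_angle x y z

lemma chord_eq {x y : E} (hx : dot x x = 1) (hy : dot y y = 1) :
    ‖x - y‖ = 2 * Real.sin (ang x y / 2) := by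
  have h1 : ‖x - y‖ ^ 2 = (2 * Real.sin (ang x y / 2)) ^ 2 := by
    rw [norm_sq_eq, sub_dot, dot_sub, dot_sub, hx, hy, dot_comm y x, ← cos_ang hx hy]
    have : Real.cos (ang x y) = 1 - 2 * Real.sin (ang x y / 2) ^ 2 := by
      have h := Real.cos_sq' (ang x y / 2)
      have h2 := Real.cos_two_mul (ang x y / 2)
      rw [show 2 * (ang x y / 2) = ang x y by ring] at h2
      rw [h2, h]; ring
    rw [this]; ring
  have h2 : 0 ≤ 2 * Real.sin (ang x y / 2) := by
    have := Real.sin_nonneg_of_nonneg_of_le_pi (x := ang x y / 2)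
      (by have := ang_nonneg x y; linarith)
      (by have := ang_le_pi x y; have := Real.pi_pos; linarith)
    linarith
  exact (pow_left_inj₀ (norm_nonneg _) h2 (by norm_num)).1 h1

lemma ang_le_two {x y : E} (hx : dot x x = 1) (hy : dot y y = 1) : ang x y ≤ 2 * ‖x - y‖ := by
  rw [chord_eq hx hy]
  have h1 := Real.mul_le_sin (x := ang x y / 2) (by have := ang_nonneg x y; linarith)
    (by have := ang_le_pi x y; linarith)
  have hpi : Real.pi < 4 := Real.pi_lt_four
  have hpos := Real.pi_pos
  have h2 : 1 / 2 ≤ 2 / Real.pi := by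
    rw [div_le_div_iff₀ (by norm_num) hpos]; linarith
  have h3 : 1 / 2 * (ang x y / 2) ≤ 2 / Real.pi * (ang x y / 2) := by
    have := ang_nonneg x y
    gcongr
  linarith

lemma ang_le_small {x y : E} {θ : ℝ} (hx : dot x x = 1) (hy : dot y y = 1) (hθ : 0 ≤ θ)
    (hθ1 : θ ≤ 1 / 2) (h : ‖x - y‖ ^ 2 ≤ 2 * θ) : ang x y ≤ (1 + θ) * ‖x - y‖ := by
  have h0 := ang_nonneg x y
  rcases h0.eq_or_lt with h0' | h0'
  · rw [← h0']; positivity
  have h1 := ang_le_two hx hy
  set c := ‖x - y‖ with hc
  have hc0 : 0 ≤ c := norm_nonneg _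
  set t := ang x y / 2 with ht
  have htc : t ≤ c := by rw [ht]; linarith
  have ht0 : 0 < t := by rw [ht]; linarith
  have hc1 : c ≤ 1 := by nlinarith
  have h2 := Real.sin_gt_sub_cube ht0
  have h3 : c = 2 * Real.sin t := chord_eq hx hy
  have h4 : ang x y = 2 * t := by rw [ht]; ring
  rw [h4]
  have h5 : t ^ 2 ≤ 2 * θ := by nlinarith
  have h6 : 2 * t * (1 - t ^ 2 / 6) ≤ c := by nlinarith
  -- (1+θ)(1 - θ/2) ≥ 1
  have h7 : 2 * t * (1 - θ / 2) ≤ c := by nlinarith
  nlinarith

/-- number of bad encounters -/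
noncomputable def bc (B : Finset (E × E)) (g : E × E → E × E) (n : ℕ) (x : E × E) : ℝ :=
  open Classical in ∑ i ∈ Finset.range n, if g^[i] x ∈ B then (1 : ℝ) else 0

lemma bc_nonneg (B : Finset (E × E)) (g : E × E → E × E) (n : ℕ) (x : E × E) :
    0 ≤ bc B g n x := by
  classical
  unfold bc
  exact Finset.sum_nonneg fun i _ => by split_ifs <;> norm_num

lemma bc_mono (B : Finset (E × E)) (g : E × E → E × E) {m n : ℕ} (h : m ≤ n) (x : E × E) :
    bc B g m x ≤ bc B g n x := by
  classical
  unfold bc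
  refine Finset.sum_le_sum_of_subset_of_nonneg (Finset.range_mono h) ?_
  intro i _ _
  split_ifs <;> norm_num

lemma sum_mem {S : Finset E} {g : E × E → E × E} (hg : IsPerm S g) {B : Finset (E × E)}
    (hB : B ⊆ darts S) :
    open Classical in ∑ x ∈ darts S, (if g x ∈ B then (1 : ℝ) else 0) = B.card := by
  classical
  rw [hg.2 (fun x => if x ∈ B then (1 : ℝ) else 0)]
  rw [Finset.sum_ite_mem, Finset.inter_eq_right.2 hB]
  simp

lemma sum_bc {S : Finset E} {g : E × E → E × E} (hg : IsPerm S g) {B : Finset (E × E)}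
    (hB : B ⊆ darts S) (n : ℕ) : ∑ x ∈ darts S, bc B g n x = n * B.card := by
  classical
  unfold bc
  rw [Finset.sum_comm]
  rw [Finset.sum_congr rfl (fun i _ => sum_mem (hg.iterate i) hB)]
  simp

lemma card_filter_mem {S : Finset E} {g : E × E → E × E} (hg : IsPerm S g) {B : Finset (E × E)}
    (hB : B ⊆ darts S) :
    open Classical in (((darts S).filter (fun x => g x ∈ B)).card : ℝ) = B.card := by
  classical
  rw [← sum_mem hg hB, Finset.sum_ite, Finset.sum_const_zero, add_zero, Finset.sum_const,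
    nsmul_eq_mul, mul_one]

/-- a step of the walk -/
structure IsStep (S : Finset E) (p lam L b : ℝ) (g : E × E → E × E) (B : Finset (E × E)) :
    Prop where
  perm : IsPerm S g
  sub : B ⊆ darts S
  card : (B.card : ℝ) ≤ b
  short : ∀ d ∈ darts S, d ∉ B → ang d.1 (g d).1 ≤ p * lam
  rough : ∀ d ∈ darts S, ang d.1 (g d).1 ≤ L

lemma IsStep.path {S : Finset E} (hS : Simp S) {p lam L b : ℝ} {g : E × E → E × E}
    {B : Finset (E × E)} (h : IsStep S p lam L b g B) (hlam : 0 ≤ p * lam) (hL : 0 ≤ L)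
    {x : E × E} (hx : x ∈ darts S) (n : ℕ) :
    ang x.1 (g^[n] x).1 ≤ n * (p * lam) + L * bc B g n x := by
  classical
  have hu : ∀ d ∈ darts S, dot d.1 d.1 = 1 := fun d hd => hS.unit _ (mem_darts.1 hd).mem_left
  induction n with
  | zero =>
    simp only [Function.iterate_zero, id_eq, Nat.cast_zero, zero_mul, zero_add]
    rw [ang_self (hu x hx)]
    exact mul_nonneg hL (bc_nonneg _ _ _ _)
  | succ n ih =>
    have hn : g^[n] x ∈ darts S := (h.perm.iterate n).1 x hx
    have hn1 : g^[n + 1] x ∈ darts S := (h.perm.iterate (n + 1)).1 x hx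
    have e : g^[n + 1] x = g (g^[n] x) := Function.iterate_succ_apply' g n x
    have t := ang_triangle x.1 (g^[n] x).1 (g^[n + 1] x).1
    have hbc : bc B g (n + 1) x = bc B g n x + if g^[n] x ∈ B then 1 else 0 := by
      unfold bc; rw [Finset.sum_range_succ]
    rw [hbc]
    push_cast
    by_cases hb : g^[n] x ∈ B
    · rw [if_pos hb]
      have := h.rough _ hn
      rw [e] at t ⊢
      nlinarith
    · rw [if_neg hb]
      have := h.short _ hn hb
      rw [e] at t ⊢
      nlinarith

end Med
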