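import Pool.Agent.Med.Core2
import Pool.Agent.Med.BadCount
import Pool.Agent.Med.EdgeBound

set_option autoImplicit false

open Finset MeasureTheory

namespace Med

set_option maxHeartbeats 4000000 in
/-- Rigidity: for large `n` no simplicial inscribed polyhedron with `n` vertices of valences 5
and 6 has nearly the volume of the best inscribed polyhedra. -/
theorem rigid (C : ℝ) : ∃ N : ℕ, ∀ n : ℕ, N ≤ n → ∀ S : Finset E, Simp S → S.card = n →
    (∀ v ∈ S, (nb S v).card = 5 ∨ (nb S v).card = 6) →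
    4 * Real.pi / 3 - (volume (convexHull ℝ (S : Set E))).toReal ≤
      4 * √3 * Real.pi ^ 2 / 3 / n * (1 + C * (n : ℝ) ^ (-(1 / 4) : ℝ)) → False := by
  classical
  obtain ⟨K1, N1, h1⟩ := bad_count (C := C) (θ := 1 / 10 ^ 4) (η := 1 / 10 ^ 9) (by norm_num)
    (by norm_num)
  obtain ⟨K2, N2, h2⟩ := edge_bound C
  obtain ⟨M, hM⟩ : ∃ M : ℝ, M = 16 * (|K1| + 1) * (|K2| + 1) := ⟨_, rfl⟩
  have hM0 : 0 < M := by rw [hM]; positivity
  have hlim : Filter.Tendsto (fun n : ℕ => (n : ℝ) ^ (-(1 / 16) : ℝ)) Filter.atTop (nhds 0) :=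
    (tendsto_rpow_neg_atTop (by norm_num : (0 : ℝ) < 1 / 16)).comp tendsto_natCast_atTop_atTop
  have hev : ∀ᶠ n : ℕ in Filter.atTop, (n : ℝ) ^ (-(1 / 16) : ℝ) < 1 / (10 ^ 15 * M) :=
    hlim.eventually (gt_mem_nhds (by positivity))
  obtain ⟨N3, h3⟩ := Filter.eventually_atTop.1 hev
  refine ⟨max (max N1 N2) (max N3 (2 * 10 ^ 9)), ?_⟩
  intro n hn S hS hcard hval hdef
  have hn1 : N1 ≤ n := (le_max_left _ _).trans ((le_max_left _ _).trans hn)
  have hn2 : N2 ≤ n := (le_max_right _ _).trans ((le_max_left _ _).trans hn)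
  have hn3 : N3 ≤ n := (le_max_left _ _).trans ((le_max_right _ _).trans hn)
  have hn4 : 2 * 10 ^ 9 ≤ n := (le_max_right _ _).trans ((le_max_right _ _).trans hn)
  have hnR : (2 * 10 ^ 9 : ℝ) ≤ n := by exact_mod_cast hn4
  have hn0 : (0 : ℝ) < n := lt_of_lt_of_le (by norm_num) hnR
  have hb := h1 n hn1 S hS hcard hval hdef
  have he := h2 n hn2 S hS hcard hval hdef
  have ht3 := h3 n hn3
  have hpi := Real.pi_gt_d6
  have hpi2 := Real.pi_lt_d6
  have k3 := sqrt3_lt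
  have k3' := sqrt3_gt
  have k0 : 0 < √3 := by linarith
  obtain ⟨t, ht⟩ : ∃ t : ℝ, t = (n : ℝ) ^ (-(1 / 16) : ℝ) := ⟨_, rfl⟩
  have ht0 : 0 < t := by rw [ht]; exact Real.rpow_pos_of_pos hn0 _
  rw [← ht] at ht3
  have htM : M * t ≤ 1 / 10 ^ 15 := by
    rw [lt_div_iff₀ (by positivity)] at ht3
    rw [le_div_iff₀ (by norm_num)]
    nlinarith
  have ht1 : t ≤ 1 := by
    have : 1 / (10 ^ 15 * M) ≤ 1 := by
      rw [div_le_one (by positivity)]
      have : 1 ≤ M := by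
        rw [hM]
        have a1 := abs_nonneg K1
        have a2 := abs_nonneg K2
        nlinarith [mul_nonneg a1 a2]
      nlinarith
    linarith
  have e16 : t ^ 16 = (n : ℝ)⁻¹ := by
    rw [ht, ← Real.rpow_natCast, ← Real.rpow_mul hn0.le, ← Real.rpow_neg_one]
    norm_num
  have e5 : (n : ℝ) ^ (-(5 / 16) : ℝ) = t ^ 5 := by
    rw [ht, ← Real.rpow_natCast, ← Real.rpow_mul hn0.le]
    norm_num
  have e12 : (n : ℝ) ^ (3 / 4 : ℝ) * t ^ 12 = 1 := by
    rw [ht, ← Real.rpow_natCast, ← Real.rpow_mul hn0.le, ← Real.rpow_add hn0]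
    norm_num
  obtain ⟨P, hP⟩ : ∃ P : ℝ, P = (n : ℝ) ^ (3 / 4 : ℝ) := ⟨_, rfl⟩
  rw [← hP] at e12 hb
  have hP0 : 0 ≤ P := by rw [hP]; positivity
  obtain ⟨s, hs⟩ : ∃ s : ℝ, s = √(8 * Real.pi / (√3 * n)) := ⟨_, rfl⟩
  rw [← hs] at hb
  have hs0 : 0 < s := by rw [hs]; apply Real.sqrt_pos.2; positivity
  have hs2 : s ^ 2 = 8 * Real.pi / (√3 * n) := by
    rw [hs]; exact Real.sq_sqrt (by positivity)
  have hs2' : s ^ 2 = 8 * Real.pi / √3 * t ^ 16 := by
    rw [hs2, e16]; field_simp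
  have hs2'' : s ^ 2 ≤ 16 * t ^ 16 := by
    rw [hs2']
    have : 8 * Real.pi / √3 ≤ 16 := by
      rw [div_le_iff₀ k0]; nlinarith
    gcongr
  have hs4 : s ≤ 4 * t ^ 8 := by
    apply le_of_sq_le_sq _ (by positivity)
    calc s ^ 2 ≤ 16 * t ^ 16 := hs2''
      _ = (4 * t ^ 8) ^ 2 := by ring
  have a1 := abs_nonneg K1
  have a2 := abs_nonneg K2
  have hpow : ∀ k : ℕ, 1 ≤ k → t ^ k ≤ t := by
    intro k hk
    calc t ^ k ≤ t ^ 1 := pow_le_pow_of_le_one ht0.le ht1 hk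
      _ = t := pow_one t
  have hM1 : 16 ≤ M := by rw [hM]; nlinarith [mul_nonneg a1 a2]
  have hM2 : |K2| ≤ M := by rw [hM]; nlinarith [mul_nonneg a1 a2]
  have hM3 : 16 * |K1| ≤ M := by rw [hM]; nlinarith [mul_nonneg a1 a2]
  have hM4 : 4 * (|K1| + 1) * |K2| ≤ M := by rw [hM]; nlinarith [mul_nonneg a1 a2]
  have key : ∀ c : ℝ, 0 ≤ c → c ≤ M → ∀ k : ℕ, 1 ≤ k → c * t ^ k ≤ 1 / 10 ^ 15 := by
    intro c hc hcM k hk
    have w1 : c * t ^ k ≤ M * t := mul_le_mul hcM (hpow k hk) (by positivity) hM0.le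
    exact w1.trans htM
  have hcB : ((badD S s (1 / 10 ^ 4) (1 / 10 ^ 9)).card : ℝ) ≤ |K1| * P :=
    hb.trans (mul_le_mul_of_nonneg_right (le_abs_self _) hP0)
  have hl : ∀ v w, Adj S v w → ‖v - w‖ ≤ |K2| * t ^ 5 := by
    intro v w h
    have := he v w h
    rw [e5] at this
    exact this.trans (mul_le_mul_of_nonneg_right (le_abs_self _) (by positivity))
  refine core (S := S) (s := s) (l := |K2| * t ^ 5)
    (B₀ := badD S s (1 / 10 ^ 4) (1 / 10 ^ 9)) ?_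
  have hdB : ∀ d ∈ darts S, d ∉ badD S s (1 / 10 ^ 4) (1 / 10 ^ 9) →
      NearD S s (1 / 10 ^ 4) d ∧
        (1 - 1 / 10 ^ 9) * (√3 * s ^ 2 / 12) ≤ det d.1 d.2 (third S d.1 d.2) / 6 := by
    intro d hd hdn
    by_contra hcon
    exact hdn (Finset.mem_filter.2 ⟨hd, hcon⟩)
  refine ⟨hS, hval, hs0, ?_, by positivity, ?_, Finset.filter_subset _ _,
    fun d hd hdn => (hdB d hd hdn).1, fun d hd hdn => (hdB d hd hdn).2, hl, ?_, ?_, ?_⟩
  · calc s ≤ 4 * t ^ 8 := hs4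
      _ ≤ 1 / 10 ^ 15 := key 4 (by norm_num) (by linarith) 8 (by norm_num)
      _ ≤ 1 / 10 ^ 9 := by norm_num
  · calc |K2| * t ^ 5 ≤ 1 / 10 ^ 15 := key _ a2 hM2 5 (by norm_num)
      _ ≤ 1 / 10 ^ 9 := by norm_num
  · -- count
    have hE := euler hS
    rw [hcard] at hE
    have hE' : (6 * n : ℝ) ≤ (darts S).card + 12 := by exact_mod_cast hE
    have hv : √3 * s ^ 2 / 12 = 2 * Real.pi / (3 * n) := by
      rw [hs2]; field_simp; norm_num
    rw [hv]
    have h5 : (6 * n - 12 : ℝ) * (2 * Real.pi / (3 * n)) ≤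
        (darts S).card * (2 * Real.pi / (3 * n)) := by
      apply mul_le_mul_of_nonneg_right _ (by positivity)
      linarith
    refine le_trans ?_ h5
    have h6 : (6 * n - 12 : ℝ) * (2 * Real.pi / (3 * n)) = 4 * Real.pi * (1 - 2 / n) := by
      field_simp; ring
    rw [h6]
    have h7 : (2 : ℝ) / n ≤ 1 / 10 ^ 9 := by
      rw [div_le_div_iff₀ hn0 (by norm_num)]; linarith
    have : (0 : ℝ) ≤ 4 * Real.pi := by positivity
    apply mul_le_mul_of_nonneg_left _ this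
    linarith
  · calc ((badD S s (1 / 10 ^ 4) (1 / 10 ^ 9)).card : ℝ) * s ^ 2 ≤
        (|K1| * P) * (16 * t ^ 16) := mul_le_mul hcB hs2'' (by positivity) (by positivity)
      _ = 16 * |K1| * t ^ 4 * (P * t ^ 12) := by ring
      _ = 16 * |K1| * t ^ 4 := by rw [e12, mul_one]
      _ ≤ 1 / 10 ^ 15 := key _ (by positivity) hM3 4 (by norm_num)
      _ ≤ 1 / 10 ^ 9 := by norm_num
  · calc ((badD S s (1 / 10 ^ 4) (1 / 10 ^ 9)).card + 1 : ℝ) * (|K2| * t ^ 5) * s ≤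
        (|K1| * P + 1) * (|K2| * t ^ 5) * (4 * t ^ 8) := by
          apply mul_le_mul _ hs4 hs0.le (by positivity)
          apply mul_le_mul_of_nonneg_right _ (by positivity)
          linarith
      _ = 4 * |K1| * |K2| * t * (P * t ^ 12) + 4 * |K2| * t ^ 13 := by ring
      _ = 4 * |K1| * |K2| * t + 4 * |K2| * t ^ 13 := by rw [e12, mul_one]
      _ ≤ 4 * |K1| * |K2| * t + 4 * |K2| * t := by
          have := hpow 13 (by norm_num)
          have : 4 * |K2| * t ^ 13 ≤ 4 * |K2| * t :=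
            mul_le_mul_of_nonneg_left this (by positivity)
          linarith
      _ = 4 * (|K1| + 1) * |K2| * t ^ 1 := by ring
      _ ≤ 1 / 10 ^ 15 := key _ (by positivity) hM4 1 le_rfl

end Med
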