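import Pool.Agent.Med.Steps

set_option autoImplicit false

open Finset

namespace Med

/-- the facet to the left of the dart is nearly equilateral -/
def NearD (S : Finset E) (s θ : ℝ) (d : E × E) : Prop := Near s θ d.1 d.2 (third S d.1 d.2)

section
variable {S : Finset E} {s θ : ℝ}

lemma lenA (hs : 0 < s) (hθ : 0 ≤ θ) {d : E × E} (h : NearD S s θ d) :
    ‖d.1 - (stA S d).1‖ ≤ (1 + 2 * θ) * s := by
  rw [stA_fst]
  have := h.1.2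
  nlinarith [mul_nonneg hθ hs.le]

lemma lenB (hs : 0 < s) (hθ : 0 ≤ θ) {d : E × E} (h : NearD S s θ d) :
    ‖d.1 - (stB S d).1‖ ≤ (1 + 2 * θ) * s := by
  rw [stB_fst]
  have h1 := h.2.2.2
  rw [norm_sub_rev] at h1
  nlinarith [mul_nonneg hθ hs.le]

lemma lenQ (hS : Simp S) (hs : 0 < s) (hθ : 0 ≤ θ) (hθ1 : θ ≤ 1) {d : E × E}
    (hd : d ∈ darts S) (h6 : (nb S d.2).card = 6) (h1 : NearD S s θ d)
    (h2 : NearD S s θ (rot S (stA S d))) :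
    ‖d.1 - (stQ S d).1‖ ≤ √3 * ((1 + 2 * θ) * s) := by
  obtain ⟨a, b⟩ := d
  have hA : Adj S a b := mem_darts.1 hd
  obtain ⟨q1, q2, q3⟩ := stQ_geom hS hA h6
  rw [q3] at h2
  unfold NearD at h1 h2
  simp only at h1 h2
  rw [q2] at h2
  set q := (stQ S (a, b)).1
  set c := third S a b
  -- Near a b c, Near b q c
  obtain ⟨⟨-, a1⟩, ⟨a2, -⟩, ⟨-, a3⟩⟩ := h1
  obtain ⟨⟨-, b1⟩, ⟨-, b2⟩, ⟨-, -⟩⟩ := h2
  show ‖a - q‖ ≤ _
  exact rhombus hs hθ hθ1 a1 (by rw [norm_sub_rev]; exact a3) a2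
    (by rw [norm_sub_rev]; exact b1) b2

lemma lenP (hS : Simp S) (hs : 0 < s) (hθ : 0 ≤ θ) (hθ1 : θ ≤ 1) {d : E × E}
    (hd : d ∈ darts S) (h6 : (nb S d.2).card = 6) (h6' : (nb S (stA S d).2).card = 6)
    (h1 : NearD S s θ d) (h2 : NearD S s θ (rot S (stA S d)))
    (h3 : NearD S s θ (stA S d)) (h4 : NearD S s θ (rot S (stA S (stA S d)))) :
    ‖d.1 - (stP S d).1‖ ≤ √7 * ((1 + 2 * θ) * s) := by
  have hd' : stA S d ∈ darts S := (isPerm_A hS).1 d hd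
  obtain ⟨a, b⟩ := d
  have hA : Adj S a b := mem_darts.1 hd
  obtain ⟨q1, q2, q3⟩ := stQ_geom hS hA h6
  generalize hst : stA S (a, b) = e at *
  have he1 : e.1 = b := by rw [← hst, stA_fst]
  obtain ⟨b0, b'⟩ := e
  simp only at he1 h6' q3 h2 h3 h4 hd'
  subst he1
  have hA' : Adj S b0 b' := mem_darts.1 hd'
  obtain ⟨r1, r2, r3⟩ := stQ_geom hS hA' h6'
  have hq : third S b0 b' = (stQ S (a, b0)).1 := congrArg Prod.snd q3
  rw [r3] at h4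
  rw [q3] at h2
  unfold NearD at h1 h2 h3 h4
  simp only at h1 h2 h3 h4
  rw [q2] at h2
  rw [r2, hq] at h4
  rw [hq] at h3
  have hP : (stP S (a, b0)).1 = (stQ S (b0, b')).1 := by
    show (stQ S (stA S (a, b0))).1 = _
    rw [hst]
  rw [hP]
  set q := (stQ S (a, b0)).1
  set q' := (stQ S (b0, b')).1
  set c := third S a b0
  -- Near a b c, Near b q c, Near b b' q, Near b' q' q
  obtain ⟨⟨-, a1⟩, ⟨a2, -⟩, ⟨-, a3⟩⟩ := h1
  obtain ⟨⟨-, b1⟩, ⟨-, b2⟩, ⟨-, -⟩⟩ := h2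
  obtain ⟨⟨-, c1⟩, ⟨c2, -⟩, ⟨-, c3⟩⟩ := h3
  obtain ⟨⟨-, d1⟩, ⟨-, d2⟩, ⟨-, -⟩⟩ := h4
  have k1 := half7 (a := a) (b := b0) (c := c) (q := q) hs hθ hθ1 a1
    (by rw [norm_sub_rev]; exact a3) a2 (by rw [norm_sub_rev]; exact b1) b2
  have k2 := half7 (a := q') (b := q) (c := b') (q := b0) hs hθ hθ1 d2
    (by rw [norm_sub_rev]; exact d1) (by rw [norm_sub_rev]; exact c2)
    (by rw [norm_sub_rev]; exact c3) c1
  show ‖a - q'‖ ≤ _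
  calc ‖a - q'‖ = ‖(a - (1 / 2 : ℝ) • (b0 + q)) - (q' - (1 / 2 : ℝ) • (q + b0))‖ := by
        congr 1; rw [add_comm q b0]; abel
    _ ≤ ‖a - (1 / 2 : ℝ) • (b0 + q)‖ + ‖q' - (1 / 2 : ℝ) • (q + b0)‖ := norm_sub_le _ _
    _ ≤ √7 * ((1 + 2 * θ) * s) := by linarith

lemma lenP' (hS : Simp S) (hs : 0 < s) (hθ : 0 ≤ θ) (hθ1 : θ ≤ 1) {d : E × E}
    (hd : d ∈ darts S) (h6 : (nb S d.2).card = 6) (h6' : (nb S (stB S d).1).card = 6)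
    (h6'' : (nb S (stB S d).2).card = 6)
    (h1 : NearD S s θ d) (h2 : NearD S s θ (rot S (stA S d)))
    (h3 : NearD S s θ (stB S d)) (h4 : NearD S s θ (rot S (stA S (stB S d)))) :
    ‖d.1 - (stP' S d).1‖ ≤ √7 * ((1 + 2 * θ) * s) := by
  have hd' : stB S d ∈ darts S := (isPerm_B hS).1 d hd
  rw [stB_fst] at h6'
  obtain ⟨a, b⟩ := d
  have hA : Adj S a b := mem_darts.1 hd
  simp only at h6 h6'
  obtain ⟨q1, q2, q3⟩ := stQ_geom hS hA h6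
  have hB := stB_geom hS hA h6 h6'
  have hP : (stP' S (a, b)).1 = (stQ S (stB S (a, b))).1 := rfl
  rw [hP]
  rw [hB] at h3 h4 hd' h6'' ⊢
  simp only at h6''
  set q := (stQ S (a, b)).1
  set c := third S a b
  have hA' : Adj S c q := mem_darts.1 hd'
  obtain ⟨r1, r2, r3⟩ := stQ_geom hS hA' h6''
  rw [r3] at h4
  rw [q3] at h2
  unfold NearD at h1 h2 h3 h4
  simp only at h1 h2 h3 h4
  rw [q2] at h2
  rw [r2] at h4
  set q' := (stQ S (c, q)).1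
  set c' := third S c q
  -- Near a b c, Near b q c, Near c q c', Near q q' c'
  obtain ⟨⟨-, a1⟩, ⟨a2, -⟩, ⟨-, a3⟩⟩ := h1
  obtain ⟨⟨-, b1⟩, ⟨-, b2⟩, ⟨-, -⟩⟩ := h2
  obtain ⟨⟨-, c1⟩, ⟨c2, -⟩, ⟨-, c3⟩⟩ := h3
  obtain ⟨⟨-, d1⟩, ⟨-, d2⟩, ⟨-, -⟩⟩ := h4
  have k1 := half7 (a := a) (b := c) (c := b) (q := q) hs hθ hθ1
    (by rw [norm_sub_rev]; exact a3) a1 (by rw [norm_sub_rev]; exact a2) b2
    (by rw [norm_sub_rev]; exact b1)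
  have k2 := half7 (a := q') (b := q) (c := c') (q := c) hs hθ hθ1
    (by rw [norm_sub_rev]; exact d1) d2 c2 c1 (by rw [norm_sub_rev]; exact c3)
  show ‖a - q'‖ ≤ _
  calc ‖a - q'‖ = ‖(a - (1 / 2 : ℝ) • (c + q)) - (q' - (1 / 2 : ℝ) • (q + c))‖ := by
        congr 1; rw [add_comm q c]; abel
    _ ≤ ‖a - (1 / 2 : ℝ) • (c + q)‖ + ‖q' - (1 / 2 : ℝ) • (q + c)‖ := norm_sub_le _ _
    _ ≤ √7 * ((1 + 2 * θ) * s) := by linarith

end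

end Med
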