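import Pool.Agent.Med.Cycle

set_option autoImplicit false

open Finset

namespace Med

/-- a rearrangement of the darts -/
def IsPerm (S : Finset E) (g : E × E → E × E) : Prop :=
  (∀ d ∈ darts S, g d ∈ darts S) ∧ ∀ f : E × E → ℝ, ∑ d ∈ darts S, f (g d) = ∑ d ∈ darts S, f d

lemma isPerm_rot {S : Finset E} (hS : Simp S) : IsPerm S (rot S) :=
  ⟨fun _ hd => rot_mem hS hd, sum_rot hS⟩

lemma isPerm_rev {S : Finset E} (hS : Simp S) : IsPerm S rev :=
  ⟨fun _ hd => rev_mem hS hd, sum_rev hS⟩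

lemma isPerm_id {S : Finset E} : IsPerm S id := ⟨fun _ hd => hd, fun _ => rfl⟩

lemma IsPerm.comp {S : Finset E} {g h : E × E → E × E} (hg : IsPerm S g) (hh : IsPerm S h) :
    IsPerm S (g ∘ h) := by
  refine ⟨fun d hd => hg.1 _ (hh.1 _ hd), fun f => ?_⟩
  have := hh.2 (fun d => f (g d))
  simp only [Function.comp]
  rw [this, hg.2]

lemma IsPerm.iterate {S : Finset E} {g : E × E → E × E} (hg : IsPerm S g) (n : ℕ) :
    IsPerm S (g^[n]) := by
  induction n with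
  | zero => exact isPerm_id
  | succ n ih => rw [Function.iterate_succ]; exact ih.comp hg

/-- translation along the dart -/
noncomputable def stA (S : Finset E) (d : E × E) : E × E := (rot S)^[3] (rev d)
/-- translation along the dart rotated by sixty degrees -/
noncomputable def stB (S : Finset E) (d : E × E) : E × E := (rot S)^[5] (stA S (rot S d))
/-- translation by `1 + ω` -/
noncomputable def stQ (S : Finset E) (d : E × E) : E × E := stB S (stA S d)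
/-- translation by `2 + ω` -/
noncomputable def stP (S : Finset E) (d : E × E) : E × E := stQ S (stA S d)
/-- translation by `1 + 2 ω` -/
noncomputable def stP' (S : Finset E) (d : E × E) : E × E := stQ S (stB S d)

lemma isPerm_A {S : Finset E} (hS : Simp S) : IsPerm S (stA S) :=
  ((isPerm_rot hS).iterate 3).comp (isPerm_rev hS)
lemma isPerm_B {S : Finset E} (hS : Simp S) : IsPerm S (stB S) :=
  ((isPerm_rot hS).iterate 5).comp ((isPerm_A hS).comp (isPerm_rot hS))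
lemma isPerm_Q {S : Finset E} (hS : Simp S) : IsPerm S (stQ S) :=
  (isPerm_B hS).comp (isPerm_A hS)
lemma isPerm_P {S : Finset E} (hS : Simp S) : IsPerm S (stP S) :=
  (isPerm_Q hS).comp (isPerm_A hS)
lemma isPerm_P' {S : Finset E} (hS : Simp S) : IsPerm S (stP' S) :=
  (isPerm_Q hS).comp (isPerm_B hS)

lemma rot_iter (S : Finset E) (n : ℕ) (d : E × E) :
    (rot S)^[n] d = (d.1, (third S d.1)^[n] d.2) := by
  induction n with
  | zero => rfl
  | succ n ih =>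
    rw [Function.iterate_succ_apply', ih, Function.iterate_succ_apply']
    rfl

lemma stA_fst (S : Finset E) (d : E × E) : (stA S d).1 = d.2 := by
  rw [stA, rot_iter]; rfl

lemma stA_snd (S : Finset E) (d : E × E) : (stA S d).2 = (third S d.2)^[3] d.1 := by
  rw [stA, rot_iter]; rfl

lemma stB_fst (S : Finset E) (d : E × E) : (stB S d).1 = third S d.1 d.2 := by
  rw [stB, rot_iter]
  show (stA S (rot S d)).1 = _
  rw [stA_fst]; rfl

/-- at a regular vertex the last neighbour is the third vertex of the left facet -/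
lemma iter5 {S : Finset E} (hS : Simp S) {a b : E} (h : Adj S a b) (h6 : (nb S b).card = 6) :
    (third S b)^[5] a = third S a b := by
  have hba : a ∈ nb S b := mem_nb.2 (Adj.symm hS h)
  have hc := cycle hS h.mem_right hba
  rw [h6] at hc
  have h1 : third S b ((third S b)^[5] a) = a :=
    (Function.iterate_succ_apply' (third S b) 5 a).symm.trans hc.1
  have h2 : third S b (third S a b) = a := third_eq (third_spec h).cyc
  have hm := mem_nb.1 (iter_mem hS hba 5)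
  have hm' : Adj S b (third S a b) := ⟨_, (third_spec h).cyc⟩
  exact third_injOn hm hm' (h1.trans h2.symm)

lemma iter6 {S : Finset E} (hS : Simp S) {v w : E} (h : Adj S v w) (h6 : (nb S v).card = 6) :
    (third S v)^[6] w = w := by
  have hc := cycle hS h.mem_left (mem_nb.2 h)
  rw [h6] at hc
  exact hc.1

/-- the geometry of the step `Q`: the two facets crossed -/
lemma stQ_geom {S : Finset E} (hS : Simp S) {a b : E} (h : Adj S a b)
    (h6 : (nb S b).card = 6) :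
    Adj S b (stQ S (a, b)).1 ∧ third S b (stQ S (a, b)).1 = third S a b ∧
      rot S (stA S (a, b)) = (b, (stQ S (a, b)).1) := by
  have hba : a ∈ nb S b := mem_nb.2 (Adj.symm hS h)
  have e1 : (stQ S (a, b)).1 = (third S b)^[4] a := by
    rw [stQ, stB_fst, stA_fst, stA_snd]
    exact (Function.iterate_succ_apply' (third S b) 3 a).symm
  rw [e1]
  refine ⟨mem_nb.1 (iter_mem hS hba 4), ?_, ?_⟩
  · rw [← Function.iterate_succ_apply' (third S b) 4 a]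
    exact iter5 hS h h6
  · show ((stA S (a, b)).1, third S (stA S (a, b)).1 (stA S (a, b)).2) = _
    rw [stA_fst, stA_snd]
    show (b, third S b ((third S b)^[3] a)) = _
    rw [← Function.iterate_succ_apply' (third S b) 3 a]

/-- the step `B` at a regular vertex -/
lemma stB_geom {S : Finset E} (hS : Simp S) {a b : E} (h : Adj S a b)
    (h6 : (nb S b).card = 6) (h6' : (nb S (third S a b)).card = 6) :
    stB S (a, b) = (third S a b, (stQ S (a, b)).1) := by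
  have ht := third_spec h
  set c := third S a b with hc
  obtain ⟨q1, q2, -⟩ := stQ_geom hS h h6
  have hca : Adj S c a := ⟨_, ht.cyc.cyc⟩
  have e1 : stB S (a, b) = (c, (third S c)^[8] a) := by
    rw [stB, rot_iter, stA_fst, stA_snd]
    show (c, (third S c)^[5] ((third S c)^[3] a)) = _
    rw [← Function.iterate_add_apply]
  rw [e1]
  have e2 : (third S c)^[8] a = (third S c)^[2] a := by
    have : (third S c)^[8] a = (third S c)^[2] ((third S c)^[6] a) := by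
      rw [← Function.iterate_add_apply]
    rw [this, iter6 hS hca h6']
  have e3 : third S c a = b := third_eq ht.cyc.cyc
  have htri : Tri S b (stQ S (a, b)).1 c := by
    have := third_spec q1
    rwa [q2] at this
  have e4 : third S c b = (stQ S (a, b)).1 := third_eq htri.cyc.cyc
  rw [e2]
  show (c, third S c (third S c a)) = _
  rw [e3, e4]

/-- distances, general (rough) -/
lemma stA_dist {S : Finset E} {l : ℝ} (hl : ∀ v w, Adj S v w → ‖v - w‖ ≤ l)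
    {d : E × E} (hd : d ∈ darts S) : ‖d.1 - (stA S d).1‖ ≤ l := by
  rw [stA_fst]; exact hl _ _ (mem_darts.1 hd)

lemma stB_dist {S : Finset E} (hS : Simp S) {l : ℝ} (hl : ∀ v w, Adj S v w → ‖v - w‖ ≤ l)
    {d : E × E} (hd : d ∈ darts S) : ‖d.1 - (stB S d).1‖ ≤ l := by
  rw [stB_fst]; exact hl _ _ (adj_third hS (mem_darts.1 hd))

lemma stQ_dist {S : Finset E} (hS : Simp S) {l : ℝ} (hl : ∀ v w, Adj S v w → ‖v - w‖ ≤ l)
    {d : E × E} (hd : d ∈ darts S) : ‖d.1 - (stQ S d).1‖ ≤ 2 * l := by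
  have h1 := stA_dist hl hd
  have h2 := stB_dist hS hl ((isPerm_A hS).1 d hd)
  calc ‖d.1 - (stQ S d).1‖ = ‖(d.1 - (stA S d).1) + ((stA S d).1 - (stB S (stA S d)).1)‖ := by
        rw [stQ]; congr 1; abel
    _ ≤ _ := norm_add_le _ _
    _ ≤ 2 * l := by linarith

lemma stP_dist {S : Finset E} (hS : Simp S) {l : ℝ} (hl : ∀ v w, Adj S v w → ‖v - w‖ ≤ l)
    {d : E × E} (hd : d ∈ darts S) : ‖d.1 - (stP S d).1‖ ≤ 3 * l := by
  have h1 := stA_dist hl hd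
  have h2 := stQ_dist hS hl ((isPerm_A hS).1 d hd)
  calc ‖d.1 - (stP S d).1‖ = ‖(d.1 - (stA S d).1) + ((stA S d).1 - (stQ S (stA S d)).1)‖ := by
        rw [stP]; congr 1; abel
    _ ≤ _ := norm_add_le _ _
    _ ≤ 3 * l := by linarith

lemma stP'_dist {S : Finset E} (hS : Simp S) {l : ℝ} (hl : ∀ v w, Adj S v w → ‖v - w‖ ≤ l)
    {d : E × E} (hd : d ∈ darts S) : ‖d.1 - (stP' S d).1‖ ≤ 3 * l := by
  have h1 := stB_dist hS hl hd
  have h2 := stQ_dist hS hl ((isPerm_B hS).1 d hd)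
  calc ‖d.1 - (stP' S d).1‖ = ‖(d.1 - (stB S d).1) + ((stB S d).1 - (stQ S (stB S d)).1)‖ := by
        rw [stP']; congr 1; abel
    _ ≤ _ := norm_add_le _ _
    _ ≤ 3 * l := by linarith

/-! ### metric lemmas -/

/-- all sides of the triangle are close to `s` -/
def Near (s θ : ℝ) (a b c : E) : Prop :=
  ((1 - θ) * s ≤ ‖a - b‖ ∧ ‖a - b‖ ≤ (1 + θ) * s) ∧
  ((1 - θ) * s ≤ ‖b - c‖ ∧ ‖b - c‖ ≤ (1 + θ) * s) ∧
  ((1 - θ) * s ≤ ‖c - a‖ ∧ ‖c - a‖ ≤ (1 + θ) * s)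

lemma norm_sq_eq (x : E) : ‖x‖ ^ 2 = dot x x := (dot_self x).symm

/-- long diagonal of a rhombus -/
lemma rhombus {s θ : ℝ} (hs : 0 < s) (hθ : 0 ≤ θ) (hθ1 : θ ≤ 1) {a b c q : E}
    (hab : ‖a - b‖ ≤ (1 + θ) * s) (hac : ‖a - c‖ ≤ (1 + θ) * s)
    (hbc : (1 - θ) * s ≤ ‖b - c‖) (hqb : ‖q - b‖ ≤ (1 + θ) * s) (hqc : ‖q - c‖ ≤ (1 + θ) * s) :
    ‖a - q‖ ≤ √3 * ((1 + 2 * θ) * s) := by
  have h0 : 0 ≤ (1 - θ) * s := mul_nonneg (by linarith) hs.le
  have key : ∀ x : E, ‖x - b‖ ≤ (1 + θ) * s → ‖x - c‖ ≤ (1 + θ) * s →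
      ‖x - (1 / 2 : ℝ) • (b + c)‖ ≤ √3 / 2 * ((1 + 2 * θ) * s) := by
    intro x h1 h2
    have e : ‖x - (1 / 2 : ℝ) • (b + c)‖ ^ 2 =
        (‖x - b‖ ^ 2 + ‖x - c‖ ^ 2) / 2 - ‖b - c‖ ^ 2 / 4 := by
      simp only [norm_sq_eq, dot]
      simp
      ring
    have h3 : ‖x - b‖ ^ 2 ≤ ((1 + θ) * s) ^ 2 := by gcongr
    have h4 : ‖x - c‖ ^ 2 ≤ ((1 + θ) * s) ^ 2 := by gcongr
    have h5 : ((1 - θ) * s) ^ 2 ≤ ‖b - c‖ ^ 2 := by gcongr
    have h6 : ‖x - (1 / 2 : ℝ) • (b + c)‖ ^ 2 ≤ (√3 / 2 * ((1 + 2 * θ) * s)) ^ 2 := by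
      rw [e]
      have : (√3 / 2 * ((1 + 2 * θ) * s)) ^ 2 = 3 / 4 * (1 + 2 * θ) ^ 2 * s ^ 2 := by
        rw [mul_pow, div_pow, Real.sq_sqrt (by norm_num)]; ring
      rw [this]
      nlinarith [sq_nonneg (θ * s), mul_nonneg hθ (sq_nonneg s)]
    exact le_of_sq_le_sq h6 (by positivity)
  have h1 := key a hab hac
  have h2 := key q hqb hqc
  calc ‖a - q‖ = ‖(a - (1 / 2 : ℝ) • (b + c)) - (q - (1 / 2 : ℝ) • (b + c))‖ := by
        congr 1; abel
    _ ≤ ‖a - (1 / 2 : ℝ) • (b + c)‖ + ‖q - (1 / 2 : ℝ) • (b + c)‖ := norm_sub_le _ _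
    _ ≤ √3 * ((1 + 2 * θ) * s) := by linarith

/-- from a vertex to the midpoint of a side of the adjacent triangle -/
lemma half7 {s θ : ℝ} (hs : 0 < s) (hθ : 0 ≤ θ) (hθ1 : θ ≤ 1) {a b c q : E}
    (hab : ‖a - b‖ ≤ (1 + θ) * s) (hac : ‖a - c‖ ≤ (1 + θ) * s)
    (hbc : (1 - θ) * s ≤ ‖b - c‖) (hqb : ‖q - b‖ ≤ (1 + θ) * s) (hqc : ‖q - c‖ ≤ (1 + θ) * s) :
    ‖a - (1 / 2 : ℝ) • (b + q)‖ ≤ √7 / 2 * ((1 + 2 * θ) * s) := by
  have h0 : 0 ≤ (1 - θ) * s := mul_nonneg (by linarith) hs.le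
  set K : E := (1 / 3 : ℝ) • ((2 : ℝ) • b + c) with hK
  have h1 : ‖a - K‖ ≤ √7 / 3 * ((1 + 2 * θ) * s) := by
    have e : ‖a - K‖ ^ 2 =
        2 / 3 * ‖a - b‖ ^ 2 + 1 / 3 * ‖a - c‖ ^ 2 - 2 / 9 * ‖b - c‖ ^ 2 := by
      simp only [norm_sq_eq, dot, hK]
      simp
      ring
    have h3 : ‖a - b‖ ^ 2 ≤ ((1 + θ) * s) ^ 2 := by gcongr
    have h4 : ‖a - c‖ ^ 2 ≤ ((1 + θ) * s) ^ 2 := by gcongr
    have h5 : ((1 - θ) * s) ^ 2 ≤ ‖b - c‖ ^ 2 := by gcongr
    have h6 : ‖a - K‖ ^ 2 ≤ (√7 / 3 * ((1 + 2 * θ) * s)) ^ 2 := by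
      rw [e]
      have : (√7 / 3 * ((1 + 2 * θ) * s)) ^ 2 = 7 / 9 * (1 + 2 * θ) ^ 2 * s ^ 2 := by
        rw [mul_pow, div_pow, Real.sq_sqrt (by norm_num)]; ring
      rw [this]
      nlinarith [sq_nonneg (θ * s), mul_nonneg hθ (sq_nonneg s)]
    exact le_of_sq_le_sq h6 (by positivity)
  have h2 : ‖K - (1 / 2 : ℝ) • (b + q)‖ ≤ √7 / 6 * ((1 + 2 * θ) * s) := by
    have e : ‖K - (1 / 2 : ℝ) • (b + q)‖ ^ 2 =
        - (‖b - c‖ ^ 2 / 18) + ‖q - b‖ ^ 2 / 12 + ‖q - c‖ ^ 2 / 6 := by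
      simp only [norm_sq_eq, dot, hK]
      simp
      ring
    have h3 : ‖q - b‖ ^ 2 ≤ ((1 + θ) * s) ^ 2 := by gcongr
    have h4 : ‖q - c‖ ^ 2 ≤ ((1 + θ) * s) ^ 2 := by gcongr
    have h5 : ((1 - θ) * s) ^ 2 ≤ ‖b - c‖ ^ 2 := by gcongr
    have h6 : ‖K - (1 / 2 : ℝ) • (b + q)‖ ^ 2 ≤ (√7 / 6 * ((1 + 2 * θ) * s)) ^ 2 := by
      rw [e]
      have : (√7 / 6 * ((1 + 2 * θ) * s)) ^ 2 = 7 / 36 * (1 + 2 * θ) ^ 2 * s ^ 2 := by
        rw [mul_pow, div_pow, Real.sq_sqrt (by norm_num)]; ring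
      rw [this]
      nlinarith [sq_nonneg (θ * s), mul_nonneg hθ (sq_nonneg s)]
    exact le_of_sq_le_sq h6 (by positivity)
  calc ‖a - (1 / 2 : ℝ) • (b + q)‖ = ‖(a - K) + (K - (1 / 2 : ℝ) • (b + q))‖ := by
        congr 1; abel
    _ ≤ ‖a - K‖ + ‖K - (1 / 2 : ℝ) • (b + q)‖ := norm_add_le _ _
    _ ≤ √7 / 2 * ((1 + 2 * θ) * s) := by linarith

end Med
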