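import Pool.Agent.Med.Orbit

set_option autoImplicit false

open Finset

namespace Med

lemma exists_generic_mem (N : Finset E) (hN : ∀ n ∈ N, n ≠ 0) {U : Set E} (hU : IsOpen U)
    (hne : U.Nonempty) : ∃ w ∈ U, ∀ n ∈ N, dot n w ≠ 0 := by
  classical
  induction N using Finset.induction_on generalizing U with
  | empty => obtain ⟨w, hw⟩ := hne; exact ⟨w, hw, by simp⟩
  | insert n N hn ih =>
    have hn0 : n ≠ 0 := hN n (Finset.mem_insert_self _ _)
    have hopen : IsOpen (U ∩ {w | dot n w ≠ 0}) :=
      hU.inter (isOpen_ne_fun (continuous_dot n) continuous_const)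
    have hne' : (U ∩ {w | dot n w ≠ 0}).Nonempty := by
      obtain ⟨w, hw⟩ := hne
      by_cases h0 : dot n w = 0
      · have hcont : Continuous fun t : ℝ => w + t • n := by fun_prop
        have hpre : IsOpen ((fun t : ℝ => w + t • n) ⁻¹' U) := hU.preimage hcont
        have h0mem : (0 : ℝ) ∈ ((fun t : ℝ => w + t • n) ⁻¹' U) := by simpa using hw
        obtain ⟨ε, hε, hball⟩ := Metric.isOpen_iff.1 hpre 0 h0mem
        refine ⟨w + (ε / 2) • n, hball (by
          rw [Metric.mem_ball, dist_zero_right, Real.norm_of_nonneg (by positivity)]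
          linarith), ?_⟩
        show dot n (w + (ε / 2) • n) ≠ 0
        rw [dot_add, dot_smul, h0, zero_add]
        have := dot_self_pos hn0
        positivity
      · exact ⟨w, hw, h0⟩
    obtain ⟨w, ⟨hwU, hwn⟩, hw⟩ := ih (fun m hm => hN m (Finset.mem_insert_of_mem hm)) hopen hne'
    refine ⟨w, hwU, fun m hm => ?_⟩
    rcases Finset.mem_insert.1 hm with rfl | hm
    · exact hwn
    · exact hw m hm

lemma exists_orth {v : E} (hv : v ≠ 0) : ∃ y : E, y ≠ 0 ∧ dot y v = 0 := by
  by_cases h0 : v 0 = 0 ∧ v 1 = 0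
  · refine ⟨EuclideanSpace.single 0 1, fun hh => ?_, ?_⟩
    · have := congrArg (fun v : E => v 0) hh
      simp at this
    · simp [dot, h0.1]
  · refine ⟨!₂[v 1, - v 0, 0], fun hh => h0 ?_, ?_⟩
    · have h1 := congrArg (fun v : E => v 0) hh
      have h2 := congrArg (fun v : E => v 1) hh
      simp at h1 h2
      exact ⟨h2, h1⟩
    · simp [dot]; ring

lemma cr_smul (v : E) (t : ℝ) : cr (t • v) v = 0 := by
  apply ext3 <;> simp [cr] <;> ring

/-- points in the interior of the cone -/
lemma interior_cone {a b c z : E} (h : 0 < det a b c) (h1 : 0 < det z b c) (h2 : 0 < det a z c)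
    (h3 : 0 < det a b z) (u : E) : ∃ ε : ℝ, 0 < ε ∧ ∀ t, 0 ≤ t → t ≤ ε → InC a b c (z + t • u) := by
  have key : ∀ x y : ℝ, 0 < x → ∃ ε : ℝ, 0 < ε ∧ ∀ t, 0 ≤ t → t ≤ ε → 0 ≤ x + t * y := by
    intro x y hx
    refine ⟨x / (|y| + 1), by positivity, fun t h1 h2 => ?_⟩
    rw [le_div_iff₀ (by positivity)] at h2
    have := neg_abs_le y
    nlinarith [abs_nonneg y]
  obtain ⟨ε1, p1, q1⟩ := key _ (det u b c) h1
  obtain ⟨ε2, p2, q2⟩ := key _ (det a u c) h2
  obtain ⟨ε3, p3, q3⟩ := key _ (det a b u) h3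
  refine ⟨min ε1 (min ε2 ε3), lt_min p1 (lt_min p2 p3), fun t t0 t1 => (inC_iff h).2 ⟨?_, ?_, ?_⟩⟩
  · rw [det_add_left, det_smul_left]; exact q1 t t0 (t1.trans (min_le_left _ _))
  · rw [det_add_mid, det_smul_mid]
    exact q2 t t0 (t1.trans ((min_le_right _ _).trans (min_le_left _ _)))
  · rw [det_add_right, det_smul_right]
    exact q3 t t0 (t1.trans ((min_le_right _ _).trans (min_le_right _ _)))

/-- points on a wall, moving inwards or along the wall -/
lemma wall_cone {a b c z : E} (h : 0 < det a b c) (h1 : 0 < det z b c) (h2 : 0 < det a z c)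
    (h3 : 0 ≤ det a b z) (u : E) (hu : 0 ≤ det a b u) :
    ∃ ε : ℝ, 0 < ε ∧ ∀ t, 0 ≤ t → t ≤ ε → InC a b c (z + t • u) := by
  have key : ∀ x y : ℝ, 0 < x → ∃ ε : ℝ, 0 < ε ∧ ∀ t, 0 ≤ t → t ≤ ε → 0 ≤ x + t * y := by
    intro x y hx
    refine ⟨x / (|y| + 1), by positivity, fun t h1 h2 => ?_⟩
    rw [le_div_iff₀ (by positivity)] at h2
    have := neg_abs_le y
    nlinarith [abs_nonneg y]
  obtain ⟨ε1, p1, q1⟩ := key _ (det u b c) h1
  obtain ⟨ε2, p2, q2⟩ := key _ (det a u c) h2
  refine ⟨min ε1 ε2, lt_min p1 p2, fun t t0 t1 => (inC_iff h).2 ⟨?_, ?_, ?_⟩⟩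
  · rw [det_add_left, det_smul_left]; exact q1 t t0 (t1.trans (min_le_left _ _))
  · rw [det_add_mid, det_smul_mid]
    exact q2 t t0 (t1.trans (min_le_right _ _))
  · rw [det_add_right, det_smul_right]; positivity

/-- A nonempty family of facets, closed under rotation and under passing to the facet across
an edge, covers space. -/
theorem surface_cover {S : Finset E} (hunit : ∀ x ∈ S, dot x x = 1)
    (L : E → E → E → Prop) (hL : ∀ a b c, L a b c → Tri S a b c)
    (hcyc : ∀ a b c, L a b c → L b c a) (hadj : ∀ a b c, L a b c → ∃ d, L b a d)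
    (hne : ∃ a b c, L a b c) (z₀ : E) : ∃ a b c, L a b c ∧ InC a b c z₀ := by
  classical
  set A : Set E := {z | ∃ a b c, L a b c ∧ InC a b c z} with hA
  have hAcl : IsClosed A := by
    have : A = ⋃ T ∈ {T : E × E × E | T ∈ S ×ˢ S ×ˢ S ∧ L T.1 T.2.1 T.2.2},
        {z | InC T.1 T.2.1 T.2.2 z} := by
      ext z
      simp only [hA, Set.mem_ofPred_eq, Set.mem_iUnion, exists_prop]
      constructor
      · rintro ⟨a, b, c, h1, h2⟩
        have ht := hL a b c h1
        exact ⟨(a, b, c), ⟨by simp only [Finset.mem_product]; exact ⟨ht.1, ht.2.1, ht.2.2.1⟩, h1⟩,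
          h2⟩
      · rintro ⟨T, ⟨-, h1⟩, h2⟩
        exact ⟨_, _, _, h1, h2⟩
    rw [this]
    apply Set.Finite.isClosed_biUnion
    · exact (Finset.finite_toSet (S ×ˢ S ×ˢ S)).subset fun T hT => hT.1
    · intro T hT
      exact isClosed_inC (hL _ _ _ hT.2).2.2.2.1
  by_contra hz₀
  have hz₀' : z₀ ∈ Aᶜ := hz₀
  have hS0 : ∀ v ∈ S, v ≠ 0 := by
    rintro v hv rfl
    have := hunit 0 hv
    simp at this
  -- choose a generic z outside A
  obtain ⟨f, hf⟩ : ∃ f : E → E, ∀ v ∈ S, f v ≠ 0 ∧ dot (f v) v = 0 := by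
    have : ∀ v, ∃ y : E, v ∈ S → y ≠ 0 ∧ dot y v = 0 := by
      intro v
      by_cases hv : v ∈ S
      · obtain ⟨y, h1, h2⟩ := exists_orth (hS0 v hv)
        exact ⟨y, fun _ => ⟨h1, h2⟩⟩
      · exact ⟨0, fun h => absurd h hv⟩
    choose f hf using this
    exact ⟨f, hf⟩
  obtain ⟨z, hzA, hz⟩ := exists_generic_mem (S.image f) (by
    intro n hn
    obtain ⟨v, hv, rfl⟩ := Finset.mem_image.1 hn
    exact (hf v hv).1) hAcl.isOpen_compl ⟨z₀, hz₀'⟩
  have hcr : ∀ v ∈ S, cr z v ≠ 0 := by
    intro v hv h0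
    -- z is parallel to v
    have c0 := congrArg (fun v : E => v 0) h0
    have c1 := congrArg (fun v : E => v 1) h0
    have c2 := congrArg (fun v : E => v 2) h0
    simp [cr] at c0 c1 c2
    have h1 : dot v v * dot (f v) z = dot (f v) v * dot v z := by
      simp only [dot]
      linear_combination (-(v 1 * f v 2 - v 2 * f v 1)) * c0 +
        (-(v 2 * f v 0 - v 0 * f v 2)) * c1 + (-(v 0 * f v 1 - v 1 * f v 0)) * c2
    rw [(hf v hv).2, zero_mul, hunit v hv, one_mul] at h1
    exact hz (f v) (Finset.mem_image_of_mem f hv) h1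
  -- choose a generic x in the interior of a cone
  obtain ⟨a₀, b₀, c₀, hL₀⟩ := hne
  have ht₀ := hL _ _ _ hL₀
  have hd₀ := ht₀.2.2.2.1
  set U : Set E := {x | 0 < det x b₀ c₀} ∩ ({x | 0 < det a₀ x c₀} ∩ {x | 0 < det a₀ b₀ x}) with hU
  have hUo : IsOpen U := (isOpen_lt continuous_const (continuous_det1 _ _)).inter
    ((isOpen_lt continuous_const (continuous_det2 _ _)).inter
      (isOpen_lt continuous_const (continuous_det3 _ _)))
  have hUne : U.Nonempty := by
    refine ⟨a₀ + b₀ + c₀, ?_, ?_, ?_⟩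
    · show 0 < det (a₀ + b₀ + c₀) b₀ c₀
      rw [det_add_left, det_add_left]; simpa using hd₀
    · show 0 < det a₀ (a₀ + b₀ + c₀) c₀
      rw [det_add_mid, det_add_mid]; simpa using hd₀
    · show 0 < det a₀ b₀ (a₀ + b₀ + c₀)
      rw [det_add_right, det_add_right]; simpa using hd₀
  obtain ⟨x, hxU, hx⟩ := exists_generic_mem (S.image (fun v => cr z v)) (by
    intro n hn
    obtain ⟨v, hv, rfl⟩ := Finset.mem_image.1 hn
    exact hcr v hv) hUo hUne
  -- the segment avoids the lines through the vertices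
  have hseg : ∀ t : ℝ, ∀ v ∈ S, ∀ r : ℝ, x + t • (z - x) ≠ r • v ∨ t = 1 := by
    intro t v hv r
    by_contra hcon
    push Not at hcon
    obtain ⟨h1, h2⟩ := hcon
    have h3 := congrArg (fun w => det z v w) h1
    simp only [det_add_right, det_smul_right] at h3
    have h4 : det z v (z - x) = - det z v x := by
      have : z - x = z + (-1 : ℝ) • x := by module
      rw [this, det_add_right, det_smul_right]; simp
    rw [h4] at h3
    simp only [det_self23, mul_zero] at h3
    have h5 : (1 - t) * det z v x = 0 := by linarith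
    rcases mul_eq_zero.1 h5 with h6 | h6
    · exact h2 (by linarith)
    · refine hx (cr z v) (Finset.mem_image_of_mem _ hv) ?_
      rw [dot_cr]; exact h6
  -- the supremum
  set P : Set ℝ := {t | t ∈ Set.Icc (0 : ℝ) 1 ∧ x + t • (z - x) ∈ A} with hP
  have hPc : IsCompact P := by
    have : P = Set.Icc (0 : ℝ) 1 ∩ (fun t : ℝ => x + t • (z - x)) ⁻¹' A := rfl
    rw [this]
    exact isCompact_Icc.inter_right (hAcl.preimage (by fun_prop))
  have hxA : x ∈ A := ⟨_, _, _, hL₀, (inC_iff hd₀).2 ⟨hxU.1.le, hxU.2.1.le, hxU.2.2.le⟩⟩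
  have hPne : P.Nonempty := ⟨0, by simp, by simpa using hxA⟩
  obtain ⟨t, ⟨⟨ht0, ht1⟩, htA⟩, hmax⟩ := hPc.exists_isMaxOn hPne continuousOn_id
  have htlt : t < 1 := by
    refine lt_of_le_of_ne ht1 fun h => ?_
    rw [h] at htA
    have : x + (1 : ℝ) • (z - x) = z := by module
    rw [this] at htA
    exact hzA htA
  set y := x + t • (z - x) with hy
  -- if we can move a little we get a contradiction
  have hmove : ∀ a b c, L a b c → (∃ ε : ℝ, 0 < ε ∧ ∀ s, 0 ≤ s → s ≤ ε →
      InC a b c (y + s • (z - x))) → False := by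
    rintro a b c hl ⟨ε, hε, h⟩
    set s := min ε (1 - t) with hs
    have hs0 : 0 < s := lt_min hε (by linarith)
    have h1 := h s hs0.le (min_le_left _ _)
    have h2 : t + s ∈ P := by
      refine ⟨⟨by linarith, ?_⟩, ⟨a, b, c, hl, ?_⟩⟩
      · have := min_le_right ε (1 - t); linarith
      · have : x + (t + s) • (z - x) = y + s • (z - x) := by rw [hy]; module
        rw [this]; exact h1
    have h3 := hmax h2
    simp only [id, Set.mem_ofPred_eq] at h3
    linarith
  obtain ⟨a, b, c, hl, hin⟩ := htA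
  have hnotray : ∀ v ∈ S, ∀ r : ℝ, y ≠ r • v := by
    intro v hv r
    rcases hseg t v hv r with h | h
    · exact h
    · exact absurd h htlt.ne
  -- main case distinction
  have hwall : ∀ a b c, L a b c → 0 < det y b c → 0 < det a y c → 0 ≤ det a b y → False := by
    intro a b c hl h1 h2 h3
    have hd := (hL _ _ _ hl).2.2.2.1
    rcases h3.lt_or_eq with h3 | h3
    · exact hmove a b c hl (interior_cone hd h1 h2 h3 _)
    · rcases le_total 0 (det a b (z - x)) with h4 | h4
      · exact hmove a b c hl (wall_cone hd h1 h2 h3.le _ h4)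
      · obtain ⟨d, hld⟩ := hadj a b c hl
        have hd' := (hL _ _ _ hld).2.2.2.1
        -- y = α a + β b with α, β > 0
        have hcr := cramer a b c y
        rw [← h3, zero_smul, add_zero] at hcr
        have e1 : det a b c * det y a d = det a y c * det b a d := by
          have := congrArg (fun w => det w a d) hcr
          simp only [det_add_left, det_smul_left, det_self12, mul_zero, zero_add] at this
          exact this
        have e2 : det a b c * det b y d = det y b c * det b a d := by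
          have := congrArg (fun w => det b w d) hcr
          simp only [det_add_mid, det_smul_mid, det_self12, mul_zero, add_zero] at this
          exact this
        have f1 : 0 < det y a d := by
          have : 0 < det a b c * det y a d := by rw [e1]; positivity
          exact (pos_iff_pos_of_mul_pos this).1 hd
        have f2 : 0 < det b y d := by
          have : 0 < det a b c * det b y d := by rw [e2]; positivity
          exact (pos_iff_pos_of_mul_pos this).1 hd
        refine hmove b a d hld (wall_cone hd' f1 f2 ?_ _ ?_)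
        · rw [det_swap, ← h3]; simp
        · rw [det_swap]; linarith
  have hd := (hL _ _ _ hl).2.2.2.1
  obtain ⟨g1, g2, g3⟩ := (inC_iff hd).1 hin
  have ht := hL _ _ _ hl
  have hcr := cramer a b c y
  -- at most one of the three determinants vanishes
  have hray : ∀ v : E, v ∈ S → ∀ k : ℝ, det a b c • y = k • v → False := by
    intro v hv k h
    refine hnotray v hv ((det a b c)⁻¹ * k) ?_
    have : (det a b c)⁻¹ • (det a b c • y) = (det a b c)⁻¹ • (k • v) := by rw [h]
    rwa [smul_smul, inv_mul_cancel₀ hd.ne', one_smul, smul_smul] at this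
  rcases g1.lt_or_eq with g1 | g1
  · rcases g2.lt_or_eq with g2 | g2
    · exact hwall a b c hl g1 g2 g3
    · rcases g3.lt_or_eq with g3 | g3
      · -- det a y c = 0 : rotate so that it is the last one: (c, a, b)
        refine hwall c a b (hcyc _ _ _ (hcyc _ _ _ hl)) ?_ ?_ ?_
        · rw [det_cyc' ] ; exact g3
        · rw [det_cyc'] ; exact g1
        · rw [det_cyc']; exact g2.le
      · rw [← g2, ← g3, zero_smul, zero_smul, add_zero, add_zero] at hcr
        exact hray a ht.1 _ hcr
  · rcases g2.lt_or_eq with g2 | g2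
    · rcases g3.lt_or_eq with g3 | g3
      · refine hwall b c a (hcyc _ _ _ hl) ?_ ?_ ?_
        · rw [det_cyc]; exact g2
        · rw [det_cyc]; exact g3
        · rw [det_cyc]; exact g1.le
      · rw [← g1, ← g3, zero_smul, zero_smul, add_zero, zero_add] at hcr
        exact hray b ht.2.1 _ hcr
    · rw [← g1, ← g2, zero_smul, zero_smul, zero_add, zero_add] at hcr
      exact hray c ht.2.2.1 _ hcr

/-- a closed surface of facets gives a simplicial polyhedron and contains all the facets -/
theorem simp_of_surface {S : Finset E} (hunit : ∀ x ∈ S, dot x x = 1)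
    (L : E → E → E → Prop) (hL : ∀ a b c, L a b c → Tri S a b c)
    (hcyc : ∀ a b c, L a b c → L b c a) (hadj : ∀ a b c, L a b c → ∃ d, L b a d)
    (hne : ∃ a b c, L a b c) : Simp S ∧ ∀ a b c, Tri S a b c → L a b c := by
  classical
  have hcov := surface_cover hunit L hL hcyc hadj hne
  constructor
  · refine ⟨hunit, ?_, ?_⟩
    · intro a ha
      obtain ⟨x, y, w, hl, α, β, γ, h1, h2, h3, he⟩ := hcov a
      have ht := hL _ _ _ hl
      by_contra hcon
      push Not at hcon
      have hpos := dot_self_pos ha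
      have e : dot a a = α * dot a x + β * dot a y + γ * dot a w := by
        conv_lhs => rw [he]
        rw [add_dot, add_dot, smul_dot, smul_dot, smul_dot, ← he, dot_comm x a, dot_comm y a,
          dot_comm w a]
      have f1 := hcon x ht.1
      have f2 := hcon y ht.2.1
      have f3 := hcon w ht.2.2.1
      nlinarith
    · intro m T hTS hm hT
      obtain ⟨a, b, c, hl, α, β, γ, h1, h2, h3, he⟩ := hcov (∑ p ∈ T, p)
      obtain ⟨ha, hb, hc, hd, m', m1, m2, m3, m4⟩ := hL _ _ _ hl
      have dsum : ∀ y : E, dot y (∑ p ∈ T, p) = ∑ p ∈ T, dot y p := by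
        intro y
        simp only [← inner_eq]
        rw [inner_sum]
      have k1 : ∑ p ∈ T, dot m p = α * dot m a + β * dot m b + γ * dot m c := by
        rw [← dsum, he, dot_add, dot_add, dot_smul, dot_smul, dot_smul]
      have k2 : ∑ p ∈ T, dot m' p = α + β + γ := by
        rw [← dsum, he, dot_add, dot_add, dot_smul, dot_smul, dot_smul, m1, m2, m3]; ring
      have k3 : ∑ p ∈ T, dot m p = ∑ p ∈ T, (1 : ℝ) := Finset.sum_congr rfl hT
      have hle : ∀ p ∈ S, dot m' p ≤ 1 := by
        intro p hp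
        by_cases pa : p = a
        · rw [pa, m1]
        by_cases pb : p = b
        · rw [pb, m2]
        by_cases pc : p = c
        · rw [pc, m3]
        exact (m4 p hp pa pb pc).le
      have k4 : ∑ p ∈ T, dot m' p ≤ ∑ p ∈ T, (1 : ℝ) :=
        Finset.sum_le_sum fun p hp => hle p (hTS hp)
      have k5 : ∑ p ∈ T, (1 : ℝ) ≤ ∑ p ∈ T, dot m' p := by
        rw [k2, ← k3, k1]
        nlinarith [hm a ha, hm b hb, hm c hc]
      have k6 : ∑ p ∈ T, dot m' p = ∑ p ∈ T, (1 : ℝ) := le_antisymm k4 k5
      have k7 := (Finset.sum_eq_sum_iff_of_le fun p hp => hle p (hTS hp)).1 k6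
      have hsub : T ⊆ {a, b, c} := by
        intro p hp
        by_contra hcon
        simp only [Finset.mem_insert, Finset.mem_singleton, not_or] at hcon
        exact absurd (k7 p hp) (m4 p (hTS hp) hcon.1 hcon.2.1 hcon.2.2).ne
      calc T.card ≤ ({a, b, c} : Finset E).card := Finset.card_le_card hsub
        _ ≤ 3 := Finset.card_le_three
  · intro a b c ht
    obtain ⟨x, y, w, hl, hin⟩ := hcov ((1 : ℝ) • a + (1 : ℝ) • b + (1 : ℝ) • c)
    have ht' := hL _ _ _ hl
    have c1 := carrier ht ht' one_pos zero_le_one zero_le_one hin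
    have c2 := carrier ht.cyc ht' one_pos zero_le_one zero_le_one (by
      have : (1 : ℝ) • b + (1 : ℝ) • c + (1 : ℝ) • a = (1 : ℝ) • a + (1 : ℝ) • b + (1 : ℝ) • c := by
        module
      rw [this]; exact hin)
    have c3 := carrier ht.cyc.cyc ht' one_pos zero_le_one zero_le_one (by
      have : (1 : ℝ) • c + (1 : ℝ) • a + (1 : ℝ) • b = (1 : ℝ) • a + (1 : ℝ) • b + (1 : ℝ) • c := by
        module
      rw [this]; exact hin)
    have hd := ht.2.2.2.1
    have hd' := ht'.2.2.2.1
    have n1 := ht.ne_ab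
    have n2 := ht.ne_bc
    have n3 := ht.ne_ac
    have hl1 := hcyc _ _ _ hl
    have hl2 := hcyc _ _ _ hl1
    rcases c1 with rfl | rfl | rfl <;> rcases c2 with rfl | rfl | rfl <;>
      rcases c3 with rfl | rfl | rfl <;>
      first
      | exact absurd rfl n1
      | exact absurd rfl n2
      | exact absurd rfl n3
      | exact hl
      | exact hl1
      | exact hl2
      | (exfalso; simp only [det] at hd hd'; linarith)

end Med
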