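import Pool.Agent.Med.Dev
import Pool.Agent.Med.IsSteps

set_option autoImplicit false

open Finset

namespace Med

/-- primitive sixth root of unity -/
noncomputable def om : ℂ := ⟨1 / 2, √3 / 2⟩

lemma om_sq : om * om = om - 1 := by
  have h3 : √3 * √3 = 3 := Real.mul_self_sqrt (by norm_num)
  apply Complex.ext
  · simp only [om, Complex.mul_re, Complex.sub_re, Complex.one_re]
    linarith
  · simp only [om, Complex.mul_im, Complex.sub_im, Complex.one_im]
    ring

lemma om_cube : om * om * om = -1 := by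
  rw [om_sq, sub_mul, om_sq]; ring

lemma om_pow3 : om ^ 3 = -1 := by rw [← om_cube]; ring
lemma om_pow6 : om ^ 6 = 1 := by
  have : om ^ 6 = om ^ 3 * om ^ 3 := by ring
  rw [this, om_pow3]; ring

lemma om_ne : om ≠ 0 := by
  intro h
  have := om_pow6
  rw [h] at this
  norm_num at this

/-- the generators -/
noncomputable def rho : Equiv.Perm ℂ := Equiv.mulLeft₀ om om_ne
noncomputable def mu : Equiv.Perm ℂ := Equiv.subLeft 1
noncomputable def tau (u : ℂ) : Equiv.Perm ℂ := Equiv.addRight u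

lemma rho_apply (z : ℂ) : rho z = om * z := rfl
lemma mu_apply (z : ℂ) : mu z = 1 - z := rfl
lemma tau_apply (u z : ℂ) : tau u z = z + u := rfl

lemma rho_pow_apply (n : ℕ) (z : ℂ) : (rho ^ n) z = om ^ n * z := by
  induction n generalizing z with
  | zero => simp
  | succ n ih =>
    rw [pow_succ, Equiv.Perm.mul_apply, ih, rho_apply]; ring

lemma rho6 : rho ^ 6 = 1 := by
  ext1 z
  rw [rho_pow_apply, om_pow6]; simp

lemma mu2 : mu * mu = 1 := by
  ext1 z
  rw [Equiv.Perm.mul_apply, mu_apply, mu_apply]; simp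

lemma rm3 : rho * mu * (rho * mu) * (rho * mu) = 1 := by
  ext1 z
  simp only [Equiv.Perm.mul_apply, mu_apply, rho_apply, Equiv.Perm.one_apply]
  linear_combination (-1 : ℂ) * om_sq + (1 - z) * om_cube

lemma mu_rho3 : mu * rho ^ 3 = tau 1 := by
  ext1 z
  rw [Equiv.Perm.mul_apply, rho_pow_apply, mu_apply, tau_apply, om_pow3]; ring

lemma rho_tau_rho : rho * tau 1 * rho ^ 5 = tau om := by
  ext1 z
  rw [Equiv.Perm.mul_apply, Equiv.Perm.mul_apply, rho_pow_apply, tau_apply, rho_apply, tau_apply]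
  have : om * om ^ 5 = 1 := by rw [← om_pow6]; ring
  linear_combination z * this

lemma tau_mul (u v : ℂ) : tau u * tau v = tau (u + v) := by
  ext1 z
  rw [Equiv.Perm.mul_apply, tau_apply, tau_apply, tau_apply]; ring

lemma tau_zero : tau 0 = 1 := by
  ext1 z; rw [tau_apply]; simp

/-- development function of darts -/
def HD (H : E → E → Equiv.Perm ℂ) (d : E × E) : Equiv.Perm ℂ := H d.1 d.2

lemma mem_Cone_unit {e x : E} {κ : ℝ} (hx : dot x x = 1) : x ∈ Cone e κ ↔ κ < dot e x := by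
  show κ * ‖x‖ < dot e x ↔ _
  rw [norm_of_unit hx, mul_one]

lemma dot_le_norm (a b : E) : dot a b ≤ ‖a‖ * ‖b‖ := by
  rw [← inner_eq]; exact real_inner_le_norm a b

lemma dot_near {e v w : E} {l : ℝ} (he : dot e e = 1) (h : ‖v - w‖ ≤ l) :
    dot e v - l ≤ dot e w := by
  have h1 := dot_le_norm e (v - w)
  rw [norm_of_unit he, one_mul, dot_sub] at h1
  linarith

section
variable {S : Finset E} {e : E} {κ l : ℝ} {H : E → E → Equiv.Perm ℂ}
  (hS : Simp S) (he : dot e e = 1) (hl : ∀ v w, Adj S v w → ‖v - w‖ ≤ l) (hl0 : 0 ≤ l)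
  (HR : ∀ v w, Adj S v w → v ∈ Cone e κ → H v (third S v w) = H v w * rho)
  (HM : ∀ v w, Adj S v w → v ∈ Cone e κ → w ∈ Cone e κ → H w v = H v w * mu)

include hS HR in
lemma HD_rot (n : ℕ) {d : E × E} (hd : d ∈ darts S) (h1 : d.1 ∈ Cone e κ) :
    HD H ((rot S)^[n] d) = HD H d * rho ^ n := by
  induction n with
  | zero => simp
  | succ n ih =>
    rw [Function.iterate_succ_apply', rot_iter] at *
    have hmem : Adj S d.1 ((third S d.1)^[n] d.2) :=
      mem_nb.1 (iter_mem hS (mem_nb.2 (mem_darts.1 hd)) n)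
    show H d.1 (third S d.1 ((third S d.1)^[n] d.2)) = _
    rw [HR _ _ hmem h1, pow_succ, ← mul_assoc, ← ih]
    rfl

include hS HR HM in
lemma HD_A' {d : E × E} (hd : d ∈ darts S) (h1 : d.1 ∈ Cone e κ) (h2 : d.2 ∈ Cone e κ) :
    HD H (stA S d) = HD H d * tau 1 := by
  have hr : HD H (rev d) = HD H d * mu := HM _ _ (mem_darts.1 hd) h1 h2
  rw [stA, HD_rot hS HR 3 (rev_mem hS hd) h2, hr, mul_assoc, mu_rho3]

include hS HR HM in
lemma HD_B' {d : E × E} (hd : d ∈ darts S) (h1 : d.1 ∈ Cone e κ)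
    (h2 : third S d.1 d.2 ∈ Cone e κ) : HD H (stB S d) = HD H d * tau om := by
  have hr : HD H (rot S d) = HD H d * rho := by
    have := HD_rot hS HR 1 hd h1
    simpa using this
  have hd' := rot_mem hS hd
  have hA := HD_A' hS HR HM hd' h1 h2
  have hd'' := (isPerm_A hS).1 _ hd'
  rw [stB, HD_rot hS HR 5 hd'' (by rw [stA_fst]; exact h2), hA, hr, ← rho_tau_rho]
  simp only [mul_assoc]

include hS he hl in
lemma buffer {d : E × E} (hd : d ∈ darts S) {t : ℝ} (h : t + l < dot e d.1) :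
    t < dot e d.2 ∧ t < dot e (third S d.1 d.2) := by
  have h1 := dot_near he (hl _ _ (mem_darts.1 hd))
  have h2 := dot_near he (hl _ _ (adj_third hS (mem_darts.1 hd)))
  constructor <;> linarith

include hS he hl hl0 HR HM

lemma HD_A {d : E × E} (hd : d ∈ darts S) (h : κ + l < dot e d.1) :
    HD H (stA S d) = HD H d * tau 1 := by
  have hu := hS.unit _ (mem_darts.1 hd).mem_left
  have hu' := hS.unit _ (mem_darts.1 hd).mem_right
  exact HD_A' hS HR HM hd ((mem_Cone_unit hu).2 (by linarith))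
    ((mem_Cone_unit hu').2 (buffer hS he hl hd h).1)

lemma HD_B {d : E × E} (hd : d ∈ darts S) (h : κ + l < dot e d.1) :
    HD H (stB S d) = HD H d * tau om := by
  have hu := hS.unit _ (mem_darts.1 hd).mem_left
  have hu' := hS.unit _ (adj_third hS (mem_darts.1 hd)).mem_right
  exact HD_B' hS HR HM hd ((mem_Cone_unit hu).2 (by linarith))
    ((mem_Cone_unit hu').2 (buffer hS he hl hd h).2)

lemma HD_Q {d : E × E} (hd : d ∈ darts S) (h : κ + 2 * l < dot e d.1) :
    HD H (stQ S d) = HD H d * tau (1 + om) := by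
  have hd' := (isPerm_A hS).1 _ hd
  rw [stQ, HD_B hS he hl hl0 HR HM hd' (by
    rw [stA_fst]; exact (buffer hS he hl hd (t := κ + l) (by linarith)).1),
    HD_A hS he hl hl0 HR HM hd (by linarith), mul_assoc, tau_mul]

lemma HD_P {d : E × E} (hd : d ∈ darts S) (h : κ + 3 * l < dot e d.1) :
    HD H (stP S d) = HD H d * tau (2 + om) := by
  have hd' := (isPerm_A hS).1 _ hd
  rw [stP, HD_Q hS he hl hl0 HR HM hd' (by
    rw [stA_fst]; exact (buffer hS he hl hd (t := κ + 2 * l) (by linarith)).1),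
    HD_A hS he hl hl0 HR HM hd (by linarith), mul_assoc, tau_mul]
  congr 2; ring

lemma HD_P' {d : E × E} (hd : d ∈ darts S) (h : κ + 3 * l < dot e d.1) :
    HD H (stP' S d) = HD H d * tau (1 + 2 * om) := by
  have hd' := (isPerm_B hS).1 _ hd
  rw [stP', HD_Q hS he hl hl0 HR HM hd' (by
    rw [stB_fst]; exact (buffer hS he hl hd (t := κ + 2 * l) (by linarith)).2),
    HD_B hS he hl hl0 HR HM hd (by linarith), mul_assoc, tau_mul]
  congr 2; ring

end

/-- translation property of a step -/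
def TrStep (S : Finset E) (H : E → E → Equiv.Perm ℂ) (e : E) (κ' : ℝ) (g : E × E → E × E)
    (u : ℂ) : Prop :=
  ∀ d ∈ darts S, κ' < dot e d.1 → HD H (g d) = HD H d * tau u

lemma TrStep.iterate {S : Finset E} {H : E → E → Equiv.Perm ℂ} {e : E} {κ' : ℝ}
    {g : E × E → E × E} {u : ℂ} (hg : IsPerm S g) (h : TrStep S H e κ' g u) {x : E × E}
    (hx : x ∈ darts S) (n : ℕ) (hn : ∀ i < n, κ' < dot e (g^[i] x).1) :
    HD H (g^[n] x) = HD H x * tau (n * u) := by
  induction n with
  | zero => simp [tau_zero]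
  | succ n ih =>
    rw [Function.iterate_succ_apply', h _ ((hg.iterate n).1 x hx) (hn n (Nat.lt_succ_self n)),
      ih (fun i hi => hn i (by omega)), mul_assoc, tau_mul]
    congr 2
    push_cast; ring

end Med
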